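import Pool.Agent.Helper859_NL.Stm
import Pool.Agent.W819.NC.Help

/-!
Generating functions of annuli: assembly.
-/

set_option autoImplicit false

namespace Pool.Agent.Helper859_NL

open H974 Finset Pool.Agent.W819.EN Pool.Agent.W819.NC MeasureTheory
open Pool.Agent.Y996.NL
open scoped Real

theorem G_pos (N : NT) {t : ℝ} (ht : 0 < t) (r R : ℕ) : 0 < G N t r R := by
  unfold G
  have h1 := Ex_const (p := P2) (S := bx (0, 0) (R : ℤ)) (1 : ℝ)
  have h2 : 0 ≤ Ex P2 (bx (0, 0) (R : ℤ)) (fun F => t ^ N F (0, 0) r R) :=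
    Ex_nonneg ok2 fun _ _ => by positivity
  rcases h2.eq_or_lt with h3 | h3
  · exfalso
    have h4 : Ex P2 (bx (0, 0) (R : ℤ)) (fun _ => (1:ℝ)) = 0 := by
      have hle : ∀ F ∈ (bx (0, 0) (R : ℤ)).powerset, 0 ≤ (∏ e ∈ F, P2 e) *
          (∏ e ∈ (bx (0, 0) (R : ℤ)) \ F, (1 - P2 e)) * t ^ N F (0, 0) r R := by
        intro F _
        have hp : ∀ e, (0:ℝ) < P2 e := fun e => by norm_num [P2]
        have hq : ∀ e, (0:ℝ) < 1 - P2 e := fun e => by norm_num [P2]
        exact mul_nonneg (mul_nonneg (prod_nonneg fun e _ => (hp e).le)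
          (prod_nonneg fun e _ => (hq e).le)) (by positivity)
      unfold Ex at h3 ⊢
      have h5 := (Finset.sum_eq_zero_iff_of_nonneg hle).1 h3.symm
      refine Finset.sum_eq_zero fun F hF => ?_
      have h6 := h5 F hF
      rcases mul_eq_zero.1 h6 with h7 | h7
      · rw [h7, zero_mul]
      · exact absurd h7 (by positivity)
    rw [h4] at h1
    exact zero_ne_one h1
  · exact h3

/-- the relation `x = exp (± K |log t|) y` -/
def App (K t x y : ℝ) : Prop :=
  Real.exp (-(K * |Real.log t|)) * y ≤ x ∧ x ≤ Real.exp (K * |Real.log t|) * y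

theorem App.symm {K t x y : ℝ} (h : App K t x y) : App K t y x := by
  obtain ⟨h1, h2⟩ := h
  rw [Real.exp_neg] at h1
  have e := Real.exp_pos (K * |Real.log t|)
  constructor
  · rw [Real.exp_neg, inv_mul_le_iff₀ e]
    exact h2
  · rwa [inv_mul_le_iff₀ e] at h1

theorem App.trans {K L t x y z : ℝ} (h : App K t x y) (h' : App L t y z) :
    App (K + L) t x z := by
  obtain ⟨h1, h2⟩ := h
  obtain ⟨h3, h4⟩ := h'
  constructor
  · have e : Real.exp (-((K + L) * |Real.log t|)) * z =
        Real.exp (-(K * |Real.log t|)) * (Real.exp (-(L * |Real.log t|)) * z) := by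
      rw [← mul_assoc, ← Real.exp_add]
      congr 2
      ring
    rw [e]
    exact (mul_le_mul_of_nonneg_left h3 (Real.exp_pos _).le).trans h1
  · have e : Real.exp ((K + L) * |Real.log t|) * z =
        Real.exp (K * |Real.log t|) * (Real.exp (L * |Real.log t|) * z) := by
      rw [← mul_assoc, ← Real.exp_add]
      congr 2
      ring
    rw [e]
    exact h2.trans (mul_le_mul_of_nonneg_left h4 (Real.exp_pos _).le)

theorem App.mul {K L t x y x' y' : ℝ} (hy : 0 ≤ y) (hy' : 0 ≤ y') (h : App K t x y)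
    (h' : App L t x' y') : App (K + L) t (x * x') (y * y') := by
  obtain ⟨h1, h2⟩ := h
  obtain ⟨h3, h4⟩ := h'
  have a1 : 0 ≤ Real.exp (-(K * |Real.log t|)) * y := by positivity
  have a2 : 0 ≤ Real.exp (-(L * |Real.log t|)) * y' := by positivity
  constructor
  · have e : Real.exp (-((K + L) * |Real.log t|)) * (y * y') =
        (Real.exp (-(K * |Real.log t|)) * y) * (Real.exp (-(L * |Real.log t|)) * y') := by
      rw [show -((K + L) * |Real.log t|) = -(K * |Real.log t|) + -(L * |Real.log t|) by ring,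
        Real.exp_add]
      ring
    rw [e]
    exact mul_le_mul h1 h3 a2 (a1.trans h1)
  · have e : Real.exp ((K + L) * |Real.log t|) * (y * y') =
        (Real.exp (K * |Real.log t|) * y) * (Real.exp (L * |Real.log t|) * y') := by
      rw [show (K + L) * |Real.log t| = K * |Real.log t| + L * |Real.log t| by ring,
        Real.exp_add]
      ring
    rw [e]
    exact mul_le_mul h2 h4 (a2.trans h3) (by positivity)

theorem App.mono {K L t x y : ℝ} (hy : 0 ≤ y) (hKL : K ≤ L) (h : App K t x y) : App L t x y := by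
  obtain ⟨h1, h2⟩ := h
  have h0 := abs_nonneg (Real.log t)
  have h3 := mul_le_mul_of_nonneg_right hKL h0
  constructor
  · refine le_trans (mul_le_mul_of_nonneg_right ?_ hy) h1
    exact Real.exp_le_exp.2 (by linarith)
  · refine h2.trans (mul_le_mul_of_nonneg_right ?_ hy)
    exact Real.exp_le_exp.2 (by linarith)

theorem annU {N : NT} {W : WT} {K : KT} (h : Sys N W K) (hi : RadInU N) (ho : RadOutU N)
    (hc : CoreU N) : AnnU N := by
  obtain ⟨K1, hK1, h1⟩ := hi 64
  obtain ⟨K2, hK2, h2⟩ := ho 64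
  obtain ⟨K3, hK3, h3⟩ := hc
  refine ⟨K3 + (K1 + K2), by positivity, ?_⟩
  intro t ht1 ht2 r R hr hrR
  have ht : 0 < t := by linarith
  have g : ∀ a b, 0 < G N t a b := fun a b => G_pos N ht a b
  change App _ t _ _
  rcases le_or_gt R (64 * r) with hR | hR
  · have a1 : App K1 t (G N t 0 R) (G N t 0 r) := h1 t ht1 ht2 r R hr hrR hR
    have a2 : App K2 t (G N t r R) (G N t R R) := h2 t ht1 ht2 r R R hr hrR hR le_rfl
    have e : G N t R R = 1 := by
      unfold G
      have : (fun F : Finset Edg => t ^ N F (0, 0) R R) = fun _ => (1:ℝ) := by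
        funext F
        rw [h.zero, pow_zero]
      rw [this, Ex_const]
    rw [e] at a2
    have a3 := App.mul (g 0 r).le (g r R).le a1 a2.symm
    rw [mul_one] at a3
    exact a3.mono (by have := g 0 r; have := g r R; positivity) (by linarith)
  · have a1 : App K3 t (G N t 0 R) (G N t 0 (8 * r / 4) * G N t (2 * (8 * r)) R) :=
      h3 t ht1 ht2 (8 * r) R (by omega) (by omega)
    have e : 8 * r / 4 = 2 * r := by omega
    rw [e] at a1
    have a2 : App K1 t (G N t 0 (2 * r)) (G N t 0 r) :=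
      h1 t ht1 ht2 r (2 * r) hr (by omega) (by omega)
    have a3 : App K2 t (G N t r R) (G N t (2 * (8 * r)) R) :=
      h2 t ht1 ht2 r (2 * (8 * r)) R hr (by omega) (by omega) (by omega)
    exact a1.trans (App.mul (g _ _).le (g _ _).le a2 a3.symm)

theorem annSU {N : NT} (h : AnnU N) (ho : OneU N) : AnnSU N := by
  obtain ⟨K, hK, h1⟩ := h
  obtain ⟨C, hC, h2⟩ := ho
  refine ⟨K + (C + C), by positivity, ?_⟩
  intro t ht1 ht2 r R hr hrR
  have ht : 0 < t := by linarith
  have g : ∀ a b, 0 < G N t a b := fun a b => G_pos N ht a b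
  have hr0 : (0:ℝ) < r := by exact_mod_cast hr
  have hR0 : (0:ℝ) < R := by exact_mod_cast (hr.trans hrR)
  have a1 : App K t (G N t 0 R) (G N t 0 r * G N t r R) := h1 t ht1 ht2 r R hr hrR
  have a2 : App C t (G N t 0 R) ((R : ℝ) ^ Psi t) := h2 t ht1 ht2 R (hr.trans hrR)
  have a3 : App C t (G N t 0 r) ((r : ℝ) ^ Psi t) := h2 t ht1 ht2 r hr
  have p1 : 0 < (R : ℝ) ^ Psi t := by positivity
  have p2 : 0 < (r : ℝ) ^ Psi t := by positivity
  change App _ t _ _
  have e : ((R : ℝ) / r) ^ Psi t = (R : ℝ) ^ Psi t / (r : ℝ) ^ Psi t :=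
    Real.div_rpow hR0.le hr0.le _
  -- G r R = (G 0 r * G r R) / G 0 r
  have a4 : App (K + C) t (G N t 0 r * G N t r R) ((R : ℝ) ^ Psi t) := a1.symm.trans a2
  have a5 : App C t (G N t 0 r)⁻¹ ((r : ℝ) ^ Psi t)⁻¹ := by
    obtain ⟨b1, b2⟩ := a3
    constructor
    · rw [Real.exp_neg, ← mul_inv]
      exact inv_anti₀ (g 0 r) b2
    · have e2 : Real.exp (C * |Real.log t|) * ((r : ℝ) ^ Psi t)⁻¹ =
          (Real.exp (-(C * |Real.log t|)) * (r : ℝ) ^ Psi t)⁻¹ := by
        rw [mul_inv, Real.exp_neg, inv_inv]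
      rw [e2]
      exact inv_anti₀ (by positivity) b1
  have a6 := App.mul p1.le (inv_pos.2 p2).le a4 a5
  have e3 : G N t 0 r * G N t r R * (G N t 0 r)⁻¹ = G N t r R := by
    have := (g 0 r).ne'
    field_simp
  rw [e3] at a6
  rw [e, div_eq_mul_inv, ← add_assoc]
  exact a6

end Pool.Agent.Helper859_NL
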