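import Pool.Agent.Helper859_NL.Stm

/-!
The central limit theorem from the generating function near `t = 1`.
-/

set_option autoImplicit false

namespace Pool.Agent.Helper859_NL

open H974 Finset Pool.Agent.W819.EN Pool.Agent.W819.NC MeasureTheory Filter Topology
open Pool.Agent.Y996.NL
open scoped Real

/-- Curtiss' theorem for a Gaussian limit -/
def CurtS : Prop := ∀ (μ : ℕ → Measure ℝ) (_ : ∀ n, IsProbabilityMeasure (μ n)) (v : NNReal),
    v ≠ 0 → (∀ (n : ℕ) (s : ℝ), Integrable (fun x : ℝ => Real.exp (s * x)) (μ n)) →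
    (∀ s : ℝ, Tendsto (fun n => ∫ x : ℝ, Real.exp (s * x) ∂(μ n)) atTop
      (𝓝 (Real.exp (v * s ^ 2 / 2)))) → ∀ x : ℝ,
    Tendsto (fun n => (μ n).real (Set.Iic x)) atTop
      (𝓝 ((ProbabilityTheory.gaussianReal 0 v).real (Set.Iic x)))

/-- the variance of the number of interfaces per unit of the modulus -/
noncomputable def vD : ℝ := 4 / (3 * √3) - 1 / π

theorem vD_pos : 0 < vD := by
  unfold vD
  have h1 : √3 < 1.8 := by
    rw [show (1.8 : ℝ) = √(1.8 ^ 2) by rw [Real.sqrt_sq (by norm_num)]]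
    exact Real.sqrt_lt_sqrt (by norm_num) (by norm_num)
  have h2 : 0 < √3 := Real.sqrt_pos.2 (by norm_num)
  have h3 := Real.pi_gt_three
  have h4 : 1 / π < 1 / 3 := one_div_lt_one_div_of_lt (by norm_num) h3
  have h5 : 4 / (3 * 1.8) < 4 / (3 * √3) :=
    div_lt_div_of_pos_left (by norm_num) (by positivity) (by linarith)
  norm_num at h5
  linarith

/-- convergence of the moment generating functions -/
theorem mgf_tendsto (hT : PsiTaylor) (C : ℝ) (hC : 0 ≤ C) (M : ℕ → ℝ) (hM1 : ∀ n, 1 ≤ M n)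
    (hM : Tendsto M atTop atTop) (E : ℕ → ℝ → ℝ)
    (hE : ∀ t : ℝ, 1 / 2 ≤ t → t ≤ 2 → ∀ n,
      Real.exp (-(C * |Real.log t|)) * Real.exp (2 * Real.pi * Psi t * M n) ≤ E n t ∧
      E n t ≤ Real.exp (C * |Real.log t|) * Real.exp (2 * Real.pi * Psi t * M n)) (s : ℝ) :
    Tendsto (fun n => Real.exp (-(s * √(M n) / √3)) * E n (Real.exp (s / √(M n)))) atTop
      (𝓝 (Real.exp (vD * s ^ 2 / 2))) := by
  obtain ⟨C', δ, hδ, hP⟩ := hT
  have hπ := Real.pi_pos
  have hC'0 : 0 ≤ |C'| := abs_nonneg _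
  have hsq : Tendsto (fun n => √(M n)) atTop atTop := Real.tendsto_sqrt_atTop.comp hM
  have hdiv : ∀ a : ℝ, Tendsto (fun n => a / √(M n)) atTop (𝓝 0) := fun a =>
    hsq.const_div_atTop a
  set K : ℝ := C * |s| + 2 * π * |C'| * |s| ^ 3 with hK
  have hlow : Tendsto (fun n => Real.exp (vD * s ^ 2 / 2 - K / √(M n))) atTop
      (𝓝 (Real.exp (vD * s ^ 2 / 2))) := by
    have := (hdiv K).const_sub (vD * s ^ 2 / 2)
    rw [sub_zero] at this
    exact (Real.continuous_exp.tendsto _).comp this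
  have hupp : Tendsto (fun n => Real.exp (vD * s ^ 2 / 2 + K / √(M n))) atTop
      (𝓝 (Real.exp (vD * s ^ 2 / 2))) := by
    have := (hdiv K).const_add (vD * s ^ 2 / 2)
    rw [add_zero] at this
    exact (Real.continuous_exp.tendsto _).comp this
  have hsmall : ∀ᶠ n in atTop, |s / √(M n)| ≤ min δ (Real.log 2) := by
    have h1 := (hdiv s).abs
    rw [abs_zero] at h1
    exact (h1.eventually_lt_const (lt_min hδ (Real.log_pos (by norm_num)))).mono
      fun n hn => hn.le
  have key : ∀ᶠ n in atTop,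
      Real.exp (vD * s ^ 2 / 2 - K / √(M n)) ≤
        Real.exp (-(s * √(M n) / √3)) * E n (Real.exp (s / √(M n))) ∧
      Real.exp (-(s * √(M n) / √3)) * E n (Real.exp (s / √(M n))) ≤
        Real.exp (vD * s ^ 2 / 2 + K / √(M n)) := by
    filter_upwards [hsmall] with n hn
    have hn1 := hn.trans (min_le_left _ _)
    have hn2 := abs_le.1 (hn.trans (min_le_right _ _))
    obtain ⟨q, hq⟩ : ∃ q, q = √(M n) := ⟨_, rfl⟩
    have hq1 : 1 ≤ q := by
      rw [hq]
      exact Real.one_le_sqrt.2 (hM1 n)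
    have hq0 : 0 < q := by linarith
    have hqq : M n = q ^ 2 := by rw [hq, Real.sq_sqrt (by linarith [hM1 n])]
    rw [← hq] at hn1 hn2 ⊢
    have ht1 : 1 / 2 ≤ Real.exp (s / q) := by
      have : Real.exp (-Real.log 2) ≤ Real.exp (s / q) := Real.exp_le_exp.2 hn2.1
      rwa [Real.exp_neg, Real.exp_log (by norm_num), ← one_div] at this
    have ht2 : Real.exp (s / q) ≤ 2 := by
      have : Real.exp (s / q) ≤ Real.exp (Real.log 2) := Real.exp_le_exp.2 hn2.2
      rwa [Real.exp_log (by norm_num)] at this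
    obtain ⟨e1, e2⟩ := hE _ ht1 ht2 n
    rw [Real.log_exp, hqq] at e1 e2
    have hPs := abs_le.1 (hP _ hn1)
    obtain ⟨p, hp⟩ : ∃ p, p = Psi (Real.exp (s / q)) := ⟨_, rfl⟩
    rw [← hp] at e1 e2 hPs
    have h3 : (0:ℝ) < √3 := Real.sqrt_pos.2 (by norm_num)
    have habs : |s / q| = |s| / q := by rw [abs_div, abs_of_pos hq0]
    rw [habs] at e1 e2 hPs
    have hcube : (|s| / q) ^ 3 * q ^ 2 = |s| ^ 3 / q := by
      field_simp
    have hmain : 2 * π * (cM * (s / q) + vM * (s / q) ^ 2 / 2) * q ^ 2 =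
        s * q / √3 + vD * s ^ 2 / 2 := by
      unfold cM vM vD
      field_simp
      ring
    have hCC : C' * (|s| / q) ^ 3 ≤ |C'| * (|s| / q) ^ 3 :=
      mul_le_mul_of_nonneg_right (le_abs_self _) (by positivity)
    have hup : 2 * π * p * q ^ 2 ≤ s * q / √3 + vD * s ^ 2 / 2 + 2 * π * |C'| * |s| ^ 3 / q := by
      have h5 : p ≤ cM * (s / q) + vM * (s / q) ^ 2 / 2 + |C'| * (|s| / q) ^ 3 := by linarith
      have h6 : 2 * π * p * q ^ 2 ≤ 2 * π * (cM * (s / q) + vM * (s / q) ^ 2 / 2 +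
          |C'| * (|s| / q) ^ 3) * q ^ 2 := by gcongr
      have h7 : 2 * π * (cM * (s / q) + vM * (s / q) ^ 2 / 2 + |C'| * (|s| / q) ^ 3) * q ^ 2 =
          2 * π * (cM * (s / q) + vM * (s / q) ^ 2 / 2) * q ^ 2 +
          2 * π * |C'| * ((|s| / q) ^ 3 * q ^ 2) := by ring
      rw [h7, hmain, hcube] at h6
      linarith [h6, (by ring : 2 * π * |C'| * (|s| ^ 3 / q) = 2 * π * |C'| * |s| ^ 3 / q)]
    have hlo : s * q / √3 + vD * s ^ 2 / 2 - 2 * π * |C'| * |s| ^ 3 / q ≤ 2 * π * p * q ^ 2 := by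
      have h5 : cM * (s / q) + vM * (s / q) ^ 2 / 2 - |C'| * (|s| / q) ^ 3 ≤ p := by linarith
      have h6 : 2 * π * (cM * (s / q) + vM * (s / q) ^ 2 / 2 -
          |C'| * (|s| / q) ^ 3) * q ^ 2 ≤ 2 * π * p * q ^ 2 := by gcongr
      have h7 : 2 * π * (cM * (s / q) + vM * (s / q) ^ 2 / 2 - |C'| * (|s| / q) ^ 3) * q ^ 2 =
          2 * π * (cM * (s / q) + vM * (s / q) ^ 2 / 2) * q ^ 2 -
          2 * π * |C'| * ((|s| / q) ^ 3 * q ^ 2) := by ring
      rw [h7, hmain, hcube] at h6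
      linarith [h6, (by ring : 2 * π * |C'| * (|s| ^ 3 / q) = 2 * π * |C'| * |s| ^ 3 / q)]
    have hKq : K / q = C * (|s| / q) + 2 * π * |C'| * |s| ^ 3 / q := by
      rw [hK]
      ring
    constructor
    · calc Real.exp (vD * s ^ 2 / 2 - K / q)
          ≤ Real.exp (-(s * q / √3)) * (Real.exp (-(C * (|s| / q))) *
            Real.exp (2 * π * p * q ^ 2)) := by
            rw [← Real.exp_add, ← Real.exp_add]
            apply Real.exp_le_exp.2
            rw [hKq]
            linarith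
        _ ≤ _ := mul_le_mul_of_nonneg_left e1 (Real.exp_pos _).le
    · calc _ ≤ Real.exp (-(s * q / √3)) * (Real.exp (C * (|s| / q)) *
            Real.exp (2 * π * p * q ^ 2)) := mul_le_mul_of_nonneg_left e2 (Real.exp_pos _).le
        _ ≤ Real.exp (vD * s ^ 2 / 2 + K / q) := by
            rw [← Real.exp_add, ← Real.exp_add]
            apply Real.exp_le_exp.2
            rw [hKq]
            linarith
  exact tendsto_of_tendsto_of_tendsto_of_le_of_le' hlow hupp (key.mono fun n hn => hn.1)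
    (key.mono fun n hn => hn.2)

/-- the central limit theorem along a sequence -/
theorem clt_seq (hT : PsiTaylor) (hCu : CurtS) {Ω : Type*} [MeasurableSpace Ω] (P : Measure Ω)
    [IsProbabilityMeasure P] (C : ℝ) (hC : 0 ≤ C) (M : ℕ → ℝ) (hM1 : ∀ n, 1 ≤ M n)
    (hM : Tendsto M atTop atTop) (X : ℕ → Ω → ℕ) (hX : ∀ n, Measurable (X n))
    (hint : ∀ (n : ℕ) (t : ℝ), 0 < t → Integrable (fun ω => t ^ X n ω) P)
    (hE : ∀ t : ℝ, 1 / 2 ≤ t → t ≤ 2 → ∀ n,
      Real.exp (-(C * |Real.log t|)) * Real.exp (2 * Real.pi * Psi t * M n) ≤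
        ∫ ω, t ^ X n ω ∂P ∧
      ∫ ω, t ^ X n ω ∂P ≤ Real.exp (C * |Real.log t|) * Real.exp (2 * Real.pi * Psi t * M n))
    (x : ℝ) :
    Tendsto (fun n => P.real {ω | (X n ω : ℝ) ≤ M n / √3 + x * √(M n)}) atTop
      (𝓝 ((ProbabilityTheory.gaussianReal 0 (Real.toNNReal vD)).real (Set.Iic x))) := by
  have h3 : (0:ℝ) < √3 := Real.sqrt_pos.2 (by norm_num)
  have hq : ∀ n, 0 < √(M n) := fun n => Real.sqrt_pos.2 (by linarith [hM1 n])
  have hqq : ∀ n, M n = √(M n) * √(M n) := fun n => (Real.mul_self_sqrt (by linarith [hM1 n])).symm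
  set Z : ℕ → Ω → ℝ := fun n ω => ((X n ω : ℝ) - M n / √3) / √(M n) with hZ
  have hZm : ∀ n, Measurable (Z n) := fun n =>
    (((measurable_from_top (f := fun k : ℕ => (k : ℝ))).comp (hX n)).sub_const _).div_const _
  have hexp : ∀ (n : ℕ) (s : ℝ) (ω : Ω), Real.exp (s * Z n ω) =
      Real.exp (-(s * √(M n) / √3)) * (Real.exp (s / √(M n))) ^ X n ω := by
    intro n s ω
    rw [← Real.exp_nat_mul, ← Real.exp_add]
    congr 1
    rw [hZ]
    simp only
    have h1 := (hq n).ne'
    have h2 : M n / √3 / √(M n) = √(M n) / √3 := by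
      rw [div_div, div_eq_div_iff (by positivity) h3.ne']
      nth_rewrite 1 [hqq n]
      ring
    rw [sub_div, h2]
    field_simp
    ring
  set μ : ℕ → Measure ℝ := fun n => P.map (Z n) with hμ
  have hprob : ∀ n, IsProbabilityMeasure (μ n) := fun n =>
    Measure.isProbabilityMeasure_map (hZm n).aemeasurable
  have hcont : ∀ s : ℝ, Continuous (fun x : ℝ => Real.exp (s * x)) := fun s => by fun_prop
  have hi : ∀ (n : ℕ) (s : ℝ), Integrable (fun x : ℝ => Real.exp (s * x)) (μ n) := by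
    intro n s
    rw [hμ]
    rw [integrable_map_measure (hcont s).aestronglyMeasurable (hZm n).aemeasurable]
    have e : (fun x : ℝ => Real.exp (s * x)) ∘ Z n = fun ω =>
        Real.exp (-(s * √(M n) / √3)) * (Real.exp (s / √(M n))) ^ X n ω := by
      funext ω
      exact hexp n s ω
    rw [e]
    exact (hint n _ (Real.exp_pos _)).const_mul _
  have hm : ∀ (n : ℕ) (s : ℝ), ∫ x : ℝ, Real.exp (s * x) ∂(μ n) =
      Real.exp (-(s * √(M n) / √3)) * ∫ ω, (Real.exp (s / √(M n))) ^ X n ω ∂P := by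
    intro n s
    rw [hμ]
    rw [integral_map (hZm n).aemeasurable (hcont s).aestronglyMeasurable]
    simp only [hexp]
    rw [integral_const_mul]
  have hv : Real.toNNReal vD ≠ 0 := by
    rw [Ne, Real.toNNReal_eq_zero, not_le]
    exact vD_pos
  have hlim := hCu μ hprob (Real.toNNReal vD) hv hi (fun s => by
    rw [Real.coe_toNNReal _ vD_pos.le]
    simp only [hm]
    exact mgf_tendsto hT C hC M hM1 hM (fun n t => ∫ ω, t ^ X n ω ∂P) hE s) x
  refine hlim.congr (fun n => ?_)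
  rw [hμ]
  simp only
  rw [measureReal_def, measureReal_def, Measure.map_apply (hZm n) measurableSet_Iic]
  congr 2
  ext ω
  simp only [Set.mem_preimage, Set.mem_Iic, Set.mem_setOf_eq, hZ]
  rw [div_le_iff₀ (hq n)]
  constructor <;> intro h <;> linarith

/-- the mean -/
theorem mean_bd (hT : PsiTaylor) {Ω : Type*} [MeasurableSpace Ω] (P : Measure Ω)
    [IsProbabilityMeasure P] (C : ℝ) (hC : 0 ≤ C) (M : ℝ) (X : Ω → ℕ) (hX : Measurable X)
    (hint : ∀ t : ℝ, 0 < t → Integrable (fun ω => t ^ X ω) P)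
    (hE : ∀ t : ℝ, 1 / 2 ≤ t → t ≤ 2 →
      Real.exp (-(C * |Real.log t|)) * Real.exp (2 * Real.pi * Psi t * M) ≤ ∫ ω, t ^ X ω ∂P ∧
      ∫ ω, t ^ X ω ∂P ≤ Real.exp (C * |Real.log t|) * Real.exp (2 * Real.pi * Psi t * M)) :
    |(∫ ω, (X ω : ℝ) ∂P) - M / √3| ≤ C := by
  obtain ⟨C', δ, hδ, hP⟩ := hT
  have hπ := Real.pi_pos
  have h3 : (0:ℝ) < √3 := Real.sqrt_pos.2 (by norm_num)
  have hXm : Measurable (fun ω => (X ω : ℝ)) :=
    (measurable_from_top (f := fun k : ℕ => (k : ℝ))).comp hX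
  have hXi : Integrable (fun ω => (X ω : ℝ)) P := by
    refine (hint 2 (by norm_num)).mono' hXm.aestronglyMeasurable (Eventually.of_forall fun ω => ?_)
    rw [Real.norm_eq_abs, abs_of_nonneg (Nat.cast_nonneg _)]
    exact_mod_cast (Nat.lt_pow_self (by norm_num : 1 < 2)).le
  obtain ⟨m, hm⟩ : ∃ m, m = ∫ ω, (X ω : ℝ) ∂P := ⟨_, rfl⟩
  rw [← hm]
  set D : ℝ := 2 * π * |M| * (|vM| / 2 + |C'|) with hD
  have hD0 : 0 ≤ D := by positivity
  set δ' : ℝ := min (min δ (Real.log 2)) 1 with hδ'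
  have hδ'0 : 0 < δ' := lt_min (lt_min hδ (Real.log_pos (by norm_num))) one_pos
  have key : ∀ s : ℝ, |s| ≤ δ' → s * (m - M / √3) ≤ C * |s| + D * |s| ^ 2 := by
    intro s hs
    have hs1 : |s| ≤ δ := hs.trans ((min_le_left _ _).trans (min_le_left _ _))
    have hs2 := abs_le.1 (hs.trans ((min_le_left _ _).trans (min_le_right _ _)))
    have hs3 : |s| ≤ 1 := hs.trans (min_le_right _ _)
    have ht1 : 1 / 2 ≤ Real.exp s := by
      have : Real.exp (-Real.log 2) ≤ Real.exp s := Real.exp_le_exp.2 hs2.1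
      rwa [Real.exp_neg, Real.exp_log (by norm_num), ← one_div] at this
    have ht2 : Real.exp s ≤ 2 := by
      have : Real.exp s ≤ Real.exp (Real.log 2) := Real.exp_le_exp.2 hs2.2
      rwa [Real.exp_log (by norm_num)] at this
    obtain ⟨-, e2⟩ := hE _ ht1 ht2
    have hj : Real.exp (s * m) ≤ ∫ ω, (Real.exp s) ^ X ω ∂P := by
      have h1 : ∀ ω, Real.exp (s * m) * (1 + s * ((X ω : ℝ) - m)) ≤ (Real.exp s) ^ X ω := by
        intro ω
        rw [← Real.exp_nat_mul]
        have h2 := Real.add_one_le_exp (s * ((X ω : ℝ) - m))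
        have h4 : Real.exp (X ω * s) = Real.exp (s * m) * Real.exp (s * ((X ω : ℝ) - m)) := by
          rw [← Real.exp_add]
          congr 1
          ring
        rw [h4]
        exact mul_le_mul_of_nonneg_left (by linarith) (Real.exp_pos _).le
      have h0 : Integrable (fun ω => (X ω : ℝ) - m) P := hXi.sub (integrable_const m)
      have h0' : Integrable (fun ω => s * ((X ω : ℝ) - m)) P := h0.const_mul s
      have h0'' : Integrable (fun ω => 1 + s * ((X ω : ℝ) - m)) P := (integrable_const 1).add h0'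
      have h2 : Integrable (fun ω => Real.exp (s * m) * (1 + s * ((X ω : ℝ) - m))) P :=
        h0''.const_mul _
      have h4 := integral_mono h2 (hint _ (Real.exp_pos s)) h1
      refine le_trans (le_of_eq ?_) h4
      have i1 : ∫ ω, ((X ω : ℝ) - m) ∂P = 0 := by
        rw [integral_sub hXi (integrable_const _), integral_const, ← hm]
        simp
      have i2 : ∫ ω, (1 + s * ((X ω : ℝ) - m)) ∂P = 1 := by
        rw [integral_add (integrable_const _) h0', integral_const_mul, i1, integral_const]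
        simp
      rw [integral_const_mul, i2, mul_one]
    have h5 := hj.trans e2
    rw [← Real.exp_add, Real.exp_le_exp, Real.log_exp] at h5
    have h6 := abs_le.1 (hP s hs1)
    have h7 : |Psi (Real.exp s) - cM * s| ≤ (|vM| / 2 + |C'|) * |s| ^ 2 := by
      have h8 : Psi (Real.exp s) - cM * s =
        (Psi (Real.exp s) - (cM * s + vM * s ^ 2 / 2)) + vM * s ^ 2 / 2 := by ring
      rw [h8]
      refine (abs_add_le _ _).trans ?_
      have h9 := hP s hs1
      have h10 : C' * |s| ^ 3 ≤ |C'| * |s| ^ 2 := by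
        calc C' * |s| ^ 3 ≤ |C'| * |s| ^ 3 :=
              mul_le_mul_of_nonneg_right (le_abs_self _) (by positivity)
          _ = |C'| * |s| ^ 2 * |s| := by ring
          _ ≤ |C'| * |s| ^ 2 * 1 := mul_le_mul_of_nonneg_left hs3 (by positivity)
          _ = _ := mul_one _
      have h11 : |vM * s ^ 2 / 2| = |vM| / 2 * |s| ^ 2 := by
        rw [abs_div, abs_mul, abs_pow, abs_two]
        ring
      rw [h11]
      linarith
    have h8 : 2 * π * Psi (Real.exp s) * M ≤ s * M / √3 + D * |s| ^ 2 := by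
      have h9 : 2 * π * Psi (Real.exp s) * M = 2 * π * cM * s * M +
        2 * π * M * (Psi (Real.exp s) - cM * s) := by ring
      have h10 : 2 * π * cM * s * M = s * M / √3 := by
        unfold cM
        field_simp
      have h11 : 2 * π * M * (Psi (Real.exp s) - cM * s) ≤
          2 * π * |M| * ((|vM| / 2 + |C'|) * |s| ^ 2) := by
        refine (le_abs_self _).trans ?_
        rw [abs_mul, abs_mul, abs_of_pos (by positivity : 0 < 2 * π)]
        exact mul_le_mul_of_nonneg_left h7 (by positivity)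
      rw [h9, h10, hD]
      linarith
    have h9 : s * (m - M / √3) = s * m - s * M / √3 := by ring
    rw [h9]
    linarith
  refine le_of_forall_pos_le_add fun η hη => ?_
  obtain ⟨ε, hε⟩ : ∃ ε, ε = min δ' (η / (D + 1)) := ⟨_, rfl⟩
  have hε0 : 0 < ε := by
    rw [hε]
    exact lt_min hδ'0 (by positivity)
  have hε1 : ε ≤ δ' := by rw [hε]; exact min_le_left _ _
  have hε2 : D * ε ≤ η := by
    have h1 : ε ≤ η / (D + 1) := by rw [hε]; exact min_le_right _ _
    rw [le_div_iff₀ (by positivity)] at h1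
    nlinarith
  have k1 := key ε (by rwa [abs_of_pos hε0])
  have k2 := key (-ε) (by rwa [abs_neg, abs_of_pos hε0])
  rw [abs_neg] at k2
  rw [abs_of_pos hε0] at k1 k2
  have k3 : ε * (m - M / √3) ≤ ε * (C + D * ε) := by nlinarith
  have k4 : ε * (-(m - M / √3)) ≤ ε * (C + D * ε) := by nlinarith
  have k5 := le_of_mul_le_mul_left k3 hε0
  have k6 := le_of_mul_le_mul_left k4 hε0
  rw [abs_le]
  constructor <;> linarith

end Pool.Agent.Helper859_NL
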