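import Pool.Agent.Helper859_NL.Stm2
import Pool.Agent.Helper859_NL.Clt
import Pool.Agent.Y996.NL.Main

/-!
The number of interfaces of doubly connected domains near `t = 1`: the three conclusions.
-/

set_option autoImplicit false

namespace Pool.Agent.Helper859_NL

open H974 Finset Pool.Agent.W819.EN Pool.Agent.W819.NC MeasureTheory Filter Topology
open Pool.Agent.Y996.NL
open Pool.Agent.Y996.RD hiding hlf
open scoped Real

/-- the complementary components of a doubly connected domain, not smaller than the mesh -/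
structure Adm (A B : Set (OnePoint ℂ)) (ε : ℝ) : Prop where
  closedA : IsClosed A
  connA : IsPreconnected A
  closedB : IsClosed B
  connB : IsPreconnected B
  disj : Disjoint A B
  pos : 0 < ε
  sizeA : ∃ x ∈ tr A, ∃ y ∈ tr A, ε ≤ dist x y
  sizeB : ∃ x ∈ tr B, ∃ y ∈ tr B, ε ≤ dist x y

/-- number of interfaces -/
noncomputable def ni (A B : Set (OnePoint ℂ)) (ε : ℝ) (ω : sqLattice.edgeSet → Bool) : ℕ :=
  NP (opn ω) (near ε (tr A)) (near ε (tr B))

instance : IsProbabilityMeasure (bondLaw hlf) := by unfold bondLaw; infer_instance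

theorem ni_meas (A B : Set (OnePoint ℂ)) (ε : ℝ) : Measurable (ni A B ε) :=
  Pool.Agent.Y488.NL.me _ _

theorem ni_int {A B : Set (OnePoint ℂ)} {ε : ℝ} (h : Adm A B ε) (t : ℝ) (ht : 0 < t) :
    Integrable (fun ω => t ^ ni A B ε ω) (bondLaw hlf) := by
  obtain ⟨c, C, hc, hC, h1⟩ := Pool.Agent.Y996.NL.main ht.le
  have h2 := (h1 A B ε h.closedA h.connA h.closedB h.connB h.disj h.pos h.sizeA h.sizeB).1
  by_contra h3
  have h4 : ∫ ω, t ^ NP (opn ω) (near ε (tr A)) (near ε (tr B)) ∂(bondLaw hlf) = 0 :=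
    integral_undef h3
  rw [h4] at h2
  have : 0 < c * Real.exp (2 * Real.pi * Psi t * modulus (tr A) (tr B)) := by positivity
  linarith

theorem dom_log (hD : DomU) : ∃ C : ℝ, 0 ≤ C ∧ ∀ t : ℝ, 1 / 2 ≤ t → t ≤ 2 →
    ∀ (A B : Set (OnePoint ℂ)) (ε : ℝ), Adm A B ε →
    |Real.log (∫ ω, t ^ ni A B ε ω ∂(bondLaw hlf)) -
      2 * Real.pi * Psi t * modulus (tr A) (tr B)| ≤ C * |Real.log t| := by
  obtain ⟨C, hC, h⟩ := hD
  refine ⟨C, hC, fun t ht1 ht2 A B ε hA => ?_⟩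
  obtain ⟨h1, h2⟩ := h t ht1 ht2 A B ε hA.closedA hA.connA hA.closedB hA.connB hA.disj hA.pos
    hA.sizeA hA.sizeB
  change _ ≤ ∫ ω, t ^ ni A B ε ω ∂(bondLaw hlf) at h1
  change ∫ ω, t ^ ni A B ε ω ∂(bondLaw hlf) ≤ _ at h2
  rw [← Real.exp_add] at h1 h2
  have h3 : 0 < ∫ ω, t ^ ni A B ε ω ∂(bondLaw hlf) := (Real.exp_pos _).trans_le h1
  have h4 := Real.log_le_log (Real.exp_pos _) h1
  have h5 := Real.log_le_log h3 h2
  rw [Real.log_exp] at h4 h5
  rw [abs_le]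
  constructor <;> linarith

theorem dom_mean (hD : DomU) (hT : PsiTaylor) : ∃ C : ℝ, 0 ≤ C ∧
    ∀ (A B : Set (OnePoint ℂ)) (ε : ℝ), Adm A B ε →
    |(∫ ω, (ni A B ε ω : ℝ) ∂(bondLaw hlf)) - modulus (tr A) (tr B) / √3| ≤ C := by
  obtain ⟨C, hC, h⟩ := hD
  refine ⟨C, hC, fun A B ε hA => ?_⟩
  exact mean_bd hT (bondLaw hlf) C hC _ (ni A B ε) (ni_meas A B ε) (ni_int hA)
    (fun t ht1 ht2 => h t ht1 ht2 A B ε hA.closedA hA.connA hA.closedB hA.connB hA.disj hA.pos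
      hA.sizeA hA.sizeB)

theorem dom_clt (hD : DomU) (hT : PsiTaylor) (hCu : CurtS) (x η : ℝ) (hη : 0 < η) :
    ∃ M₀ : ℝ, ∀ (A B : Set (OnePoint ℂ)) (ε : ℝ), Adm A B ε → M₀ ≤ modulus (tr A) (tr B) →
    |(bondLaw hlf).real {ω | (ni A B ε ω : ℝ) ≤ modulus (tr A) (tr B) / √3 +
        x * √(modulus (tr A) (tr B))} -
      (ProbabilityTheory.gaussianReal 0 (Real.toNNReal vD)).real (Set.Iic x)| ≤ η := by
  by_contra hcon
  push Not at hcon
  obtain ⟨C, hC, h⟩ := hD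
  choose A B ε hadm hM hbad using fun n : ℕ => hcon ((n : ℝ) + 1)
  have hM1 : ∀ n, 1 ≤ modulus (tr (A n)) (tr (B n)) := fun n => by
    have := hM n
    have h0 : (0:ℝ) ≤ n := Nat.cast_nonneg n
    linarith
  have hMt : Tendsto (fun n => modulus (tr (A n)) (tr (B n))) atTop atTop :=
    tendsto_atTop_mono (fun n => by have := hM n; linarith) tendsto_natCast_atTop_atTop
  have hlim := clt_seq hT hCu (bondLaw hlf) C hC (fun n => modulus (tr (A n)) (tr (B n))) hM1 hMt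
    (fun n => ni (A n) (B n) (ε n)) (fun n => ni_meas _ _ _) (fun n t ht => ni_int (hadm n) t ht)
    (fun t ht1 ht2 n => h t ht1 ht2 (A n) (B n) (ε n) (hadm n).closedA (hadm n).connA
      (hadm n).closedB (hadm n).connB (hadm n).disj (hadm n).pos (hadm n).sizeA (hadm n).sizeB) x
  have h2 := (tendsto_iff_norm_sub_tendsto_zero.1 hlim).eventually_lt_const hη
  obtain ⟨n, hn⟩ := h2.exists
  rw [Real.norm_eq_abs] at hn
  exact absurd hn (not_lt.2 (hbad n).le)

end Pool.Agent.Helper859_NL
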