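import Pool.Agent.Helper859_NL.D02

set_option autoImplicit false

namespace Pool.Agent.Helper859_NL.D01

open MeasureTheory

theorem target : D02.Tilt := by
  intro Ω _ P _ Y hY hint v η t δ hv ht hδ hδ1 hm
  obtain ⟨a, ha⟩ : ∃ a, a = (1 - δ) * v * t := ⟨_, rfl⟩
  obtain ⟨b, hb⟩ : ∃ b, b = (1 + δ) * v * t := ⟨_, rfl⟩
  have hab : a ≤ b := by
    rw [ha, hb]
    have : 0 ≤ δ * v * t := by positivity
    nlinarith
  have hA : MeasurableSet {ω | a ≤ Y ω} := measurableSet_le measurable_const hY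
  -- pointwise
  have hpt : ∀ ω, Real.exp (t * Y ω) ≤
      Real.exp (t * b) * Set.indicator {ω | a ≤ Y ω} (fun _ => (1 : ℝ)) ω +
      (Real.exp (δ * t * a) * Real.exp (((1 - δ) * t) * Y ω) +
        Real.exp (-(δ * t * b)) * Real.exp (((1 + δ) * t) * Y ω)) := by
    intro ω
    have p1 := Real.exp_pos (δ * t * a)
    have p2 := Real.exp_pos (((1 - δ) * t) * Y ω)
    have p3 := Real.exp_pos (-(δ * t * b))
    have p4 := Real.exp_pos (((1 + δ) * t) * Y ω)
    have p5 := Real.exp_pos (t * b)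
    rcases lt_or_ge (Y ω) a with h | h
    · have e1 : Real.exp (t * Y ω) ≤ Real.exp (δ * t * a) * Real.exp (((1 - δ) * t) * Y ω) := by
        rw [← Real.exp_add]
        apply Real.exp_le_exp.2
        have : 0 ≤ δ * t * (a - Y ω) := mul_nonneg (by positivity) (by linarith)
        nlinarith
      have e2 : 0 ≤ Real.exp (t * b) * Set.indicator {ω | a ≤ Y ω} (fun _ => (1 : ℝ)) ω :=
        mul_nonneg p5.le (Set.indicator_nonneg (fun _ _ => zero_le_one) _)
      have e3 : 0 ≤ Real.exp (-(δ * t * b)) * Real.exp (((1 + δ) * t) * Y ω) := by positivity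
      linarith
    · rw [Set.indicator_of_mem (show ω ∈ {ω | a ≤ Y ω} from h), mul_one]
      rcases le_or_gt (Y ω) b with h' | h'
      · have e1 : Real.exp (t * Y ω) ≤ Real.exp (t * b) :=
          Real.exp_le_exp.2 (mul_le_mul_of_nonneg_left h' ht.le)
        have e2 : 0 ≤ Real.exp (δ * t * a) * Real.exp (((1 - δ) * t) * Y ω) := by positivity
        have e3 : 0 ≤ Real.exp (-(δ * t * b)) * Real.exp (((1 + δ) * t) * Y ω) := by positivity
        linarith
      · have e1 : Real.exp (t * Y ω) ≤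
            Real.exp (-(δ * t * b)) * Real.exp (((1 + δ) * t) * Y ω) := by
          rw [← Real.exp_add]
          apply Real.exp_le_exp.2
          have : 0 ≤ δ * t * (Y ω - b) := mul_nonneg (by positivity) (by linarith)
          nlinarith
        have e2 : 0 ≤ Real.exp (δ * t * a) * Real.exp (((1 - δ) * t) * Y ω) := by positivity
        linarith
  have hi1 : Integrable (fun ω => Real.exp (t * b) *
      Set.indicator {ω | a ≤ Y ω} (fun _ => (1 : ℝ)) ω) P :=
    ((integrable_const (1 : ℝ)).indicator hA).const_mul _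
  have hi2 : Integrable (fun ω => Real.exp (δ * t * a) * Real.exp (((1 - δ) * t) * Y ω)) P :=
    (hint _).const_mul _
  have hi3 : Integrable (fun ω => Real.exp (-(δ * t * b)) * Real.exp (((1 + δ) * t) * Y ω)) P :=
    (hint _).const_mul _
  have hI := integral_mono (hint t) (hi1.add (hi2.add hi3)) hpt
  have e1 := integral_add hi1 (hi2.add hi3)
  have e2 := integral_add hi2 hi3
  simp only [Pi.add_apply] at hI e1
  rw [e1, e2, integral_const_mul, integral_const_mul, integral_const_mul,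
    integral_indicator_const _ hA, smul_eq_mul, mul_one] at hI
  have m1 := (hm t ht.le (by linarith)).1
  have m2 := (hm ((1 - δ) * t) (mul_nonneg (by linarith) ht.le) (by nlinarith)).2
  have m3 := (hm ((1 + δ) * t) (mul_nonneg (by linarith) ht.le) (by nlinarith)).2
  have k2 : Real.exp (δ * t * a) * ∫ ω, Real.exp (((1 - δ) * t) * Y ω) ∂P ≤
      Real.exp (v * t ^ 2 / 2 - δ ^ 2 * v * t ^ 2 / 2 + η) := by
    refine (mul_le_mul_of_nonneg_left m2 (Real.exp_pos _).le).trans ?_
    rw [← Real.exp_add]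
    apply Real.exp_le_exp.2
    rw [ha]
    apply le_of_eq
    ring
  have k3 : Real.exp (-(δ * t * b)) * ∫ ω, Real.exp (((1 + δ) * t) * Y ω) ∂P ≤
      Real.exp (v * t ^ 2 / 2 - δ ^ 2 * v * t ^ 2 / 2 + η) := by
    refine (mul_le_mul_of_nonneg_left m3 (Real.exp_pos _).le).trans ?_
    rw [← Real.exp_add]
    apply Real.exp_le_exp.2
    rw [hb]
    apply le_of_eq
    ring
  have k4 : Real.exp (v * t ^ 2 / 2 - η) * (1 - 2 * Real.exp (2 * η - δ ^ 2 * v * t ^ 2 / 2)) =
      Real.exp (v * t ^ 2 / 2 - η) - 2 * Real.exp (v * t ^ 2 / 2 - δ ^ 2 * v * t ^ 2 / 2 + η) := by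
    have : Real.exp (v * t ^ 2 / 2 - δ ^ 2 * v * t ^ 2 / 2 + η) =
        Real.exp (v * t ^ 2 / 2 - η) * Real.exp (2 * η - δ ^ 2 * v * t ^ 2 / 2) := by
      rw [← Real.exp_add]
      congr 1
      ring
    rw [this]
    ring
  have k5 : Real.exp (v * t ^ 2 / 2 - η) * (1 - 2 * Real.exp (2 * η - δ ^ 2 * v * t ^ 2 / 2)) ≤
      Real.exp (t * b) * P.real {ω | a ≤ Y ω} := by
    rw [k4]
    linarith
  rw [← ha]
  have k6 := mul_le_mul_of_nonneg_left k5 (Real.exp_pos (-(t * b))).le
  rw [← mul_assoc, ← mul_assoc, ← Real.exp_add, ← Real.exp_add, neg_add_cancel, Real.exp_zero,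
    one_mul] at k6
  have k7 : -(t * b) + (v * t ^ 2 / 2 - η) = -((1 / 2 + δ) * v * t ^ 2) - η := by
    rw [hb]
    ring
  rw [k7] at k6
  exact k6

end Pool.Agent.Helper859_NL.D01
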