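import Mathlib

set_option autoImplicit false

set_option maxHeartbeats 4000000

namespace Pool.Agent.Helper859_NL.D02

open MeasureTheory

/-- tilting (job D01, being proved by helper859; use it as a hypothesis) -/
def Tilt : Prop := ∀ (Ω : Type) [MeasurableSpace Ω] (P : Measure Ω) [IsProbabilityMeasure P] (Y : Ω → ℝ),
  Measurable Y → (∀ s : ℝ, Integrable (fun ω => Real.exp (s * Y ω)) P) →
  ∀ v η t δ : ℝ, 0 ≤ v → 0 < t → 0 < δ → δ < 1 →
  (∀ s : ℝ, 0 ≤ s → s ≤ 2 * t → Real.exp (v * s ^ 2 / 2 - η) ≤ ∫ ω, Real.exp (s * Y ω) ∂P ∧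
    ∫ ω, Real.exp (s * Y ω) ∂P ≤ Real.exp (v * s ^ 2 / 2 + η)) →
  Real.exp (-((1 / 2 + δ) * v * t ^ 2) - η) * (1 - 2 * Real.exp (2 * η - δ ^ 2 * v * t ^ 2 / 2)) ≤
    P.real {ω | (1 - δ) * v * t ≤ Y ω}

theorem aux (c e K q : ℝ) (he : 0 < e) (h : c / e ≤ K) (hq : 0 ≤ q) (hK : K * q ≤ 1) :
    c * q ≤ e := by
  rw [div_le_iff₀ he] at h
  calc c * q ≤ K * e * q := mul_le_mul_of_nonneg_right h hq
    _ = e * (K * q) := by ring
    _ ≤ e * 1 := mul_le_mul_of_nonneg_left hK he.le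
    _ = e := mul_one e

theorem aux2 (c e K x : ℝ) (he : 0 < e) (h : c / e ≤ K) (hx : 1 ≤ x) (hK : K ≤ x) :
    c ≤ e * x ^ 2 := by
  rw [div_le_iff₀ he] at h
  have h1 : K ≤ x ^ 2 := by nlinarith
  nlinarith

/-- small perturbation -/
theorem pert (v0 r q x : ℝ) (hv : 0 < v0) (hr : 0 < r) (hq : 0 < q) (hx : 1 ≤ x) (hrq : r * q = x)
    (s : ℝ) (hs0 : 0 ≤ s) (hs : s ≤ 8 / 3 * (q / v0)) :
    s + r ^ 2 * s ^ 3 ≤ x ^ 2 * q * (3 / v0 + 20 / v0 ^ 3) := by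
  have hp : 0 < q / v0 := by positivity
  have hx2 : 1 ≤ x ^ 2 := by nlinarith
  have h1 : s ≤ x ^ 2 * (3 * (q / v0)) := by nlinarith
  have h2 : s ^ 3 ≤ (8 / 3 * (q / v0)) ^ 3 := pow_le_pow_left₀ hs0 hs 3
  have h3 : (8 / 3 * (q / v0)) ^ 3 ≤ 20 * (q / v0) ^ 3 := by
    rw [mul_pow]
    have : 0 < (q / v0) ^ 3 := by positivity
    nlinarith
  have h4 : r ^ 2 * s ^ 3 ≤ r ^ 2 * (20 * (q / v0) ^ 3) :=
    mul_le_mul_of_nonneg_left (h2.trans h3) (by positivity)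
  have h5 : r ^ 2 * (20 * (q / v0) ^ 3) = x ^ 2 * q * (20 / v0 ^ 3) := by
    rw [← hrq]
    field_simp
  have h6 : x ^ 2 * (3 * (q / v0)) = x ^ 2 * q * (3 / v0) := by
    field_simp
  rw [mul_add, ← h5, ← h6]
  linarith

theorem target (hT : Tilt) (v0 C δ0 ε : ℝ) (hv : 0 < v0) (hC : 0 ≤ C) (hδ : 0 < δ0) (hε : 0 < ε) :
    ∃ K : ℝ, 1 ≤ K ∧ ∀ (Ω : Type) [MeasurableSpace Ω] (P : Measure Ω) [IsProbabilityMeasure P]
      (Y : Ω → ℝ) (M x : ℝ), Measurable Y → (∀ s : ℝ, Integrable (fun ω => Real.exp (s * Y ω)) P) →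
      K ≤ x → K * x ≤ √M →
      (∀ s : ℝ, |s| ≤ δ0 →
        Real.exp (v0 * M * s ^ 2 / 2 - C * (|s| + M * |s| ^ 3)) ≤ ∫ ω, Real.exp (s * Y ω) ∂P ∧
        ∫ ω, Real.exp (s * Y ω) ∂P ≤ Real.exp (v0 * M * s ^ 2 / 2 + C * (|s| + M * |s| ^ 3))) →
      Real.exp (-((1 + ε) * x ^ 2 / (2 * v0))) ≤ P.real {ω | x * √M ≤ Y ω} ∧
      P.real {ω | x * √M ≤ Y ω} ≤ Real.exp (-((1 - ε) * x ^ 2 / (2 * v0))) := by
  obtain ⟨δ, hd0, hd1, hd2⟩ : ∃ δ : ℝ, 0 < δ ∧ δ ≤ 1 / 4 ∧ δ ≤ ε / 16 :=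
    ⟨min (1 / 4) (ε / 16), lt_min (by norm_num) (by positivity), min_le_left _ _, min_le_right _ _⟩
  obtain ⟨B, hB⟩ : ∃ B : ℝ, B = 3 / v0 + 20 / v0 ^ 3 := ⟨_, rfl⟩
  have hB0 : 0 < B := by rw [hB]; positivity
  obtain ⟨K, hK1, k1, k3, k4, k5, k6⟩ : ∃ K : ℝ, 1 ≤ K ∧ 3 / (v0 * δ0) ≤ K ∧
      8 * v0 * C * B / δ ^ 2 ≤ K ∧ 8 * v0 / δ ^ 2 ≤ K ∧ 8 * v0 * C * B / ε ≤ K ∧ 8 * v0 / ε ≤ K := by
    have p1 : 0 ≤ 3 / (v0 * δ0) := by positivity
    have p3 : 0 ≤ 8 * v0 * C * B / δ ^ 2 := by positivity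
    have p4 : 0 ≤ 8 * v0 / δ ^ 2 := by positivity
    have p5 : 0 ≤ 8 * v0 * C * B / ε := by positivity
    have p6 : 0 ≤ 8 * v0 / ε := by positivity
    refine ⟨1 + 3 / (v0 * δ0) + 8 * v0 * C * B / δ ^ 2 + 8 * v0 / δ ^ 2 + 8 * v0 * C * B / ε +
      8 * v0 / ε, ?_, ?_, ?_, ?_, ?_, ?_⟩ <;> linarith
  refine ⟨K, hK1, ?_⟩
  intro Ω _ P _ Y M x hY hint hKx hKM hmgf
  have hx1 : 1 ≤ x := hK1.trans hKx
  have hx0 : 0 < x := by linarith
  have hr : 0 < √M := by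
    have : 0 < K * x := by positivity
    linarith
  have hM0 : 0 < M := Real.sqrt_pos.1 hr
  obtain ⟨r, hrdef⟩ : ∃ r : ℝ, r = √M := ⟨_, rfl⟩
  have hM : M = r ^ 2 := by rw [hrdef, Real.sq_sqrt hM0.le]
  rw [← hrdef] at hr hKM ⊢
  obtain ⟨q, hqdef⟩ : ∃ q : ℝ, q = x / r := ⟨_, rfl⟩
  have hq0 : 0 < q := by rw [hqdef]; positivity
  have hrq : r * q = x := by rw [hqdef]; field_simp
  have hqK : K * q ≤ 1 := by
    rw [hqdef, ← mul_div_assoc, div_le_one hr]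
    exact hKM
  have f1 := aux 3 (v0 * δ0) K q (by positivity) k1 hq0.le hqK
  have f3 := aux (8 * v0 * C * B) (δ ^ 2) K q (by positivity) k3 hq0.le hqK
  have f5 := aux (8 * v0 * C * B) ε K q hε k5 hq0.le hqK
  have g4 := aux2 (8 * v0) (δ ^ 2) K x (by positivity) k4 hx1 hKx
  have g6 := aux2 (8 * v0) ε K x hε k6 hx1 hKx
  have hqd : 3 * (q / v0) ≤ δ0 := by
    rw [← mul_div_assoc, div_le_iff₀ hv]
    linarith
  have hp0 : 0 < q / v0 := by positivity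
  have hx20 : 0 < x ^ 2 := by positivity
  -- the error term
  obtain ⟨η, hη⟩ : ∃ η : ℝ, η = C * (x ^ 2 * q * B) := ⟨_, rfl⟩
  have hpert : ∀ s : ℝ, 0 ≤ s → s ≤ 8 / 3 * (q / v0) → C * (|s| + M * |s| ^ 3) ≤ η := by
    intro s hs0 hs
    rw [hη, abs_of_nonneg hs0, hM, hB]
    exact mul_le_mul_of_nonneg_left (pert v0 r q x hv hr hq0 hx1 hrq s hs0 hs) hC
  have hη0 : 0 ≤ η := by rw [hη]; positivity
  have hη1 : η * (8 * v0) ≤ δ ^ 2 * x ^ 2 := by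
    rw [hη]
    nlinarith [mul_le_mul_of_nonneg_right f3 hx20.le]
  have hη2 : η * (8 * v0) ≤ ε * x ^ 2 := by
    rw [hη]
    nlinarith [mul_le_mul_of_nonneg_right f5 hx20.le]
  constructor
  · -- lower bound
    obtain ⟨t, ht⟩ : ∃ t : ℝ, t = q / v0 / (1 - δ) := ⟨_, rfl⟩
    have h1d : 0 < 1 - δ := by linarith
    have ht0 : 0 < t := by rw [ht]; positivity
    have htp : t * (1 - δ) = q / v0 := by rw [ht]; field_simp
    have ht2 : 2 * t ≤ 8 / 3 * (q / v0) := by nlinarith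
    have key := hT Ω P Y hY hint (v0 * M) η t δ (by positivity) ht0 hd0 (by linarith) (by
      intro s hs0 hs
      have hs2 := hs.trans ht2
      have h1 := hmgf s (by rw [abs_of_nonneg hs0]; linarith)
      have h2 := hpert s hs0 hs2
      refine ⟨le_trans (Real.exp_le_exp.2 (by linarith)) h1.1,
        h1.2.trans (Real.exp_le_exp.2 (by linarith))⟩)
    have e1 : (1 - δ) * (v0 * M) * t = x * r := by
      calc (1 - δ) * (v0 * M) * t = v0 * M * (t * (1 - δ)) := by ring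
        _ = v0 * r ^ 2 * (q / v0) := by rw [htp, hM]
        _ = r * (r * q) := by field_simp
        _ = x * r := by rw [hrq]; ring
    rw [e1] at key
    refine le_trans ?_ key
    -- `v t ^ 2`
    obtain ⟨W, hW⟩ : ∃ W : ℝ, W = v0 * M * t ^ 2 := ⟨_, rfl⟩
    have hWe : W * (1 - δ) ^ 2 = x ^ 2 / v0 := by
      calc W * (1 - δ) ^ 2 = v0 * M * (t * (1 - δ)) ^ 2 := by rw [hW]; ring
        _ = v0 * r ^ 2 * (q / v0) ^ 2 := by rw [htp, hM]
        _ = (r * q) ^ 2 / v0 := by field_simp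
        _ = _ := by rw [hrq]
    have hW0 : 0 < W := by rw [hW]; positivity
    have hXv : 0 < x ^ 2 / v0 := by positivity
    have hW1 : x ^ 2 / v0 ≤ W := by
      rw [← hWe]
      have : (1 - δ) ^ 2 ≤ 1 := by nlinarith
      nlinarith
    have hη1' : η ≤ δ ^ 2 * (x ^ 2 / v0) / 8 := by
      have : δ ^ 2 * (x ^ 2 / v0) / 8 = δ ^ 2 * x ^ 2 / (8 * v0) := by field_simp
      rw [this, le_div_iff₀ (by positivity)]
      exact hη1
    have hη2' : η ≤ ε * (x ^ 2 / v0) / 8 := by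
      have : ε * (x ^ 2 / v0) / 8 = ε * x ^ 2 / (8 * v0) := by field_simp
      rw [this, le_div_iff₀ (by positivity)]
      exact hη2
    have g4' : 8 ≤ δ ^ 2 * (x ^ 2 / v0) := by
      have : δ ^ 2 * (x ^ 2 / v0) = δ ^ 2 * x ^ 2 / v0 := by field_simp
      rw [this, le_div_iff₀ hv]
      exact g4
    have g6' : 8 ≤ ε * (x ^ 2 / v0) := by
      have : ε * (x ^ 2 / v0) = ε * x ^ 2 / v0 := by field_simp
      rw [this, le_div_iff₀ hv]
      exact g6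
    have hex1 : (2 : ℝ) ≤ Real.exp 1 := by
      have := Real.add_one_le_exp (1 : ℝ)
      linarith
    have hex : Real.exp (-1) ≤ 1 / 2 := by
      rw [Real.exp_neg]
      have := inv_anti₀ (by norm_num) hex1
      linarith
    have hbr : Real.exp (2 * η - δ ^ 2 * (v0 * M) * t ^ 2 / 2) ≤ 1 / 4 := by
      have h1 : 2 * η - δ ^ 2 * (v0 * M) * t ^ 2 / 2 ≤ -1 + -1 := by
        have h2 : δ ^ 2 * (v0 * M) * t ^ 2 = δ ^ 2 * W := by rw [hW]; ring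
        rw [h2]
        have h3 : δ ^ 2 * (x ^ 2 / v0) ≤ δ ^ 2 * W :=
          mul_le_mul_of_nonneg_left hW1 (by positivity)
        linarith
      refine (Real.exp_le_exp.2 h1).trans ?_
      rw [Real.exp_add]
      have h0 := (Real.exp_pos (-1))
      nlinarith
    have hhalf : Real.exp (-1) ≤ 1 - 2 * Real.exp (2 * η - δ ^ 2 * (v0 * M) * t ^ 2 / 2) := by
      linarith
    refine le_trans ?_ (mul_le_mul_of_nonneg_left hhalf (Real.exp_pos _).le)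
    rw [← Real.exp_add]
    apply Real.exp_le_exp.2
    have h4 : (1 / 2 + δ) * (v0 * M) * t ^ 2 = (1 / 2 + δ) * W := by rw [hW]; ring
    rw [h4]
    have h5 : (1 + ε) * x ^ 2 / (2 * v0) = (1 + ε) * (x ^ 2 / v0) / 2 := by field_simp
    rw [h5]
    have h6 : (1 / 2 + δ) * W ≤ (1 + ε / 2) * (x ^ 2 / v0) / 2 := by
      rw [← hWe]
      have h7 : 1 + 2 * δ ≤ (1 + ε / 2) * (1 - δ) ^ 2 := by
        have h8 : 1 - 2 * δ ≤ (1 - δ) ^ 2 := by nlinarith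
        have h9 : (1 + 8 * δ) * (1 - 2 * δ) ≤ (1 + ε / 2) * (1 - 2 * δ) :=
          mul_le_mul_of_nonneg_right (by linarith) (by linarith)
        have h10 : (1 + ε / 2) * (1 - 2 * δ) ≤ (1 + ε / 2) * (1 - δ) ^ 2 :=
          mul_le_mul_of_nonneg_left h8 (by positivity)
        nlinarith
      nlinarith [mul_le_mul_of_nonneg_right h7 hW0.le]
    linarith
  · -- upper bound
    have hch := ProbabilityTheory.measure_ge_le_exp_mul_mgf (μ := P) (X := Y) (t := q / v0) (x * r)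
      hp0.le (hint (q / v0))
    refine hch.trans ?_
    have h1 := (hmgf (q / v0) (by rw [abs_of_pos hp0]; linarith)).2
    have h2 := hpert (q / v0) hp0.le (by linarith)
    have h3 : ProbabilityTheory.mgf Y P (q / v0) ≤ Real.exp (v0 * M * (q / v0) ^ 2 / 2 + η) :=
      h1.trans (Real.exp_le_exp.2 (by linarith))
    refine (mul_le_mul_of_nonneg_left h3 (Real.exp_pos _).le).trans ?_
    rw [← Real.exp_add]
    apply Real.exp_le_exp.2
    have e1 : q / v0 * (x * r) = x ^ 2 / v0 := by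
      calc q / v0 * (x * r) = x * (r * q) / v0 := by ring
        _ = _ := by rw [hrq]; ring
    have e2 : v0 * M * (q / v0) ^ 2 = x ^ 2 / v0 := by
      calc v0 * M * (q / v0) ^ 2 = (r * q) ^ 2 / v0 := by rw [hM]; field_simp
        _ = _ := by rw [hrq]
    have hη2' : η ≤ ε * (x ^ 2 / v0) / 8 := by
      have : ε * (x ^ 2 / v0) / 8 = ε * x ^ 2 / (8 * v0) := by field_simp
      rw [this, le_div_iff₀ (by positivity)]
      exact hη2
    have hXv : 0 < ε * (x ^ 2 / v0) := by positivity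
    have h5 : (1 - ε) * x ^ 2 / (2 * v0) = (1 - ε) * (x ^ 2 / v0) / 2 := by field_simp
    rw [h5, e2, neg_mul, e1]
    linarith

end Pool.Agent.Helper859_NL.D02
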