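import Pool.Agent.Helper859_NL.StmTwo
import Pool.Agent.Helper859_NL.Clt
import Pool.Agent.W52.NC.Trans
import Pool.Agent.Y996.NL.Inf

/-!
The joint law of the numbers of layers around two points.
-/

set_option autoImplicit false

namespace Pool.Agent.Helper859_NL

open H974 Finset Pool.Agent.W819.EN Pool.Agent.W819.NC MeasureTheory Filter Topology
open scoped Real

/-- the asymptotic variance of `a N_v + b N_w` -/
noncomputable def va (a b : ℝ) (n d : ℕ) : ℝ :=
  vM * ((a ^ 2 + b ^ 2) * Real.log n + 2 * a * b * Real.log ((n : ℝ) / d))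

theorem vM_pos : 0 < vM := by
  have h := vD_pos
  have hπ := Real.pi_pos
  have h3 : (0:ℝ) < √3 := Real.sqrt_pos.2 (by norm_num)
  have e : 2 * π * vM = vD := by
    unfold vM vD
    field_simp
    ring
  by_contra hcon
  have : 2 * π * vM ≤ 0 := mul_nonpos_of_nonneg_of_nonpos (by positivity) (not_lt.1 hcon)
  linarith

/-- the main estimate for the moment generating function -/
theorem joint_exp2 {C' δ0 K : ℝ} 
    (hP : ∀ s : ℝ, |s| ≤ δ0 → |Psi (Real.exp s) - (cM * s + vM * s ^ 2 / 2)| ≤ C' * |s| ^ 3)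
    {T : ℝ} {n d : ℕ} (hd : 1 ≤ d) (hdn : d ≤ n) {a b s r : ℝ} (hr : 0 < r)
    (hV : r ^ 2 = va a b n d) (h1 : |s * a / r| + |s * b / r| ≤ δ0)
    (h2 : App2 K (Real.exp (s * a / r)) (Real.exp (s * b / r)) T
      (((n : ℝ) / d) ^ Psi (Real.exp (s * a / r) * Real.exp (s * b / r)) *
        (d : ℝ) ^ (Psi (Real.exp (s * a / r)) + Psi (Real.exp (s * b / r))))) :
    Real.exp (s ^ 2 / 2 - (K + |C'| * s ^ 2 / vM) * (|s * a| + |s * b|) / r) ≤
      Real.exp (-(s * (a + b) * cM * Real.log n / r)) * T ∧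
    Real.exp (-(s * (a + b) * cM * Real.log n / r)) * T ≤
      Real.exp (s ^ 2 / 2 + (K + |C'| * s ^ 2 / vM) * (|s * a| + |s * b|) / r) := by
  have hvM := vM_pos
  obtain ⟨x, hx⟩ : ∃ x, x = s * a / r := ⟨_, rfl⟩
  obtain ⟨y, hy⟩ : ∃ y, y = s * b / r := ⟨_, rfl⟩
  rw [← hx, ← hy] at h1 h2
  have hd0 : (0:ℝ) < d := by exact_mod_cast hd
  have hn0 : (0:ℝ) < n := by exact_mod_cast (hd.trans hdn)
  obtain ⟨e1, e2⟩ := h2
  rw [Real.log_exp, Real.log_exp, ← Real.exp_add] at e1 e2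
  have hδ0 : 0 ≤ Real.log d := Real.log_nonneg (by exact_mod_cast hd)
  have hl0 : 0 ≤ Real.log ((n : ℝ) / d) :=
    Real.log_nonneg (by rw [one_le_div hd0]; exact_mod_cast hdn)
  have hln : Real.log n = Real.log ((n : ℝ) / d) + Real.log d := by
    rw [Real.log_div hn0.ne' hd0.ne']; ring
  unfold va at hV
  rw [hln] at hV ⊢
  obtain ⟨δ, hδ⟩ : ∃ δ, δ = Real.log d := ⟨_, rfl⟩
  obtain ⟨l, hl⟩ : ∃ l, l = Real.log ((n : ℝ) / d) := ⟨_, rfl⟩
  rw [← hδ] at hδ0 hV ⊢
  rw [← hl] at hl0 hV ⊢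
  obtain ⟨P1, hP1⟩ : ∃ P, P = Psi (Real.exp (x + y)) := ⟨_, rfl⟩
  obtain ⟨P2', hP2⟩ : ∃ P, P = Psi (Real.exp x) := ⟨_, rfl⟩
  obtain ⟨P3, hP3⟩ : ∃ P, P = Psi (Real.exp y) := ⟨_, rfl⟩
  have hX : ((n : ℝ) / d) ^ Psi (Real.exp (x + y)) *
        (d : ℝ) ^ (Psi (Real.exp x) + Psi (Real.exp y)) =
      Real.exp (l * P1 + δ * (P2' + P3)) := by
    rw [Real.rpow_def_of_pos (by positivity), Real.rpow_def_of_pos hd0, ← Real.exp_add, ← hl,
      ← hδ, hP1, hP2, hP3]
  rw [hX, ← Real.exp_add] at e1 e2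
  have hxa := abs_nonneg x
  have hya := abs_nonneg y
  have b1 := abs_le.1 (hP (x + y) ((abs_add_le _ _).trans h1))
  have b2 := abs_le.1 (hP x (by linarith))
  have b3 := abs_le.1 (hP y (by linarith))
  rw [← hP1] at b1
  rw [← hP2] at b2
  rw [← hP3] at b3
  obtain ⟨w, hw⟩ : ∃ w, w = |C'| * (|x| + |y|) := ⟨_, rfl⟩
  have hw0 : 0 ≤ w := by rw [hw]; positivity
  have c0 : ∀ z : ℝ, |z| ≤ |x| + |y| → C' * |z| ^ 3 ≤ w * z ^ 2 := by
    intro z hz
    rw [hw, ← sq_abs z]
    calc C' * |z| ^ 3 ≤ |C'| * |z| ^ 3 := mul_le_mul_of_nonneg_right (le_abs_self _) (by positivity)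
      _ = |C'| * |z| * |z| ^ 2 := by ring
      _ ≤ _ := mul_le_mul_of_nonneg_right (mul_le_mul_of_nonneg_left hz (abs_nonneg _))
          (by positivity)
  have c1 := c0 (x + y) (abs_add_le _ _)
  have c2 := c0 x (by linarith)
  have c3 := c0 y (by linarith)
  obtain ⟨Q, hQ⟩ : ∃ Q, Q = l * (x + y) ^ 2 + δ * (x ^ 2 + y ^ 2) := ⟨_, rfl⟩
  have hQs : vM * Q = s ^ 2 := by
    have h3 : vM * Q * r ^ 2 = s ^ 2 * r ^ 2 := by
      have h4 : vM * Q * r ^ 2 =
          s ^ 2 * (vM * ((a ^ 2 + b ^ 2) * (l + δ) + 2 * a * b * l)) := by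
        rw [hQ, hx, hy]
        field_simp
        ring
      rw [h4, ← hV]
    exact mul_right_cancel₀ (by positivity) h3
  have hmain : l * (cM * (x + y) + vM * (x + y) ^ 2 / 2) +
      δ * ((cM * x + vM * x ^ 2 / 2) + (cM * y + vM * y ^ 2 / 2)) =
      s * (a + b) * cM * (l + δ) / r + s ^ 2 / 2 := by
    have h3 : s * (a + b) * cM * (l + δ) / r = cM * (x + y) * (l + δ) := by
      rw [hx, hy]
      field_simp
    rw [h3, ← hQs, hQ]
    ring
  have hsplit : (K + |C'| * s ^ 2 / vM) * (|s * a| + |s * b|) / r = K * (|x| + |y|) + w * Q := by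
    have e3 : |x| = |s * a| / r := by rw [hx, abs_div, abs_of_pos hr]
    have e4 : |y| = |s * b| / r := by rw [hy, abs_div, abs_of_pos hr]
    have e5 : s ^ 2 / vM = Q := by rw [← hQs]; field_simp
    rw [hw, e3, e4, ← e5]
    ring
  have hb : ∀ σ : ℝ, (σ = 1 ∨ σ = -1) → σ * (l * P1 + δ * (P2' + P3)) ≤
      σ * (s * (a + b) * cM * (l + δ) / r + s ^ 2 / 2) + w * Q := by
    intro σ hσ
    rw [← hmain]
    have i1 : σ * P1 ≤ σ * (cM * (x + y) + vM * (x + y) ^ 2 / 2) + w * (x + y) ^ 2 := by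
      rcases hσ with h | h <;> rw [h] <;> linarith
    have i2 : σ * P2' ≤ σ * (cM * x + vM * x ^ 2 / 2) + w * x ^ 2 := by
      rcases hσ with h | h <;> rw [h] <;> linarith
    have i3 : σ * P3 ≤ σ * (cM * y + vM * y ^ 2 / 2) + w * y ^ 2 := by
      rcases hσ with h | h <;> rw [h] <;> linarith
    have j1 := mul_le_mul_of_nonneg_left i1 hl0
    have j2 := mul_le_mul_of_nonneg_left i2 hδ0
    have j3 := mul_le_mul_of_nonneg_left i3 hδ0
    have j4 : l * (w * (x + y) ^ 2) + δ * (w * x ^ 2) + δ * (w * y ^ 2) = w * Q := by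
      rw [hQ]; ring
    nlinarith
  have k1 := hb 1 (Or.inl rfl)
  have k2 := hb (-1) (Or.inr rfl)
  rw [hsplit]
  constructor
  · calc _ ≤ Real.exp (-(s * (a + b) * cM * (l + δ) / r)) *
          Real.exp (-(K * (|x| + |y|)) + (l * P1 + δ * (P2' + P3))) := by
          rw [← Real.exp_add]
          apply Real.exp_le_exp.2
          linarith
      _ ≤ _ := mul_le_mul_of_nonneg_left e1 (Real.exp_pos _).le
  · calc _ ≤ Real.exp (-(s * (a + b) * cM * (l + δ) / r)) *
          Real.exp (K * (|x| + |y|) + (l * P1 + δ * (P2' + P3))) :=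
          mul_le_mul_of_nonneg_left e2 (Real.exp_pos _).le
      _ ≤ _ := by
          rw [← Real.exp_add]
          apply Real.exp_le_exp.2
          linarith

theorem nr_exp {x : ℝ} (hx : |x| ≤ 1 / 4) : Nr (Real.exp x) := by
  obtain ⟨h1, h2⟩ := abs_le.1 hx
  constructor
  · have := Real.add_one_le_exp x
    linarith
  · have h3 := Real.add_one_le_exp (-x)
    have h4 : Real.exp x * Real.exp (-x) = 1 := by rw [← Real.exp_add]; simp
    have h5 := Real.exp_pos x
    nlinarith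

/-- the joint central limit theorem, along sequences -/
theorem joint_seq (hT : PsiTaylor) (hCu : CurtS) (hTw : TwoPtU NA) (a b : ℕ → ℝ)
    (ha : ∀ k, |a k| ≤ 1) (hb : ∀ k, |b k| ≤ 1) (n d : ℕ → ℕ) (v w : ℕ → ℤ × ℤ)
    (hd : ∀ k, 1 ≤ d k) (hdn : ∀ k, d k ≤ n k)
    (hvw : ∀ k, max |(v k).1 - (w k).1| |(v k).2 - (w k).2| = d k)
    (hV1 : ∀ k, 0 < va (a k) (b k) (n k) (d k))
    (hV : Tendsto (fun k => va (a k) (b k) (n k) (d k)) atTop atTop) (x : ℝ) :
    Tendsto (fun k => (bondLaw hlf).real {ω | a k * (layers (n k) (v k) ω : ℝ) +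
        b k * (layers (n k) (w k) ω : ℝ) ≤
        (a k + b k) * cM * Real.log (n k) + x * √(va (a k) (b k) (n k) (d k))}) atTop
      (𝓝 ((ProbabilityTheory.gaussianReal 0 1).real (Set.Iic x))) := by
  obtain ⟨C', δ0, hδ0, hP⟩ := hT
  obtain ⟨K, hK, hTw⟩ := hTw
  have hvM := vM_pos
  set r : ℕ → ℝ := fun k => √(va (a k) (b k) (n k) (d k)) with hr
  have hr0 : ∀ k, 0 < r k := fun k => Real.sqrt_pos.2 (hV1 k)
  have hr2 : ∀ k, r k ^ 2 = va (a k) (b k) (n k) (d k) := fun k => Real.sq_sqrt (hV1 k).le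
  have hrt : Tendsto r atTop atTop := Real.tendsto_sqrt_atTop.comp hV
  set S : ℕ → Finset Edg := fun k => bx (v k) (n k) ∪ bx (w k) (n k) with hS
  have hSv : ∀ k, bx (v k) (n k) ⊆ S k := fun k => subset_union_left
  have hSw : ∀ k, bx (w k) (n k) ⊆ S k := fun k => subset_union_right
  set Z : ℕ → (sqLattice.edgeSet → Bool) → ℝ := fun k ω => (a k * (layers (n k) (v k) ω : ℝ) +
    b k * (layers (n k) (w k) ω : ℝ) - (a k + b k) * cM * Real.log (n k)) / r k with hZ
  obtain ⟨g, hg⟩ : ∃ g : ℕ → Finset Edg → ℝ, g = fun k F => (a k * (NA F (v k) 0 (n k) : ℝ) +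
      b k * (NA F (w k) 0 (n k) : ℝ) - (a k + b k) * cM * Real.log (n k)) / r k := ⟨_, rfl⟩
  have hZF : ∀ k, Z k = fun ω => g k (FF (S k) ω) := by
    intro k
    funext ω
    simp only [hZ, hg]
    rw [Pool.Agent.W52.NC.lay_eq (v k) (n k) (S k) (hSv k) ω,
      Pool.Agent.W52.NC.lay_eq (w k) (n k) (S k) (hSw k) ω]
  have hZm : ∀ k, AEMeasurable (Z k) (bondLaw hlf) := fun k => by
    rw [hZF k]
    exact (Pool.Agent.Y996.NL.integrable_FF hlf (S k) (g k)).aemeasurable
  have hexp : ∀ (k : ℕ) (s : ℝ) (ω : sqLattice.edgeSet → Bool), Real.exp (s * Z k ω) =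
      Real.exp (-(s * (a k + b k) * cM * Real.log (n k) / r k)) *
        ((Real.exp (s * a k / r k)) ^ layers (n k) (v k) ω *
          (Real.exp (s * b k / r k)) ^ layers (n k) (w k) ω) := by
    intro k s ω
    rw [← Real.exp_nat_mul, ← Real.exp_nat_mul, ← Real.exp_add, ← Real.exp_add]
    congr 1
    simp only [hZ]
    have h1 := (hr0 k).ne'
    field_simp
    ring
  haveI hPr : IsProbabilityMeasure (bondLaw hlf) := by unfold bondLaw; infer_instance
  set μ : ℕ → Measure ℝ := fun k => (bondLaw hlf).map (Z k) with hμ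
  have hprob : ∀ k, IsProbabilityMeasure (μ k) := fun k =>
    Measure.isProbabilityMeasure_map (hZm k)
  have hcont : ∀ s : ℝ, Continuous (fun x : ℝ => Real.exp (s * x)) := fun s => by fun_prop
  have hi : ∀ (k : ℕ) (s : ℝ), Integrable (fun x : ℝ => Real.exp (s * x)) (μ k) := by
    intro k s
    rw [hμ]
    rw [integrable_map_measure (hcont s).aestronglyMeasurable (hZm k)]
    obtain ⟨g', hg'⟩ : ∃ g' : Finset Edg → ℝ, g' = fun F => Real.exp (s * g k F) := ⟨_, rfl⟩
    have e : (fun x : ℝ => Real.exp (s * x)) ∘ Z k = fun ω => g' (FF (S k) ω) := by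
      funext ω
      simp only [Function.comp_apply, hg']
      rw [hZF k]
    rw [e]
    exact Pool.Agent.Y996.NL.integrable_FF hlf (S k) g'
  have hm : ∀ (k : ℕ) (s : ℝ), ∫ x : ℝ, Real.exp (s * x) ∂(μ k) =
      Real.exp (-(s * (a k + b k) * cM * Real.log (n k) / r k)) *
        T2 NA (Real.exp (s * a k / r k)) (Real.exp (s * b k / r k)) (v k) (w k) (n k) (S k) := by
    intro k s
    rw [hμ]
    rw [integral_map (hZm k) (hcont s).aestronglyMeasurable]
    simp only [hexp]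
    rw [integral_const_mul, Pool.Agent.W52.NC.t_TRANS _ _ (v k) (w k) (n k) (S k) (hSv k) (hSw k)]
  have hlim := hCu μ hprob 1 one_ne_zero hi (fun s => by
    simp only [hm]
    have hE : Tendsto (fun k => (K + |C'| * s ^ 2 / vM) * (2 * |s|) / r k) atTop (𝓝 0) :=
      Filter.Tendsto.const_div_atTop hrt _
    have hlo : Tendsto (fun k => Real.exp (s ^ 2 / 2 -
        (K + |C'| * s ^ 2 / vM) * (2 * |s|) / r k)) atTop (𝓝 (Real.exp (((1 : NNReal) : ℝ) * s ^ 2 / 2))) := by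
      refine (Real.continuous_exp.tendsto _).comp ?_
      have := (tendsto_const_nhds (x := s ^ 2 / 2)).sub hE
      simpa using this
    have hup : Tendsto (fun k => Real.exp (s ^ 2 / 2 +
        (K + |C'| * s ^ 2 / vM) * (2 * |s|) / r k)) atTop (𝓝 (Real.exp (((1 : NNReal) : ℝ) * s ^ 2 / 2))) := by
      refine (Real.continuous_exp.tendsto _).comp ?_
      have := (tendsto_const_nhds (x := s ^ 2 / 2)).add hE
      simpa using this
    obtain ⟨ρ, hρ⟩ : ∃ ρ, ρ = min δ0 (1 / 4) := ⟨_, rfl⟩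
    have hρ0 : 0 < ρ := by rw [hρ]; exact lt_min hδ0 (by norm_num)
    have hev : ∀ᶠ k in atTop, 2 * |s| / ρ ≤ r k := hrt.eventually_ge_atTop _
    have habs : ∀ k, |s * a k| + |s * b k| ≤ 2 * |s| := by
      intro k
      rw [abs_mul, abs_mul]
      have h3 := mul_le_mul_of_nonneg_left (ha k) (abs_nonneg s)
      have h4 := mul_le_mul_of_nonneg_left (hb k) (abs_nonneg s)
      linarith
    have hC0 : 0 ≤ K + |C'| * s ^ 2 / vM := by positivity
    have hcmp : ∀ k, (K + |C'| * s ^ 2 / vM) * (|s * a k| + |s * b k|) / r k ≤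
        (K + |C'| * s ^ 2 / vM) * (2 * |s|) / r k := fun k =>
      div_le_div_of_nonneg_right (mul_le_mul_of_nonneg_left (habs k) hC0) (hr0 k).le
    have hmain : ∀ᶠ k in atTop, Real.exp (s ^ 2 / 2 -
        (K + |C'| * s ^ 2 / vM) * (2 * |s|) / r k) ≤
        Real.exp (-(s * (a k + b k) * cM * Real.log (n k) / r k)) *
        T2 NA (Real.exp (s * a k / r k)) (Real.exp (s * b k / r k)) (v k) (w k) (n k) (S k) ∧
        Real.exp (-(s * (a k + b k) * cM * Real.log (n k) / r k)) *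
        T2 NA (Real.exp (s * a k / r k)) (Real.exp (s * b k / r k)) (v k) (w k) (n k) (S k) ≤
        Real.exp (s ^ 2 / 2 + (K + |C'| * s ^ 2 / vM) * (2 * |s|) / r k) := by
      filter_upwards [hev] with k hk
      have h5 : |s * a k / r k| + |s * b k / r k| ≤ ρ := by
        rw [abs_div, abs_div, abs_of_pos (hr0 k), ← add_div, div_le_iff₀ (hr0 k)]
        rw [div_le_iff₀ hρ0] at hk
        have := habs k
        linarith
      have h6 : ρ ≤ δ0 := by rw [hρ]; exact min_le_left _ _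
      have h7 : ρ ≤ 1 / 4 := by rw [hρ]; exact min_le_right _ _
      have h8 := abs_nonneg (s * a k / r k)
      have h9 := abs_nonneg (s * b k / r k)
      obtain ⟨g1, g2⟩ := joint_exp2 (K := K) hP (hd k) (hdn k) (hr0 k) (hr2 k) (h5.trans h6)
        (hTw _ _ (nr_exp (by linarith)) (nr_exp (by linarith)) (v k) (w k) (d k) (n k) (S k)
          (hd k) (hdn k) (hvw k) (hSv k) (hSw k))
      have h10 := hcmp k
      constructor
      · refine le_trans (Real.exp_le_exp.2 ?_) g1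
        linarith
      · refine g2.trans (Real.exp_le_exp.2 ?_)
        linarith
    exact tendsto_of_tendsto_of_tendsto_of_le_of_le' hlo hup (hmain.mono fun k h => h.1)
      (hmain.mono fun k h => h.2)) x
  refine hlim.congr (fun k => ?_)
  rw [hμ]
  simp only
  rw [measureReal_def, measureReal_def, Measure.map_apply_of_aemeasurable (hZm k) measurableSet_Iic]
  congr 2
  ext ω
  simp only [Set.mem_preimage, Set.mem_Iic, Set.mem_setOf_eq, hZ]
  rw [div_le_iff₀ (hr0 k)]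
  constructor <;> intro h <;> linarith

/-- the joint central limit theorem, uniformly -/
theorem joint_unif (hT : PsiTaylor) (hCu : CurtS) (hTw : TwoPtU NA) (x η : ℝ) (hη : 0 < η) :
    ∃ V₀ : ℝ, ∀ (a b : ℝ), |a| ≤ 1 → |b| ≤ 1 → ∀ (v w : ℤ × ℤ) (n d : ℕ), 1 ≤ d → d ≤ n →
      max |v.1 - w.1| |v.2 - w.2| = d → V₀ ≤ va a b n d →
      |(bondLaw hlf).real {ω | a * (layers n v ω : ℝ) + b * (layers n w ω : ℝ) ≤
          (a + b) * cM * Real.log n + x * √(va a b n d)} -
        (ProbabilityTheory.gaussianReal 0 1).real (Set.Iic x)| ≤ η := by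
  by_contra hcon
  push Not at hcon
  choose a b ha hb v w n d hd hdn hvw hV hbad using fun k : ℕ => hcon ((k : ℝ) + 1)
  have hV1 : ∀ k, 0 < va (a k) (b k) (n k) (d k) := fun k => by
    have := hV k
    have h0 : (0:ℝ) ≤ k := Nat.cast_nonneg k
    linarith
  have hVt : Tendsto (fun k => va (a k) (b k) (n k) (d k)) atTop atTop :=
    tendsto_atTop_mono (fun k => by have := hV k; linarith) tendsto_natCast_atTop_atTop
  have hlim := joint_seq hT hCu hTw a b ha hb n d v w hd hdn hvw hV1 hVt x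
  have h2 := (tendsto_iff_norm_sub_tendsto_zero.1 hlim).eventually_lt_const hη
  obtain ⟨k, hk⟩ := h2.exists
  rw [Real.norm_eq_abs] at hk
  exact absurd hk (not_lt.2 (hbad k).le)

end Pool.Agent.Helper859_NL
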