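import Pool.Agent.Helper859_NL.Asm
import Pool.Agent.Helper859_NL.Joint2

set_option autoImplicit false

namespace Pool.Agent.Helper859_NL.D03

open H974 Finset Pool.Agent.W819.EN Pool.Agent.W819.NC MeasureTheory Filter Topology
open Pool.Agent.Y996.NL Pool.Agent.Helper859_NL
open Pool.Agent.Y996.RD hiding hlf
open scoped Real

theorem target (hD : DomU) (hT : PsiTaylor) : ∃ C δ0 : ℝ, 0 ≤ C ∧ 0 < δ0 ∧
    ∀ (A B : Set (OnePoint ℂ)) (ε : ℝ), Adm A B ε → ∀ σ : ℝ, (σ = 1 ∨ σ = -1) →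
      Measurable (fun ω => σ * ((ni A B ε ω : ℝ) - modulus (tr A) (tr B) / √3)) ∧
      (∀ s : ℝ, Integrable (fun ω =>
        Real.exp (s * (σ * ((ni A B ε ω : ℝ) - modulus (tr A) (tr B) / √3)))) (bondLaw hlf)) ∧
      ∀ s : ℝ, |s| ≤ δ0 →
        Real.exp (vD * modulus (tr A) (tr B) * s ^ 2 / 2 -
            C * (|s| + modulus (tr A) (tr B) * |s| ^ 3)) ≤
          ∫ ω, Real.exp (s * (σ * ((ni A B ε ω : ℝ) - modulus (tr A) (tr B) / √3))) ∂(bondLaw hlf) ∧
        ∫ ω, Real.exp (s * (σ * ((ni A B ε ω : ℝ) - modulus (tr A) (tr B) / √3))) ∂(bondLaw hlf) ≤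
          Real.exp (vD * modulus (tr A) (tr B) * s ^ 2 / 2 +
            C * (|s| + modulus (tr A) (tr B) * |s| ^ 3)) := by
  obtain ⟨C, hC, hD⟩ := hD
  obtain ⟨C', δ, hδ, hP⟩ := hT
  have hπ := Real.pi_pos
  have h3 : (0:ℝ) < √3 := Real.sqrt_pos.2 (by norm_num)
  refine ⟨C + 2 * π * |C'|, min δ (1 / 2), by positivity, lt_min hδ (by norm_num), ?_⟩
  intro A B ε hA σ hσ
  obtain ⟨M, hM⟩ : ∃ M, M = modulus (tr A) (tr B) := ⟨_, rfl⟩
  have hM0 : 0 ≤ M := by
    rw [hM]
    unfold modulus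
    exact inv_nonneg.2 ENNReal.toReal_nonneg
  have hD' := fun t h1 h2 => hD t h1 h2 A B ε hA.closedA hA.connA hA.closedB hA.connB hA.disj
    hA.pos hA.sizeA hA.sizeB
  rw [← hM]
  rw [← hM] at hD'
  have hexp : ∀ (s : ℝ) (ω : sqLattice.edgeSet → Bool),
      Real.exp (s * (σ * ((ni A B ε ω : ℝ) - M / √3))) =
      Real.exp (-(s * σ * M / √3)) * (Real.exp (s * σ)) ^ ni A B ε ω := by
    intro s ω
    rw [← Real.exp_nat_mul, ← Real.exp_add]
    congr 1
    ring
  refine ⟨?_, ?_, ?_⟩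
  · exact (((measurable_from_top (f := fun k : ℕ => (k : ℝ))).comp (ni_meas A B ε)).sub_const
      _).const_mul σ
  · intro s
    simp only [hexp]
    exact (ni_int hA _ (Real.exp_pos _)).const_mul _
  · intro s hs
    simp only [hexp]
    rw [integral_const_mul]
    obtain ⟨u, hu⟩ : ∃ u, u = s * σ := ⟨_, rfl⟩
    have hus : |u| = |s| := by
      rw [hu, abs_mul]
      rcases hσ with h | h <;> rw [h] <;> simp
    have hu2 : u ^ 2 = s ^ 2 := by rw [← sq_abs, hus, sq_abs]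
    rw [← hu, ← hus, ← hu2]
    rw [← hus] at hs
    have hs1 : |u| ≤ δ := hs.trans (min_le_left _ _)
    have hs2 := abs_le.1 (hs.trans (min_le_right _ _))
    have ht1 : 1 / 2 ≤ Real.exp u := by
      have := Real.add_one_le_exp u
      linarith
    have ht2 : Real.exp u ≤ 2 := by
      have e1 := Real.add_one_le_exp (-u)
      have e2 : Real.exp u * Real.exp (-u) = 1 := by rw [← Real.exp_add]; simp
      have e3 := Real.exp_pos u
      nlinarith
    obtain ⟨e1, e2⟩ := hD' _ ht1 ht2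
    change _ ≤ ∫ ω, Real.exp u ^ ni A B ε ω ∂(bondLaw hlf) at e1
    change ∫ ω, Real.exp u ^ ni A B ε ω ∂(bondLaw hlf) ≤ _ at e2
    rw [Real.log_exp, ← Real.exp_add] at e1 e2
    obtain ⟨b1, b2⟩ := abs_le.1 (hP u hs1)
    obtain ⟨Q, hQ⟩ : ∃ Q, Q = Psi (Real.exp u) := ⟨_, rfl⟩
    rw [← hQ] at e1 e2 b1 b2
    have hC' : C' * |u| ^ 3 ≤ |C'| * |u| ^ 3 :=
      mul_le_mul_of_nonneg_right (le_abs_self _) (by positivity)
    have hc1 : 2 * π * cM = 1 / √3 := by
      unfold cM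
      field_simp
    have hc2 : 2 * π * vM = vD := by
      unfold vM vD
      field_simp
      ring
    have hmain : 2 * π * (cM * u + vM * u ^ 2 / 2) * M = u * M / √3 + vD * M * u ^ 2 / 2 := by
      have : 2 * π * (cM * u + vM * u ^ 2 / 2) * M =
          (2 * π * cM) * u * M + (2 * π * vM) * M * u ^ 2 / 2 := by ring
      rw [this, hc1, hc2]
      ring
    have k1 : 2 * π * Q * M ≤ u * M / √3 + vD * M * u ^ 2 / 2 + 2 * π * |C'| * (M * |u| ^ 3) := by
      have : 2 * π * Q * M ≤ 2 * π * (cM * u + vM * u ^ 2 / 2 + |C'| * |u| ^ 3) * M := by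
        refine mul_le_mul_of_nonneg_right (mul_le_mul_of_nonneg_left ?_ (by positivity)) hM0
        linarith
      refine this.trans (le_of_eq ?_)
      rw [← hmain]
      ring
    have k2 : u * M / √3 + vD * M * u ^ 2 / 2 - 2 * π * |C'| * (M * |u| ^ 3) ≤ 2 * π * Q * M := by
      have : 2 * π * (cM * u + vM * u ^ 2 / 2 - |C'| * |u| ^ 3) * M ≤ 2 * π * Q * M := by
        refine mul_le_mul_of_nonneg_right (mul_le_mul_of_nonneg_left ?_ (by positivity)) hM0
        linarith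
      refine le_trans (le_of_eq ?_) this
      rw [← hmain]
      ring
    have hua := abs_nonneg u
    have p1 : 0 ≤ C * (M * |u| ^ 3) := by positivity
    have p2 : 0 ≤ 2 * π * |C'| * |u| := by positivity
    have hexpand : (C + 2 * π * |C'|) * (|u| + M * |u| ^ 3) =
        C * |u| + 2 * π * |C'| * (M * |u| ^ 3) + (C * (M * |u| ^ 3) + 2 * π * |C'| * |u|) := by
      ring
    constructor
    · refine le_trans ?_ (mul_le_mul_of_nonneg_left e1 (Real.exp_pos _).le)
      rw [← Real.exp_add]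
      apply Real.exp_le_exp.2
      rw [hexpand]
      linarith
    · refine (mul_le_mul_of_nonneg_left e2 (Real.exp_pos _).le).trans ?_
      rw [← Real.exp_add]
      apply Real.exp_le_exp.2
      rw [hexpand]
      linarith

end Pool.Agent.Helper859_NL.D03
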