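import Pool.Agent.Helper859_NL.Stm
import Pool.Agent.W12.NC.InB

set_option autoImplicit false

namespace Pool.Agent.Helper859_NL.J01

open H974 Finset Pool.Agent.W819.EN Pool.Agent.W819.NC MeasureTheory
open Pool.Agent.Y996.NL Pool.Agent.Helper859_NL
open scoped Real
open Pool.Agent.W12.NC.InB

/-- the induction, for `4 ≤ s` and `16 ≤ L`, uniformly in `t ∈ [1, 2]` -/
lemma mainU {N : NT} {W : WT} {K : KT} (h : Sys N W K) (hl : LocG N) (ha : AMom N)
    (s : ℝ) (L : ℕ) (hs : 1 ≤ s) (hs4 : 4 ≤ s) (hL : 16 ≤ L) :
    ∃ A : ℝ, 0 < A ∧ ∀ t : ℝ, 1 ≤ t → t ≤ 2 →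
    ∀ (v : Vtx) (r : ℕ) (S : Finset Edg) (b R : ℕ), r ≤ b → 1 ≤ b → 2 * b ≤ R → R ≤ L * b →
      bx v R ⊆ S →
      Ex P2 S (fun F => t ^ N F v r (2 * b) * s ^ (N F v b R + W F v b)) ≤ A * G N t r (2 * b) := by
  obtain ⟨C1, hC1, h1⟩ := vmom h ha s hs L
  obtain ⟨Cb, hCb, h2⟩ := ha 4 (by norm_num) 8
  have ht12 : (0 : ℝ) < 2 ^ 12 := by positivity
  refine ⟨C1 + Cb + 2 ^ 12 * C1, by positivity, ?_⟩
  set A := C1 + Cb + 2 ^ 12 * C1 with hA
  have hA1 : C1 ≤ A := by have := mul_pos ht12 hC1; rw [hA]; linarith
  have hA2 : 1 / 2 * Cb + 1 / 2 * C1 ≤ A := by have := mul_pos ht12 hC1; rw [hA]; linarith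
  have hA3 : 2 ^ 12 * C1 ≤ A := by rw [hA]; linarith
  intro t ht ht2
  have hts : t ^ 2 ≤ s := by nlinarith
  intro v r S b
  induction b using Nat.strong_induction_on with
  | _ b ih =>
    intro R hrb hb hbR hRL hS
    have hG1 := G_one (N := N) t ht r (2 * b)
    have hV := h1 v b R S hb hbR hRL hS
    by_cases hcase : 4 * max r 1 ≤ b
    · -- the step
      set b' := b / 4 with hb'
      have hm1 : r ≤ max r 1 := le_max_left _ _
      have hm2 : 1 ≤ max r 1 := le_max_right _ _
      have k1 : max r 1 ≤ b' := by omega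
      have k2 : r ≤ b' := hm1.trans k1
      have k3 : 1 ≤ b' := hm2.trans k1
      have k4 : 2 * b' ≤ b - 1 := by omega
      have k5 : b ≤ 7 * b' := by omega
      have k6 : 2 * b ≤ L * b' := by
        have : 16 * b' ≤ L * b' := Nat.mul_le_mul_right _ hL
        omega
      have hS2 : bx v ((2 * b : ℕ) : ℤ) ⊆ S := (bx_mono v (by exact_mod_cast hbR)).trans hS
      have i1 := ih b' (by omega) (2 * b) k2 k3 (by omega) k6 hS2
      -- the second term
      have hX : ∀ F : Finset Edg, t ^ N F v r (2 * b') =
          t ^ N (F ∩ bx v ((b : ℤ) - 1)) v r (2 * b') := by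
        intro F
        rw [← loc' h.geo (by omega)]
        exact sdiff_subset.trans (bx_mono v (by push_cast; omega))
      have hY : ∀ F : Finset Edg, (s ^ (N F v b R + W F v b)) ^ 2 =
          (s ^ (N (F ∩ an v b R) v b R + W (F ∩ an v b R) v b)) ^ 2 := by
        intro F
        rw [← loc' h.geo (by omega) (le_refl _), ← wloc' h hb (an_mono hbR)]
      have hsub1 : bx v ((b : ℤ) - 1) ⊆ S := (bx_mono v (by omega)).trans hS
      have hsub2 : an v b R ⊆ S := sdiff_subset.trans hS
      have hdis : Disjoint (bx v ((b : ℤ) - 1)) (an v b R) := by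
        unfold an
        exact disjoint_sdiff
      have hind := Ex_mul_indep (p := P2) hsub1 hsub2 hdis (f := fun F => t ^ N F v r (2 * b'))
        (g := fun F => (s ^ (N F v b R + W F v b)) ^ 2) (fun F _ => hX F) (fun F _ => hY F)
      have hS' : bx v ((2 * b' : ℕ) : ℤ) ⊆ S := (bx_mono v (by push_cast; omega)).trans hS
      have g1 := hl t v r (2 * b') S (by omega) hS'
      have g2 := hl t v r (2 * b) S (by omega) hS2
      have g3 : G N t r (2 * b') ≤ G N t r (2 * b) := by
        rw [← g1, ← g2]
        apply Ex_mono okP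
        intro F _
        exact pow_le_pow_right₀ ht (h.geo.mono F v r r (2 * b') (2 * b) le_rfl (by omega))
      rw [g1] at hind
      have hG' : 0 ≤ G N t r (2 * b') := zero_le_one.trans (G_one t ht r (2 * b'))
      have hsec : Ex P2 S (fun F => t ^ N F v r (2 * b') * (s ^ (N F v b R + W F v b)) ^ 2) ≤
          G N t r (2 * b') * C1 := by
        rw [hind]
        exact mul_le_mul_of_nonneg_left hV hG'
      calc Ex P2 S (fun F => t ^ N F v r (2 * b) * s ^ (N F v b R + W F v b))
          ≤ Ex P2 S (fun F => 1 / 2 * (t ^ N F v r (2 * b') *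
              s ^ (N F v b' (2 * b) + W F v b')) +
              1 / 2 * (t ^ N F v r (2 * b') * (s ^ (N F v b R + W F v b)) ^ 2)) := by
            apply Ex_mono okP
            intro F _
            have j := h.join F v b' r (2 * b) k3 k2 (by omega)
            set a := N F v b' (2 * b) + W F v b' with ha'
            set V := N F v b R + W F v b
            have j2 : N F v r (2 * b) ≤ N F v r (2 * b') + a := by omega
            have e1 : t ^ N F v r (2 * b) ≤ t ^ N F v r (2 * b') * t ^ a := by
              rw [← pow_add]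
              exact pow_le_pow_right₀ ht j2
            have e2 : t ^ a * s ^ V ≤ 1 / 2 * s ^ a + 1 / 2 * (s ^ V) ^ 2 := by
              refine (amgm _ _).trans ?_
              have : (t ^ a) ^ 2 ≤ s ^ a := by
                rw [← pow_mul, mul_comm a 2, pow_mul]
                exact pow_le_pow_left₀ (by positivity) hts a
              linarith
            have hX0 : 0 ≤ t ^ N F v r (2 * b') := by positivity
            calc t ^ N F v r (2 * b) * s ^ V ≤ t ^ N F v r (2 * b') * t ^ a * s ^ V :=
                  mul_le_mul_of_nonneg_right e1 (by positivity)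
              _ = t ^ N F v r (2 * b') * (t ^ a * s ^ V) := by ring
              _ ≤ t ^ N F v r (2 * b') * (1 / 2 * s ^ a + 1 / 2 * (s ^ V) ^ 2) :=
                  mul_le_mul_of_nonneg_left e2 hX0
              _ = _ := by ring
        _ = 1 / 2 * Ex P2 S (fun F => t ^ N F v r (2 * b') *
              s ^ (N F v b' (2 * b) + W F v b')) +
            1 / 2 * Ex P2 S (fun F => t ^ N F v r (2 * b') *
              (s ^ (N F v b R + W F v b)) ^ 2) := by
            rw [Ex_add, Ex_mul_left, Ex_mul_left]
        _ ≤ 1 / 2 * (A * G N t r (2 * b')) + 1 / 2 * (G N t r (2 * b') * C1) := by linarith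
        _ ≤ 1 / 2 * (A * G N t r (2 * b')) + 1 / 2 * (G N t r (2 * b') * A) := by
            have := mul_le_mul_of_nonneg_left hA1 hG'
            linarith
        _ = A * G N t r (2 * b') := by ring
        _ ≤ A * G N t r (2 * b) := mul_le_mul_of_nonneg_left g3 (by linarith)
    · -- the base
      push Not at hcase
      have hS2 : bx v ((2 * b : ℕ) : ℤ) ⊆ S := (bx_mono v (by exact_mod_cast hbR)).trans hS
      rcases Nat.eq_zero_or_pos r with hr | hr
      · have hb3 : b ≤ 3 := by
          rw [hr] at hcase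
          simp at hcase
          omega
        calc Ex P2 S (fun F => t ^ N F v r (2 * b) * s ^ (N F v b R + W F v b))
            ≤ Ex P2 S (fun F => 2 ^ 12 * (s ^ (N F v b R + W F v b)) ^ 2) := by
              apply Ex_mono okP
              intro F _
              have e1 : t ^ N F v r (2 * b) ≤ 2 ^ 12 :=
                (pow_le_pow_right₀ ht ((h.geo.le F v r (2 * b)).trans (by omega))).trans
                  (pow_le_pow_left₀ (by linarith) ht2 12)
              have e2 : s ^ (N F v b R + W F v b) ≤ (s ^ (N F v b R + W F v b)) ^ 2 := by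
                have : 1 ≤ s ^ (N F v b R + W F v b) := one_le_pow₀ hs
                nlinarith
              exact mul_le_mul e1 e2 (by positivity) (by positivity)
          _ = 2 ^ 12 * Ex P2 S (fun F => (s ^ (N F v b R + W F v b)) ^ 2) := by
              rw [Ex_mul_left]
          _ ≤ 2 ^ 12 * C1 := mul_le_mul_of_nonneg_left hV ht12.le
          _ ≤ A * 1 := by linarith
          _ ≤ A * G N t r (2 * b) := mul_le_mul_of_nonneg_left hG1 (by linarith)
      · have hb4 : b < 4 * r := by
          rwa [max_eq_left (by omega)] at hcase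
        have h3 := h2 v r (2 * b) S hr (by omega) (by omega) hS2
        calc Ex P2 S (fun F => t ^ N F v r (2 * b) * s ^ (N F v b R + W F v b))
            ≤ Ex P2 S (fun F => 1 / 2 * (4 : ℝ) ^ N F v r (2 * b) +
                1 / 2 * (s ^ (N F v b R + W F v b)) ^ 2) := by
              apply Ex_mono okP
              intro F _
              refine (amgm _ _).trans ?_
              have e3 : (t ^ N F v r (2 * b)) ^ 2 ≤ (4 : ℝ) ^ N F v r (2 * b) := by
                rw [← pow_mul, mul_comm (N F v r (2 * b)) 2, pow_mul]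
                exact pow_le_pow_left₀ (by positivity) (by nlinarith) _
              linarith
          _ = 1 / 2 * Ex P2 S (fun F => (4 : ℝ) ^ N F v r (2 * b)) +
                1 / 2 * Ex P2 S (fun F => (s ^ (N F v b R + W F v b)) ^ 2) := by
              rw [Ex_add, Ex_mul_left, Ex_mul_left]
          _ ≤ 1 / 2 * Cb + 1 / 2 * C1 := by linarith
          _ ≤ A * 1 := by linarith
          _ ≤ A * G N t r (2 * b) := mul_le_mul_of_nonneg_left hG1 (by linarith)

/-
Uniform version of `Pool.Agent.W12.NC.t_INB`. Copy the proof in `Pool/Agent/W12/NC/InB.lean` (lemma `InB.main`, then the final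
theorem) and make the constant uniform in `t ∈ [1, 2]`: replace `s` by `max s 4` (so `t ^ 2 ≤ 4 ≤ s`), take `Cb` from
`ha 4 _ 8` (as `(t ^ 2) ^ n ≤ 4 ^ n`) instead of `ha (t ^ 2)`, and `A := C1 + Cb + 2 ^ 12 * C1` instead of
`C1 + Cb + t ^ 12 * C1`. Everything else is unchanged (the induction is for fixed `t`).
-/
theorem target {N : NT} {W : WT} {K : KT} (h : Sys N W K) (hl : LocG N) (ha : AMom N) :
    InBU N W := by
  intro s L hs
  obtain ⟨A, hA, hm⟩ := mainU h hl ha (max s 4) (max L 16)
    (hs.trans (le_max_left _ _)) (le_max_right _ _) (le_max_right _ _)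
  refine ⟨A, hA, fun t ht ht2 v r b R S hrb hb hbR hRL hS => ?_⟩
  refine le_trans ?_ (hm t ht ht2 v r S b R hrb hb hbR
    (hRL.trans (Nat.mul_le_mul_right _ (le_max_left _ _))) hS)
  apply Ex_mono okP
  intro F _
  apply mul_le_mul_of_nonneg_left _ (by positivity)
  exact pow_le_pow_left₀ (by linarith) (le_max_left _ _) _

end Pool.Agent.Helper859_NL.J01
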