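import Pool.Agent.Helper859_NL.Stm
import Pool.Agent.W933.NC.OutB

set_option autoImplicit false

namespace Pool.Agent.Helper859_NL.J02

open H974 Finset Pool.Agent.W819.EN Pool.Agent.W819.NC MeasureTheory
open Pool.Agent.Y996.NL Pool.Agent.Helper859_NL
open Pool.Agent.W933.NC
open scoped Real

theorem target {N : NT} {W : WT} {K : KT} (h : Sys N W K) (hl : LocG N) (ha : AMom N) :
    OutBU N W := by
  have hok : Ok P2 := okq (q := (1 / 2 : ℝ)) (by norm_num) (by norm_num)
  intro s L hs
  -- enlarge `s` and `L`
  obtain ⟨s', hs', h4s, hss⟩ : ∃ s' : ℝ, 1 ≤ s' ∧ 4 ≤ s' ∧ s ≤ s' :=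
    ⟨max s 4, le_max_of_le_left hs, le_max_right _ _, le_max_left _ _⟩
  obtain ⟨L', hL4, hLL⟩ : ∃ L' : ℕ, 4 ≤ L' ∧ L ≤ L' := ⟨max L 4, le_max_right _ _, le_max_left _ _⟩
  obtain ⟨C1, hC1, h1⟩ := mom h ha s' hs' L'
  obtain ⟨C2, hC2, h2⟩ := ha 4 (by norm_num) 8
  refine ⟨C1 + C2, by positivity, fun t ht htt => ?_⟩
  have ht0 : (0 : ℝ) < t := by linarith
  have ht4 : t ^ 2 ≤ 4 := by nlinarith
  have hts : t ^ 2 ≤ s' := ht4.trans h4s
  have hs0 : (0 : ℝ) < s' := by linarith
  have key : ∀ (d : ℕ) (v : Vtx) (y x R : ℕ) (S : Finset Edg), R - x ≤ d → 1 ≤ y → y ≤ x →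
      x ≤ L' * y → 2 * x ≤ R → bx v R ⊆ S →
      Ex P2 S (fun F => t ^ N F v x R * s' ^ (N F v y (2 * x) + W F v x)) ≤
        (C1 + C2) * G N t x R := by
    intro d
    induction d with
    | zero =>
      intro v y x R S hd hy hyx hxL hR hS
      omega
    | succ d ih =>
      intro v y x R S hd hy hyx hxL hR hS
      have hx2 : bx v ((2 * x : ℕ) : ℤ) ⊆ S :=
        (bx_mono v (by exact_mod_cast hR)).trans hS
      have e1 := h1 v y x S hy hyx hxL hx2
      by_cases hR8 : 8 * x ≤ R
      · have e0 := ih v x (4 * x) R S (by omega) (by omega) (by omega)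
          (Nat.mul_le_mul_right x hL4) (by omega) hS
        have e2 : Ex P2 S (fun F => t ^ N F v x R * s' ^ (N F v y (2 * x) + W F v x)) ≤
            Ex P2 S (fun F => (1 / 2 * (t ^ N F v (4 * x) R *
              s' ^ (N F v x (2 * (4 * x)) + W F v (4 * x))) +
              1 / 2 * (t ^ N F v (4 * x) R * (s' ^ (N F v y (2 * x) + W F v x)) ^ 2))) := by
          refine Ex_mono hok fun F _ => ?_
          have j := h.join F v (4 * x) x R (by omega) (by omega) (by omega)
          have a1 : t ^ N F v x R ≤ t ^ N F v (4 * x) R *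
              t ^ (N F v x (2 * (4 * x)) + W F v (4 * x)) := by
            rw [← pow_add]
            exact pow_le_pow_right₀ ht (by omega)
          have a2 : (t ^ (N F v x (2 * (4 * x)) + W F v (4 * x))) ^ 2 ≤
              s' ^ (N F v x (2 * (4 * x)) + W F v (4 * x)) := by
            rw [← pow_mul, mul_comm _ 2, pow_mul]
            exact pow_le_pow_left₀ (by positivity) hts _
          have a3 := amgm (t ^ (N F v x (2 * (4 * x)) + W F v (4 * x)))
            (s' ^ (N F v y (2 * x) + W F v x))
          calc t ^ N F v x R * s' ^ (N F v y (2 * x) + W F v x)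
              ≤ t ^ N F v (4 * x) R * t ^ (N F v x (2 * (4 * x)) + W F v (4 * x)) *
                s' ^ (N F v y (2 * x) + W F v x) := by gcongr
            _ = t ^ N F v (4 * x) R * (t ^ (N F v x (2 * (4 * x)) + W F v (4 * x)) *
                s' ^ (N F v y (2 * x) + W F v x)) := by ring
            _ ≤ t ^ N F v (4 * x) R * (1 / 2 *
                s' ^ (N F v x (2 * (4 * x)) + W F v (4 * x)) +
                1 / 2 * (s' ^ (N F v y (2 * x) + W F v x)) ^ 2) := by
                refine mul_le_mul_of_nonneg_left ?_ (by positivity)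
                linarith
            _ = _ := by ring
        refine e2.trans ?_
        rw [Ex_add, Ex_mul_left, Ex_mul_left]
        have e3 : Ex P2 S (fun F => t ^ N F v (4 * x) R *
            (s' ^ (N F v y (2 * x) + W F v x)) ^ 2) =
            Ex P2 S (fun F => t ^ N F v (4 * x) R) *
            Ex P2 S (fun F => (s' ^ (N F v y (2 * x) + W F v x)) ^ 2) := by
          have d1 : Disjoint (an v (4 * x) R) (bx v ((2 * x : ℕ) : ℤ)) := by
            rw [Finset.disjoint_left]
            intro z hz hz'
            unfold an at hz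
            rw [Finset.mem_sdiff] at hz
            exact hz.2 (bx_mono _ (by push_cast; omega) hz')
          refine Ex_mul_indep (p := P2) ((an_sub_bx v (4 * x) R).trans hS) hx2 d1
            (fun F _ => ?_) (fun F _ => ?_)
          · rw [locN h.geo (by omega) (le_refl _) F]
          · rw [locN h.geo (by omega) (an_sub_bx v y (2 * x)) F,
              locW h (by omega) (an_sub_bx v x (2 * x)) F]
        have e4 : Ex P2 S (fun F => t ^ N F v (4 * x) R) = G N t (4 * x) R :=
          hl t v (4 * x) R S (by omega) hS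
        have e5 : G N t (4 * x) R ≤ G N t x R := by
          unfold G
          refine Ex_mono hok fun F _ => ?_
          exact pow_le_pow_right₀ ht (h.geo.mono F _ _ _ _ _ (by omega) le_rfl)
        have e6 : 0 ≤ G N t (4 * x) R := Ex_nonneg hok fun F _ => by positivity
        rw [e3, e4]
        have e7 : G N t (4 * x) R * Ex P2 S (fun F => (s' ^ (N F v y (2 * x) + W F v x)) ^ 2) ≤
            G N t (4 * x) R * C1 := mul_le_mul_of_nonneg_left e1 e6
        have e8 : G N t (4 * x) R * C2 ≥ 0 := by positivity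
        nlinarith
      · have e2 := h2 v x R S (by omega) (by omega) (by omega) hS
        have e3 : Ex P2 S (fun F => t ^ N F v x R * s' ^ (N F v y (2 * x) + W F v x)) ≤
            Ex P2 S (fun F => (1 / 2 * (4 : ℝ) ^ N F v x R +
              1 / 2 * (s' ^ (N F v y (2 * x) + W F v x)) ^ 2)) := by
          refine Ex_mono hok fun F _ => ?_
          have := amgm (t ^ N F v x R) (s' ^ (N F v y (2 * x) + W F v x))
          rw [← pow_mul, mul_comm (N F v x R) 2, pow_mul] at this
          have h4 : (t ^ 2) ^ N F v x R ≤ (4 : ℝ) ^ N F v x R :=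
            pow_le_pow_left₀ (by positivity) ht4 _
          linarith
        have e4 : 1 ≤ G N t x R := by
          unfold G
          calc (1 : ℝ) = Ex P2 (bx (0, 0) R) (fun _ => (1 : ℝ)) := (Ex_const _ _ _).symm
            _ ≤ _ := Ex_mono hok fun F _ => one_le_pow₀ ht
        refine e3.trans ?_
        rw [Ex_add, Ex_mul_left, Ex_mul_left]
        have e5 : (C1 + C2) * 1 ≤ (C1 + C2) * G N t x R :=
          mul_le_mul_of_nonneg_left e4 (by positivity)
        linarith
  intro v y x R S hy hyx hxL hR hS
  refine le_trans (Ex_mono hok fun F _ => ?_)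
    (key (R - x) v y x R S le_rfl hy hyx (hxL.trans (Nat.mul_le_mul_right y hLL)) hR hS)
  have : s ^ (N F v y (2 * x) + W F v x) ≤ s' ^ (N F v y (2 * x) + W F v x) :=
    pow_le_pow_left₀ (by linarith) hss _
  exact mul_le_mul_of_nonneg_left this (by positivity)

end Pool.Agent.Helper859_NL.J02
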