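import Pool.Agent.Helper859_NL.Stm
import Pool.Agent.W509.NC.Dbl

set_option autoImplicit false

namespace Pool.Agent.Helper859_NL.J03

open H974 Finset Pool.Agent.W819.EN Pool.Agent.W819.NC MeasureTheory
open Pool.Agent.Y996.NL Pool.Agent.Helper859_NL
open scoped Real

open Pool.Agent.W509.NC


lemma lowU {N : NT} (h : Geo N) (ha : AMom N) (L : ℕ) :
    ∃ D : ℝ, 0 < D ∧ ∀ t : ℝ, 1 / 2 ≤ t → t ≤ 1 → ∀ r R : ℕ, r ≤ R → R ≤ L * max r 1 →
      1 ≤ D * G N t r R := by
  obtain ⟨C, hC, hC'⟩ := ha 2 (by norm_num) L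
  refine ⟨C + 2 ^ (2 * L), by positivity, fun t ht h1 r R hrR hR => ?_⟩
  have h0 : 0 < t := by linarith
  have hG0 := G_nonneg N h0 r R
  have h2t : ∀ n : ℕ, (1 : ℝ) ≤ 2 ^ n * t ^ n := fun n => by
    rw [← mul_pow]; exact one_le_pow₀ (by linarith)
  rcases Nat.eq_zero_or_pos r with h2 | h2
  · subst h2
    have hR' : R ≤ L := by simpa using hR
    have e1 : t ^ (2 * L) ≤ G N t 0 R := by
      have := Ex_mono hok (S := bx (0, 0) R) (f := fun _ => t ^ (2 * L))
        (g := fun F => t ^ N F (0, 0) 0 R) (fun F _ =>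
          pow_le_pow_of_le_one h0.le h1 ((h.le F (0, 0) 0 R).trans (by omega)))
      rwa [Ex_const] at this
    have e2 := h2t (2 * L)
    have e3 : (2 : ℝ) ^ (2 * L) * t ^ (2 * L) ≤ 2 ^ (2 * L) * G N t 0 R :=
      mul_le_mul_of_nonneg_left e1 (by positivity)
    nlinarith [mul_nonneg hC.le hG0]
  · have hR' : R ≤ L * r := by
      rwa [max_eq_left h2] at hR
    have e1 := hC' (0, 0) r R (bx (0, 0) R) h2 hrR hR' (Finset.Subset.refl _)
    have e2 : Ex P2 (bx (0, 0) R) (fun _ => 2 * C) ≤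
        Ex P2 (bx (0, 0) R) (fun F => C ^ 2 * t ^ N F (0, 0) r R +
          2 ^ N F (0, 0) r R) := by
      refine Ex_mono hok fun F _ => ?_
      have e3 := h2t (N F (0, 0) r R)
      have e4 : 0 < t ^ N F (0, 0) r R := by positivity
      have e5 : (0 : ℝ) < 2 ^ N F (0, 0) r R := by positivity
      have e6 : t ^ N F (0, 0) r R * (2 * C) ≤
          t ^ N F (0, 0) r R * (C ^ 2 * t ^ N F (0, 0) r R + 2 ^ N F (0, 0) r R) := by
        nlinarith [sq_nonneg (C * t ^ N F (0, 0) r R - 1)]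
      exact le_of_mul_le_mul_left e6 e4
    rw [Ex_const, Ex_add, Ex_mul_left] at e2
    have e3 : 2 * C ≤ C ^ 2 * G N t r R + C := e2.trans (by unfold G; linarith)
    have e4 : 1 ≤ C * G N t r R := by
      by_contra hcon
      push Not at hcon
      nlinarith
    have e5 : 0 ≤ (2 : ℝ) ^ (2 * L) * G N t r R := by positivity
    nlinarith

/-- choice of the constants -/
lemma constsU {C D : ℝ} (hC : 0 < C) (hD : 0 < D) :
    ∃ (k : ℕ) (A : ℝ), 0 < A ∧ D ≤ A ∧ A * (C * ((4 : ℝ)⁻¹) ^ k) ≤ 1 / 2 ∧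
      ∀ t : ℝ, 1 / 2 ≤ t → 2 * (t ^ k)⁻¹ ≤ A := by
  obtain ⟨k, hk⟩ := pow_unbounded_of_one_lt (2 * (2 + D) * C) (by norm_num : (1 : ℝ) < 2)
  refine ⟨k, 2 * 2 ^ k + D, by positivity, ?_, ?_, ?_⟩
  · have : (0 : ℝ) < 2 ^ k := by positivity
    linarith
  · have e1 : ((4 : ℝ)⁻¹) ^ k = ((2 : ℝ) ^ k)⁻¹ * ((2 : ℝ) ^ k)⁻¹ := by
      rw [inv_pow, ← mul_inv, ← mul_pow]; norm_num
    have e2 : (2 : ℝ) ^ k * ((2 : ℝ) ^ k)⁻¹ = 1 := mul_inv_cancel₀ (by positivity)
    have e4 : (0 : ℝ) < ((2 : ℝ) ^ k)⁻¹ := by positivity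
    have e3 : ((2 : ℝ) ^ k)⁻¹ ≤ 1 := inv_le_one_of_one_le₀ (one_le_pow₀ (by norm_num))
    rw [e1]
    have e5 : (2 * 2 ^ k + D) * (C * (((2 : ℝ) ^ k)⁻¹ * ((2 : ℝ) ^ k)⁻¹)) =
        (2 * (2 ^ k * ((2 : ℝ) ^ k)⁻¹) + D * ((2 : ℝ) ^ k)⁻¹) * C * ((2 : ℝ) ^ k)⁻¹ := by ring
    rw [e5, e2, ← div_eq_mul_inv, div_le_iff₀ (by positivity)]
    have e6 : (2 * 1 + D * ((2 : ℝ) ^ k)⁻¹) * C ≤ (2 + D) * C := by
      apply mul_le_mul_of_nonneg_right _ hC.le
      nlinarith
    nlinarith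
  · intro t ht
    have e1 : (t ^ k)⁻¹ ≤ 2 ^ k := by
      rw [← inv_pow]
      refine pow_le_pow_left₀ (by positivity) ?_ k
      rw [inv_le_comm₀ (by linarith) (by norm_num)]
      linarith
    linarith

theorem din_stepU {N : NT} {W : WT} {K : KT} (h : Sys N W K) (hl : LocG N) (ha : AMom N)
    : ∃ A : ℝ, 0 < A ∧ ∀ t : ℝ, 1 / 2 ≤ t → t ≤ 1 → ∀ r c : ℕ, max r 1 ≤ c → G N t r (2 * c) ≤ A * G N t r (16 * c) := by
  obtain ⟨D, hD, hD''⟩ := lowU h.geo ha 64
  obtain ⟨C, hC, hC'⟩ := tail h ha (u := 4) (by norm_num)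
  obtain ⟨k, A, hA, hDA, hAe, hA2'⟩ := constsU hC hD
  refine ⟨A, hA, fun t ht h1 r c => ?_⟩
  have h0 : 0 < t := by linarith
  have hD' := hD'' t ht h1
  have hA2 := hA2' t ht
  induction c using Nat.strong_induction_on with
  | _ c ih =>
  intro hc
  have hc1 : 1 ≤ c := (le_max_right _ _).trans hc
  have hrc : r ≤ c := (le_max_left _ _).trans hc
  by_cases hc4 : max r 1 ≤ c / 4
  · have hd1 : 1 ≤ c / 4 := (le_max_right _ _).trans hc4
    have hrd : r ≤ c / 4 := (le_max_left _ _).trans hc4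
    have i1 := ih (c / 4) (by omega) hc4
    have i2 : G N t r (16 * (c / 4)) ≤ G N t r (2 * c) :=
      G_le h.geo hl h0 h1 (by omega) le_rfl (by omega)
    have i3 : G N t r (2 * (c / 4)) ≤ A * G N t r (2 * c) :=
      i1.trans (mul_le_mul_of_nonneg_left i2 hA.le)
    have hb1 : bx (0, 0) ((2 * c : ℕ) : ℤ) ⊆ bx (0, 0) ((16 * c : ℕ) : ℤ) :=
      bx_mono _ (by push_cast; omega)
    have hb2 : bx (0, 0) ((2 * (c / 4) : ℕ) : ℤ) ⊆ bx (0, 0) ((16 * c : ℕ) : ℤ) :=
      bx_mono _ (by push_cast; omega)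
    have hT : an (0, 0) c (16 * c) ⊆ bx (0, 0) ((16 * c : ℕ) : ℤ) := sdiff_subset
    have hT2 : an (0, 0) c (2 * c) ⊆ an (0, 0) c (16 * c) :=
      Finset.sdiff_subset_sdiff hb1 (Finset.Subset.refl _)
    have hd : Disjoint (bx (0, 0) ((2 * (c / 4) : ℕ) : ℤ)) (an (0, 0) c (16 * c)) := by
      rw [Finset.disjoint_left]
      intro x hx hx'
      unfold an at hx'
      rw [Finset.mem_sdiff] at hx'
      exact hx'.2 (bx_mono _ (by push_cast; omega) hx)
    have hi : Ex P2 (bx (0, 0) ((16 * c : ℕ) : ℤ)) (fun F => t ^ N F (0, 0) r (2 * (c / 4)) *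
        ind (k < N F (0, 0) c (16 * c) + W F (0, 0) c)) =
        Ex P2 (bx (0, 0) ((16 * c : ℕ) : ℤ)) (fun F => t ^ N F (0, 0) r (2 * (c / 4))) *
        Pr P2 (bx (0, 0) ((16 * c : ℕ) : ℤ))
          (fun F => k < N F (0, 0) c (16 * c) + W F (0, 0) c) := by
      refine Ex_mul_indep (p := P2) hb2 hT hd (fun F _ => ?_) (fun F _ => ?_)
      · rw [loc' h.geo (by omega) (sdiff_subset) F]
      · rw [loc' h.geo (by omega) (Finset.Subset.refl _) F, wloc' h hc1 hT2 F]
    have hcore := core h0 h1 (Z := fun F => t ^ N F (0, 0) r (16 * c))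
      (X := fun F => t ^ N F (0, 0) r (2 * c)) (Y := fun F => t ^ N F (0, 0) r (2 * (c / 4)))
      (V := fun F => N F (0, 0) c (16 * c) + W F (0, 0) c) (S := bx (0, 0) ((16 * c : ℕ) : ℤ)) k
      (fun F => by positivity)
      (fun F => pow_le_pow_of_le_one h0.le h1 (h.geo.mono F _ _ _ _ _ le_rfl (by omega)))
      (fun F => by
        rw [← pow_add]
        refine pow_le_pow_of_le_one h0.le h1 ?_
        have := h.join F (0, 0) c r (16 * c) hc1 hrc (by omega)
        omega) hi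
    rw [hl t (0, 0) r (2 * c) _ (by omega) hb1, hl t (0, 0) r (2 * (c / 4)) _ (by omega) hb2,
      hl t (0, 0) r (16 * c) _ (by omega) (Finset.Subset.refl _)] at hcore
    have htl := hC' c c (16 * c) (bx (0, 0) ((16 * c : ℕ) : ℤ)) hc1 (by omega) le_rfl hc1
      (Finset.Subset.refl _) (bx_mono _ (by push_cast; omega)) k
    refine fin h0 hA2 ?_ (Pr_nonneg hok _ _) (G_nonneg N h0 _ _) i3 (G_nonneg N h0 _ _) hcore
    exact (mul_le_mul_of_nonneg_left htl hA.le).trans hAe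
  · push Not at hc4
    have e1 := hD' r (16 * c) (by omega) (by omega)
    have e2 := G_le_one N h0 h1 r (2 * c)
    have e3 := G_nonneg N h0 r (16 * c)
    have e4 : D * G N t r (16 * c) ≤ A * G N t r (16 * c) := mul_le_mul_of_nonneg_right hDA e3
    linarith

theorem t_DINU {N : NT} {W : WT} {K : KT} (h : Sys N W K) (hl : LocG N) (ha : AMom N) :
    DInU N := by
  intro M
  obtain ⟨A, hA, hA''⟩ := din_stepU h hl ha
  obtain ⟨D, hD, hD''⟩ := lowU h.geo ha (2 * M)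
  refine ⟨A ^ M + D, by positivity, fun t ht h1 r R R' hrR hR1 hRR' hR' => ?_⟩
  have h0 : 0 < t := by linarith
  have hD' := hD'' t ht h1
  have hA' := hA'' t ht h1
  have hg0 := G_nonneg N h0 r R'
  by_cases hc : 2 * max r 1 ≤ R
  · have hit : ∀ j : ℕ, G N t r R ≤ A ^ j * G N t r (4 ^ j * R) := by
      intro j
      induction j with
      | zero => simp
      | succ j ih =>
        have hj : 1 ≤ 4 ^ j := Nat.one_le_pow _ _ (by norm_num)
        have hjR : R ≤ 4 ^ j * R := Nat.le_mul_of_pos_left _ hj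
        have e0 : (4 : ℕ) ^ (j + 1) * R = 4 * (4 ^ j * R) := by ring
        set Q := 4 ^ j * R with hQ
        have e1 : G N t r Q ≤ G N t r (2 * (Q / 2)) :=
          G_le h.geo hl h0 h1 (by omega) le_rfl (by omega)
        have e2 := hA' r (Q / 2) (by omega)
        have e3 : G N t r (16 * (Q / 2)) ≤ G N t r (4 ^ (j + 1) * R) :=
          G_le h.geo hl h0 h1 (by omega) le_rfl (by omega)
        have e4 : G N t r Q ≤ A * G N t r (4 ^ (j + 1) * R) :=
          e1.trans (e2.trans (mul_le_mul_of_nonneg_left e3 hA.le))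
        calc G N t r R ≤ A ^ j * G N t r Q := ih
          _ ≤ A ^ j * (A * G N t r (4 ^ (j + 1) * R)) :=
            mul_le_mul_of_nonneg_left e4 (by positivity)
          _ = A ^ (j + 1) * G N t r (4 ^ (j + 1) * R) := by ring
    have e1 := hit M
    have hM : M ≤ 4 ^ M := (Nat.lt_pow_self (by norm_num)).le
    have e2 : G N t r (4 ^ M * R) ≤ G N t r R' :=
      G_le h.geo hl h0 h1 (by omega) le_rfl (hR'.trans (Nat.mul_le_mul_right _ hM))
    have e3 : A ^ M * G N t r (4 ^ M * R) ≤ A ^ M * G N t r R' :=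
      mul_le_mul_of_nonneg_left e2 (by positivity)
    nlinarith [mul_nonneg hD.le hg0]
  · push Not at hc
    have e1 := hD' r R' (by omega) (hR'.trans (by nlinarith))
    have e2 := G_le_one N h0 h1 r R
    have e3 : 0 ≤ A ^ M * G N t r R' := by positivity
    nlinarith

theorem dout_stepU {N : NT} {W : WT} {K : KT} (h : Sys N W K) (hl : LocG N) (ha : AMom N)
    : ∃ A : ℝ, 0 < A ∧ ∀ t : ℝ, 1 / 2 ≤ t → t ≤ 1 → ∀ n x R : ℕ, R - x = n → 1 ≤ x → 4 * x ≤ R →
      G N t (4 * x) R ≤ A * G N t x R := by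
  obtain ⟨D, hD, hD''⟩ := lowU h.geo ha 16
  obtain ⟨C, hC, hC'⟩ := tail h ha (u := 4) (by norm_num)
  obtain ⟨k, A, hA, hDA, hAe, hA2'⟩ := constsU hC hD
  refine ⟨A, hA, fun t ht h1 n => ?_⟩
  have h0 : 0 < t := by linarith
  have hD' := hD'' t ht h1
  have hA2 := hA2' t ht
  induction n using Nat.strong_induction_on with
  | _ n ih =>
  intro x R hn hx hxR
  by_cases hc : 16 * x ≤ R
  · have i3 := ih (R - 4 * x) (by omega) (4 * x) R rfl (by omega) (by omega)
    rw [show 4 * (4 * x) = 16 * x by ring] at i3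
    have hb1 : bx (0, 0) ((2 * (4 * x) : ℕ) : ℤ) ⊆ bx (0, 0) (R : ℤ) :=
      bx_mono _ (by push_cast; omega)
    have hT : an (0, 0) (16 * x) R ⊆ bx (0, 0) (R : ℤ) := sdiff_subset
    have hT2 : an (0, 0) x (2 * (4 * x)) ⊆ bx (0, 0) ((2 * (4 * x) : ℕ) : ℤ) := sdiff_subset
    have hT3 : an (0, 0) (4 * x) (2 * (4 * x)) ⊆ bx (0, 0) ((2 * (4 * x) : ℕ) : ℤ) :=
      sdiff_subset
    have hd : Disjoint (an (0, 0) (16 * x) R) (bx (0, 0) ((2 * (4 * x) : ℕ) : ℤ)) := by
      rw [Finset.disjoint_left]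
      intro y hy' hy
      unfold an at hy'
      rw [Finset.mem_sdiff] at hy'
      exact hy'.2 (bx_mono _ (by push_cast; omega) hy)
    have hi : Ex P2 (bx (0, 0) (R : ℤ)) (fun F => t ^ N F (0, 0) (16 * x) R *
        ind (k < N F (0, 0) x (2 * (4 * x)) + W F (0, 0) (4 * x))) =
        Ex P2 (bx (0, 0) (R : ℤ)) (fun F => t ^ N F (0, 0) (16 * x) R) *
        Pr P2 (bx (0, 0) (R : ℤ))
          (fun F => k < N F (0, 0) x (2 * (4 * x)) + W F (0, 0) (4 * x)) := by
      refine Ex_mul_indep (p := P2) hT hb1 hd (fun F _ => ?_) (fun F _ => ?_)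
      · rw [loc' h.geo (by omega) (Finset.Subset.refl _) F]
      · rw [loc' h.geo (by omega) hT2 F, wloc' h (by omega) hT3 F]
    have hcore := core h0 h1 (Z := fun F => t ^ N F (0, 0) x R)
      (X := fun F => t ^ N F (0, 0) (4 * x) R) (Y := fun F => t ^ N F (0, 0) (16 * x) R)
      (V := fun F => N F (0, 0) x (2 * (4 * x)) + W F (0, 0) (4 * x))
      (S := bx (0, 0) (R : ℤ)) k
      (fun F => by positivity)
      (fun F => pow_le_pow_of_le_one h0.le h1 (h.geo.mono F _ _ _ _ _ (by omega) le_rfl))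
      (fun F => by
        rw [← pow_add]
        refine pow_le_pow_of_le_one h0.le h1 ?_
        have := h.join F (0, 0) (4 * x) x R (by omega) (by omega) (by omega)
        omega) hi
    rw [hl t (0, 0) (4 * x) R _ (by omega) (Finset.Subset.refl _),
      hl t (0, 0) (16 * x) R _ (by omega) (Finset.Subset.refl _),
      hl t (0, 0) x R _ (by omega) (Finset.Subset.refl _)] at hcore
    have htl := hC' x (4 * x) (2 * (4 * x)) (bx (0, 0) (R : ℤ)) hx (by omega) (by omega)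
      (by omega) hb1 (bx_mono _ (by push_cast; omega)) k
    refine fin h0 hA2 ?_ (Pr_nonneg hok _ _) (G_nonneg N h0 _ _) i3 (G_nonneg N h0 _ _) hcore
    exact (mul_le_mul_of_nonneg_left htl hA.le).trans hAe
  · push Not at hc
    have e1 := hD' x R (by omega) (by omega)
    have e2 := G_le_one N h0 h1 (4 * x) R
    have e3 := G_nonneg N h0 x R
    have e4 : D * G N t x R ≤ A * G N t x R := mul_le_mul_of_nonneg_right hDA e3
    linarith

theorem t_DOUTU {N : NT} {W : WT} {K : KT} (h : Sys N W K) (hl : LocG N) (ha : AMom N) :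
    DOutU N := by
  intro M
  obtain ⟨A, hA, hA''⟩ := dout_stepU h hl ha
  obtain ⟨D, hD, hD''⟩ := lowU h.geo ha (4 ^ M)
  refine ⟨A ^ M + D, by positivity, fun t ht h1 r' r R hr1 hrr hrR hM => ?_⟩
  have h0 : 0 < t := by linarith
  have hD' := hD'' t ht h1
  have hA' := hA'' t ht h1
  have hg0 := G_nonneg N h0 r' R
  by_cases hc : 4 ^ M * r' ≤ R
  · have hit : ∀ j : ℕ, 4 ^ j * r' ≤ R → G N t (4 ^ j * r') R ≤ A ^ j * G N t r' R := by
      intro j
      induction j with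
      | zero => intro _; simp
      | succ j ih =>
        intro hjR
        have hj : 1 ≤ 4 ^ j := Nat.one_le_pow _ _ (by norm_num)
        have e0 : (4 : ℕ) ^ (j + 1) * r' = 4 * (4 ^ j * r') := by ring
        have hjr : r' ≤ 4 ^ j * r' := Nat.le_mul_of_pos_left _ hj
        rw [e0] at hjR ⊢
        set Q := 4 ^ j * r' with hQ
        have e1 := hA' (R - Q) Q R rfl (by omega) hjR
        have e2 := ih (by omega)
        calc G N t (4 * Q) R ≤ A * G N t Q R := e1
          _ ≤ A * (A ^ j * G N t r' R) := mul_le_mul_of_nonneg_left e2 hA.le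
          _ = A ^ (j + 1) * G N t r' R := by ring
    have e1 := hit M hc
    have hM' : M ≤ 4 ^ M := (Nat.lt_pow_self (by norm_num)).le
    have e2 : G N t r R ≤ G N t (4 ^ M * r') R :=
      G_le h.geo hl h0 h1 hc (hM.trans (Nat.mul_le_mul_right _ hM')) le_rfl
    nlinarith [mul_nonneg hD.le hg0]
  · push Not at hc
    have e1 := hD' r' R (by omega) (by rw [max_eq_left hr1]; exact hc.le)
    have e2 := G_le_one N h0 h1 r R
    have e3 : 0 ≤ A ^ M * G N t r' R := by positivity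
    nlinarith


/-
Uniform versions of `Pool.Agent.W509.NC.t_DIN` and `t_DOUT` (for `t ∈ [1/2, 1]`).
-/
theorem target {N : NT} {W : WT} {K : KT} (h : Sys N W K) (hl : LocG N) (ha : AMom N) :
    DInU N ∧ DOutU N := ⟨t_DINU h hl ha, t_DOUTU h hl ha⟩

end Pool.Agent.Helper859_NL.J03

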