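import Pool.Agent.Helper859_NL.Stm
import Pool.Agent.W74.NC.TIN

set_option autoImplicit false

namespace Pool.Agent.Helper859_NL.J04

open H974 Finset Pool.Agent.W819.EN Pool.Agent.W819.NC MeasureTheory
open Pool.Agent.Y996.NL Pool.Agent.Helper859_NL
open scoped Real
open Pool.Agent.W74.NC (cs cs' ex_le thin indep G_mono wk)

/-
Uniform version of `Pool.Agent.W74.NC.t_TIN`. Copy the proof in `Pool/Agent/W74/NC/TIN.lean`; the two cases `1 ≤ t ≤ 2` and
`1/2 ≤ t ≤ 1`. Take the constants before `t`: `hi 4 (7 * M)` with `(t ^ 2) ^ k ≤ 4 ^ k`, `thin hG ha 4 _ (4 * M)` with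
`(t ^ 2) ^ k ≤ 4 ^ k`, `hd (7 * M)`, `thin hG ha 2 _ (4 * M)` with `(1 / t) ^ k ≤ 2 ^ k`, and the sum of all constants as `A`.
-/
theorem target {N : NT} {W : WT} {K : KT} (h : Sys N W K) (hl : LocG N) (ha : AMom N)
    (hi : InBU N W) (hd : DInU N) : TInU N := by
  intro M
  have hG := h.geo
  obtain ⟨A₀, hA₀, hI'⟩ := hi 4 (7 * M) (by norm_num)
  obtain ⟨C, hC, hth'⟩ := thin hG ha 4 (by norm_num) (4 * M)
  obtain ⟨A₁, hA₁, hI₁⟩ := hd (7 * M)
  obtain ⟨C₁, hC₁, hth₁⟩ := thin hG ha 2 (by norm_num) (4 * M)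
  refine ⟨1 + Real.sqrt A₀ + Real.sqrt C + A₁ + C₁, by positivity, ?_⟩
  intro t htl htu
  have ht : 0 < t := by linarith
  rcases le_total 1 t with ht1 | ht1
  · have hsq : t ^ 2 ≤ 4 := by nlinarith
    have hI : ∀ (v : Vtx) (r b R : ℕ) (S : Finset Edg), r ≤ b → 1 ≤ b → 2 * b ≤ R →
        R ≤ 7 * M * b → bx v R ⊆ S →
        Ex P2 S (fun F => t ^ N F v r (2 * b) * (t ^ 2) ^ (N F v b R + W F v b)) ≤
          A₀ * G N t r (2 * b) := fun v r b R S a1 a2 a3 a4 a5 =>
      (Ex_mono ok2 fun F _ => mul_le_mul_of_nonneg_left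
        (pow_le_pow_left₀ (by positivity) hsq _) (by positivity)).trans
        (hI' t ht1 htu v r b R S a1 a2 a3 a4 a5)
    have hth : ∀ (v : Vtx) (r R : ℕ) (S : Finset Edg), r ≤ R → R ≤ 4 * M * max r 1 →
        bx v R ⊆ S → Ex P2 S (fun F => (t ^ 2) ^ N F v r R) ≤ C := fun v r R S a1 a2 a3 =>
      (Ex_mono ok2 fun F _ => pow_le_pow_left₀ (by positivity) hsq _).trans
        (hth' v r R S a1 a2 a3)
    intro v r R c S T Y hrR hc hRM hRS hTS hdT hY0 hYT
    have hg := G_nonneg N ht r R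
    have hsY : 0 ≤ Real.sqrt (Ex P2 S (fun F => Y F ^ 2)) := Real.sqrt_nonneg _
    have hsA := Real.sqrt_nonneg A₀
    have hsC := Real.sqrt_nonneg C
    by_cases h1 : R + 1 ≤ c
    · refine wk (a := 1) ?_ hg hsY (by linarith)
      rw [indep hG hl t hrR h1 hRS hTS hdT hYT, one_mul]
      exact mul_le_mul_of_nonneg_left (ex_le Y) hg
    by_cases h2 : r ≤ c / 4 ∧ 1 ≤ c / 4
    · obtain ⟨h2, h3⟩ := h2
      refine wk (a := Real.sqrt A₀) ?_ hg hsY (by linarith)
      obtain ⟨b, hb⟩ : ∃ b, b = c / 4 := ⟨_, rfl⟩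
      rw [← hb] at h2 h3
      have hb1 : 2 * b + 1 ≤ c := by omega
      have hb2 : 2 * b ≤ R := by omega
      have hb3 : R ≤ 7 * M * b := by
        have : c ≤ 7 * b := by omega
        calc R ≤ M * c := hRM
          _ ≤ M * (7 * b) := Nat.mul_le_mul_left _ this
          _ = 7 * M * b := by ring
      have hbS : bx v ((2 * b : ℕ) : ℤ) ⊆ S := (bx_mono v (by exact_mod_cast hb2)).trans hRS
      have e1 : Ex P2 S (fun F => t ^ N F v r R * Y F) ≤
          Ex P2 S (fun F => t ^ N F v r (2 * b) * t ^ (N F v b R + W F v b) * Y F) := by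
        refine Ex_mono ok2 fun F _ => mul_le_mul_of_nonneg_right ?_ (hY0 F)
        rw [← pow_add]
        refine pow_le_pow_right₀ ht1 ?_
        have := h.join F v b r R h3 h2 hb2
        omega
      have e2 := cs' (S := S) (U := fun F => t ^ N F v r (2 * b))
        (f := fun F => t ^ (N F v b R + W F v b)) (g := Y) (fun F => by positivity)
      have e3 : Ex P2 S (fun F => t ^ N F v r (2 * b) * (t ^ (N F v b R + W F v b)) ^ 2) ≤
          A₀ * G N t r (2 * b) := by
        have := hI v r b R S h2 h3 hb2 hb3 hRS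
        simpa only [sq_pow] using this
      have e4 : Ex P2 S (fun F => t ^ N F v r (2 * b) * Y F ^ 2) =
          G N t r (2 * b) * Ex P2 S (fun F => Y F ^ 2) :=
        indep hG hl t (Z := fun F => Y F ^ 2) (by omega) hb1 hbS hTS hdT (fun F hF => by
          rw [← hYT F hF])
      rw [e4] at e2
      have hgb := G_nonneg N ht r (2 * b)
      have e5 : Real.sqrt (A₀ * G N t r (2 * b)) *
          Real.sqrt (G N t r (2 * b) * Ex P2 S (fun F => Y F ^ 2)) =
          Real.sqrt A₀ * G N t r (2 * b) * Real.sqrt (Ex P2 S (fun F => Y F ^ 2)) := by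
        rw [Real.sqrt_mul hA₀.le, Real.sqrt_mul hgb]
        have := Real.mul_self_sqrt hgb
        calc Real.sqrt A₀ * Real.sqrt (G N t r (2 * b)) * (Real.sqrt (G N t r (2 * b)) *
              Real.sqrt (Ex P2 S (fun F => Y F ^ 2))) = Real.sqrt A₀ *
              (Real.sqrt (G N t r (2 * b)) * Real.sqrt (G N t r (2 * b))) *
              Real.sqrt (Ex P2 S (fun F => Y F ^ 2)) := by ring
          _ = _ := by rw [this]
      calc Ex P2 S (fun F => t ^ N F v r R * Y F) ≤ _ := e1.trans e2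
        _ ≤ Real.sqrt (A₀ * G N t r (2 * b)) *
          Real.sqrt (G N t r (2 * b) * Ex P2 S (fun F => Y F ^ 2)) :=
            mul_le_mul_of_nonneg_right (Real.sqrt_le_sqrt e3) (Real.sqrt_nonneg _)
        _ = _ := e5
        _ ≤ _ := by
          refine mul_le_mul_of_nonneg_right (mul_le_mul_of_nonneg_left ?_ hsA) hsY
          exact G_mono hG hl ht1 (by omega) hb2
    · refine wk (a := Real.sqrt C) ?_ hg hsY (by linarith)
      have h3 : R ≤ 4 * M * max r 1 := by
        have h4 : c ≤ 4 * max r 1 := by omega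
        calc R ≤ M * c := hRM
          _ ≤ M * (4 * max r 1) := Nat.mul_le_mul_left _ h4
          _ = 4 * M * max r 1 := by ring
      have e1 := cs' (S := S) (U := fun _ => (1 : ℝ)) (f := fun F => t ^ N F v r R) (g := Y)
        (fun _ => zero_le_one)
      simp only [one_mul, sq_pow] at e1
      have e2 := hth v r R S hrR h3 hRS
      have e3 : 1 ≤ G N t r R := by
        unfold G
        have := Ex_mono ok2 (S := bx (0, 0) R) (f := fun _ => (1 : ℝ))
          (g := fun F => t ^ N F (0, 0) r R) (fun F _ => one_le_pow₀ ht1)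
        rwa [Ex_const] at this
      calc Ex P2 S (fun F => t ^ N F v r R * Y F) ≤ _ := e1
        _ ≤ Real.sqrt C * Real.sqrt (Ex P2 S (fun F => Y F ^ 2)) :=
            mul_le_mul_of_nonneg_right (Real.sqrt_le_sqrt e2) hsY
        _ ≤ _ := by
          refine mul_le_mul_of_nonneg_right ?_ hsY
          exact le_mul_of_one_le_right hsC e3
  · have hinv : 1 / t ≤ 2 := by
      rw [div_le_iff₀ ht]; linarith
    have hI : ∀ r R R' : ℕ, r ≤ R → 1 ≤ R → R ≤ R' → R' ≤ 7 * M * R →
        G N t r R ≤ A₁ * G N t r R' := hI₁ t htl ht1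
    have hth : ∀ (v : Vtx) (r R : ℕ) (S : Finset Edg), r ≤ R → R ≤ 4 * M * max r 1 →
        bx v R ⊆ S → Ex P2 S (fun F => (1 / t) ^ N F v r R) ≤ C₁ := fun v r R S a1 a2 a3 =>
      (Ex_mono ok2 fun F _ => pow_le_pow_left₀ (by positivity) hinv _).trans
        (hth₁ v r R S a1 a2 a3)
    have hsA := Real.sqrt_nonneg A₀
    have hsC := Real.sqrt_nonneg C
    intro v r R c S T Y hrR hc hRM hRS hTS hdT hY0 hYT
    have hg := G_nonneg N ht r R
    have hsY : 0 ≤ Real.sqrt (Ex P2 S (fun F => Y F ^ 2)) := Real.sqrt_nonneg _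
    by_cases h1 : R + 1 ≤ c
    · refine wk (a := 1) ?_ hg hsY (by linarith)
      rw [indep hG hl t hrR h1 hRS hTS hdT hYT, one_mul]
      exact mul_le_mul_of_nonneg_left (ex_le Y) hg
    by_cases h2 : r ≤ c / 4 ∧ 1 ≤ c / 4
    · obtain ⟨h2, h3⟩ := h2
      refine wk (a := A₁) ?_ hg hsY (by linarith)
      obtain ⟨b, hb⟩ : ∃ b, b = c / 4 := ⟨_, rfl⟩
      rw [← hb] at h2 h3
      have hb1 : 2 * b + 1 ≤ c := by omega
      have hb2 : 2 * b ≤ R := by omega
      have hb3 : R ≤ 7 * M * (2 * b) := by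
        have : c ≤ 7 * b := by omega
        calc R ≤ M * c := hRM
          _ ≤ M * (7 * b) := Nat.mul_le_mul_left _ this
          _ = 7 * M * b := by ring
          _ ≤ 7 * M * (2 * b) := Nat.mul_le_mul_left _ (by omega)
      have hbS : bx v ((2 * b : ℕ) : ℤ) ⊆ S := (bx_mono v (by exact_mod_cast hb2)).trans hRS
      have e1 : Ex P2 S (fun F => t ^ N F v r R * Y F) ≤
          Ex P2 S (fun F => t ^ N F v r (2 * b) * Y F) := by
        refine Ex_mono ok2 fun F _ => mul_le_mul_of_nonneg_right ?_ (hY0 F)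
        exact pow_le_pow_of_le_one ht.le ht1 (hG.mono F v r r (2 * b) R le_rfl hb2)
      rw [indep hG hl t (by omega) hb1 hbS hTS hdT hYT] at e1
      calc Ex P2 S (fun F => t ^ N F v r R * Y F) ≤ _ := e1
        _ ≤ G N t r (2 * b) * Real.sqrt (Ex P2 S (fun F => Y F ^ 2)) :=
            mul_le_mul_of_nonneg_left (ex_le Y) (G_nonneg N ht r (2 * b))
        _ ≤ _ := mul_le_mul_of_nonneg_right
            (hI r (2 * b) R (by omega) (by omega) hb2 hb3) hsY
    · refine wk (a := C₁) ?_ hg hsY (by linarith)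
      have h3 : R ≤ 4 * M * max r 1 := by
        have h4 : c ≤ 4 * max r 1 := by omega
        calc R ≤ M * c := hRM
          _ ≤ M * (4 * max r 1) := Nat.mul_le_mul_left _ h4
          _ = 4 * M * max r 1 := by ring
      have e1 : Ex P2 S (fun F => t ^ N F v r R * Y F) ≤ Ex P2 S Y := by
        refine Ex_mono ok2 fun F _ => ?_
        exact mul_le_of_le_one_left (hY0 F) (pow_le_one₀ ht.le ht1)
      have e2 := hth v r R S hrR h3 hRS
      have e3 : 1 ≤ C₁ * G N t r R := by
        have e4 := cs (S := S) (U := fun F => t ^ N F v r R) (f := fun _ => (1 : ℝ))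
          (g := fun F => (1 / t) ^ N F v r R) (fun F => by positivity)
        have e5 : (fun F : Finset Edg => t ^ N F v r R * 1 * (1 / t) ^ N F v r R) =
            fun _ => (1 : ℝ) := by
          ext F
          rw [mul_one, ← mul_pow, mul_one_div_cancel ht.ne', one_pow]
        have e6 : (fun F : Finset Edg => t ^ N F v r R * ((1 / t) ^ N F v r R) ^ 2) =
            fun F => (1 / t) ^ N F v r R := by
          ext F
          rw [pow_two, ← mul_assoc, ← mul_pow, mul_one_div_cancel ht.ne', one_pow, one_mul]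
        rw [e5, e6, Ex_const] at e4
        simp only [one_pow, mul_one] at e4
        rw [hl t v r R S hrR hRS] at e4
        calc (1 : ℝ) ≤ _ := e4
          _ ≤ G N t r R * C₁ := mul_le_mul_of_nonneg_left e2 hg
          _ = _ := mul_comm _ _
      calc Ex P2 S (fun F => t ^ N F v r R * Y F) ≤ _ := e1
        _ ≤ _ := ex_le Y
        _ ≤ _ := le_mul_of_one_le_left hsY e3

end Pool.Agent.Helper859_NL.J04
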