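import Pool.Agent.Helper859_NL.Stm
import Pool.Agent.W790.NC.TOut

set_option autoImplicit false

namespace Pool.Agent.Helper859_NL.J05

open H974 Finset Pool.Agent.W819.EN Pool.Agent.W819.NC MeasureTheory
open Pool.Agent.Y996.NL Pool.Agent.Helper859_NL
open scoped Real

open Pool.Agent.W790.NC (bx_mono loc' cs cs1 ex_le_sqrt)

theorem case1 {N : NT} {W : WT} {K : KT} (h : Sys N W K) (hl : LocG N) (ha : AMom N)
    (ho : OutBU N W) (M : ℕ) : ∃ A : ℝ, 0 < A ∧ ∀ t : ℝ, 1 ≤ t → t ≤ 2 →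
  ∀ (v : Vtx) (r R c : ℕ) (S T : Finset Edg) (Y : Finset Edg → ℝ), 1 ≤ r → r ≤ R → c ≤ M * r →
    bx v R ⊆ S → T ⊆ S → T ⊆ bx v c → (∀ F, 0 ≤ Y F) →
    (∀ F, F ⊆ S → Y F = Y (F ∩ T)) →
    Ex P2 S (fun F => t ^ N F v r R * Y F) ≤
      A * G N t r R * Real.sqrt (Ex P2 S (fun F => Y F ^ 2)) := by
  have hok : Ok P2 := okq (q := (1 / 2 : ℝ)) (by norm_num) (by norm_num)
  obtain ⟨A0, hA0, hA0'⟩ := ho 4 (M + 1) (by norm_num)
  obtain ⟨C, hC, hC'⟩ := ha 4 (by norm_num) (2 * (M + 1))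
  refine ⟨Real.sqrt A0 + Real.sqrt C, by positivity, ?_⟩
  intro t h1 ht2 v r R c S T Y hr hrR hc hS hTS hT hY hYT
  have ht0 : 0 < t := by linarith
  have ht4 : t ^ 2 ≤ 4 := by nlinarith
  set Z := Real.sqrt (Ex P2 S (fun F => Y F ^ 2)) with hZ
  have hZ0 : 0 ≤ Z := Real.sqrt_nonneg _
  have hG1 : 1 ≤ G N t r R := by
    have := Ex_mono hok (S := bx (0, 0) R) (f := fun _ => (1 : ℝ))
      (g := fun F => t ^ N F (0, 0) r R) (fun F _ => one_le_pow₀ h1)
    rwa [Ex_const] at this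
  have hG0 : 0 ≤ G N t r R := by linarith
  rcases le_or_gt (2 * ((M + 1) * r)) R with hR | hR
  · obtain ⟨x, hx⟩ : ∃ x : ℕ, x = (M + 1) * r := ⟨_, rfl⟩
    have hrx : r ≤ x := by rw [hx]; nlinarith
    have hcx : c + 1 ≤ x := by rw [hx]; nlinarith
    rw [← hx] at hR
    have hxR : x ≤ R := by omega
    have hTx : T ⊆ bx v ((x : ℤ) - 1) := hT.trans (bx_mono v (by omega))
    have hdis : Disjoint (an v x R) T := by
      rw [Finset.disjoint_right]
      intro e he he'
      unfold an at he'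
      rw [Finset.mem_sdiff] at he'
      exact he'.2 (hTx he)
    have hX : ∀ F : Finset Edg, t ^ N F v x R = t ^ N (F ∩ an v x R) v x R := fun F => by
      rw [← loc' h.geo hxR (Finset.Subset.refl _) F]
    have s1 : Ex P2 S (fun F => t ^ N F v r R * Y F) ≤
        Ex P2 S (fun F => t ^ N F v x R * t ^ (N F v r (2 * x) + W F v x) * Y F) := by
      refine Ex_mono hok fun F _ => mul_le_mul_of_nonneg_right ?_ (hY F)
      rw [← pow_add]
      refine pow_le_pow_right₀ h1 ?_
      have := h.join F v x r R (by omega) hrx hR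
      omega
    have s2 := cs hok (S := S) (U := fun F => t ^ N F v x R)
      (f := fun F => t ^ (N F v r (2 * x) + W F v x)) (g := Y) (fun F _ => by positivity)
    have s3 : Ex P2 S (fun F => t ^ N F v x R * (t ^ (N F v r (2 * x) + W F v x)) ^ 2) ≤
        A0 * G N t x R := by
      have := hA0' t h1 ht2 v r x R S hr hrx (by rw [hx]) hR hS
      refine le_trans ?_ this
      refine Ex_mono hok fun F _ => ?_
      rw [pow_right_comm t _ 2]
      exact mul_le_mul_of_nonneg_left (pow_le_pow_left₀ (by positivity) ht4 _) (by positivity)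
    have s4 : Ex P2 S (fun F => t ^ N F v x R * Y F ^ 2) =
        G N t x R * Ex P2 S (fun F => Y F ^ 2) := by
      rw [Ex_mul_indep (p := P2) (sdiff_subset.trans hS) hTS hdis (fun F _ => hX F)
        (fun F hF => by rw [← hYT F hF]), hl t v x R S hxR hS]
    have hGx0 : 0 ≤ G N t x R := Ex_nonneg hok fun F _ => by positivity
    have s5 : G N t x R ≤ G N t r R :=
      Ex_mono hok fun F _ => pow_le_pow_right₀ h1 (h.geo.mono F (0, 0) x r R R hrx le_rfl)
    rw [s4] at s2
    calc Ex P2 S (fun F => t ^ N F v r R * Y F)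
        ≤ Real.sqrt (A0 * G N t x R) * Real.sqrt (G N t x R * Ex P2 S (fun F => Y F ^ 2)) :=
          s1.trans (s2.trans (mul_le_mul_of_nonneg_right (Real.sqrt_le_sqrt s3)
            (Real.sqrt_nonneg _)))
      _ = Real.sqrt A0 * G N t x R * Z := by
          rw [Real.sqrt_mul hA0.le, Real.sqrt_mul hGx0, hZ]
          have := Real.mul_self_sqrt hGx0
          linear_combination Real.sqrt A0 * Real.sqrt (Ex P2 S (fun F => Y F ^ 2)) * this
      _ ≤ (Real.sqrt A0 + Real.sqrt C) * G N t r R * Z := by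
          refine mul_le_mul_of_nonneg_right ?_ hZ0
          refine mul_le_mul ?_ s5 hGx0 (by positivity)
          linarith [Real.sqrt_nonneg C]
  · have s1 := cs1 hok (S := S) (f := fun F => t ^ N F v r R) (g := Y)
    have s2 : Ex P2 S (fun F => (t ^ N F v r R) ^ 2) ≤ C := by
      refine le_trans ?_ (hC' v r R S hr hrR (by rw [mul_assoc]; omega) hS)
      refine Ex_mono hok fun F _ => ?_
      rw [pow_right_comm t _ 2]
      exact pow_le_pow_left₀ (by positivity) ht4 _
    calc Ex P2 S (fun F => t ^ N F v r R * Y F) ≤ Real.sqrt C * Z :=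
          s1.trans (mul_le_mul_of_nonneg_right (Real.sqrt_le_sqrt s2) hZ0)
      _ ≤ (Real.sqrt A0 + Real.sqrt C) * G N t r R * Z := by
          refine mul_le_mul_of_nonneg_right ?_ hZ0
          have e1 := Real.sqrt_nonneg A0
          have e2 := Real.sqrt_nonneg C
          nlinarith

theorem case2 {N : NT} {W : WT} {K : KT} (h : Sys N W K) (hl : LocG N) (ha : AMom N)
    (hd : DOutU N) (M : ℕ) : ∃ A : ℝ, 0 < A ∧ ∀ t : ℝ, 1 / 2 ≤ t → t ≤ 1 →
  ∀ (v : Vtx) (r R c : ℕ) (S T : Finset Edg) (Y : Finset Edg → ℝ), 1 ≤ r → r ≤ R → c ≤ M * r →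
    bx v R ⊆ S → T ⊆ S → T ⊆ bx v c → (∀ F, 0 ≤ Y F) →
    (∀ F, F ⊆ S → Y F = Y (F ∩ T)) →
    Ex P2 S (fun F => t ^ N F v r R * Y F) ≤
      A * G N t r R * Real.sqrt (Ex P2 S (fun F => Y F ^ 2)) := by
  have hok : Ok P2 := okq (q := (1 / 2 : ℝ)) (by norm_num) (by norm_num)
  obtain ⟨A0, hA0, hA0'⟩ := hd (M + 1)
  obtain ⟨C, hC, hC'⟩ := ha 2 (by norm_num) (2 * (M + 1))
  refine ⟨A0 + C, by positivity, ?_⟩
  intro t ht12 h1 v r R c S T Y hr hrR hc hS hTS hT hY hYT
  have ht : 0 < t := by linarith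
  have h1' : 1 ≤ 1 / t := by rw [le_div_iff₀ ht]; linarith
  have h2' : 1 / t ≤ 2 := by rw [div_le_iff₀ ht]; linarith
  set Z := Real.sqrt (Ex P2 S (fun F => Y F ^ 2)) with hZ
  have hZ0 : 0 ≤ Z := Real.sqrt_nonneg _
  have hYZ : Ex P2 S Y ≤ Z := ex_le_sqrt hok
  have hG0 : 0 ≤ G N t r R := Ex_nonneg hok fun F _ => by positivity
  rcases le_or_gt (2 * ((M + 1) * r)) R with hR | hR
  · obtain ⟨x, hx⟩ : ∃ x : ℕ, x = (M + 1) * r := ⟨_, rfl⟩
    have hrx : r ≤ x := by rw [hx]; nlinarith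
    have hcx : c + 1 ≤ x := by rw [hx]; nlinarith
    rw [← hx] at hR
    have hxR : x ≤ R := by omega
    have hTx : T ⊆ bx v ((x : ℤ) - 1) := hT.trans (bx_mono v (by omega))
    have hdis : Disjoint (an v x R) T := by
      rw [Finset.disjoint_right]
      intro e he he'
      unfold an at he'
      rw [Finset.mem_sdiff] at he'
      exact he'.2 (hTx he)
    have hX : ∀ F : Finset Edg, t ^ N F v x R = t ^ N (F ∩ an v x R) v x R := fun F => by
      rw [← loc' h.geo hxR (Finset.Subset.refl _) F]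
    have s1 : Ex P2 S (fun F => t ^ N F v r R * Y F) ≤
        Ex P2 S (fun F => t ^ N F v x R * Y F) := by
      refine Ex_mono hok fun F _ => mul_le_mul_of_nonneg_right ?_ (hY F)
      exact pow_le_pow_of_le_one ht.le h1 (h.geo.mono F v x r R R hrx le_rfl)
    have s4 : Ex P2 S (fun F => t ^ N F v x R * Y F) = G N t x R * Ex P2 S Y := by
      rw [Ex_mul_indep (p := P2) (sdiff_subset.trans hS) hTS hdis (fun F _ => hX F)
        (fun F hF => hYT F hF), hl t v x R S hxR hS]
    have hGx0 : 0 ≤ G N t x R := Ex_nonneg hok fun F _ => by positivity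
    have s5 := hA0' t ht12 h1 r x R hr hrx hxR (by rw [hx])
    have hEY : 0 ≤ Ex P2 S Y := Ex_nonneg hok fun F _ => hY F
    calc Ex P2 S (fun F => t ^ N F v r R * Y F) ≤ G N t x R * Ex P2 S Y := s1.trans s4.le
      _ ≤ (A0 * G N t r R) * Z := mul_le_mul s5 hYZ hEY (by positivity)
      _ ≤ (A0 + C) * G N t r R * Z := by
          refine mul_le_mul_of_nonneg_right ?_ hZ0
          nlinarith
  · have s1 : Ex P2 S (fun F => t ^ N F v r R * Y F) ≤ Ex P2 S Y := by
      refine Ex_mono hok fun F _ => ?_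
      exact mul_le_of_le_one_left (hY F) (pow_le_one₀ ht.le h1)
    have s2 : Ex P2 S (fun F => (1 / t) ^ N F v r R) ≤ C := by
      refine le_trans ?_ (hC' v r R S hr hrR (by rw [mul_assoc]; omega) hS)
      exact Ex_mono hok fun F _ => pow_le_pow_left₀ (by positivity) h2' _
    have s3 : 1 ≤ G N t r R * C := by
      have e := cs1 hok (S := S) (f := fun F => Real.sqrt (t ^ N F v r R))
        (g := fun F => Real.sqrt ((1 / t) ^ N F v r R))
      have e1 : Ex P2 S (fun F => Real.sqrt (t ^ N F v r R) * Real.sqrt ((1 / t) ^ N F v r R)) =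
          1 := by
        refine (Ex_congr (g := fun _ => (1 : ℝ)) fun F _ => ?_).trans (Ex_const _ _ _)
        rw [← Real.sqrt_mul (by positivity), ← mul_pow, mul_one_div_cancel ht.ne', one_pow,
          Real.sqrt_one]
      have e2 : Ex P2 S (fun F => Real.sqrt (t ^ N F v r R) ^ 2) = G N t r R := by
        rw [← hl t v r R S hrR hS]
        exact Ex_congr fun F _ => Real.sq_sqrt (by positivity)
      have e3 : Ex P2 S (fun F => Real.sqrt ((1 / t) ^ N F v r R) ^ 2) ≤ C := by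
        refine le_trans (le_of_eq ?_) s2
        exact Ex_congr fun F _ => Real.sq_sqrt (by positivity)
      rw [e1, e2, ← Real.sqrt_mul hG0] at e
      have e4 : (1 : ℝ) ≤ G N t r R * Ex P2 S (fun F => Real.sqrt ((1 / t) ^ N F v r R) ^ 2) := by
        by_contra hcon
        have := Real.sqrt_lt_sqrt (mul_nonneg hG0 (Ex_nonneg hok fun F _ => sq_nonneg _))
          (not_le.1 hcon)
        rw [Real.sqrt_one] at this
        linarith
      exact e4.trans (mul_le_mul_of_nonneg_left e3 hG0)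
    calc Ex P2 S (fun F => t ^ N F v r R * Y F) ≤ Z := s1.trans hYZ
      _ ≤ (G N t r R * C) * Z := le_mul_of_one_le_left hZ0 s3
      _ ≤ (A0 + C) * G N t r R * Z := by
          refine mul_le_mul_of_nonneg_right ?_ hZ0
          nlinarith

/-
Uniform version of `Pool.Agent.W790.NC.t_TOUT`. Copy the proof in `Pool/Agent/W790/NC/TOut.lean` (two cases `1 ≤ t ≤ 2` and
`1/2 ≤ t ≤ 1`) and take all constants before `t`: moments at `4` instead of `t ^ 2` (`(t ^ 2) ^ k ≤ 4 ^ k`), at `2` instead of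
`1 / t`, from `OutBU`, `DOutU` and `AMom`.
-/
theorem target {N : NT} {W : WT} {K : KT} (h : Sys N W K) (hl : LocG N) (ha : AMom N)
    (ho : OutBU N W) (hd : DOutU N) : TOutU N := by
  intro M
  have hok : Ok P2 := okq (q := (1 / 2 : ℝ)) (by norm_num) (by norm_num)
  obtain ⟨A, hA, hA'⟩ := case1 h hl ha ho M
  obtain ⟨B, hB, hB'⟩ := case2 h hl ha hd M
  refine ⟨A + B, by positivity, ?_⟩
  intro t ht1 ht2 v r R c S T Y hr hrR hc hS hTS hT hY hYT
  have ht : 0 < t := by linarith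
  have hG0 : 0 ≤ G N t r R := Ex_nonneg hok fun F _ => by positivity
  have hZ0 : 0 ≤ Real.sqrt (Ex P2 S (fun F => Y F ^ 2)) := Real.sqrt_nonneg _
  have hGZ := mul_nonneg hG0 hZ0
  rcases le_total 1 t with h1 | h1
  · refine (hA' t h1 ht2 v r R c S T Y hr hrR hc hS hTS hT hY hYT).trans ?_
    nlinarith
  · refine (hB' t ht1 h1 v r R c S T Y hr hrR hc hS hTS hT hY hYT).trans ?_
    nlinarith

end Pool.Agent.Helper859_NL.J05
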