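import Pool.Agent.Helper859_NL.Stm
import Pool.Agent.W819.NC.Help
import Pool.Agent.W74.NC.TIN

set_option autoImplicit false

namespace Pool.Agent.Helper859_NL.J06

open H974 Finset Pool.Agent.W819.EN Pool.Agent.W819.NC MeasureTheory
open Pool.Agent.Y996.NL Pool.Agent.Helper859_NL
open scoped Real

theorem pow_sum_le {m : ℕ} (hm : 1 ≤ m) (x : ℕ → ℕ) :
    (2 : ℝ) ^ (∑ j ∈ range m, x j) ≤ ∑ j ∈ range m, ((2 : ℝ) ^ m) ^ x j := by
  obtain ⟨j0, hj0, hmax⟩ := Finset.exists_max_image (range m) x ⟨0, mem_range.2 hm⟩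
  have h1 : ∑ j ∈ range m, x j ≤ m * x j0 := by
    have := Finset.sum_le_card_nsmul (range m) x (x j0) hmax
    rwa [card_range, smul_eq_mul] at this
  calc (2 : ℝ) ^ (∑ j ∈ range m, x j) ≤ (2 : ℝ) ^ (m * x j0) :=
        pow_le_pow_right₀ (by norm_num) h1
    _ = ((2 : ℝ) ^ m) ^ x j0 := pow_mul _ _ _
    _ ≤ _ := Finset.single_le_sum (f := fun j => ((2 : ℝ) ^ m) ^ x j)
        (fun j _ => by positivity) hj0

theorem bern_up {y θ : ℝ} (hy : 0 < y) (h0 : 0 ≤ θ) (h1 : θ ≤ 1) : y ^ θ ≤ 1 + θ * (y - 1) := by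
  have h := _root_.rpow_one_add_le_one_add_mul_self (s := y - 1) (by linarith) h0 h1
  rwa [show (1 : ℝ) + (y - 1) = y by ring] at h

theorem bern_dn {y θ : ℝ} (hy : 0 < y) (h0 : 0 ≤ θ) (h1 : θ ≤ 1) :
    1 - θ * (y - 1) ≤ y ^ (-θ) := by
  rw [Real.rpow_neg hy.le]
  have hw : 0 < y ^ θ := Real.rpow_pos_of_pos hy _
  have hw1 := bern_up hy h0 h1
  rw [← one_div, le_div_iff₀ hw]
  by_cases hz : 1 - θ * (y - 1) ≤ 0
  · have : (1 - θ * (y - 1)) * y ^ θ ≤ 0 := mul_nonpos_of_nonpos_of_nonneg hz hw.le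
    linarith
  · push Not at hz
    calc (1 - θ * (y - 1)) * y ^ θ ≤ (1 - θ * (y - 1)) * (1 + θ * (y - 1)) :=
          mul_le_mul_of_nonneg_left hw1 hz.le
      _ ≤ 1 := by nlinarith [sq_nonneg (θ * (y - 1))]

theorem pw {s t : ℝ} (ht : t = (2 : ℝ) ^ s) (k : ℕ) : t ^ k = ((2 : ℝ) ^ k) ^ s := by
  rw [← Real.rpow_natCast t k, ← Real.rpow_natCast 2 k, ht, ← Real.rpow_mul (by norm_num),
    ← Real.rpow_mul (by norm_num), mul_comm]

theorem target : Cmps := by
  intro m B hm hB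
  have hm1 : (1 : ℝ) ≤ m := by exact_mod_cast hm
  obtain ⟨D, hD⟩ : ∃ D : ℝ, D = m * B := ⟨_, rfl⟩
  have hD1 : 1 ≤ D := by rw [hD]; nlinarith
  have hD0 : 0 < D := by linarith
  have hl2 : 0 < Real.log 2 := Real.log_pos (by norm_num)
  refine ⟨Real.log D / Real.log 2, div_nonneg (Real.log_nonneg hD1) hl2.le, ?_⟩
  intro t ht0 ht2 S a n X h1 h2
  have htp : 0 < t := by linarith
  have hU : ∀ F, 0 < t ^ a F := fun F => pow_pos htp _
  have hLU : 0 ≤ Ex P2 S (fun F => t ^ a F) := Ex_nonneg ok2 fun F _ => (hU F).le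
  have key : Ex P2 S (fun F => t ^ a F * (2 : ℝ) ^ (∑ j ∈ range m, X j F)) ≤
      D * Ex P2 S (fun F => t ^ a F) := by
    calc Ex P2 S (fun F => t ^ a F * (2 : ℝ) ^ (∑ j ∈ range m, X j F))
        ≤ Ex P2 S (fun F => ∑ j ∈ range m, t ^ a F * ((2 : ℝ) ^ m) ^ X j F) := by
          apply Ex_mono ok2
          intro F _
          rw [← Finset.mul_sum]
          exact mul_le_mul_of_nonneg_left (pow_sum_le hm fun j => X j F) (hU F).le
      _ = ∑ j ∈ range m, Ex P2 S (fun F => t ^ a F * ((2 : ℝ) ^ m) ^ X j F) :=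
          Ex_sum P2 S (range m) fun j F => t ^ a F * ((2 : ℝ) ^ m) ^ X j F
      _ ≤ ∑ _j ∈ range m, B * Ex P2 S (fun F => t ^ a F) :=
          Finset.sum_le_sum fun j hj => h2 j (mem_range.1 hj)
      _ = D * Ex P2 S (fun F => t ^ a F) := by
          rw [Finset.sum_const, card_range, nsmul_eq_mul, hD]; ring
  obtain ⟨θ, hθ⟩ : ∃ θ : ℝ, θ = |Real.log t| / Real.log 2 := ⟨_, rfl⟩
  have hθ0 : 0 ≤ θ := by rw [hθ]; positivity
  have hlt : |Real.log t| ≤ Real.log 2 := by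
    rw [abs_le]
    constructor
    · rw [← Real.log_inv]
      exact Real.log_le_log (by norm_num) (by norm_num; linarith)
    · exact Real.log_le_log htp ht2
  have hθ1 : θ ≤ 1 := by rw [hθ, div_le_one hl2]; exact hlt
  have hK : Real.log D / Real.log 2 * |Real.log t| = Real.log D * θ := by rw [hθ]; ring
  have hKn : 0 ≤ Real.log D * θ := mul_nonneg (Real.log_nonneg hD1) hθ0
  rw [hK]
  have hθt : θ * Real.log 2 = |Real.log t| := by rw [hθ]; field_simp
  rcases le_total 1 t with ht1 | ht1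
  · have hlog : 0 ≤ Real.log t := Real.log_nonneg ht1
    have ht : t = (2 : ℝ) ^ θ := by
      rw [Real.rpow_def_of_pos (by norm_num), mul_comm, hθt, abs_of_nonneg hlog, Real.exp_log htp]
    constructor
    · calc Real.exp (-(Real.log D * θ)) * Ex P2 S (fun F => t ^ a F)
          ≤ 1 * Ex P2 S (fun F => t ^ a F) :=
            mul_le_mul_of_nonneg_right (Real.exp_le_one_iff.2 (by linarith)) hLU
        _ = Ex P2 S (fun F => t ^ a F) := one_mul _
        _ ≤ _ := Ex_mono ok2 fun F hF => pow_le_pow_right₀ ht1 (h1 F hF).1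
    · have hexp : Real.exp (Real.log D * θ) = D ^ θ := (Real.rpow_def_of_pos hD0 θ).symm
      rw [hexp]
      have hDθ : 0 < D ^ θ := Real.rpow_pos_of_pos hD0 _
      have hpt : ∀ F, F ⊆ S → t ^ n F ≤ D ^ θ * (1 - θ) * t ^ a F +
          D ^ θ * θ / D * (t ^ a F * (2 : ℝ) ^ (∑ j ∈ range m, X j F)) := by
        intro F hF
        have e1 : t ^ n F ≤ t ^ (a F + ∑ j ∈ range m, X j F) := pow_le_pow_right₀ ht1 (h1 F hF).2
        rw [pow_add, pw ht (∑ j ∈ range m, X j F)] at e1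
        have hx : 0 < (2 : ℝ) ^ (∑ j ∈ range m, X j F) := by positivity
        obtain ⟨x, hxe⟩ : ∃ x : ℝ, x = (2 : ℝ) ^ (∑ j ∈ range m, X j F) := ⟨_, rfl⟩
        rw [← hxe] at e1 hx ⊢
        have e2 := bern_up (div_pos hx hD0) hθ0 hθ1
        rw [Real.div_rpow hx.le hD0.le, div_le_iff₀ hDθ] at e2
        calc t ^ n F ≤ t ^ a F * x ^ θ := e1
          _ ≤ t ^ a F * ((1 + θ * (x / D - 1)) * D ^ θ) :=
            mul_le_mul_of_nonneg_left e2 (hU F).le
          _ = _ := by field_simp; ring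
      calc Ex P2 S (fun F => t ^ n F) ≤ Ex P2 S (fun F => D ^ θ * (1 - θ) * t ^ a F +
              D ^ θ * θ / D * (t ^ a F * (2 : ℝ) ^ (∑ j ∈ range m, X j F))) := Ex_mono ok2 hpt
        _ = D ^ θ * (1 - θ) * Ex P2 S (fun F => t ^ a F) +
              D ^ θ * θ / D * Ex P2 S (fun F => t ^ a F * (2 : ℝ) ^ (∑ j ∈ range m, X j F)) := by
            rw [Ex_add P2 S (fun F => D ^ θ * (1 - θ) * t ^ a F)
              (fun F => D ^ θ * θ / D * (t ^ a F * (2 : ℝ) ^ (∑ j ∈ range m, X j F))),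
              Ex_mul_left, Ex_mul_left]
        _ ≤ D ^ θ * (1 - θ) * Ex P2 S (fun F => t ^ a F) +
              D ^ θ * θ / D * (D * Ex P2 S (fun F => t ^ a F)) := by
            have : 0 ≤ D ^ θ * θ / D := by positivity
            have := mul_le_mul_of_nonneg_left key this
            linarith
        _ = D ^ θ * Ex P2 S (fun F => t ^ a F) := by field_simp; ring
  · have hlog : Real.log t ≤ 0 := Real.log_nonpos htp.le ht1
    have ht : t = (2 : ℝ) ^ (-θ) := by
      rw [Real.rpow_def_of_pos (by norm_num), mul_neg, mul_comm, hθt, abs_of_nonpos hlog, neg_neg,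
        Real.exp_log htp]
    constructor
    · have hexp : Real.exp (-(Real.log D * θ)) = D ^ (-θ) := by
        rw [Real.rpow_def_of_pos hD0]; congr 1; ring
      rw [hexp]
      have hDθ : 0 < D ^ (-θ) := Real.rpow_pos_of_pos hD0 _
      have hpt : ∀ F, F ⊆ S → D ^ (-θ) * (1 + θ) * t ^ a F +
          -(D ^ (-θ) * θ / D) * (t ^ a F * (2 : ℝ) ^ (∑ j ∈ range m, X j F)) ≤ t ^ n F := by
        intro F hF
        have e1 : t ^ (a F + ∑ j ∈ range m, X j F) ≤ t ^ n F :=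
          pow_le_pow_of_le_one htp.le ht1 (h1 F hF).2
        rw [pow_add, pw ht (∑ j ∈ range m, X j F)] at e1
        have hx : 0 < (2 : ℝ) ^ (∑ j ∈ range m, X j F) := by positivity
        obtain ⟨x, hxe⟩ : ∃ x : ℝ, x = (2 : ℝ) ^ (∑ j ∈ range m, X j F) := ⟨_, rfl⟩
        rw [← hxe] at e1 hx ⊢
        have e2 := bern_dn (div_pos hx hD0) hθ0 hθ1
        rw [Real.div_rpow hx.le hD0.le, le_div_iff₀ hDθ] at e2
        calc _ = t ^ a F * ((1 - θ * (x / D - 1)) * D ^ (-θ)) := by field_simp; ring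
          _ ≤ t ^ a F * x ^ (-θ) := mul_le_mul_of_nonneg_left e2 (hU F).le
          _ ≤ t ^ n F := e1
      calc D ^ (-θ) * Ex P2 S (fun F => t ^ a F)
          = D ^ (-θ) * (1 + θ) * Ex P2 S (fun F => t ^ a F) +
              -(D ^ (-θ) * θ / D) * (D * Ex P2 S (fun F => t ^ a F)) := by field_simp; ring
        _ ≤ D ^ (-θ) * (1 + θ) * Ex P2 S (fun F => t ^ a F) +
              -(D ^ (-θ) * θ / D) *
                Ex P2 S (fun F => t ^ a F * (2 : ℝ) ^ (∑ j ∈ range m, X j F)) := by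
            have : 0 ≤ D ^ (-θ) * θ / D := by positivity
            have := mul_le_mul_of_nonneg_left key this
            linarith
        _ = Ex P2 S (fun F => D ^ (-θ) * (1 + θ) * t ^ a F +
              -(D ^ (-θ) * θ / D) * (t ^ a F * (2 : ℝ) ^ (∑ j ∈ range m, X j F))) := by
            rw [Ex_add P2 S (fun F => D ^ (-θ) * (1 + θ) * t ^ a F)
              (fun F => -(D ^ (-θ) * θ / D) * (t ^ a F * (2 : ℝ) ^ (∑ j ∈ range m, X j F))),
              Ex_mul_left, Ex_mul_left]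
        _ ≤ Ex P2 S (fun F => t ^ n F) := Ex_mono ok2 hpt
    · calc Ex P2 S (fun F => t ^ n F) ≤ Ex P2 S (fun F => t ^ a F) :=
            Ex_mono ok2 fun F hF => pow_le_pow_of_le_one htp.le ht1 (h1 F hF).1
        _ = 1 * Ex P2 S (fun F => t ^ a F) := (one_mul _).symm
        _ ≤ _ := mul_le_mul_of_nonneg_right (Real.one_le_exp (by linarith)) hLU

end Pool.Agent.Helper859_NL.J06
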