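import Pool.Agent.Helper859_NL.Stm
import Pool.Agent.W819.NC.Help

set_option autoImplicit false

namespace Pool.Agent.Helper859_NL.J07

open H974 Finset Pool.Agent.W819.EN Pool.Agent.W819.NC MeasureTheory
open Pool.Agent.Y996.NL Pool.Agent.Helper859_NL
open scoped Real

theorem target {N : NT} {W : WT} {K : KT} (h : Sys N W K) (hl : LocG N) (ha : AMom N)
    (hi : TInU N) (hc : Cmps) : RadInU N := by
  intro M
  obtain ⟨A, hA, hI⟩ := hi 3
  obtain ⟨C1, hC1, hW⟩ := h.wmom (((2 : ℝ) ^ 2) ^ 2) (by norm_num)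
  obtain ⟨C2, hC2, hM⟩ := ha (((2 : ℝ) ^ 2) ^ 2) (by norm_num) (3 * M)
  have hB0 : 0 ≤ A * Real.sqrt (C1 + C2) := by positivity
  obtain ⟨K3, hK3, h3⟩ := hc 2 (1 + A * Real.sqrt (C1 + C2)) (by norm_num) (by linarith)
  obtain ⟨K4, hK4, h4⟩ := hc 1 ((2 : ℝ) ^ (2 * M)) le_rfl (one_le_pow₀ (by norm_num))
  refine ⟨K3 + K4, by linarith, fun t ht1 ht2 r r' hr hrr hrM => ?_⟩
  have ht0 : 0 < t := by linarith
  have hlt : 0 ≤ |Real.log t| := abs_nonneg _
  have hG1 := G_nonneg N ht0 0 r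
  have hSr : bx (0, 0) (r : ℤ) ⊆ bx (0, 0) (r' : ℤ) := bx_mono (0, 0) (by exact_mod_cast hrr)
  have hloc : Ex P2 (bx (0, 0) (r' : ℤ)) (fun F => t ^ N F (0, 0) 0 r) = G N t 0 r :=
    hl t (0, 0) 0 r _ (Nat.zero_le _) hSr
  have key : ∀ k : ℝ, k ≤ K3 + K4 → (Real.exp (-(k * |Real.log t|)) * G N t 0 r ≤ G N t 0 r' ∧
      G N t 0 r' ≤ Real.exp (k * |Real.log t|) * G N t 0 r) →
      (Real.exp (-((K3 + K4) * |Real.log t|)) * G N t 0 r ≤ G N t 0 r' ∧
      G N t 0 r' ≤ Real.exp ((K3 + K4) * |Real.log t|) * G N t 0 r) := by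
    rintro k hk ⟨c1, c2⟩
    have e0 : k * |Real.log t| ≤ (K3 + K4) * |Real.log t| := mul_le_mul_of_nonneg_right hk hlt
    have e1 : Real.exp (-((K3 + K4) * |Real.log t|)) ≤ Real.exp (-(k * |Real.log t|)) :=
      Real.exp_le_exp.2 (by linarith)
    have e2 : Real.exp (k * |Real.log t|) ≤ Real.exp ((K3 + K4) * |Real.log t|) :=
      Real.exp_le_exp.2 e0
    exact ⟨(mul_le_mul_of_nonneg_right e1 hG1).trans c1,
      c2.trans (mul_le_mul_of_nonneg_right e2 hG1)⟩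
  rcases Nat.lt_or_ge r 2 with h2 | h2
  · have hr1 : r = 1 := by omega
    have hX : ∀ F, N F (0, 0) 0 r' ≤ 2 * M := fun F => by
      have := h.geo.le F (0, 0) 0 r'
      rw [hr1, mul_one] at hrM
      omega
    have h5 := h4 t ht1 ht2 (bx (0, 0) (r' : ℤ)) (fun F => N F (0, 0) 0 r)
      (fun F => N F (0, 0) 0 r') (fun _ F => N F (0, 0) 0 r')
      (fun F _ => ⟨h.geo.mono F (0, 0) 0 0 r r' le_rfl hrr, by simp⟩) ?_
    · rw [hloc] at h5
      exact key K4 (by linarith) h5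
    · intro j _
      rw [← Ex_mul_left]
      refine Ex_mono ok2 fun F _ => ?_
      rw [pow_one, mul_comm]
      exact mul_le_mul_of_nonneg_right (pow_le_pow_right₀ (by norm_num) (hX F)) (by positivity)
  · obtain ⟨b, hb⟩ : ∃ b, b = r / 2 := ⟨_, rfl⟩
    have hb1 : 1 ≤ b := by omega
    have hb2 : 2 * b ≤ r := by omega
    have hb3 : r ≤ 3 * b := by omega
    have hmom : ∀ (T : Finset Edg) (X : Finset Edg → ℕ), T ⊆ bx (0, 0) (r' : ℤ) →
        Disjoint T (bx (0, 0) ((b : ℤ) - 1)) → (∀ F, X F = X (F ∩ T)) →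
        Ex P2 (bx (0, 0) (r' : ℤ)) (fun F => (((2 : ℝ) ^ 2) ^ 2) ^ X F) ≤ C1 + C2 →
        Ex P2 (bx (0, 0) (r' : ℤ)) (fun F => t ^ N F (0, 0) 0 r * ((2 : ℝ) ^ 2) ^ X F) ≤
          (1 + A * Real.sqrt (C1 + C2)) *
            Ex P2 (bx (0, 0) (r' : ℤ)) (fun F => t ^ N F (0, 0) 0 r) := by
      intro T X hT hd hX hE
      have e := hI t ht1 ht2 (0, 0) 0 r b (bx (0, 0) (r' : ℤ)) T
        (fun F => ((2 : ℝ) ^ 2) ^ X F) (Nat.zero_le _) hb1 hb3 hSr hT hd
        (fun F => by positivity) (fun F _ => by rw [← hX F])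
      rw [hloc]
      refine fin (t := 0) (C := C1 + C2) e ?_ hA hG1 (by linarith)
      simp only [sq_pow]
      exact hE
    have h5 := h3 t ht1 ht2 (bx (0, 0) (r' : ℤ)) (fun F => N F (0, 0) 0 r)
      (fun F => N F (0, 0) 0 r')
      (fun j F => if j = 0 then N F (0, 0) b r' else W F (0, 0) b) ?_ ?_
    · rw [hloc] at h5
      exact key K3 (by linarith) h5
    · intro F _
      refine ⟨h.geo.mono F (0, 0) 0 0 r r' le_rfl hrr, ?_⟩
      have e1 := h.join F (0, 0) b 0 r' hb1 (Nat.zero_le _) (hb2.trans hrr)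
      have e2 := h.geo.mono F (0, 0) 0 0 (2 * b) r le_rfl hb2
      simp only [sum_range_succ, sum_range_zero, zero_add, if_true, one_ne_zero, if_false]
      omega
    · intro j hj
      rcases Nat.eq_zero_or_pos j with hj0 | hj0
      · simp only [hj0, if_true]
        refine hmom (an (0, 0) b r') _ an_sub (an_disj (by omega))
          (fun F => h.geo.loc F (0, 0) b r' (by omega)) ?_
        have := hM (0, 0) b r' (bx (0, 0) (r' : ℤ)) hb1 (by omega) (by
          calc r' ≤ M * r := hrM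
            _ ≤ M * (3 * b) := Nat.mul_le_mul_left M hb3
            _ = 3 * M * b := by ring) subset_rfl
        linarith
      · have hj1 : j ≠ 0 := by omega
        simp only [hj1, if_false]
        have hS2 : bx (0, 0) (2 * (b : ℤ)) ⊆ bx (0, 0) (r' : ℤ) := bx_mono (0, 0) (by omega)
        have hS3 : bx (0, 0) ((2 * b : ℕ) : ℤ) ⊆ bx (0, 0) (r' : ℤ) :=
          bx_mono (0, 0) (by push_cast; omega)
        refine hmom (an (0, 0) b (2 * b)) _ (an_sub.trans hS3) (an_disj (by omega))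
          (fun F => h.wloc F (0, 0) b hb1) ?_
        have := hW (0, 0) b (bx (0, 0) (r' : ℤ)) hb1 hS2
        linarith

end Pool.Agent.Helper859_NL.J07
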