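import Pool.Agent.Helper859_NL.Stm
import Pool.Agent.W819.NC.Help

set_option autoImplicit false

namespace Pool.Agent.Helper859_NL.J08

open H974 Finset Pool.Agent.W819.EN Pool.Agent.W819.NC MeasureTheory
open Pool.Agent.Y996.NL Pool.Agent.Helper859_NL
open scoped Real

/-- thin annuli -/
theorem thin {N : NT} (ha : AMom N) (hc : Cmps) (M : ℕ) : ∃ K : ℝ, 0 ≤ K ∧
    ∀ t : ℝ, 1 / 2 ≤ t → t ≤ 2 → ∀ r R : ℕ, 1 ≤ r → r ≤ R → R ≤ M * r →
      Real.exp (-(K * |Real.log t|)) ≤ G N t r R ∧ G N t r R ≤ Real.exp (K * |Real.log t|) := by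
  obtain ⟨C, hC, hM⟩ := ha 2 (by norm_num) M
  obtain ⟨K, hK, hcm⟩ := hc 1 (C + 1) le_rfl (by linarith)
  refine ⟨K, hK, fun t ht1 ht2 r R hr hrR hRM => ?_⟩
  have h1 := hcm t ht1 ht2 (bx (0, 0) R) (fun _ => 0) (fun F => N F (0, 0) r R)
    (fun _ F => N F (0, 0) r R) (fun F _ => ⟨Nat.zero_le _, by simp⟩) ?_
  · simp only [pow_zero, Ex_const, mul_one] at h1
    exact h1
  · intro j hj
    simp only [pow_zero, Ex_const, mul_one, one_mul, pow_one]
    have := hM (0, 0) r R (bx (0, 0) R) hr hrR hRM subset_rfl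
    linarith

theorem target {N : NT} {W : WT} {K : KT} (h : Sys N W K) (hl : LocG N) (ha : AMom N)
    (ho : TOutU N) (hc : Cmps) : RadOutU N := by
  intro M
  obtain ⟨K1, hK1, h1⟩ := thin ha hc (2 * M)
  obtain ⟨K2, hK2, h2⟩ := thin ha hc 2
  obtain ⟨A, hA, hO⟩ := ho 2
  obtain ⟨C1, hC1, hW⟩ := h.wmom (((2 : ℝ) ^ 2) ^ 2) (by norm_num)
  obtain ⟨C2, hC2, hM⟩ := ha (((2 : ℝ) ^ 2) ^ 2) (by norm_num) (2 * M)
  have hB0 : 0 ≤ A * Real.sqrt (C1 + C2) := by positivity
  obtain ⟨K3, hK3, h3⟩ := hc 2 (1 + A * Real.sqrt (C1 + C2)) (by norm_num) (by linarith)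
  refine ⟨K1 + K2 + K3, by linarith, fun t ht1 ht2 r r' R hr hrr hrM hrR => ?_⟩
  have ht0 : 0 < t := by linarith
  have hlt : 0 ≤ |Real.log t| := abs_nonneg _
  have hG1 := G_nonneg N ht0 r R
  have hG2 := G_nonneg N ht0 r' R
  rcases lt_or_ge R (2 * r') with hR | hR
  · obtain ⟨a1, a2⟩ := h1 t ht1 ht2 r R hr (hrr.trans hrR) (by
      calc R ≤ 2 * r' := hR.le
        _ ≤ 2 * (M * r) := Nat.mul_le_mul_left 2 hrM
        _ = 2 * M * r := by ring)
    obtain ⟨b1, b2⟩ := h2 t ht1 ht2 r' R (hr.trans hrr) hrR hR.le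
    have e1 : Real.exp (-((K1 + K2 + K3) * |Real.log t|)) ≤
        Real.exp (-(K1 * |Real.log t|)) * Real.exp (-(K2 * |Real.log t|)) := by
      rw [← Real.exp_add]
      apply Real.exp_le_exp.2
      nlinarith [mul_nonneg hK3 hlt]
    have e2 : Real.exp (K1 * |Real.log t|) * Real.exp (K2 * |Real.log t|) ≤
        Real.exp ((K1 + K2 + K3) * |Real.log t|) := by
      rw [← Real.exp_add]
      apply Real.exp_le_exp.2
      nlinarith [mul_nonneg hK3 hlt]
    have e3 : Real.exp (-(K2 * |Real.log t|)) * Real.exp (K2 * |Real.log t|) = 1 := by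
      rw [← Real.exp_add]; simp
    constructor
    · calc Real.exp (-((K1 + K2 + K3) * |Real.log t|)) * G N t r' R
          ≤ (Real.exp (-(K1 * |Real.log t|)) * Real.exp (-(K2 * |Real.log t|))) *
            Real.exp (K2 * |Real.log t|) := mul_le_mul e1 b2 hG2 (by positivity)
        _ = Real.exp (-(K1 * |Real.log t|)) := by rw [mul_assoc, e3, mul_one]
        _ ≤ G N t r R := a1
    · calc G N t r R ≤ Real.exp (K1 * |Real.log t|) := a2
        _ = (Real.exp (K1 * |Real.log t|) * Real.exp (K2 * |Real.log t|)) *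
            Real.exp (-(K2 * |Real.log t|)) := by
            rw [mul_assoc, mul_comm (Real.exp (K2 * |Real.log t|)), e3, mul_one]
        _ ≤ Real.exp ((K1 + K2 + K3) * |Real.log t|) * G N t r' R :=
            mul_le_mul e2 b1 (by positivity) (by positivity)
  · have hS2 : bx (0, 0) ((2 * r' : ℕ) : ℤ) ⊆ bx (0, 0) (R : ℤ) :=
      bx_mono (0, 0) (by push_cast; omega)
    have hS2' : bx (0, 0) (2 * (r' : ℤ)) ⊆ bx (0, 0) (R : ℤ) :=
      bx_mono (0, 0) (by omega)
    have hr' : 1 ≤ r' := hr.trans hrr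
    have hmom : ∀ (T : Finset Edg) (X : Finset Edg → ℕ), T ⊆ bx (0, 0) ((2 * r' : ℕ) : ℤ) →
        (∀ F, X F = X (F ∩ T)) →
        Ex P2 (bx (0, 0) (R : ℤ)) (fun F => (((2 : ℝ) ^ 2) ^ 2) ^ X F) ≤ C1 + C2 →
        Ex P2 (bx (0, 0) (R : ℤ)) (fun F => t ^ N F (0, 0) r' R * ((2 : ℝ) ^ 2) ^ X F) ≤
          (1 + A * Real.sqrt (C1 + C2)) *
            Ex P2 (bx (0, 0) (R : ℤ)) (fun F => t ^ N F (0, 0) r' R) := by
      intro T X hT hX hE
      have e := hO t ht1 ht2 (0, 0) r' R (2 * r') (bx (0, 0) (R : ℤ)) T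
        (fun F => ((2 : ℝ) ^ 2) ^ X F) hr' hrR le_rfl subset_rfl (hT.trans hS2) hT
        (fun F => by positivity) (fun F _ => by rw [← hX F])
      refine fin (t := 0) (C := C1 + C2) e ?_ hA hG2 (by linarith)
      simp only [sq_pow]
      exact hE
    have h4 := h3 t ht1 ht2 (bx (0, 0) (R : ℤ)) (fun F => N F (0, 0) r' R)
      (fun F => N F (0, 0) r R)
      (fun j F => if j = 0 then N F (0, 0) r (2 * r') else W F (0, 0) r') ?_ ?_
    · obtain ⟨c1, c2⟩ := h4
      have e1 : Real.exp (-((K1 + K2 + K3) * |Real.log t|)) ≤ Real.exp (-(K3 * |Real.log t|)) := by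
        apply Real.exp_le_exp.2
        nlinarith [mul_nonneg hK1 hlt, mul_nonneg hK2 hlt]
      have e2 : Real.exp (K3 * |Real.log t|) ≤ Real.exp ((K1 + K2 + K3) * |Real.log t|) := by
        apply Real.exp_le_exp.2
        nlinarith [mul_nonneg hK1 hlt, mul_nonneg hK2 hlt]
      constructor
      · exact (mul_le_mul_of_nonneg_right e1 hG2).trans c1
      · exact c2.trans (mul_le_mul_of_nonneg_right e2 hG2)
    · intro F _
      refine ⟨h.geo.mono F (0, 0) r' r R R hrr le_rfl, ?_⟩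
      have := h.join F (0, 0) r' r R hr' hrr hR
      simp only [sum_range_succ, sum_range_zero, zero_add, if_true, one_ne_zero, if_false]
      omega
    · intro j hj
      rcases Nat.eq_zero_or_pos j with hj0 | hj0
      · simp only [hj0, if_true]
        refine hmom (an (0, 0) r (2 * r')) _ an_sub
          (fun F => h.geo.loc F (0, 0) r (2 * r') (by omega)) ?_
        have := hM (0, 0) r (2 * r') (bx (0, 0) (R : ℤ)) hr (by omega) (by
          calc 2 * r' ≤ 2 * (M * r) := Nat.mul_le_mul_left 2 hrM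
            _ = 2 * M * r := by ring) hS2
        linarith
      · have hj1 : j ≠ 0 := by omega
        simp only [hj1, if_false]
        refine hmom (an (0, 0) r' (2 * r')) _ an_sub
          (fun F => h.wloc F (0, 0) r' hr') ?_
        have := hW (0, 0) r' (bx (0, 0) (R : ℤ)) hr' hS2'
        linarith

end Pool.Agent.Helper859_NL.J08
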