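import Pool.Agent.Helper859_NL.Stm
import Pool.Agent.W819.NC.Help

set_option autoImplicit false

namespace Pool.Agent.Helper859_NL.J09

open H974 Finset Pool.Agent.W819.EN Pool.Agent.W819.NC MeasureTheory
open Pool.Agent.Y996.NL Pool.Agent.Helper859_NL
open scoped Real

/-- the seven costs -/
def X09 (N : NT) (W : WT) (c d r : ℕ) : ℕ → Finset Edg → ℕ
  | 0 => fun F => N F (0, 0) d (2 * c)
  | 1 => fun F => W F (0, 0) d
  | 2 => fun F => W F (0, 0) c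
  | 3 => fun F => N F (0, 0) c (2 * (2 * c))
  | 4 => fun F => W F (0, 0) (2 * c)
  | 5 => fun F => N F (0, 0) (2 * c) (2 * (2 * r))
  | _ => fun F => W F (0, 0) (2 * r)

theorem pointwise09 {N : NT} {W : WT} {K : KT} (h : Sys N W K) (c d r R : ℕ) (hd : 1 ≤ d)
    (hdc : 2 * d ≤ c) (hcr : 4 * c ≤ r) (hr : 4 * r ≤ R) (F : Finset Edg) :
    N F (0, 0) 0 c + N F (0, 0) (2 * r) R ≤ N F (0, 0) 0 R ∧
    N F (0, 0) 0 R ≤ N F (0, 0) 0 c + N F (0, 0) (2 * r) R +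
      ∑ j ∈ range 7, X09 N W c d r j F := by
  refine ⟨h.geo.super F (0, 0) 0 c (2 * r) R (by omega) (by omega) (by omega), ?_⟩
  have j1 := h.join F (0, 0) c 0 R (by omega) (by omega) (by omega)
  have j2 := h.join F (0, 0) d 0 (2 * c) (by omega) (by omega) (by omega)
  have j3 := h.geo.mono F (0, 0) 0 0 (2 * d) c le_rfl hdc
  have j4 := h.join F (0, 0) (2 * c) c R (by omega) (by omega) (by omega)
  have j5 := h.join F (0, 0) (2 * r) (2 * c) R (by omega) (by omega) (by omega)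
  simp only [Finset.sum_range_succ, Finset.sum_range_zero, X09]
  omega

theorem indep_in {N : NT} {W : WT} {K : KT} (h : Sys N W K) (hl : LocG N) (t : ℝ) (c r R : ℕ)
    (hcr : 4 * c ≤ r) (hr1 : 1 ≤ r) (hr : 4 * r ≤ R) (T : Finset Edg) (hT : T ⊆ bx (0, 0) ((4 * c : ℕ) : ℤ))
    (Y : Finset Edg → ℝ) (hY : ∀ F, Y F = Y (F ∩ T)) :
    Ex P2 (bx (0, 0) R) (fun F => t ^ (N F (0, 0) 0 c + N F (0, 0) (2 * r) R) * Y F) =
      Ex P2 (bx (0, 0) R) (fun F => t ^ N F (0, 0) 0 c * Y F) * G N t (2 * r) R := by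
  have e1 : Ex P2 (bx (0, 0) R) (fun F => t ^ (N F (0, 0) 0 c + N F (0, 0) (2 * r) R) * Y F) =
      Ex P2 (bx (0, 0) R) (fun F => (fun F => t ^ N F (0, 0) 0 c * Y F) F *
        (fun F => t ^ N F (0, 0) (2 * r) R) F) :=
    Ex_congr fun F _ => by rw [pow_add]; ring
  rw [e1, Ex_mul_indep (p := P2) (U := bx (0, 0) R) (S := bx (0, 0) ((4 * c : ℕ) : ℤ))
    (T := an (0, 0) (2 * r) R) (bx_mono _ (by push_cast; omega)) an_sub
    (an_disj (by push_cast; omega)).symm ?_ ?_]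
  · rw [hl t (0, 0) (2 * r) R (bx (0, 0) R) (by omega) subset_rfl]
  · intro F _
    have h1 : N F (0, 0) 0 c = N (F ∩ bx (0, 0) ((4 * c : ℕ) : ℤ)) (0, 0) 0 c :=
      loc' h.geo (Nat.zero_le _) (an_sub.trans (bx_mono _ (by push_cast; omega))) F
    have h2 : Y F = Y (F ∩ bx (0, 0) ((4 * c : ℕ) : ℤ)) := by
      rw [hY F, hY (F ∩ bx (0, 0) ((4 * c : ℕ) : ℤ)), inter_assoc, inter_eq_right.2 hT]
    show t ^ N F (0, 0) 0 c * Y F = t ^ N (F ∩ _) (0, 0) 0 c * Y (F ∩ _)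
    rw [← h1, ← h2]
  · intro F _
    show t ^ N F (0, 0) (2 * r) R = t ^ N (F ∩ _) (0, 0) (2 * r) R
    rw [← loc' h.geo (by omega) subset_rfl F]

theorem indep_out {N : NT} {W : WT} {K : KT} (h : Sys N W K) (hl : LocG N) (t : ℝ) (c r R : ℕ)
    (hcr : 4 * c ≤ r) (hr1 : 1 ≤ r) (hr : 4 * r ≤ R) (T : Finset Edg)
    (hT : T ⊆ bx (0, 0) R) (hTd : Disjoint T (bx (0, 0) (c : ℤ)))
    (Y : Finset Edg → ℝ) (hY : ∀ F, Y F = Y (F ∩ T)) :
    Ex P2 (bx (0, 0) R) (fun F => t ^ (N F (0, 0) 0 c + N F (0, 0) (2 * r) R) * Y F) =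
      G N t 0 c * Ex P2 (bx (0, 0) R) (fun F => t ^ N F (0, 0) (2 * r) R * Y F) := by
  have e1 : Ex P2 (bx (0, 0) R) (fun F => t ^ (N F (0, 0) 0 c + N F (0, 0) (2 * r) R) * Y F) =
      Ex P2 (bx (0, 0) R) (fun F => (fun F => t ^ N F (0, 0) 0 c) F *
        (fun F => t ^ N F (0, 0) (2 * r) R * Y F) F) :=
    Ex_congr fun F _ => by rw [pow_add]; ring
  have hsub : an (0, 0) (2 * r) R ⊆ bx (0, 0) (R : ℤ) \ bx (0, 0) (c : ℤ) := by
    intro e he
    refine mem_sdiff.2 ⟨an_sub he, fun he' => ?_⟩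
    exact Finset.disjoint_left.1 (an_disj (v := (0, 0)) (r := 2 * r) (R := R) (k := (c : ℤ))
      (by push_cast; omega)) he he'
  have hTsub : T ⊆ bx (0, 0) (R : ℤ) \ bx (0, 0) (c : ℤ) := by
    intro e he
    exact mem_sdiff.2 ⟨hT he, fun he' => Finset.disjoint_left.1 hTd he he'⟩
  rw [e1, Ex_mul_indep (p := P2) (U := bx (0, 0) R) (S := bx (0, 0) (c : ℤ))
    (T := bx (0, 0) (R : ℤ) \ bx (0, 0) (c : ℤ)) (bx_mono _ (by omega)) sdiff_subset
    disjoint_sdiff ?_ ?_]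
  · rw [hl t (0, 0) 0 c (bx (0, 0) R) (by omega) (bx_mono _ (by omega))]
  · intro F _
    show t ^ N F (0, 0) 0 c = t ^ N (F ∩ _) (0, 0) 0 c
    rw [← loc' h.geo (Nat.zero_le _) an_sub F]
  · intro F _
    have h1 : N F (0, 0) (2 * r) R =
        N (F ∩ (bx (0, 0) (R : ℤ) \ bx (0, 0) (c : ℤ))) (0, 0) (2 * r) R :=
      loc' h.geo (by omega) hsub F
    have h2 : Y F = Y (F ∩ (bx (0, 0) (R : ℤ) \ bx (0, 0) (c : ℤ))) := by
      rw [hY F, hY (F ∩ (bx (0, 0) (R : ℤ) \ bx (0, 0) (c : ℤ))), inter_assoc,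
        inter_eq_right.2 hTsub]
    show t ^ N F (0, 0) (2 * r) R * Y F = t ^ N (F ∩ _) (0, 0) (2 * r) R * Y (F ∩ _)
    rw [← h1, ← h2]

theorem base09 {N : NT} {W : WT} {K : KT} (h : Sys N W K) (hl : LocG N) (t : ℝ) (c r R : ℕ)
    (hcr : 4 * c ≤ r) (hr1 : 1 ≤ r) (hr : 4 * r ≤ R) :
    Ex P2 (bx (0, 0) R) (fun F => t ^ (N F (0, 0) 0 c + N F (0, 0) (2 * r) R)) =
      G N t 0 c * G N t (2 * r) R := by
  have h1 := indep_in h hl t c r R hcr hr1 hr ∅ (empty_subset _) (fun _ => 1) (fun _ => rfl)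
  simp only [mul_one] at h1
  rw [h1, hl t (0, 0) 0 c (bx (0, 0) R) (by omega) (bx_mono _ (by omega))]

theorem target {N : NT} {W : WT} {K : KT} (h : Sys N W K) (hl : LocG N) (ha : AMom N)
    (hi : TInU N) (ho : TOutU N) (hc : Cmps) : CoreU N := by
  obtain ⟨A1, hA1, hI⟩ := hi 3
  obtain ⟨A2, hA2, hO⟩ := ho 2
  obtain ⟨C1, hC1, hW⟩ := h.wmom (((2 : ℝ) ^ 7) ^ 2) (by norm_num)
  obtain ⟨C2, hC2, hM⟩ := ha (((2 : ℝ) ^ 7) ^ 2) (by norm_num) 12
  obtain ⟨C, hC⟩ : ∃ C, C = C1 + C2 := ⟨_, rfl⟩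
  have hC0 : 0 < C := by rw [hC]; linarith
  obtain ⟨B, hB⟩ : ∃ B, B = (A1 + A2) * Real.sqrt C + 1 := ⟨_, rfl⟩
  have hsq : 0 ≤ Real.sqrt C := Real.sqrt_nonneg C
  have hB1 : 1 ≤ B := by
    rw [hB]
    have : 0 ≤ (A1 + A2) * Real.sqrt C := by positivity
    linarith
  obtain ⟨K0, hK0, hcmp⟩ := hc 7 B (by norm_num) hB1
  refine ⟨K0, hK0, ?_⟩
  intro t ht1 ht2 r R hr hR
  have ht0 : 0 < t := by linarith
  obtain ⟨c, hcdef⟩ : ∃ c, c = r / 4 := ⟨_, rfl⟩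
  obtain ⟨d, hddef⟩ : ∃ d, d = c / 2 := ⟨_, rfl⟩
  have hc2 : 2 ≤ c := by omega
  have hcr : 4 * c ≤ r := by omega
  have hrc : r < 6 * c := by omega
  have hd1 : 1 ≤ d := by omega
  have hdc : 2 * d ≤ c := by omega
  have hcd : c ≤ 3 * d := by omega
  rw [← hcdef]
  have hG1 : 0 ≤ G N t 0 c := G_nonneg N ht0 _ _
  have hG2 : 0 ≤ G N t (2 * r) R := G_nonneg N ht0 _ _
  have hbase := base09 h hl t c r R hcr (by omega) hR
  -- inner costs
  have inn : ∀ (T : Finset Edg) (Y : Finset Edg → ℝ), T ⊆ bx (0, 0) ((4 * c : ℕ) : ℤ) →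
      Disjoint T (bx (0, 0) ((d : ℤ) - 1)) → (∀ F, 0 ≤ Y F) → (∀ F, Y F = Y (F ∩ T)) →
      Ex P2 (bx (0, 0) R) (fun F => Y F ^ 2) ≤ C →
      Ex P2 (bx (0, 0) R) (fun F => t ^ (N F (0, 0) 0 c + N F (0, 0) (2 * r) R) * Y F) ≤
        B * Ex P2 (bx (0, 0) R) (fun F => t ^ (N F (0, 0) 0 c + N F (0, 0) (2 * r) R)) := by
    intro T Y hT hTd hY hYT hE
    rw [indep_in h hl t c r R hcr (by omega) hR T hT Y hYT, hbase]
    have hTR : T ⊆ bx (0, 0) (R : ℤ) := hT.trans (bx_mono _ (by push_cast; omega))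
    have e := hI t ht1 ht2 (0, 0) 0 c d (bx (0, 0) R) T Y (by omega) hd1 hcd
      (bx_mono _ (by omega)) hTR hTd hY (fun F _ => hYT F)
    have e2 : Ex P2 (bx (0, 0) R) (fun F => t ^ N F (0, 0) 0 c * Y F) ≤ B * G N t 0 c :=
      fin (t := t) e hE hA1 hG1 (by rw [hB]; nlinarith [mul_nonneg hA2.le hsq])
    calc Ex P2 (bx (0, 0) R) (fun F => t ^ N F (0, 0) 0 c * Y F) * G N t (2 * r) R
        ≤ B * G N t 0 c * G N t (2 * r) R := mul_le_mul_of_nonneg_right e2 hG2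
      _ = B * (G N t 0 c * G N t (2 * r) R) := by ring
  -- outer costs
  have out : ∀ (T : Finset Edg) (Y : Finset Edg → ℝ), T ⊆ bx (0, 0) ((2 * (2 * r) : ℕ) : ℤ) →
      Disjoint T (bx (0, 0) (c : ℤ)) → (∀ F, 0 ≤ Y F) → (∀ F, Y F = Y (F ∩ T)) →
      Ex P2 (bx (0, 0) R) (fun F => Y F ^ 2) ≤ C →
      Ex P2 (bx (0, 0) R) (fun F => t ^ (N F (0, 0) 0 c + N F (0, 0) (2 * r) R) * Y F) ≤
        B * Ex P2 (bx (0, 0) R) (fun F => t ^ (N F (0, 0) 0 c + N F (0, 0) (2 * r) R)) := by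
    intro T Y hT hTd hY hYT hE
    have hTR : T ⊆ bx (0, 0) (R : ℤ) := hT.trans (bx_mono _ (by push_cast; omega))
    rw [indep_out h hl t c r R hcr (by omega) hR T hTR hTd Y hYT, hbase]
    have e := hO t ht1 ht2 (0, 0) (2 * r) R (2 * (2 * r)) (bx (0, 0) R) T Y (by omega) (by omega)
      le_rfl subset_rfl hTR hT hY (fun F _ => hYT F)
    have e2 : Ex P2 (bx (0, 0) R) (fun F => t ^ N F (0, 0) (2 * r) R * Y F) ≤
        B * G N t (2 * r) R :=
      fin (t := t) e hE hA2 hG2 (by rw [hB]; nlinarith [mul_nonneg hA1.le hsq])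
    calc G N t 0 c * Ex P2 (bx (0, 0) R) (fun F => t ^ N F (0, 0) (2 * r) R * Y F)
        ≤ G N t 0 c * (B * G N t (2 * r) R) := mul_le_mul_of_nonneg_left e2 hG1
      _ = B * (G N t 0 c * G N t (2 * r) R) := by ring
  -- moments
  have mW : ∀ b : ℕ, 1 ≤ b → 2 * b ≤ R →
      Ex P2 (bx (0, 0) R) (fun F => (((2 : ℝ) ^ 7) ^ W F (0, 0) b) ^ 2) ≤ C := by
    intro b hb hbR
    have e : ∀ F : Finset Edg, (((2 : ℝ) ^ 7) ^ W F (0, 0) b) ^ 2 =
        (((2 : ℝ) ^ 7) ^ 2) ^ W F (0, 0) b := fun F => sq_pow _ _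
    simp only [e]
    have := hW (0, 0) b (bx (0, 0) R) hb (bx_mono _ (by omega))
    rw [hC]
    linarith
  have mN : ∀ x y : ℕ, 1 ≤ x → x ≤ y → y ≤ 12 * x → y ≤ R →
      Ex P2 (bx (0, 0) R) (fun F => (((2 : ℝ) ^ 7) ^ N F (0, 0) x y) ^ 2) ≤ C := by
    intro x y hx hxy hyx hyR
    have e : ∀ F : Finset Edg, (((2 : ℝ) ^ 7) ^ N F (0, 0) x y) ^ 2 =
        (((2 : ℝ) ^ 7) ^ 2) ^ N F (0, 0) x y := fun F => sq_pow _ _
    simp only [e]
    have := hM (0, 0) x y (bx (0, 0) R) hx hxy hyx (bx_mono _ (by omega))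
    rw [hC]
    linarith
  have key := hcmp t ht1 ht2 (bx (0, 0) R) (fun F => N F (0, 0) 0 c + N F (0, 0) (2 * r) R)
    (fun F => N F (0, 0) 0 R) (X09 N W c d r)
    (fun F _ => pointwise09 h c d r R hd1 hdc hcr hR F) ?_
  · rw [hbase] at key
    exact key
  · intro j hj
    interval_cases j
    · exact inn (an (0, 0) d (2 * c)) _ (an_sub.trans (bx_mono _ (by push_cast; omega)))
        (an_disj le_rfl) (fun F => by positivity)
        (fun F => by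
          show ((2 : ℝ) ^ 7) ^ N F (0, 0) d (2 * c) = ((2 : ℝ) ^ 7) ^ N (F ∩ _) (0, 0) d (2 * c)
          rw [← h.geo.loc F (0, 0) d (2 * c) (by omega)])
        (mN d (2 * c) hd1 (by omega) (by omega) (by omega))
    · exact inn (an (0, 0) d (2 * d)) _ (an_sub.trans (bx_mono _ (by push_cast; omega)))
        (an_disj le_rfl) (fun F => by positivity)
        (fun F => by
          show ((2 : ℝ) ^ 7) ^ W F (0, 0) d = ((2 : ℝ) ^ 7) ^ W (F ∩ _) (0, 0) d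
          rw [← h.wloc F (0, 0) d hd1])
        (mW d hd1 (by omega))
    · exact inn (an (0, 0) c (2 * c)) _ (an_sub.trans (bx_mono _ (by push_cast; omega)))
        (an_disj (by omega)) (fun F => by positivity)
        (fun F => by
          show ((2 : ℝ) ^ 7) ^ W F (0, 0) c = ((2 : ℝ) ^ 7) ^ W (F ∩ _) (0, 0) c
          rw [← h.wloc F (0, 0) c (by omega)])
        (mW c (by omega) (by omega))
    · exact inn (an (0, 0) c (2 * (2 * c))) _ (an_sub.trans (bx_mono _ (by push_cast; omega)))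
        (an_disj (by omega)) (fun F => by positivity)
        (fun F => by
          show ((2 : ℝ) ^ 7) ^ N F (0, 0) c (2 * (2 * c)) =
            ((2 : ℝ) ^ 7) ^ N (F ∩ _) (0, 0) c (2 * (2 * c))
          rw [← h.geo.loc F (0, 0) c (2 * (2 * c)) (by omega)])
        (mN c (2 * (2 * c)) (by omega) (by omega) (by omega) (by omega))
    · exact inn (an (0, 0) (2 * c) (2 * (2 * c))) _
        (an_sub.trans (bx_mono _ (by push_cast; omega)))
        (an_disj (by push_cast; omega)) (fun F => by positivity)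
        (fun F => by
          show ((2 : ℝ) ^ 7) ^ W F (0, 0) (2 * c) = ((2 : ℝ) ^ 7) ^ W (F ∩ _) (0, 0) (2 * c)
          rw [← h.wloc F (0, 0) (2 * c) (by omega)])
        (mW (2 * c) (by omega) (by omega))
    · exact out (an (0, 0) (2 * c) (2 * (2 * r))) _ (an_sub.trans (bx_mono _ (by push_cast; omega)))
        (an_disj (by push_cast; omega)) (fun F => by positivity)
        (fun F => by
          show ((2 : ℝ) ^ 7) ^ N F (0, 0) (2 * c) (2 * (2 * r)) =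
            ((2 : ℝ) ^ 7) ^ N (F ∩ _) (0, 0) (2 * c) (2 * (2 * r))
          rw [← h.geo.loc F (0, 0) (2 * c) (2 * (2 * r)) (by omega)])
        (mN (2 * c) (2 * (2 * r)) (by omega) (by omega) (by omega) (by omega))
    · exact out (an (0, 0) (2 * r) (2 * (2 * r))) _ (an_sub.trans (bx_mono _ (by push_cast; omega)))
        (an_disj (by push_cast; omega)) (fun F => by positivity)
        (fun F => by
          show ((2 : ℝ) ^ 7) ^ W F (0, 0) (2 * r) = ((2 : ℝ) ^ 7) ^ W (F ∩ _) (0, 0) (2 * r)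
          rw [← h.wloc F (0, 0) (2 * r) (by omega)])
        (mW (2 * r) (by omega) (by omega))

end Pool.Agent.Helper859_NL.J09
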