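import Pool.Agent.Helper859_NL.Stm
import Pool.Agent.W819.EN.Cyl

set_option autoImplicit false

namespace Pool.Agent.Helper859_NL.J10

open H974 Finset Pool.Agent.W819.EN Pool.Agent.W819.NC MeasureTheory
open Pool.Agent.Y996.NL Pool.Agent.Helper859_NL
open scoped Real

/-
Uniform boundedness. `Pool.Agent.W819.EN.Cyl.ps_all` gives `ps` such that for EACH function `H` (with continuous derivative `H'`
on `[0, 1/3]`, `H 0 = 0`) the quantity `L n H := ((ps n).map H).sum - (3/(4π²) ∫ H (1/(2 cosh x + 1)) dx) log n` is bounded in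
`n ≥ 1`. The target says that the bound is `C * sup |H'|`. Proof: Banach-Steinhaus (`banach_steinhaus`) in the Banach space
`E = C(Set.Icc (0:ℝ) (1/3), ℝ)` of the derivatives: for `f ∈ E` let `H_f p = ∫ u in 0..p, f u` (extend `f` to `ℝ` by
`ContinuousMap.IccExtend` / `Set.IccExtend`), so `|H_f p| ≤ p ‖f‖` and `H_f` is linear in `f`; for `n ≥ 1` the functional
`L n (H_f)` is linear in `f` and bounded (`(ps n).sum ‖f‖ + (3/(4π²)) ∫ 1/(2 cosh x + 1) |log n| ‖f‖`; integrability of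
`1/(2 cosh x + 1)`: `Pool.Agent.H863R2.NL.IntAux.p_int`, `p_nonneg`, `p_cont`; `SumAux.p_mem`; values `0 < p ≤ 1/3` of the
multiset: `IsPs`). Pointwise bounded by `ps_all`; hence `‖L n‖ ≤ C` for all `n ≥ 1`. For given `H, H', B` take
`f = H'` restricted to `[0, 1/3]` (`‖f‖ ≤ B`); then `H_f p = H p` for `p ∈ [0, 1/3]` (fundamental theorem of calculus, `H 0 = 0`)
and all arguments `1/(2 cosh x + 1)` and `p ∈ ps n` are in `[0, 1/3]`.
-/
/-- the extension of a continuous function on `[0, 1/3]` -/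
noncomputable def ext (f : C(Set.Icc (0 : ℝ) (1 / 3), ℝ)) : ℝ → ℝ :=
  Set.IccExtend (by norm_num : (0 : ℝ) ≤ 1 / 3) f

theorem ext_cont (f : C(Set.Icc (0 : ℝ) (1 / 3), ℝ)) : Continuous (ext f) :=
  f.continuous.Icc_extend'

theorem ext_bound (f : C(Set.Icc (0 : ℝ) (1 / 3), ℝ)) (x : ℝ) : ‖ext f x‖ ≤ ‖f‖ :=
  f.norm_coe_le_norm _

theorem ext_add (f g : C(Set.Icc (0 : ℝ) (1 / 3), ℝ)) (x : ℝ) : ext (f + g) x = ext f x + ext g x :=
  rfl

theorem ext_smul (a : ℝ) (f : C(Set.Icc (0 : ℝ) (1 / 3), ℝ)) (x : ℝ) :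
    ext (a • f) x = a * ext f x := rfl

/-- the primitive -/
noncomputable def prim (f : C(Set.Icc (0 : ℝ) (1 / 3), ℝ)) (p : ℝ) : ℝ := ∫ u in (0 : ℝ)..p, ext f u

theorem prim_add (f g : C(Set.Icc (0 : ℝ) (1 / 3), ℝ)) (p : ℝ) :
    prim (f + g) p = prim f p + prim g p := by
  unfold prim
  rw [← intervalIntegral.integral_add ((ext_cont f).intervalIntegrable _ _)
    ((ext_cont g).intervalIntegrable _ _)]
  rfl

theorem prim_smul (a : ℝ) (f : C(Set.Icc (0 : ℝ) (1 / 3), ℝ)) (p : ℝ) :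
    prim (a • f) p = a * prim f p := by
  unfold prim
  rw [← intervalIntegral.integral_const_mul]
  rfl

theorem prim_bound (f : C(Set.Icc (0 : ℝ) (1 / 3), ℝ)) (p : ℝ) : |prim f p| ≤ ‖f‖ * |p| := by
  have h := intervalIntegral.norm_integral_le_of_norm_le_const (a := (0 : ℝ)) (b := p)
    (f := ext f) (C := ‖f‖) (fun x _ => ext_bound f x)
  rw [sub_zero] at h
  exact h

theorem prim_deriv (f : C(Set.Icc (0 : ℝ) (1 / 3), ℝ)) (p : ℝ) :
    HasDerivAt (prim f) (ext f p) p :=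
  ((ext_cont f).integral_hasStrictDerivAt 0 p).hasDerivAt

theorem prim_cont (f : C(Set.Icc (0 : ℝ) (1 / 3), ℝ)) : Continuous (prim f) :=
  continuous_iff_continuousAt.2 fun p => (prim_deriv f p).continuousAt

theorem prim_zero (f : C(Set.Icc (0 : ℝ) (1 / 3), ℝ)) : prim f 0 = 0 := by
  unfold prim
  rw [intervalIntegral.integral_same]

theorem prim_int (f : C(Set.Icc (0 : ℝ) (1 / 3), ℝ)) {q : ℝ → ℝ} (hq : Continuous q)
    (hi : Integrable q) : Integrable (fun x => prim f (q x)) := by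
  refine Integrable.mono' (hi.abs.const_mul ‖f‖) ((prim_cont f).comp hq).aestronglyMeasurable ?_
  exact Filter.Eventually.of_forall fun x => prim_bound f (q x)

theorem sum_bound (f : C(Set.Icc (0 : ℝ) (1 / 3), ℝ)) (s : Multiset ℝ) :
    |(s.map (prim f)).sum| ≤ (s.map (fun p => |p|)).sum * ‖f‖ := by
  induction s using Multiset.induction_on with
  | empty => simp
  | cons a s ih =>
    rw [Multiset.map_cons, Multiset.sum_cons, Multiset.map_cons, Multiset.sum_cons, add_mul]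
    refine (abs_add_le _ _).trans (add_le_add ?_ ih)
    rw [mul_comm]
    exact prim_bound f a

theorem sum_nonneg' (s : Multiset ℝ) : 0 ≤ (s.map (fun p => |p|)).sum := by
  refine Multiset.sum_nonneg ?_
  intro x hx
  obtain ⟨a, _, rfl⟩ := Multiset.mem_map.1 hx
  exact abs_nonneg a

/-- the functional -/
noncomputable def Lf (s : Multiset ℝ) {q : ℝ → ℝ} (hq : Continuous q) (hi : Integrable q)
    (c l : ℝ) : C(Set.Icc (0 : ℝ) (1 / 3), ℝ) →L[ℝ] ℝ :=
  LinearMap.mkContinuous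
    { toFun := fun f => (s.map (prim f)).sum - (c * ∫ x, prim f (q x)) * l
      map_add' := by
        intro f g
        have e1 : (s.map (prim (f + g))).sum = (s.map (prim f)).sum + (s.map (prim g)).sum := by
          rw [← Multiset.sum_map_add]
          congr 1
          exact Multiset.map_congr rfl fun p _ => prim_add f g p
        have e2 : ∫ x, prim (f + g) (q x) = (∫ x, prim f (q x)) + ∫ x, prim g (q x) := by
          rw [← integral_add (prim_int f hq hi) (prim_int g hq hi)]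
          congr 1
          funext x
          exact prim_add f g (q x)
        rw [e1, e2]
        ring
      map_smul' := by
        intro a f
        have e1 : (s.map (prim (a • f))).sum = a * (s.map (prim f)).sum := by
          rw [← Multiset.sum_map_mul_left]
          congr 1
          exact Multiset.map_congr rfl fun p _ => prim_smul a f p
        have e2 : ∫ x, prim (a • f) (q x) = a * ∫ x, prim f (q x) := by
          rw [← integral_const_mul]
          congr 1
          funext x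
          exact prim_smul a f (q x)
        rw [e1, e2, RingHom.id_apply, smul_eq_mul]
        ring }
    ((s.map (fun p => |p|)).sum + |c| * (∫ x, |q x|) * |l|) (by
      intro f
      change |(s.map (prim f)).sum - (c * ∫ x, prim f (q x)) * l| ≤ _
      have h1 := sum_bound f s
      have h2 : |∫ x, prim f (q x)| ≤ ‖f‖ * ∫ x, |q x| := by
        have h := norm_integral_le_of_norm_le (μ := volume) (f := fun x => prim f (q x))
          (g := fun x => ‖f‖ * |q x|) (hi.abs.const_mul ‖f‖)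
          (Filter.Eventually.of_forall fun x => prim_bound f (q x))
        rw [integral_const_mul] at h
        exact h
      have h3 : |(c * ∫ x, prim f (q x)) * l| ≤ |c| * (‖f‖ * ∫ x, |q x|) * |l| := by
        rw [abs_mul, abs_mul]
        exact mul_le_mul_of_nonneg_right (mul_le_mul_of_nonneg_left h2 (abs_nonneg _))
          (abs_nonneg _)
      refine (abs_sub _ _).trans ?_
      nlinarith [h1, h3])

theorem ub (ps : ℕ → Multiset ℝ) (hps : ∀ n, 1 ≤ n → ∀ p ∈ ps n, 0 < p ∧ p ≤ 1 / 3)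
    {q : ℝ → ℝ} (hq : Continuous q) (hi : Integrable q) (hq' : ∀ x, q x ∈ Set.Icc (0 : ℝ) (1 / 3))
    (c : ℝ) (l : ℕ → ℝ)
    (hyp : ∀ H H' : ℝ → ℝ, (∀ p, 0 ≤ p → p ≤ 1 / 3 → HasDerivAt H (H' p) p) →
      ContinuousOn H' (Set.Icc 0 (1 / 3)) → H 0 = 0 → ∃ C : ℝ, ∀ n : ℕ, 1 ≤ n →
      |((ps n).map H).sum - (c * (∫ x, H (q x))) * l n| ≤ C) :
    ∃ C : ℝ, 0 ≤ C ∧ ∀ (H H' : ℝ → ℝ) (B : ℝ), (∀ p, 0 ≤ p → p ≤ 1 / 3 → HasDerivAt H (H' p) p) →
      ContinuousOn H' (Set.Icc 0 (1 / 3)) → H 0 = 0 → (∀ p, 0 ≤ p → p ≤ 1 / 3 → |H' p| ≤ B) →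
      ∀ n : ℕ, 1 ≤ n → |((ps n).map H).sum - (c * (∫ x, H (q x))) * l n| ≤ C * B := by
  obtain ⟨C, hC⟩ := banach_steinhaus
    (g := fun n : {n : ℕ // 1 ≤ n} => Lf (ps n) hq hi c (l n)) (by
      intro f
      obtain ⟨C, hC⟩ := hyp (prim f) (ext f) (fun p _ _ => prim_deriv f p) (ext_cont f).continuousOn
        (prim_zero f)
      exact ⟨C, fun n => hC n n.2⟩)
  have hC0 : 0 ≤ C := (norm_nonneg _).trans (hC ⟨1, le_rfl⟩)
  refine ⟨C, hC0, ?_⟩
  intro H H' B h1 h2 h3 h4 n hn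
  have hB : 0 ≤ B := (abs_nonneg _).trans (h4 0 le_rfl (by norm_num))
  let f : C(Set.Icc (0 : ℝ) (1 / 3), ℝ) :=
    ⟨fun p => H' p, continuousOn_iff_continuous_domRestrict.1 h2⟩
  have hf : ‖f‖ ≤ B := (ContinuousMap.norm_le _ hB).2 fun x => h4 x x.2.1 x.2.2
  have hext : ∀ p, 0 ≤ p → p ≤ 1 / 3 → ext f p = H' p := by
    intro p hp0 hp1
    exact Set.IccExtend_of_mem _ _ (⟨hp0, hp1⟩ : p ∈ Set.Icc (0 : ℝ) (1 / 3))
  have hH : ∀ p, 0 ≤ p → p ≤ 1 / 3 → H p = prim f p := by
    intro p hp0 hp1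
    unfold prim
    rw [intervalIntegral.integral_eq_sub_of_hasDerivAt (f := H) (f' := ext f) ?_
      ((ext_cont f).intervalIntegrable _ _), h3, sub_zero]
    intro x hx
    rw [Set.uIcc_of_le hp0] at hx
    rw [hext x hx.1 (hx.2.trans hp1)]
    exact h1 x hx.1 (hx.2.trans hp1)
  have e1 : (ps n).map H = (ps n).map (prim f) :=
    Multiset.map_congr rfl fun p hp => hH p ((hps n hn p hp).1.le) (hps n hn p hp).2
  have e2 : ∫ x, H (q x) = ∫ x, prim f (q x) := by
    congr 1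
    funext x
    exact hH _ (hq' x).1 (hq' x).2
  rw [e1, e2]
  have h5 := (Lf (ps n) hq hi c (l n)).le_opNorm f
  refine (show |((ps n).map (prim f)).sum - (c * (∫ x, prim f (q x))) * l n| ≤ _ from h5).trans ?_
  exact mul_le_mul (hC ⟨n, hn⟩) hf (norm_nonneg _) hC0

theorem target : SumU := by
  obtain ⟨ps, h1, h2⟩ := Pool.Agent.W819.EN.Cyl.ps_all
  refine ⟨ps, h1, ?_⟩
  exact ub ps (fun n hn => (h1 n hn).1) Pool.Agent.H863R2.NL.IntAux.p_cont
    Pool.Agent.H863R2.NL.IntAux.p_int Pool.Agent.H863R2.NL.SumAux.p_mem (3 / (4 * π ^ 2))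
    (fun n => Real.log n) h2

end Pool.Agent.Helper859_NL.J10
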