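import Pool.Agent.Helper859_NL.Stm
import Pool.Agent.W819.EN.Cyl

set_option autoImplicit false

namespace Pool.Agent.Helper859_NL.J11

open H974 Finset Pool.Agent.W819.EN Pool.Agent.W819.NC MeasureTheory
open Pool.Agent.Y996.NL Pool.Agent.Helper859_NL
open scoped Real

theorem abs_sub_one_le {t : ℝ} (h1 : 1 / 2 ≤ t) (h2 : t ≤ 2) : |t - 1| ≤ 2 * |Real.log t| := by
  have ht0 : 0 < t := by linarith
  rcases le_total 1 t with h | h
  · have h3 : 0 ≤ Real.log t := Real.log_nonneg h
    rw [abs_of_nonneg (by linarith), abs_of_nonneg h3]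
    have h4 := Real.one_sub_inv_le_log_of_pos ht0
    have h5 : t - 1 = t * (1 - t⁻¹) := by
      field_simp
    rw [h5]
    calc t * (1 - t⁻¹) ≤ t * Real.log t := mul_le_mul_of_nonneg_left h4 ht0.le
      _ ≤ 2 * Real.log t := mul_le_mul_of_nonneg_right h2 h3
  · have h3 : Real.log t ≤ 0 := Real.log_nonpos ht0.le h
    rw [abs_of_nonpos (by linarith), abs_of_nonpos h3]
    have h4 := Real.log_le_sub_one_of_pos ht0
    linarith

/-
Uniform version of `Pool.Agent.W819.EN.Cyl.cyl`: copy its proof, with `SumU` (`hS`) in place of `ps_all`, for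
`H p = log (1 + p (t - 1))`, `H' p = (t - 1) / (1 + p (t - 1))` and `B := 4 * |log t|`: on `[0, 1/3]` the denominator is
`≥ 5/6`, and `|t - 1| ≤ 2 |log t|` for `t ∈ [1/2, 2]` (`1 - 1/t ≤ log t ≤ t - 1`).
-/
theorem target (hS : SumU) (hI : SInt) : CylU := by
  obtain ⟨ps, hps, C, hC0, hC⟩ := hS
  refine ⟨C * 4, by positivity, ?_⟩
  intro t ht1 ht2 n hn
  have ht0 : 0 < t := by linarith
  have h1 := hC (fun p => Real.log (1 + p * (t - 1)))
      (fun p => (t - 1) / (1 + p * (t - 1))) (4 * |Real.log t|)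
      (fun p h1 h2 => by
        have h3 := Pool.Agent.H863R2.NL.PsSumAux.log_pos ht0 h1 h2
        have h4 : HasDerivAt (fun p : ℝ => 1 + p * (t - 1)) (1 * (t - 1)) p :=
          ((hasDerivAt_id p).mul_const (t - 1)).const_add 1
        refine (h4.log h3.ne').congr_deriv ?_
        ring)
      (by
        apply ContinuousOn.div
        · fun_prop
        · fun_prop
        · intro p hp
          exact (Pool.Agent.H863R2.NL.PsSumAux.log_pos ht0 hp.1 hp.2).ne')
      (by simp)
      (fun p hp1 hp2 => by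
        have h3 := Pool.Agent.H863R2.NL.PsSumAux.log_pos ht0 hp1 hp2
        have h5 : 5 / 6 ≤ 1 + p * (t - 1) := by nlinarith
        rw [abs_div, abs_of_pos h3, div_le_iff₀ h3]
        have h6 := abs_sub_one_le ht1 ht2
        have h7 : 0 ≤ |Real.log t| := abs_nonneg _
        nlinarith) n hn
  have hn0 : (0:ℝ) < n := by exact_mod_cast hn
  have e0 : 3 / (4 * π ^ 2) * (∫ x : ℝ, Real.log (1 + 1 / (2 * Real.cosh x + 1) * (t - 1))) =
      Psi t := by
    rw [hI t ht0]
    rfl
  rw [e0] at h1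
  have h2 : Pool.Agent.H863R2.NL.EN n (fun m => t ^ m) =
      Real.exp ((ps n).map (fun p => Real.log (1 + p * (t - 1)))).sum := by
    rw [Pool.Agent.H863R2.NL.PsSumAux.real_id (hps n hn) t, Real.exp_multiset_sum, Multiset.map_map]
    congr 1
    apply Multiset.map_congr rfl
    intro p hp
    have h3 := (hps n hn).1 p hp
    exact (Real.exp_log (Pool.Agent.H863R2.NL.PsSumAux.log_pos ht0 h3.1.le h3.2)).symm
  rw [h2, Real.rpow_def_of_pos hn0, ← Real.exp_add, ← Real.exp_add]
  rw [abs_le] at h1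
  constructor
  · apply Real.exp_le_exp.2
    linarith
  · apply Real.exp_le_exp.2
    linarith

end Pool.Agent.Helper859_NL.J11
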