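import Pool.Agent.Helper859_NL.Stm
import Pool.Agent.W819.NC.OneLo
import Pool.Agent.W819.NC.OneS

set_option autoImplicit false

namespace Pool.Agent.Helper859_NL.J12

open H974 Finset Pool.Agent.W819.EN Pool.Agent.W819.NC MeasureTheory
open Pool.Agent.Y996.NL Pool.Agent.Helper859_NL
open scoped Real

namespace Aux
open H906.Cyl Pool.Agent.W819.NC.OneLoAux
open Pool.Agent.H863R2.NL (EN ET TT Good mu fN EN_avg Ex_per mu_nonneg mu_sum f_le fN_spec
  TT_local good_top good_mono)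
open Pool.Agent.H863R2.Cyl (Wd Tc rows FSpec push)

/-- the configuration in the box of radius `4 a` -/
noncomputable def P4 (a : ℕ) (F : Finset Edg) : Finset Edg := pf (10 * a) (boxE (4 * a)) F

/-- an upper bound of the number of loops -/
noncomputable def nn (a : ℕ) (F : Finset Edg) : ℕ :=
  NA (P4 a F) (0, 0) 0 (4 * a) + (1 + 10 * kg a F)

theorem f_nn {a : ℕ} (ha : 0 < a) (F : Finset Edg) (σ τ : Wd (2 * (10 * a) - 1 + 1)) :
    fN (rows (2 * (10 * a) - 1) (dn (10 * a) (20 * a) F) (20 * a) σ).1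
      (rows (2 * (10 * a) - 1) (up (10 * a) (20 * a) F) (20 * a) τ).1 ≤ nn a F := by
  have h3 := f_le fN_spec ha le_rfl (kg_good ha F) σ τ
  rw [TT_P4] at h3
  change _ ≤ NA (P4 a F) (0, 0) 0 (4 * a) + 1 + 10 * kg a F at h3
  unfold nn
  omega

theorem EN_up {t : ℝ} (ht : 1 ≤ t) {a : ℕ} (ha : 0 < a) :
    EN (10 * a) (fun m => t ^ m) ≤ Ex P2 (CE (10 * a) (20 * a)) (fun F => t ^ nn a F) := by
  rw [EN_avg (n := 10 * a) (by omega) (20 * a) (fun m => t ^ m)]
  apply Ex_mono ok2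
  intro F _
  exact Pool.Agent.H863R2.NL.CmpAux.avg_le
    (fun σ τ => pow_le_pow_right₀ ht (f_nn ha F σ τ))

theorem EN_lo {t : ℝ} (ht0 : 0 < t) (ht : t ≤ 1) {a : ℕ} (ha : 0 < a) :
    Ex P2 (CE (10 * a) (20 * a)) (fun F => t ^ nn a F) ≤ EN (10 * a) (fun m => t ^ m) := by
  rw [EN_avg (n := 10 * a) (by omega) (20 * a) (fun m => t ^ m)]
  apply Ex_mono ok2
  intro F _
  exact Pool.Agent.H863R2.NL.CmpAux.avg_ge
    (fun σ τ => pow_le_pow_of_le_one ht0.le ht (f_nn ha F σ τ))

theorem eG (hl : LocG NA) (t : ℝ) {a c : ℕ} (ha : 0 < a) (hc : c ≤ 4 * a) :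
    Ex P2 (CE (10 * a) (20 * a)) (fun F => t ^ NA (P4 a F) (0, 0) 0 c) = G NA t 0 c := by
  rw [← hl t (0, 0) 0 c (bx (0, 0) (4 * a : ℕ)) (Nat.zero_le _) (bx_mono _ (by omega))]
  exact Ex_P4 ha (fun F => t ^ NA F (0, 0) 0 c)

theorem mom (h : Sys NA Wc Kc) (hl : LocG NA) (hB : BadX) {w : ℝ} (hw : 1 ≤ w) :
    ∃ A : ℝ, 0 < A ∧ ∀ t : ℝ, 0 < t → ∀ a : ℕ, 2 ≤ a →
      Ex P2 (CE (10 * a) (20 * a)) (fun F => t ^ NA (P4 a F) (0, 0) 0 (2 * (a - 1)) *
        w ^ (1 + 10 * kg a F)) ≤ A * G NA t 0 (2 * (a - 1)) := by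
  set u : ℝ := w ^ 10 with hu
  have hu1 : 1 ≤ u := one_le_pow₀ hw
  have hu0 : 0 < u := by linarith
  have hw0 : 0 < w := by linarith
  obtain ⟨C1, hC1, h2⟩ := hB (1 / (2 * u)) (by positivity)
  refine ⟨w * (1 + 2 * C1 * u), by positivity, ?_⟩
  intro t ht0 a ha
  have ha0 : 0 < a := by omega
  obtain ⟨c, hc⟩ : ∃ c, c = a - 1 := ⟨_, rfl⟩
  rw [← hc]
  obtain ⟨B, hBg⟩ := good_ex ha0
  set X : Finset Edg → ℝ := fun F => t ^ NA (P4 a F) (0, 0) 0 (2 * c) with hX
  have hX0 : ∀ F, 0 ≤ X F := fun F => by positivity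
  have eX : Ex P2 (CE (10 * a) (20 * a)) X = G NA t 0 (2 * c) := eG hl t ha0 (by omega)
  have step : Ex P2 (CE (10 * a) (20 * a)) (fun F => X F * w ^ (1 + 10 * kg a F)) ≤
      Ex P2 (CE (10 * a) (20 * a)) (fun F => X F * (w * (1 + ∑ k ∈ range B, u ^ (k + 1) *
          ind (¬ Good (10 * a) (2 * a) k F)))) := by
    apply Ex_mono ok2
    intro F _
    have b2 : w ^ (1 + 10 * kg a F) = w * u ^ kg a F := by
      rw [hu, pow_add, pow_one, ← pow_mul]
    have b3 := cake hu1 hBg F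
    show X F * w ^ (1 + 10 * kg a F) ≤ _
    rw [b2]
    exact mul_le_mul_of_nonneg_left (mul_le_mul_of_nonneg_left b3 hw0.le) (hX0 F)
  refine step.trans ?_
  have e : (fun F => X F * (w * (1 + ∑ k ∈ range B,
      u ^ (k + 1) * ind (¬ Good (10 * a) (2 * a) k F)))) =
      fun F => w * (X F + ∑ k ∈ range B, u ^ (k + 1) *
        (X F * ind (¬ Good (10 * a) (2 * a) k F))) := by
    funext F
    rw [mul_left_comm, mul_add, mul_one, Finset.mul_sum]
    congr 2
    apply Finset.sum_congr rfl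
    intro k _
    ring
  rw [e, Ex_mul_left, Ex_add, Ex_sum]
  have f3 : ∑ k ∈ range B, Ex P2 (CE (10 * a) (20 * a)) (fun F => u ^ (k + 1) *
      (X F * ind (¬ Good (10 * a) (2 * a) k F))) ≤ 2 * C1 * u * G NA t 0 (2 * c) := by
    have hGnn := G_nonneg NA ht0 0 (2 * c)
    calc ∑ k ∈ range B, Ex P2 (CE (10 * a) (20 * a)) (fun F => u ^ (k + 1) *
          (X F * ind (¬ Good (10 * a) (2 * a) k F)))
        ≤ ∑ k ∈ range B, C1 * u * G NA t 0 (2 * c) * (1 / 2) ^ k := by
          apply Finset.sum_le_sum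
          intro k _
          rw [Ex_mul_left]
          have g1 := h2 a ha0 X hX0 (fun F _ => by
            show t ^ NA (P4 a F) (0, 0) 0 (2 * c) = t ^ NA (P4 a _) (0, 0) 0 (2 * c)
            unfold P4
            rw [dep h.geo (by omega) F]) k
          rw [eX] at g1
          have g2 := mul_le_mul_of_nonneg_left g1 (by positivity : (0 : ℝ) ≤ u ^ (k + 1))
          refine g2.trans (le_of_eq ?_)
          have : u ^ (k + 1) * (C1 * (1 / (2 * u)) ^ k * G NA t 0 (2 * c)) =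
              C1 * u * G NA t 0 (2 * c) * (u ^ k * (1 / (2 * u)) ^ k) := by ring
          rw [this, ← mul_pow]
          congr 2
          field_simp
      _ = C1 * u * G NA t 0 (2 * c) * ∑ k ∈ range B, (1 / 2 : ℝ) ^ k := by
          rw [Finset.mul_sum]
      _ ≤ C1 * u * G NA t 0 (2 * c) * 2 :=
          mul_le_mul_of_nonneg_left (geom (by norm_num) le_rfl B) (by positivity)
      _ = _ := by ring
  rw [eX]
  calc w * (G NA t 0 (2 * c) + ∑ k ∈ range B, Ex P2 (CE (10 * a) (20 * a))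
        (fun F => u ^ (k + 1) * (X F * ind (¬ Good (10 * a) (2 * a) k F))))
      ≤ w * (G NA t 0 (2 * c) + 2 * C1 * u * G NA t 0 (2 * c)) :=
        mul_le_mul_of_nonneg_left (by linarith) (by positivity)
    _ = _ := by ring

theorem part3 (h : Sys NA Wc Kc) (hl : LocG NA) (hi : InBU NA Wc) (hB : BadX) (hc : Cmps) :
    ∃ K : ℝ, 0 ≤ K ∧ ∀ t : ℝ, 1 ≤ t → t ≤ 2 → ∀ a : ℕ, 2 ≤ a →
      EN (10 * a) (fun m => t ^ m) ≤
        Real.exp (K * |Real.log t|) * G NA t 0 (2 * (a - 1)) := by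
  obtain ⟨A0, hA0, m0⟩ := hi 4 8 (by norm_num)
  obtain ⟨A1, hA1, m1⟩ := mom h hl hB (w := 4) (by norm_num)
  obtain ⟨K, hK, k1⟩ := hc 2 (max 1 (max A0 A1)) (by norm_num) (le_max_left _ _)
  have hB0 : A0 ≤ max 1 (max A0 A1) := (le_max_left _ _).trans (le_max_right _ _)
  have hB1 : A1 ≤ max 1 (max A0 A1) := (le_max_right _ _).trans (le_max_right _ _)
  refine ⟨K, hK, ?_⟩
  intro t ht ht2 a ha
  have ht0 : 0 < t := by linarith
  have ha0 : 0 < a := by omega
  have m1' := m1 t ht0 a ha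
  obtain ⟨c, hc'⟩ : ∃ c, c = a - 1 := ⟨_, rfl⟩
  rw [← hc'] at m1' ⊢
  have eX := eG hl t (a := a) (c := 2 * c) ha0 (by omega)
  have hG := G_nonneg NA ht0 0 (2 * c)
  have h4 : ((2 : ℝ) ^ 2) = 4 := by norm_num
  have key := (k1 t (by linarith) ht2 (CE (10 * a) (20 * a))
    (fun F => NA (P4 a F) (0, 0) 0 (2 * c)) (nn a)
    (fun j F => if j = 0 then NA (P4 a F) (0, 0) c (4 * a) + Wc (P4 a F) (0, 0) c
      else 1 + 10 * kg a F)
    (by
      intro F _
      have e1 := h.geo.mono (P4 a F) (0, 0) 0 0 (2 * c) (4 * a) le_rfl (by omega)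
      have e2 := h.join (P4 a F) (0, 0) c 0 (4 * a) (by omega) (Nat.zero_le _) (by omega)
      rw [Finset.sum_range_succ, Finset.sum_range_succ, Finset.sum_range_zero]
      simp only [if_true, one_ne_zero, if_false]
      unfold nn
      constructor <;> omega)
    (by
      intro j hj
      rw [h4, eX]
      rcases (by omega : j = 0 ∨ j = 1) with rfl | rfl
      · simp only [if_true]
        have e1 := m0 t ht ht2 (0, 0) 0 c (4 * a) (bx (0, 0) (4 * a : ℕ)) (Nat.zero_le _)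
          (by omega) (by omega) (by omega) Subset.rfl
        have e2 : Ex P2 (CE (10 * a) (20 * a)) (fun F => t ^ NA (P4 a F) (0, 0) 0 (2 * c) *
            (4 : ℝ) ^ (NA (P4 a F) (0, 0) c (4 * a) + Wc (P4 a F) (0, 0) c)) =
            Ex P2 (bx (0, 0) (4 * a : ℕ)) (fun F => t ^ NA F (0, 0) 0 (2 * c) *
            (4 : ℝ) ^ (NA F (0, 0) c (4 * a) + Wc F (0, 0) c)) :=
          Ex_P4 ha0 (fun F => t ^ NA F (0, 0) 0 (2 * c) *
            (4 : ℝ) ^ (NA F (0, 0) c (4 * a) + Wc F (0, 0) c))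
        rw [e2]
        exact e1.trans (mul_le_mul_of_nonneg_right hB0 hG)
      · simp only [one_ne_zero, if_false]
        exact m1'.trans (mul_le_mul_of_nonneg_right hB1 hG))).2
  rw [eX] at key
  exact (EN_up ht ha0).trans key

theorem part4 (h : Sys NA Wc Kc) (hl : LocG NA) (hd : DInU NA) (hB : BadX) (hc : Cmps) :
    ∃ K : ℝ, 0 ≤ K ∧ ∀ t : ℝ, 1 / 2 ≤ t → t ≤ 1 → ∀ a : ℕ, 2 ≤ a →
      Real.exp (-(K * |Real.log t|)) * G NA t 0 (4 * a) ≤
        EN (10 * a) (fun m => t ^ m) := by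
  obtain ⟨A0, hA0, m0⟩ := hd 4
  obtain ⟨A1, hA1, m1⟩ := mom h hl hB (w := 2) (by norm_num)
  obtain ⟨K, hK, k1⟩ := hc 1 (max 1 (A1 * A0)) (by norm_num) (le_max_left _ _)
  have hB1 : A1 * A0 ≤ max 1 (A1 * A0) := le_max_right _ _
  refine ⟨K, hK, ?_⟩
  intro t ht1 ht a ha
  have ht0 : 0 < t := by linarith
  have ha0 : 0 < a := by omega
  have m1' := m1 t ht0 a ha
  obtain ⟨c, hc'⟩ : ∃ c, c = a - 1 := ⟨_, rfl⟩
  rw [← hc'] at m1'
  have m0' := m0 t ht1 ht 0 (2 * c) (4 * a) (Nat.zero_le _) (by omega) (by omega) (by omega)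
  have eX := eG hl t (a := a) (c := 4 * a) ha0 le_rfl
  have hG := G_nonneg NA ht0 0 (4 * a)
  have key := (k1 t ht1 (by linarith) (CE (10 * a) (20 * a))
    (fun F => NA (P4 a F) (0, 0) 0 (4 * a)) (nn a)
    (fun _ F => 1 + 10 * kg a F)
    (by
      intro F _
      rw [Finset.sum_range_one]
      unfold nn
      constructor <;> omega)
    (by
      intro j hj
      rw [eX, pow_one]
      have e1 : Ex P2 (CE (10 * a) (20 * a)) (fun F => t ^ NA (P4 a F) (0, 0) 0 (4 * a) *
          (2 : ℝ) ^ (1 + 10 * kg a F)) ≤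
          Ex P2 (CE (10 * a) (20 * a)) (fun F => t ^ NA (P4 a F) (0, 0) 0 (2 * c) *
          (2 : ℝ) ^ (1 + 10 * kg a F)) := by
        apply Ex_mono ok2
        intro F _
        apply mul_le_mul_of_nonneg_right _ (by positivity)
        exact pow_le_pow_of_le_one ht0.le ht
          (h.geo.mono (P4 a F) (0, 0) 0 0 (2 * c) (4 * a) le_rfl (by omega))
      refine e1.trans (m1'.trans ?_)
      calc A1 * G NA t 0 (2 * c) ≤ A1 * (A0 * G NA t 0 (4 * a)) :=
            mul_le_mul_of_nonneg_left m0' hA1.le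
        _ = A1 * A0 * G NA t 0 (4 * a) := by ring
        _ ≤ _ := mul_le_mul_of_nonneg_right hB1 hG)).1
  rw [eX] at key
  exact key.trans (EN_lo ht0 ht ha0)

/-- powers with bounded exponents -/
theorem pw {t : ℝ} (ht : 0 < t) {m M : ℕ} (hm : m ≤ M) :
    Real.exp (-((M : ℝ) * |Real.log t|)) ≤ t ^ m ∧ t ^ m ≤ Real.exp ((M : ℝ) * |Real.log t|) := by
  have e : t ^ m = Real.exp ((m : ℝ) * Real.log t) := by
    rw [mul_comm, ← Real.rpow_def_of_pos ht, Real.rpow_natCast]
  have hm' : (m : ℝ) ≤ M := by exact_mod_cast hm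
  have hm0 : (0 : ℝ) ≤ m := Nat.cast_nonneg m
  have ha := abs_nonneg (Real.log t)
  have h1 : (m : ℝ) * |Real.log t| ≤ M * |Real.log t| := mul_le_mul_of_nonneg_right hm' ha
  have h2 : (m : ℝ) * Real.log t ≤ m * |Real.log t| :=
    mul_le_mul_of_nonneg_left (le_abs_self _) hm0
  have h3 : -((m : ℝ) * |Real.log t|) ≤ m * Real.log t := by
    have := mul_le_mul_of_nonneg_left (neg_abs_le (Real.log t)) hm0
    linarith
  rw [e]
  exact ⟨Real.exp_le_exp.2 (by linarith), Real.exp_le_exp.2 (by linarith)⟩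

/-- change of the base of a power -/
theorem base {x y p L P : ℝ} (hx : 0 < x) (hy : 0 < y) (h1 : |Real.log x - Real.log y| ≤ L)
    (hp : |p| ≤ P) : Real.exp (-(P * L)) * y ^ p ≤ x ^ p := by
  rw [Real.rpow_def_of_pos hx, Real.rpow_def_of_pos hy, ← Real.exp_add]
  apply Real.exp_le_exp.2
  have h2 : |(Real.log x - Real.log y) * p| ≤ P * L := by
    rw [abs_mul, mul_comm]
    exact mul_le_mul hp h1 (abs_nonneg _) ((abs_nonneg _).trans hp)
  have h3 := neg_abs_le ((Real.log x - Real.log y) * p)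
  nlinarith

theorem logs {n m : ℕ} {k : ℝ} (hn : 1 ≤ n) (hm : 1 ≤ m) (hk : 1 ≤ k) (h1 : (n : ℝ) ≤ k * m)
    (h2 : (m : ℝ) ≤ k * n) : |Real.log n - Real.log m| ≤ Real.log k := by
  have hn0 : (0 : ℝ) < n := by exact_mod_cast hn
  have hm0 : (0 : ℝ) < m := by exact_mod_cast hm
  have hk0 : 0 < k := by linarith
  have e1 := Real.log_le_log hn0 h1
  have e2 := Real.log_le_log hm0 h2
  rw [Real.log_mul hk0.ne' hm0.ne'] at e1
  rw [Real.log_mul hk0.ne' hn0.ne'] at e2
  rw [abs_le]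
  constructor <;> linarith

end Aux

theorem target (hcyl : CylU) (h : Sys NA Wc Kc) (hl : LocG NA) (ha : AMom NA) (hi : InBU NA Wc)
    (hd : DInU NA) (hB : BadX) (hc : Cmps) (hL : PsiLip) : OneU NA := by
  obtain ⟨C, hC, hcy⟩ := hcyl
  obtain ⟨K3, hK3, h3⟩ := Aux.part3 h hl hi hB hc
  obtain ⟨K4, hK4, h4⟩ := Aux.part4 h hl hd hB hc
  obtain ⟨P, hP, hps⟩ := hL
  have l8 : 0 ≤ Real.log 8 := Real.log_nonneg (by norm_num)
  set Q : ℝ := P * Real.log 8 with hQ
  have hQ0 : 0 ≤ Q := mul_nonneg hP l8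
  refine ⟨C + K3 + K4 + Q + 16, by positivity, ?_⟩
  intro t ht1 ht2 R hR
  have ht0 : 0 < t := by linarith
  set L : ℝ := |Real.log t| with hLdef
  have hL0 : 0 ≤ L := abs_nonneg _
  have hp := hps t ht1 ht2
  set p : ℝ := Psi t with hpdef
  have hRr : (0 : ℝ) < R := by exact_mod_cast hR
  have hRp : 0 < (R : ℝ) ^ p := by positivity
  -- change of the base
  have hbase : ∀ n m : ℕ, 1 ≤ n → 1 ≤ m → (n : ℝ) ≤ 8 * m → (m : ℝ) ≤ 8 * n →
      Real.exp (-(Q * L)) * (m : ℝ) ^ p ≤ (n : ℝ) ^ p := by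
    intro n m hn hm e1 e2
    have e3 := Aux.base (x := n) (y := m) (p := p) (by exact_mod_cast hn) (by exact_mod_cast hm)
      (Aux.logs hn hm (by norm_num) e1 e2) hp
    have e4 : P * L * Real.log 8 = Q * L := by rw [hQ]; ring
    rw [e4] at e3
    exact e3
  have hmul : ∀ x y : ℝ, Real.exp (-x) * Real.exp (-y) = Real.exp (-(x + y)) := by
    intro x y
    rw [← Real.exp_add]
    congr 1
    ring
  have hinv : ∀ x a b : ℝ, Real.exp (-x) * a ≤ b → a ≤ Real.exp x * b := by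
    intro x a b hab
    have e1 := mul_le_mul_of_nonneg_left hab (Real.exp_pos x).le
    rw [← mul_assoc, ← Real.exp_add, add_neg_cancel, Real.exp_zero, one_mul] at e1
    exact e1
  -- reduction: two bounds with constants which are at most the given one
  have fin1 : ∀ c : ℝ, c ≤ C + K3 + K4 + Q + 16 →
      Real.exp (-(c * L)) * (R : ℝ) ^ p ≤ G NA t 0 R →
      Real.exp (-((C + K3 + K4 + Q + 16) * L)) * (R : ℝ) ^ p ≤ G NA t 0 R := by
    intro c hcc hh
    refine le_trans (mul_le_mul_of_nonneg_right (Real.exp_le_exp.2 ?_) hRp.le) hh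
    have := mul_le_mul_of_nonneg_right hcc hL0
    linarith
  have fin2 : ∀ c : ℝ, c ≤ C + K3 + K4 + Q + 16 →
      Real.exp (-(c * L)) * G NA t 0 R ≤ (R : ℝ) ^ p →
      G NA t 0 R ≤ Real.exp ((C + K3 + K4 + Q + 16) * L) * (R : ℝ) ^ p := by
    intro c hcc hh
    refine (hinv _ _ _ hh).trans (mul_le_mul_of_nonneg_right (Real.exp_le_exp.2 ?_) hRp.le)
    exact mul_le_mul_of_nonneg_right hcc hL0
  by_cases hsm : R < 8
  · -- small radii
    have hb1 := hbase R 1 hR le_rfl (by push_cast; exact_mod_cast (by omega : R ≤ 8 * 1))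
      (by push_cast; exact_mod_cast (by omega : 1 ≤ 8 * R))
    have hb2 := hbase 1 R le_rfl hR (by push_cast; exact_mod_cast (by omega : 1 ≤ 8 * R))
      (by push_cast; exact_mod_cast (by omega : R ≤ 8 * 1))
    rw [Nat.cast_one, Real.one_rpow, mul_one] at hb1
    rw [Nat.cast_one, Real.one_rpow] at hb2
    have hlo : Real.exp (-(((16 : ℕ) : ℝ) * L)) ≤ G NA t 0 R := by
      have e := Ex_mono ok2 (S := bx (0, 0) (R : ℤ))
        (f := fun _ => Real.exp (-(((16 : ℕ) : ℝ) * L)))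
        (g := fun F => t ^ NA F (0, 0) 0 R) (fun F _ => (Aux.pw ht0
          ((h.geo.le F (0, 0) 0 R).trans (by omega : 2 * R ≤ 16))).1)
      rw [Ex_const] at e
      exact e
    have hup : G NA t 0 R ≤ Real.exp (((16 : ℕ) : ℝ) * L) := by
      have e := Ex_mono ok2 (S := bx (0, 0) (R : ℤ))
        (g := fun _ => Real.exp (((16 : ℕ) : ℝ) * L))
        (f := fun F => t ^ NA F (0, 0) 0 R) (fun F _ => (Aux.pw ht0
          ((h.geo.le F (0, 0) 0 R).trans (by omega : 2 * R ≤ 16))).2)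
      rw [Ex_const] at e
      exact e
    constructor
    · apply fin1 (16 + Q) (by linarith)
      have e1 : Real.exp (-((16 + Q) * L)) = Real.exp (-(((16 : ℕ) : ℝ) * L)) *
          Real.exp (-(Q * L)) := by
        rw [hmul]
        congr 1
        push_cast
        ring
      rw [e1, mul_assoc]
      calc Real.exp (-(((16 : ℕ) : ℝ) * L)) * (Real.exp (-(Q * L)) * (R : ℝ) ^ p)
          ≤ Real.exp (-(((16 : ℕ) : ℝ) * L)) * 1 :=
            mul_le_mul_of_nonneg_left hb2 (Real.exp_pos _).le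
        _ ≤ _ := by rw [mul_one]; exact hlo
    · apply fin2 (16 + Q) (by linarith)
      have e1 : Real.exp (-((16 + Q) * L)) = Real.exp (-(Q * L)) *
          Real.exp (-(((16 : ℕ) : ℝ) * L)) := by
        rw [hmul]
        congr 1
        push_cast
        ring
      rw [e1, mul_assoc]
      have e2 : Real.exp (-(((16 : ℕ) : ℝ) * L)) * G NA t 0 R ≤ 1 := by
        calc Real.exp (-(((16 : ℕ) : ℝ) * L)) * G NA t 0 R
            ≤ Real.exp (-(((16 : ℕ) : ℝ) * L)) * Real.exp (((16 : ℕ) : ℝ) * L) :=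
              mul_le_mul_of_nonneg_left hup (Real.exp_pos _).le
          _ = 1 := by rw [← Real.exp_add, neg_add_cancel, Real.exp_zero]
      calc Real.exp (-(Q * L)) * (Real.exp (-(((16 : ℕ) : ℝ) * L)) * G NA t 0 R)
          ≤ Real.exp (-(Q * L)) * 1 := mul_le_mul_of_nonneg_left e2 (Real.exp_pos _).le
        _ ≤ _ := by rw [mul_one]; exact hb1
  · obtain ⟨a, haR⟩ : ∃ a, a = R / 4 := ⟨_, rfl⟩
    have ha2 : 2 ≤ a := by omega
    have n1 : 1 ≤ 2 * R + 1 := by omega
    have c1 := hcy t ht1 ht2 (2 * R + 1) n1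
    have c2 := hcy t ht1 ht2 (10 * a) (by omega)
    have b1 := hbase (2 * R + 1) R n1 hR
      (by exact_mod_cast (by omega : 2 * R + 1 ≤ 8 * R))
      (by exact_mod_cast (by omega : R ≤ 8 * (2 * R + 1)))
    have b2 := hbase R (2 * R + 1) hR n1
      (by exact_mod_cast (by omega : R ≤ 8 * (2 * R + 1)))
      (by exact_mod_cast (by omega : 2 * R + 1 ≤ 8 * R))
    have b3 := hbase (10 * a) R (by omega) hR
      (by exact_mod_cast (by omega : 10 * a ≤ 8 * R))
      (by exact_mod_cast (by omega : R ≤ 8 * (10 * a)))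
    have b4 := hbase R (10 * a) hR (by omega)
      (by exact_mod_cast (by omega : R ≤ 8 * (10 * a)))
      (by exact_mod_cast (by omega : 10 * a ≤ 8 * R))
    rcases le_total 1 t with h1t | h1t
    · constructor
      · -- lower bound, `t ≥ 1`
        have d1 := h3 t h1t ht2 a ha2
        have d2 : G NA t 0 (2 * (a - 1)) ≤ G NA t 0 R := by
          rw [← hl t (0, 0) 0 (2 * (a - 1)) (bx (0, 0) (R : ℤ)) (Nat.zero_le _)
            (bx_mono _ (by exact_mod_cast (by omega : 2 * (a - 1) ≤ R)))]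
          apply Ex_mono ok2
          intro F _
          exact pow_le_pow_right₀ h1t (h.geo.mono F (0, 0) 0 0 _ R le_rfl (by omega))
        apply fin1 (K3 + (C + Q)) (by linarith)
        have e1 : Real.exp (-((K3 + (C + Q)) * L)) = Real.exp (-(K3 * L)) *
            (Real.exp (-(C * L)) * Real.exp (-(Q * L))) := by
          rw [hmul, hmul]
          congr 1
          ring
        have d3 : Real.exp (-(C * L)) * (Real.exp (-(Q * L)) * (R : ℝ) ^ p) ≤
            Real.exp (K3 * L) * G NA t 0 R := by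
          calc Real.exp (-(C * L)) * (Real.exp (-(Q * L)) * (R : ℝ) ^ p)
              ≤ Real.exp (-(C * L)) * ((10 * a : ℕ) : ℝ) ^ p :=
                mul_le_mul_of_nonneg_left b3 (Real.exp_pos _).le
            _ ≤ _ := c2.1
            _ ≤ _ := d1
            _ ≤ _ := mul_le_mul_of_nonneg_left d2 (Real.exp_pos _).le
        rw [e1, mul_assoc, mul_assoc]
        calc Real.exp (-(K3 * L)) * (Real.exp (-(C * L)) * (Real.exp (-(Q * L)) * (R : ℝ) ^ p))
            ≤ Real.exp (-(K3 * L)) * (Real.exp (K3 * L) * G NA t 0 R) :=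
              mul_le_mul_of_nonneg_left d3 (Real.exp_pos _).le
          _ = G NA t 0 R := by
              rw [← mul_assoc, ← Real.exp_add, neg_add_cancel, Real.exp_zero, one_mul]
      · -- upper bound, `t ≥ 1`
        have d1 := Pool.Agent.H863R2.NL.ET_le (n := 2 * R + 1) (k := R) (by omega)
          (g := fun m => t ^ m) (fun x y hxy => pow_le_pow_right₀ h1t hxy)
        rw [← G_ET] at d1
        apply fin2 (C + Q) (by linarith)
        have e1 : Real.exp (-((C + Q) * L)) = Real.exp (-(Q * L)) * Real.exp (-(C * L)) := by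
          rw [hmul]
          congr 1
          ring
        have d2 : Real.exp (-(C * L)) * G NA t 0 R ≤ ((2 * R + 1 : ℕ) : ℝ) ^ p := by
          calc Real.exp (-(C * L)) * G NA t 0 R
              ≤ Real.exp (-(C * L)) * (Real.exp (C * L) * ((2 * R + 1 : ℕ) : ℝ) ^ p) :=
                mul_le_mul_of_nonneg_left (d1.trans c1.2) (Real.exp_pos _).le
            _ = _ := by
                rw [← mul_assoc, ← Real.exp_add, neg_add_cancel, Real.exp_zero, one_mul]
        rw [e1, mul_assoc]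
        exact (mul_le_mul_of_nonneg_left d2 (Real.exp_pos _).le).trans b2
    · constructor
      · -- lower bound, `t ≤ 1`
        have d1 := Pool.Agent.H863R2.NL.EN_le (n := 2 * R + 1) (k := R) (by omega)
          (g := fun m => t ^ m) (fun x y hxy => pow_le_pow_of_le_one ht0.le h1t hxy)
        rw [← G_ET] at d1
        apply fin1 (C + Q) (by linarith)
        have e1 : Real.exp (-((C + Q) * L)) = Real.exp (-(C * L)) * Real.exp (-(Q * L)) := by
          rw [hmul]
          congr 1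
          ring
        rw [e1, mul_assoc]
        exact (mul_le_mul_of_nonneg_left b1 (Real.exp_pos _).le).trans (c1.1.trans d1)
      · -- upper bound, `t ≤ 1`
        have d1 := h4 t ht1 h1t a ha2
        have d2 : G NA t 0 R ≤ G NA t 0 (4 * a) := by
          rw [← hl t (0, 0) 0 (4 * a) (bx (0, 0) (R : ℤ)) (Nat.zero_le _)
            (bx_mono _ (by exact_mod_cast (by omega : 4 * a ≤ R)))]
          apply Ex_mono ok2
          intro F _
          exact pow_le_pow_of_le_one ht0.le h1t (h.geo.mono F (0, 0) 0 0 _ R le_rfl (by omega))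
        apply fin2 (Q + (C + K4)) (by linarith)
        have e1 : Real.exp (-((Q + (C + K4)) * L)) = Real.exp (-(Q * L)) *
            (Real.exp (-(C * L)) * Real.exp (-(K4 * L))) := by
          rw [hmul, hmul]
          congr 1
          ring
        have d3 : Real.exp (-(K4 * L)) * G NA t 0 R ≤
            Real.exp (C * L) * ((10 * a : ℕ) : ℝ) ^ p :=
          (mul_le_mul_of_nonneg_left d2 (Real.exp_pos _).le).trans (d1.trans c2.2)
        rw [e1]
        have d4 : Real.exp (-(C * L)) * (Real.exp (-(K4 * L)) * G NA t 0 R) ≤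
            ((10 * a : ℕ) : ℝ) ^ p := by
          calc Real.exp (-(C * L)) * (Real.exp (-(K4 * L)) * G NA t 0 R)
              ≤ Real.exp (-(C * L)) * (Real.exp (C * L) * ((10 * a : ℕ) : ℝ) ^ p) :=
                mul_le_mul_of_nonneg_left d3 (Real.exp_pos _).le
            _ = _ := by
                rw [← mul_assoc, ← Real.exp_add, neg_add_cancel, Real.exp_zero, one_mul]
        calc Real.exp (-(Q * L)) * (Real.exp (-(C * L)) * Real.exp (-(K4 * L))) * G NA t 0 R
            = Real.exp (-(Q * L)) * (Real.exp (-(C * L)) *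
                (Real.exp (-(K4 * L)) * G NA t 0 R)) := by ring
          _ ≤ Real.exp (-(Q * L)) * ((10 * a : ℕ) : ℝ) ^ p :=
              mul_le_mul_of_nonneg_left d4 (Real.exp_pos _).le
          _ ≤ _ := b4

end Pool.Agent.Helper859_NL.J12
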