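import Pool.Agent.Helper859_NL.Stm
import Pool.Agent.Y996.NL.Inf
import Pool.Agent.W819.NC.Final

set_option autoImplicit false

namespace Pool.Agent.Helper859_NL.J15

open H974 Finset Pool.Agent.W819.EN Pool.Agent.W819.NC MeasureTheory
open Pool.Agent.Y996.NL Pool.Agent.Helper859_NL
open scoped Real

/-- powers between `t ^ a` and `t ^ n`, in the order given by `min` and `max` -/
theorem pow_btw {t : ℝ} (ht : 0 < t) {a x n : ℕ} (h1 : a ≤ x) (h2 : x ≤ n) :
    min (t ^ a) (t ^ n) ≤ t ^ x ∧ t ^ x ≤ max (t ^ a) (t ^ n) := by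
  rcases le_total 1 t with h | h
  · exact ⟨(min_le_left _ _).trans (pow_le_pow_right₀ h h1),
      (pow_le_pow_right₀ h h2).trans (le_max_right _ _)⟩
  · exact ⟨(min_le_right _ _).trans (pow_le_pow_of_le_one ht.le h h2),
      (pow_le_pow_of_le_one ht.le h h1).trans (le_max_left _ _)⟩

theorem target (hex : ExU) (hPT : S_PT) (hME : S_ME) (hi : TInU NA) (ho : TOutU NA) (hc : Cmps)
    (hann : AnnSU NA) : InfU := by
  intro M
  obtain ⟨B, hB, hexB⟩ := hex NA Wc Kc sys locG aMom hi ho ((2 : ℝ) ^ 11) M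
    (one_le_pow₀ (by norm_num))
  obtain ⟨K, hK, hcmp⟩ := hc 11 B (by norm_num) hB
  obtain ⟨C, hC, hannC⟩ := hann
  refine ⟨K + 2 * C, by positivity, ?_⟩
  intro t ht1 ht2 P Q v w a b r r' R c D hp hq
  have ht : 0 < t := by linarith
  obtain ⟨S, hS⟩ : ∃ S, S = bx v ((16 * D : ℕ) : ℤ) ∪ bx w ((16 * D : ℕ) : ℤ) := ⟨_, rfl⟩
  have hv : bx v ((16 * D : ℕ) : ℤ) ⊆ S := by rw [hS]; exact subset_union_left
  have hw : bx w ((16 * D : ℕ) : ℤ) ⊆ S := by rw [hS]; exact subset_union_right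
  obtain ⟨e1, e2⟩ := hexB t ht1 ht2 v w a b r r' R c D hp S hv hw
  obtain ⟨g1, g2⟩ := hannC t ht1 ht2 r R hp.r1 hp.rR
  obtain ⟨g3, g4⟩ := hannC t ht1 ht2 r' R hp.r1' hp.rR'
  have hr0 : (0:ℝ) < r := by exact_mod_cast hp.r1
  have hr0' : (0:ℝ) < r' := by exact_mod_cast hp.r1'
  have hR0 : (0:ℝ) < R := by exact_mod_cast (hp.r1.trans hp.rR)
  obtain ⟨L, hL⟩ : ∃ L : ℝ, L = |Real.log t| := ⟨_, rfl⟩
  have hL0 : 0 ≤ L := by rw [hL]; exact abs_nonneg _
  obtain ⟨X, hX⟩ : ∃ X : ℝ, X = ((R : ℝ) / r) ^ Psi t := ⟨_, rfl⟩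
  obtain ⟨Y, hY⟩ : ∃ Y : ℝ, Y = ((R : ℝ) / r') ^ Psi t := ⟨_, rfl⟩
  have hX0 : 0 < X := by rw [hX]; positivity
  have hY0 : 0 < Y := by rw [hY]; positivity
  rw [← hX, ← hL] at g1 g2
  rw [← hY, ← hL] at g3 g4
  rw [← hX, ← hY, ← hL]
  obtain ⟨aF, haF⟩ : ∃ aF : Finset Edg → ℕ, aF = fun F => NA F v r R + NA F w r' R := ⟨_, rfl⟩
  obtain ⟨XF, hXF⟩ : ∃ XF : ℕ → Finset Edg → ℕ,
      XF = fun j F => VV NA Wc Kc v w a b r r' c D j F := ⟨_, rfl⟩
  obtain ⟨nF, hnF⟩ : ∃ nF : Finset Edg → ℕ, nF = fun F => aF F + ∑ j ∈ range 11, XF j F :=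
    ⟨_, rfl⟩
  have ea : Ex P2 S (fun F => t ^ aF F) = G NA t r R * G NA t r' R := by
    rw [haF]; exact e1
  obtain ⟨k1, k2⟩ := hcmp t ht1 ht2 S aF nF XF
    (fun F _ => by
      rw [hnF]
      exact ⟨Nat.le_add_right _ _, le_rfl⟩)
    (fun j hj => by
      rw [ea, haF, hXF]
      exact e2 j hj)
  rw [← hL, ea] at k1 k2
  obtain ⟨GG, hGG⟩ : ∃ GG : ℝ, GG = G NA t r R * G NA t r' R := ⟨_, rfl⟩
  rw [← hGG] at k1 k2 ea
  -- bounds for `GG`
  have hexpC : 0 < Real.exp (-(C * L)) := Real.exp_pos _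
  have hexpC' : 0 < Real.exp (C * L) := Real.exp_pos _
  have l1 : Real.exp (-(2 * C * L)) * (X * Y) ≤ GG := by
    have h0 : Real.exp (-(2 * C * L)) = Real.exp (-(C * L)) * Real.exp (-(C * L)) := by
      rw [← Real.exp_add]; congr 1; ring
    rw [h0, hGG]
    calc Real.exp (-(C * L)) * Real.exp (-(C * L)) * (X * Y)
        = (Real.exp (-(C * L)) * X) * (Real.exp (-(C * L)) * Y) := by ring
      _ ≤ G NA t r R * G NA t r' R :=
        mul_le_mul g1 g3 (by positivity)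
          ((by positivity : (0:ℝ) ≤ Real.exp (-(C * L)) * X).trans g1)
  have l2 : GG ≤ Real.exp (2 * C * L) * (X * Y) := by
    have h0 : Real.exp (2 * C * L) = Real.exp (C * L) * Real.exp (C * L) := by
      rw [← Real.exp_add]; congr 1; ring
    rw [h0, hGG]
    calc G NA t r R * G NA t r' R ≤ (Real.exp (C * L) * X) * (Real.exp (C * L) * Y) :=
        mul_le_mul g2 g4 ((by positivity : (0:ℝ) ≤ Real.exp (-(C * L)) * Y).trans g3)
          (by positivity)
      _ = Real.exp (C * L) * Real.exp (C * L) * (X * Y) := by ring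
  have hGG0 : 0 ≤ GG := (by positivity : (0:ℝ) ≤ Real.exp (-(2 * C * L)) * (X * Y)).trans l1
  -- the two functions
  have hbt : ∀ ω : sqLattice.edgeSet → Bool,
      min (t ^ aF (FF S ω)) (t ^ nF (FF S ω)) ≤ t ^ NP (opn ω) P Q ∧
      t ^ NP (opn ω) P Q ≤ max (t ^ aF (FF S ω)) (t ^ nF (FF S ω)) := by
    intro ω
    obtain ⟨p1, p2⟩ := hPT M P Q v w a b r r' R c D hp hq S hv hw ω
    refine pow_btw ht ?_ ?_
    · rw [haF]; exact p1
    · rw [hnF, haF, hXF]; exact p2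
  have hmeas : Measurable (fun ω : sqLattice.edgeSet → Bool => t ^ NP (opn ω) P Q) :=
    (measurable_from_top (f := fun n : ℕ => t ^ n)).comp (hME P Q)
  have iA : Integrable (fun ω : sqLattice.edgeSet → Bool => t ^ aF (FF S ω)) (bondLaw hlf) :=
    integrable_FF hlf S (fun F => t ^ aF F)
  have iN : Integrable (fun ω : sqLattice.edgeSet → Bool => t ^ nF (FF S ω)) (bondLaw hlf) :=
    integrable_FF hlf S (fun F => t ^ nF F)
  have i3 : Integrable (fun ω : sqLattice.edgeSet → Bool => t ^ NP (opn ω) P Q) (bondLaw hlf) := by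
    refine (iA.sup iN).mono' hmeas.aestronglyMeasurable (Filter.Eventually.of_forall fun ω => ?_)
    rw [Real.norm_eq_abs, abs_of_nonneg (by positivity)]
    exact (hbt ω).2
  have vA : ∫ ω, t ^ aF (FF S ω) ∂(bondLaw hlf) = GG := by
    rw [← ea]
    exact Pool.Agent.W52.NC.int_FF hlf S (fun F => t ^ aF F)
  have vN : ∫ ω, t ^ nF (FF S ω) ∂(bondLaw hlf) = Ex P2 S (fun F => t ^ nF F) :=
    Pool.Agent.W52.NC.int_FF hlf S (fun F => t ^ nF F)
  have anN : ∀ F, aF F ≤ nF F := fun F => by rw [hnF]; exact Nat.le_add_right _ _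
  have hKL : 0 ≤ K * L := mul_nonneg hK hL0
  have eK : Real.exp (-(K * L)) ≤ 1 := by
    rw [Real.exp_le_one_iff]; linarith
  have eK' : 1 ≤ Real.exp (K * L) := Real.one_le_exp hKL
  have main : Real.exp (-(K * L)) * GG ≤ ∫ ω, t ^ NP (opn ω) P Q ∂(bondLaw hlf) ∧
      ∫ ω, t ^ NP (opn ω) P Q ∂(bondLaw hlf) ≤ Real.exp (K * L) * GG := by
    rcases le_total 1 t with h | h
    · have hle : ∀ F, t ^ aF F ≤ t ^ nF F := fun F => pow_le_pow_right₀ h (anN F)
      have j1 : ∫ ω, t ^ aF (FF S ω) ∂(bondLaw hlf) ≤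
          ∫ ω, t ^ NP (opn ω) P Q ∂(bondLaw hlf) :=
        integral_mono iA i3 (fun ω => by
          have := (hbt ω).1
          rwa [min_eq_left (hle _)] at this)
      have j2 : ∫ ω, t ^ NP (opn ω) P Q ∂(bondLaw hlf) ≤
          ∫ ω, t ^ nF (FF S ω) ∂(bondLaw hlf) :=
        integral_mono i3 iN (fun ω => by
          have := (hbt ω).2
          rwa [max_eq_right (hle _)] at this)
      rw [vA] at j1
      rw [vN] at j2
      refine ⟨le_trans ?_ j1, j2.trans k2⟩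
      calc Real.exp (-(K * L)) * GG ≤ 1 * GG := mul_le_mul_of_nonneg_right eK hGG0
        _ = GG := one_mul _
    · have hle : ∀ F, t ^ nF F ≤ t ^ aF F := fun F => pow_le_pow_of_le_one ht.le h (anN F)
      have j1 : ∫ ω, t ^ nF (FF S ω) ∂(bondLaw hlf) ≤
          ∫ ω, t ^ NP (opn ω) P Q ∂(bondLaw hlf) :=
        integral_mono iN i3 (fun ω => by
          have := (hbt ω).1
          rwa [min_eq_right (hle _)] at this)
      have j2 : ∫ ω, t ^ NP (opn ω) P Q ∂(bondLaw hlf) ≤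
          ∫ ω, t ^ aF (FF S ω) ∂(bondLaw hlf) :=
        integral_mono i3 iA (fun ω => by
          have := (hbt ω).2
          rwa [max_eq_left (hle _)] at this)
      rw [vN] at j1
      rw [vA] at j2
      refine ⟨k1.trans j1, j2.trans ?_⟩
      calc GG = 1 * GG := (one_mul _).symm
        _ ≤ Real.exp (K * L) * GG := mul_le_mul_of_nonneg_right eK' hGG0
  constructor
  · refine le_trans ?_ main.1
    have h0 : Real.exp (-((K + 2 * C) * L)) =
        Real.exp (-(K * L)) * Real.exp (-(2 * C * L)) := by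
      rw [← Real.exp_add]; congr 1; ring
    rw [h0, mul_assoc]
    exact mul_le_mul_of_nonneg_left l1 (Real.exp_pos _).le
  · refine main.2.trans ?_
    have h0 : Real.exp ((K + 2 * C) * L) = Real.exp (K * L) * Real.exp (2 * C * L) := by
      rw [← Real.exp_add]; congr 1; ring
    rw [h0, mul_assoc]
    exact mul_le_mul_of_nonneg_left l2 (Real.exp_pos _).le

end Pool.Agent.Helper859_NL.J15
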