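import Pool.Agent.Helper859_NL.Stm2
import Pool.Agent.Y996.NL.Fin

set_option autoImplicit false

namespace Pool.Agent.Helper859_NL.J16

open H974 H906.Cyl Finset Pool.Agent.W819.EN Pool.Agent.W819.NC MeasureTheory
open Pool.Agent.Y996.NL Pool.Agent.Helper859_NL
open Pool.Agent.Y996.RD hiding hlf

/-- `bd` with explicit constants, for fixed `t` -/
theorem bd_fix (hGE : S_GE) (hRT : S_RT) (hSM : S_SM) (hME : S_ME) {t : ℝ}
    (ht : 0 < t) {c0 C0 p s k : ℝ} (hc0 : 0 < c0) (hC0 : 0 < C0)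
    (hinf : ∀ (P Q : Set Vtx) (v w : Vtx) (a b r r' R c D : ℕ),
      Par 700 v w a b r r' R c D → Pos P Q v w a b r r' R →
      c0 * (((R : ℝ) / r) ^ Psi t * ((R : ℝ) / r') ^ Psi t) ≤
        ∫ ω, t ^ NP (opn ω) P Q ∂(bondLaw hlf) ∧
      ∫ ω, t ^ NP (opn ω) P Q ∂(bondLaw hlf) ≤
        C0 * (((R : ℝ) / r) ^ Psi t * ((R : ℝ) / r') ^ Psi t))
    (hp : p = Psi t) (hs : s = (max t t⁻¹) ^ (4 * 65)) (hk : k = 64 ^ |p|) :
    Bd t (min (c0 * (k⁻¹ * k⁻¹)) (s⁻¹ * (k⁻¹ * k⁻¹))) (max (C0 * (k * k)) (s * (k * k))) := by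
  have hm0 : 0 < max t t⁻¹ := ht.trans_le (le_max_left _ _)
  have hs0 : 0 < s := by rw [hs]; positivity
  have hk0 : 0 < k := by rw [hk]; positivity
  intro ε K L z w ρ σ hε h1 h2 hmin hd hnv
  rw [← hp]
  obtain ⟨d, hdd⟩ : ∃ d, d = dist z w := ⟨_, rfl⟩
  have hρ := h1.size.pos
  have hσ := h2.size.pos
  have hρd := h1.size.le
  have hσd := h2.size.le
  obtain ⟨X, hX⟩ : ∃ X, X = (d / ρ) ^ p := ⟨_, rfl⟩
  obtain ⟨Y, hY⟩ : ∃ Y, Y = (d / σ) ^ p := ⟨_, rfl⟩
  have hd0 : 0 < d := by rw [hdd]; exact hd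
  have hX0 : 0 < X := by rw [hX]; positivity
  have hY0 : 0 < Y := by rw [hY]; positivity
  rw [← hdd, ← hX, ← hY]
  rcases le_total (64 * ε) (dist z w) with h64 | h64
  · obtain ⟨g1, g2⟩ := hGE ε K L z w ρ σ hε h1.chain h2.chain h1.size h2.size hmin h64 hnv
    obtain ⟨e1, e2⟩ := hinf _ _ _ _ _ _ _ _ _ _ _ g1 g2
    obtain ⟨r1, r2⟩ := hRT ε (dist z w) ρ hε hρ hρd h1.mesh h64
    obtain ⟨r3, r4⟩ := hRT ε (dist z w) σ hε hσ hσd h2.mesh h64
    rw [← hdd] at r1 r2 r3 r4 e1 e2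
    rw [← hp] at e1 e2
    obtain ⟨x, hx⟩ : ∃ x : ℝ, x = ((⌊d / (8 * ε)⌋₊ : ℕ) : ℝ) / (ir ε ρ ⌊d / (8 * ε)⌋₊ : ℕ) :=
      ⟨_, rfl⟩
    obtain ⟨y, hy⟩ : ∃ y : ℝ, y = ((⌊d / (8 * ε)⌋₊ : ℕ) : ℝ) / (ir ε σ ⌊d / (8 * ε)⌋₊ : ℕ) :=
      ⟨_, rfl⟩
    rw [← hx] at r1 r2 e1 e2
    rw [← hy] at r3 r4 e1 e2
    have a0 : 0 < d / ρ := by positivity
    have b0 : 0 < d / σ := by positivity
    obtain ⟨a1, a2⟩ := rpow_cmp (p := p) a0 (show (1:ℝ) ≤ 64 by norm_num)
      (show d / ρ / 64 ≤ x by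
        refine le_trans ?_ r1
        exact div_le_div_of_nonneg_left a0.le (by norm_num) (by norm_num)) (by linarith)
    obtain ⟨b1, b2⟩ := rpow_cmp (p := p) b0 (show (1:ℝ) ≤ 64 by norm_num)
      (show d / σ / 64 ≤ y by
        refine le_trans ?_ r3
        exact div_le_div_of_nonneg_left b0.le (by norm_num) (by norm_num)) (by linarith)
    rw [← hk, ← hX] at a1 a2
    rw [← hk, ← hY] at b1 b2
    constructor
    · refine le_trans ?_ e1
      calc min (c0 * (k⁻¹ * k⁻¹)) (s⁻¹ * (k⁻¹ * k⁻¹)) * (X * Y)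
          ≤ c0 * (k⁻¹ * k⁻¹) * (X * Y) :=
            mul_le_mul_of_nonneg_right (min_le_left _ _) (by positivity)
        _ = c0 * ((k⁻¹ * X) * (k⁻¹ * Y)) := by ring
        _ ≤ c0 * (x ^ p * y ^ p) := by
            apply mul_le_mul_of_nonneg_left _ hc0.le
            exact mul_le_mul a1 b1 (by positivity) ((by positivity : (0:ℝ) ≤ k⁻¹ * X).trans a1)
    · refine e2.trans ?_
      calc C0 * (x ^ p * y ^ p) ≤ C0 * ((k * X) * (k * Y)) := by
            apply mul_le_mul_of_nonneg_left _ hC0.le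
            exact mul_le_mul a2 b2 ((by positivity : (0:ℝ) ≤ k⁻¹ * Y).trans b1) (by positivity)
        _ = C0 * (k * k) * (X * Y) := by ring
        _ ≤ _ := mul_le_mul_of_nonneg_right (le_max_left _ _) (by positivity)
  · have hcl := lat_close hε (le_refl (dist z w)) (nv_abs hε z) (nv_abs hε w) (n := 65)
      (by push_cast; linarith)
    have hN : ∀ ω : sqLattice.edgeSet → Bool, NP (opn ω) (near ε K) (near ε L) ≤ 4 * 65 :=
      fun ω => hSM (opn ω) _ _ _ _ 65 (nv_near hε h1.size.mem) (nv_near hε h2.size.mem)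
        hcl.1 hcl.2
    obtain ⟨e1, e2⟩ := int_const_bd ht hME hN
    rw [← hs] at e1 e2
    have aux : ∀ τ : ℝ, 0 < τ → τ ≤ d → (ε ≤ τ ∨ τ = d) → k⁻¹ ≤ (d / τ) ^ p ∧ (d / τ) ^ p ≤ k := by
      intro τ hτ hτd hm
      have h3 : 1 ≤ d / τ := by rw [le_div_iff₀ hτ]; linarith
      have h4 : d / τ ≤ 64 := by
        rw [div_le_iff₀ hτ]
        rcases hm with hm | hm
        · rw [hdd]; linarith
        · linarith
      have := rpow_cmp (p := p) (x := 1) (y := d / τ) (k := 64) one_pos (by norm_num)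
        (by linarith) (by linarith)
      rwa [Real.one_rpow, mul_one, mul_one, ← hk] at this
    obtain ⟨a1, a2⟩ := aux ρ hρ (by rw [hdd]; exact hρd) (by rw [hdd]; exact h1.mesh)
    obtain ⟨b1, b2⟩ := aux σ hσ (by rw [hdd]; exact hσd) (by rw [hdd]; exact h2.mesh)
    rw [← hX] at a1 a2
    rw [← hY] at b1 b2
    constructor
    · refine le_trans ?_ e1
      calc min (c0 * (k⁻¹ * k⁻¹)) (s⁻¹ * (k⁻¹ * k⁻¹)) * (X * Y)
          ≤ s⁻¹ * (k⁻¹ * k⁻¹) * (k * k) := by
            apply mul_le_mul (min_le_right _ _) _ (by positivity) (by positivity)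
            exact mul_le_mul a2 b2 hY0.le hk0.le
        _ = s⁻¹ := by field_simp
    · refine e2.trans ?_
      calc s = s * (k * k) * (k⁻¹ * k⁻¹) := by field_simp
        _ ≤ max (C0 * (k * k)) (s * (k * k)) * (X * Y) := by
            apply mul_le_mul (le_max_right _ _) _ (by positivity) (by positivity)
            exact mul_le_mul a1 b1 (by positivity) hX0.le


/-- `main_pos` with explicit constants, for fixed `t` -/
theorem main_fix (hSY : S_SY) {t c' C' p : ℝ}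
    (hc' : 0 < c') (hC' : 0 < C') (hbd : Bd t c' C') (hp : p = 2 * Real.pi * Psi t) :
    ∀ (A B : Set (OnePoint ℂ)) (ε : ℝ),
    IsClosed A → IsPreconnected A → IsClosed B → IsPreconnected B → Disjoint A B → 0 < ε →
    (∃ x ∈ tr A, ∃ y ∈ tr A, ε ≤ dist x y) → (∃ x ∈ tr B, ∃ y ∈ tr B, ε ≤ dist x y) →
    c' * Real.exp (-(|p| * 220)) * Real.exp (2 * Real.pi * Psi t * modulus (tr A) (tr B)) ≤
      ∫ ω, t ^ NP (opn ω) (near ε (tr A)) (near ε (tr B)) ∂(bondLaw hlf) ∧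
    ∫ ω, t ^ NP (opn ω) (near ε (tr A)) (near ε (tr B)) ∂(bondLaw hlf) ≤
      C' * Real.exp (|p| * 220) * Real.exp (2 * Real.pi * Psi t * modulus (tr A) (tr B)) := by
  have hpi := Real.pi_pos
  have key : ∀ (A B : Set (OnePoint ℂ)) (ε : ℝ), OnePoint.infty ∉ A →
      IsClosed A → IsPreconnected A → IsClosed B → IsPreconnected B → Disjoint A B → 0 < ε →
      (∃ x ∈ tr A, ∃ y ∈ tr A, ε ≤ dist x y) → (∃ x ∈ tr B, ∃ y ∈ tr B, ε ≤ dist x y) →
      c' * Real.exp (-(|p| * 220)) * Real.exp (p * modulus (tr A) (tr B)) ≤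
        ∫ ω, t ^ NP (opn ω) (near ε (tr A)) (near ε (tr B)) ∂(bondLaw hlf) ∧
      ∫ ω, t ^ NP (opn ω) (near ε (tr A)) (near ε (tr B)) ∂(bondLaw hlf) ≤
        C' * Real.exp (|p| * 220) * Real.exp (p * modulus (tr A) (tr B)) := by
    intro A B ε hinf hA hA' hB hB' hdis hε hAd hBd
    have hAd' := hAd
    have hBd' := hBd
    obtain ⟨x0, hx0, -⟩ := hAd'
    obtain ⟨y0, hy0, -⟩ := hBd'
    obtain ⟨z, hz, w, hw, hmin⟩ := closest (tr_compact hA hinf) ⟨x0, hx0⟩ (tr_closed hB)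
      ⟨y0, hy0⟩
    have hne : z ≠ w := by
      intro h
      rw [h] at hz
      exact Set.disjoint_left.mp hdis hz hw
    have hd0 : 0 < dist z w := dist_pos.mpr hne
    obtain ⟨ρ, h1⟩ := good_fin (tr_closed hA) (tr_conn hA' hinf) hz hd0 hε hAd
    obtain ⟨σ, h2⟩ : ∃ σ, Good ε (tr B) w (dist z w) σ := by
      by_cases hb : OnePoint.infty ∈ B
      · exact ⟨_, good_inf hε hB hB' hb hw hd0⟩
      · exact good_fin (tr_closed hB) (tr_conn hB' hb) hw hd0 hε hBd
    have ab : c' * ((dist z w / ρ) ^ Psi t * (dist z w / σ) ^ Psi t) ≤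
        ∫ ω, t ^ NP (opn ω) (near ε (tr A)) (near ε (tr B)) ∂(bondLaw hlf) ∧
        ∫ ω, t ^ NP (opn ω) (near ε (tr A)) (near ε (tr B)) ∂(bondLaw hlf) ≤
        C' * ((dist z w / ρ) ^ Psi t * (dist z w / σ) ^ Psi t) := by
      rcases le_total (nv ε z).1 (nv ε w).1 with h | h
      · exact hbd ε _ _ z w ρ σ hε h1 h2 hmin hd0 h
      · have := hbd ε (tr B) (tr A) w z σ ρ hε (by rw [dist_comm]; exact h2)
          (by rw [dist_comm]; exact h1)
          (fun x hx y hy => by rw [dist_comm w, dist_comm x]; exact hmin y hy x hx)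
          (by rw [dist_comm]; exact hd0) h
        rw [dist_comm w z, mul_comm ((dist z w / σ) ^ Psi t)] at this
        simp only [hSY _ (near ε (tr B)) (near ε (tr A))] at this
        exact this
    have m1 := modulus_le h1.hits h2.hits h1.size h2.size
    have m2 := modulus_ge h1.hits h2.hits h1.size h2.size hmin
    rw [pow_exp' hd0 h1.size.pos h2.size.pos] at ab
    obtain ⟨Λ, hΛ⟩ : ∃ Λ, Λ = (Real.log (dist z w / ρ) + Real.log (dist z w / σ)) /
      (2 * Real.pi) := ⟨_, rfl⟩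
    rw [← hΛ] at ab m1 m2
    rw [← hp] at ab
    obtain ⟨m, hm⟩ : ∃ m, m = modulus (tr A) (tr B) := ⟨_, rfl⟩
    rw [← hm] at m1 m2 ⊢
    have hab : |p * m - p * Λ| ≤ |p| * 220 := by
      rw [← mul_sub, abs_mul]
      apply mul_le_mul_of_nonneg_left _ (abs_nonneg p)
      rw [abs_le]
      constructor <;> linarith
    have hab' := abs_le.mp hab
    constructor
    · refine le_trans ?_ ab.1
      rw [mul_assoc, ← Real.exp_add]
      apply mul_le_mul_of_nonneg_left _ hc'.le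
      apply Real.exp_le_exp.mpr
      linarith
    · refine ab.2.trans ?_
      rw [mul_assoc, ← Real.exp_add]
      apply mul_le_mul_of_nonneg_left _ hC'.le
      apply Real.exp_le_exp.mpr
      linarith
  intro A B ε hA hA' hB hB' hdis hε hAd hBd
  rw [← hp]
  by_cases hinf : OnePoint.infty ∈ A
  · have hinfB : OnePoint.infty ∉ B := fun h => Set.disjoint_left.mp hdis hinf h
    have := key B A ε hinfB hB hB' hA hA' hdis.symm hε hBd hAd
    rw [modulus_symm (tr A)]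
    simp only [hSY _ (near ε (tr A)) (near ε (tr B))]
    exact this
  · exact key A B ε hinf hA hA' hB hB' hdis hε hAd hBd


/-- the real estimates for the constants -/
theorem consts {l P C1 C2 : ℝ} (hl : 0 ≤ l) (hC1 : 0 ≤ C1) (hP : |P| ≤ C2 * l) {s k c C D : ℝ}
    (hs : s = Real.exp (260 * l)) (hk : k = 64 ^ |P|)
    (hc : c = min (Real.exp (-(C1 * l)) * (k⁻¹ * k⁻¹)) (s⁻¹ * (k⁻¹ * k⁻¹)))
    (hC : C = max (Real.exp (C1 * l) * (k * k)) (s * (k * k)))
    (hD : D = C1 + 260 + 2 * (Real.log 64 * C2) + 440 * (Real.pi * C2)) :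
    0 < c ∧ 0 < C ∧ Real.exp (-(D * l)) ≤ c * Real.exp (-(|2 * Real.pi * P| * 220)) ∧
      C * Real.exp (|2 * Real.pi * P| * 220) ≤ Real.exp (D * l) := by
  have hpi := Real.pi_pos
  have hlog : 0 < Real.log 64 := Real.log_pos (by norm_num)
  have hk' : k = Real.exp (Real.log 64 * |P|) := by
    rw [hk, Real.rpow_def_of_pos (by norm_num)]
  have hk0 : 0 < k := by rw [hk']; positivity
  have hs0 : 0 < s := by rw [hs]; positivity
  have hP2 : |2 * Real.pi * P| = 2 * Real.pi * |P| := by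
    rw [abs_mul, abs_of_pos (by positivity)]
  have h1 : Real.log 64 * |P| ≤ Real.log 64 * (C2 * l) := mul_le_mul_of_nonneg_left hP hlog.le
  have h2 : 2 * Real.pi * |P| ≤ 2 * Real.pi * (C2 * l) :=
    mul_le_mul_of_nonneg_left hP (by positivity)
  have hki : k⁻¹ = Real.exp (-(Real.log 64 * |P|)) := by rw [hk', Real.exp_neg]
  have hsi : s⁻¹ = Real.exp (-(260 * l)) := by rw [hs, Real.exp_neg]
  have hC1l : 0 ≤ C1 * l := mul_nonneg hC1 hl
  refine ⟨by rw [hc]; positivity, by rw [hC]; positivity, ?_, ?_⟩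
  · have h3 : Real.exp (-((C1 + 260) * l + 2 * (Real.log 64 * |P|))) ≤ c := by
      rw [hc]
      apply le_min
      · rw [hki, ← Real.exp_add, ← Real.exp_add]
        apply Real.exp_le_exp.mpr
        linarith
      · rw [hki, hsi, ← Real.exp_add, ← Real.exp_add]
        apply Real.exp_le_exp.mpr
        linarith
    calc Real.exp (-(D * l))
        ≤ Real.exp (-((C1 + 260) * l + 2 * (Real.log 64 * |P|)) +
            -(|2 * Real.pi * P| * 220)) := by
          apply Real.exp_le_exp.mpr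
          rw [hP2, hD]
          linarith
      _ = Real.exp (-((C1 + 260) * l + 2 * (Real.log 64 * |P|))) *
            Real.exp (-(|2 * Real.pi * P| * 220)) := Real.exp_add _ _
      _ ≤ _ := mul_le_mul_of_nonneg_right h3 (Real.exp_pos _).le
  · have h3 : C ≤ Real.exp ((C1 + 260) * l + 2 * (Real.log 64 * |P|)) := by
      rw [hC]
      apply max_le
      · rw [hk', ← Real.exp_add, ← Real.exp_add]
        apply Real.exp_le_exp.mpr
        linarith
      · rw [hk', hs, ← Real.exp_add, ← Real.exp_add]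
        apply Real.exp_le_exp.mpr
        linarith
    calc C * Real.exp (|2 * Real.pi * P| * 220)
        ≤ Real.exp ((C1 + 260) * l + 2 * (Real.log 64 * |P|)) *
            Real.exp (|2 * Real.pi * P| * 220) :=
          mul_le_mul_of_nonneg_right h3 (Real.exp_pos _).le
      _ = Real.exp ((C1 + 260) * l + 2 * (Real.log 64 * |P|) + |2 * Real.pi * P| * 220) :=
          (Real.exp_add _ _).symm
      _ ≤ Real.exp (D * l) := by
          apply Real.exp_le_exp.mpr
          rw [hP2, hD]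
          linarith

theorem max_exp {t : ℝ} (ht : 0 < t) : max t t⁻¹ = Real.exp |Real.log t| := by
  rcases le_total 1 t with h | h
  · have h1 : 0 ≤ Real.log t := Real.log_nonneg h
    have h2 : t⁻¹ ≤ 1 := inv_le_one_of_one_le₀ h
    rw [abs_of_nonneg h1, Real.exp_log ht, max_eq_left (h2.trans h)]
  · have h1 : Real.log t ≤ 0 := Real.log_nonpos ht.le h
    have h2 : 1 ≤ t⁻¹ := (one_le_inv₀ ht).mpr h
    rw [abs_of_nonpos h1, Real.exp_neg, Real.exp_log ht, max_eq_right (h.trans h2)]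

/-
Uniform version of `Pool.Agent.Y996.NL.bd` and `main_pos` (file `Pool/Agent/Y996/NL/Fin.lean`).
-/
theorem target (hGE : S_GE) (hRT : S_RT) (hINF : InfU) (hSM : S_SM) (hME : S_ME) (hSY : S_SY)
    (hL : PsiLip) : DomU := by
  obtain ⟨C1, hC1, hinf⟩ := hINF 700
  obtain ⟨C2, hC2, hlip⟩ := hL
  have hpi := Real.pi_pos
  have hlog : 0 < Real.log 64 := Real.log_pos (by norm_num)
  refine ⟨C1 + 260 + 2 * (Real.log 64 * C2) + 440 * (Real.pi * C2), by positivity, ?_⟩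
  intro t ht1 ht2 A B ε hA hA' hB hB' hdis hε hAd hBd
  have ht : 0 < t := by linarith
  have hs : (max t t⁻¹) ^ (4 * 65) = Real.exp (260 * |Real.log t|) := by
    rw [max_exp ht, ← Real.exp_nat_mul]
    norm_num
  obtain ⟨hc', hC', q1, q2⟩ := consts (l := |Real.log t|) (P := Psi t) (C1 := C1) (C2 := C2)
    (abs_nonneg _) hC1 (hlip t ht1 ht2) hs rfl rfl rfl rfl
  have hbd := bd_fix hGE hRT hSM hME ht (Real.exp_pos (-(C1 * |Real.log t|)))
    (Real.exp_pos (C1 * |Real.log t|)) (hinf t ht1 ht2) rfl rfl rfl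
  obtain ⟨g1, g2⟩ := main_fix hSY hc' hC' hbd rfl A B ε hA hA' hB hB' hdis hε hAd hBd
  exact ⟨(mul_le_mul_of_nonneg_right q1 (Real.exp_pos _).le).trans g1,
    g2.trans (mul_le_mul_of_nonneg_right q2 (Real.exp_pos _).le)⟩

end Pool.Agent.Helper859_NL.J16
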