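import Mathlib

set_option autoImplicit false

namespace Pool.Agent.Helper859_NL.J17

open MeasureTheory

open ProbabilityTheory Filter Topology in
/-- a probability measure on the line with the moment generating function of a Gaussian law -/
theorem eq_gaussian (ρ : Measure ℝ) [IsProbabilityMeasure ρ] (v : NNReal)
    (hint : ∀ s : ℝ, Integrable (fun x : ℝ => Real.exp (s * x)) ρ)
    (h : ∀ s : ℝ, ∫ x : ℝ, Real.exp (s * x) ∂ρ = Real.exp (v * s ^ 2 / 2)) :
    ρ = gaussianReal 0 v := by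
  have hm : mgf id ρ = mgf id (gaussianReal 0 v) := by
    rw [mgf_id_gaussianReal]
    funext s
    have : mgf id ρ s = ∫ x : ℝ, Real.exp (s * x) ∂ρ := rfl
    rw [this, h s]
    congr 1
    ring
  have hset : integrableExpSet id ρ = Set.univ := by
    ext s
    simp only [integrableExpSet, Set.mem_univ, iff_true]
    exact hint s
  have he := eqOn_complexMGF_of_mgf hm
  rw [hset, interior_univ] at he
  refine Measure.ext_of_complexMGF_id_eq (funext fun z => he (Set.mem_univ _))

/-- truncated exponentials -/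
noncomputable def tr (s : ℝ) (N : ℕ) (x : ℝ) : ℝ := min (Real.exp (s * x)) N

theorem tr_cont (s : ℝ) (N : ℕ) : Continuous (tr s N) := by
  unfold tr
  fun_prop

theorem tr_nonneg (s : ℝ) (N : ℕ) (x : ℝ) : 0 ≤ tr s N x :=
  le_min (Real.exp_nonneg _) (Nat.cast_nonneg _)

theorem tr_le (s : ℝ) (N : ℕ) (x : ℝ) : tr s N x ≤ N := min_le_right _ _

theorem tr_le_exp (s : ℝ) (N : ℕ) (x : ℝ) : tr s N x ≤ Real.exp (s * x) := min_le_left _ _

theorem exp_sub_tr (s : ℝ) {N : ℕ} (hN : 1 ≤ N) (x : ℝ) :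
    Real.exp (s * x) - tr s N x ≤ Real.exp (2 * s * x) / N := by
  have hN0 : (0 : ℝ) < N := by exact_mod_cast hN
  have e : Real.exp (2 * s * x) = Real.exp (s * x) * Real.exp (s * x) := by
    rw [← Real.exp_add]
    congr 1
    ring
  rw [le_div_iff₀ hN0, e]
  have hp := Real.exp_pos (s * x)
  unfold tr
  rcases le_total (Real.exp (s * x)) N with hle | hle
  · rw [min_eq_left hle]
    nlinarith
  · rw [min_eq_right hle]
    nlinarith

theorem tr_int (s : ℝ) (N : ℕ) (ρ : Measure ℝ) [IsProbabilityMeasure ρ] :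
    Integrable (tr s N) ρ :=
  Integrable.of_bound (tr_cont s N).aestronglyMeasurable (N : ℝ) (Filter.Eventually.of_forall fun x => by
    rw [Real.norm_eq_abs, abs_of_nonneg (tr_nonneg s N x)]
    exact tr_le s N x)

open Filter Topology in
/-- integrability and value of the exponential integral of a limit of truncations -/
theorem exp_of_tr (ρ : Measure ℝ) [IsProbabilityMeasure ρ] (s L : ℝ) (hL : 0 ≤ L)
    (h : Tendsto (fun N : ℕ => ∫ x, tr s N x ∂ρ) atTop (𝓝 L)) :
    Integrable (fun x : ℝ => Real.exp (s * x)) ρ ∧ ∫ x : ℝ, Real.exp (s * x) ∂ρ = L := by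
  have h1 : Tendsto (fun N : ℕ => ∫⁻ x, ENNReal.ofReal (tr s N x) ∂ρ) atTop
      (𝓝 (∫⁻ x, ENNReal.ofReal (Real.exp (s * x)) ∂ρ)) := by
    refine lintegral_tendsto_of_tendsto_of_monotone
      (fun N => ((tr_cont s N).measurable.ennreal_ofReal).aemeasurable) ?_ ?_
    · refine Eventually.of_forall fun x N M hNM => ?_
      refine ENNReal.ofReal_le_ofReal ?_
      unfold tr
      exact min_le_min_left _ (by exact_mod_cast hNM)
    · refine Eventually.of_forall fun x => ?_
      obtain ⟨N0, hN0⟩ := exists_nat_ge (Real.exp (s * x))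
      refine Tendsto.congr' (f₁ := fun _ => ENNReal.ofReal (Real.exp (s * x))) ?_
        tendsto_const_nhds
      filter_upwards [eventually_ge_atTop N0] with N hN
      unfold tr
      rw [min_eq_left (hN0.trans (by exact_mod_cast hN))]
  have h2 : ∀ N : ℕ, ∫⁻ x, ENNReal.ofReal (tr s N x) ∂ρ = ENNReal.ofReal (∫ x, tr s N x ∂ρ) :=
    fun N => (ofReal_integral_eq_lintegral_ofReal (tr_int s N ρ)
      (Eventually.of_forall (tr_nonneg s N))).symm
  simp only [h2] at h1
  have h3 := (ENNReal.continuous_ofReal.tendsto L).comp h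
  have h4 : ∫⁻ x, ENNReal.ofReal (Real.exp (s * x)) ∂ρ = ENNReal.ofReal L :=
    tendsto_nhds_unique h1 h3
  have hc : Continuous fun x : ℝ => Real.exp (s * x) := by fun_prop
  refine ⟨⟨hc.aestronglyMeasurable, ?_⟩, ?_⟩
  · rw [hasFiniteIntegral_iff_ofReal (Eventually.of_forall fun x => Real.exp_nonneg _), h4]
    exact ENNReal.ofReal_lt_top
  · rw [integral_eq_lintegral_of_nonneg_ae (Eventually.of_forall fun x => Real.exp_nonneg _)
      hc.aestronglyMeasurable, h4, ENNReal.toReal_ofReal hL]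

open Filter Topology in
/-- a weak limit of measures with convergent moment generating functions -/
theorem limit_mgf (μ : ℕ → ProbabilityMeasure ℝ) (v : NNReal)
    (hint : ∀ (n : ℕ) (s : ℝ), Integrable (fun x : ℝ => Real.exp (s * x)) (μ n : Measure ℝ))
    (b : ℝ → ℝ) (hb : ∀ (n : ℕ) (s : ℝ), ∫ x : ℝ, Real.exp (s * x) ∂(μ n : Measure ℝ) ≤ b s)
    (h : ∀ s : ℝ, Tendsto (fun n => ∫ x : ℝ, Real.exp (s * x) ∂(μ n : Measure ℝ)) atTop
      (𝓝 (Real.exp (v * s ^ 2 / 2)))) (U : Ultrafilter ℕ) (hU : (U : Filter ℕ) ≤ atTop)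
    (ρ : ProbabilityMeasure ℝ) (hρ : Tendsto μ U (𝓝 ρ)) (s : ℝ) :
    Integrable (fun x : ℝ => Real.exp (s * x)) (ρ : Measure ℝ) ∧
      ∫ x : ℝ, Real.exp (s * x) ∂(ρ : Measure ℝ) = Real.exp (v * s ^ 2 / 2) := by
  refine exp_of_tr (ρ : Measure ℝ) s _ (Real.exp_nonneg _) ?_
  have hb0 : 0 ≤ b (2 * s) := (integral_nonneg fun x => Real.exp_nonneg _).trans (hb 0 (2 * s))
  have key : ∀ N : ℕ, 1 ≤ N →
      |∫ x, tr s N x ∂(ρ : Measure ℝ) - Real.exp (v * s ^ 2 / 2)| ≤ b (2 * s) / N := by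
    intro N hN
    have hN0 : (0 : ℝ) < N := by exact_mod_cast hN
    let F : BoundedContinuousFunction ℝ ℝ := BoundedContinuousFunction.ofNormedAddCommGroup
      (tr s N) (tr_cont s N) N (fun x => by
        rw [Real.norm_eq_abs, abs_of_nonneg (tr_nonneg s N x)]
        exact tr_le s N x)
    have h1 : Tendsto (fun n => ∫ x, tr s N x ∂(μ n : Measure ℝ)) U
        (𝓝 (∫ x, tr s N x ∂(ρ : Measure ℝ))) :=
      ProbabilityMeasure.tendsto_iff_forall_integral_tendsto.1 hρ F
    have h2 := (h s).mono_left hU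
    have h3 := (h1.sub h2).abs
    refine le_of_tendsto h3 (Eventually.of_forall fun n => ?_)
    have hle : ∫ x, tr s N x ∂(μ n : Measure ℝ) ≤ ∫ x, Real.exp (s * x) ∂(μ n : Measure ℝ) :=
      integral_mono (tr_int s N _) (hint n s) (tr_le_exp s N)
    rw [abs_sub_comm, abs_of_nonneg (sub_nonneg.2 hle), ← integral_sub (hint n s) (tr_int s N _)]
    calc ∫ x, (Real.exp (s * x) - tr s N x) ∂(μ n : Measure ℝ)
        ≤ ∫ x, Real.exp (2 * s * x) / N ∂(μ n : Measure ℝ) :=
          integral_mono ((hint n s).sub (tr_int s N _)) ((hint n (2 * s)).div_const _)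
            (exp_sub_tr s hN)
      _ = (∫ x, Real.exp (2 * s * x) ∂(μ n : Measure ℝ)) / N := integral_div _ _
      _ ≤ b (2 * s) / N := div_le_div_of_nonneg_right (hb n (2 * s)) hN0.le
  have hlim0 : Tendsto (fun N : ℕ => b (2 * s) / N) atTop (𝓝 0) :=
    tendsto_const_div_atTop_nhds_zero_nat _
  rw [tendsto_iff_norm_sub_tendsto_zero]
  refine squeeze_zero' (Eventually.of_forall fun _ => norm_nonneg _) ?_ hlim0
  filter_upwards [eventually_ge_atTop 1] with N hN
  rw [Real.norm_eq_abs]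
  exact key N hN

open Filter Topology in
/-- tightness -/
theorem tight (μ : ℕ → Measure ℝ) [∀ n, IsProbabilityMeasure (μ n)] (c : ℝ)
    (hint : ∀ (n : ℕ) (s : ℝ), Integrable (fun x : ℝ => Real.exp (s * x)) (μ n))
    (hc : ∀ n : ℕ, ∫ x : ℝ, (Real.exp (1 * x) + Real.exp (-1 * x)) ∂(μ n) ≤ c) :
    IsTightMeasureSet {μ n | n} := by
  rw [isTightMeasureSet_iff_exists_isCompact_measure_compl_le]
  intro ε hε
  -- choose the radius
  obtain ⟨a, ha⟩ : ∃ a : ℝ, ENNReal.ofReal (c / Real.exp a) ≤ ε := by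
    have h1 : Tendsto (fun a : ℝ => c / Real.exp a) atTop (𝓝 0) :=
      Real.tendsto_exp_atTop.const_div_atTop c
    have h2 := (ENNReal.continuous_ofReal.tendsto 0).comp h1
    rw [ENNReal.ofReal_zero] at h2
    exact ((h2.eventually (gt_mem_nhds hε)).mono fun _ h => le_of_lt h).exists
  refine ⟨Metric.closedBall 0 a, isCompact_closedBall 0 a, ?_⟩
  rintro _ ⟨n, rfl⟩
  have hi : Integrable (fun x : ℝ => Real.exp (1 * x) + Real.exp (-1 * x)) (μ n) :=
    (hint n 1).add (hint n (-1))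
  have hm := mul_meas_ge_le_integral_of_nonneg
    (Eventually.of_forall fun x => (add_pos (Real.exp_pos (1 * x)) (Real.exp_pos (-1 * x))).le) hi
    (Real.exp a)
  have hsub : (Metric.closedBall (0 : ℝ) a)ᶜ ⊆
      {x : ℝ | Real.exp a ≤ Real.exp (1 * x) + Real.exp (-1 * x)} := by
    intro x hx
    rw [Set.mem_compl_iff, mem_closedBall_zero_iff, not_le, Real.norm_eq_abs] at hx
    show Real.exp a ≤ Real.exp (1 * x) + Real.exp (-1 * x)
    rcases abs_cases x with ⟨h, _⟩ | ⟨h, _⟩
    · have := Real.exp_le_exp.2 (hx.le.trans (le_of_eq h))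
      have h2 := Real.exp_pos (-1 * x)
      rw [one_mul]
      linarith
    · have := Real.exp_le_exp.2 (hx.le.trans (le_of_eq h))
      have h2 := Real.exp_pos (1 * x)
      rw [neg_one_mul]
      linarith
  have hr : (μ n).real (Metric.closedBall (0 : ℝ) a)ᶜ ≤ c / Real.exp a := by
    rw [le_div_iff₀ (Real.exp_pos a), mul_comm]
    refine le_trans ?_ (hm.trans (hc n))
    exact mul_le_mul_of_nonneg_left (measureReal_mono hsub) (Real.exp_nonneg a)
  calc (μ n) (Metric.closedBall (0 : ℝ) a)ᶜ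
      = ENNReal.ofReal ((μ n).real (Metric.closedBall (0 : ℝ) a)ᶜ) :=
        (ofReal_measureReal).symm
    _ ≤ ENNReal.ofReal (c / Real.exp a) := ENNReal.ofReal_le_ofReal hr
    _ ≤ ε := ha

open ProbabilityTheory Filter Topology in
theorem target (μ : ℕ → Measure ℝ) [∀ n, IsProbabilityMeasure (μ n)] (v : NNReal) (hv : v ≠ 0)
    (hint : ∀ (n : ℕ) (s : ℝ), Integrable (fun x : ℝ => Real.exp (s * x)) (μ n))
    (h : ∀ s : ℝ, Filter.Tendsto (fun n => ∫ x : ℝ, Real.exp (s * x) ∂(μ n)) Filter.atTop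
      (nhds (Real.exp (v * s ^ 2 / 2)))) (x : ℝ) :
    Filter.Tendsto (fun n => (μ n).real (Set.Iic x)) Filter.atTop
      (nhds ((ProbabilityTheory.gaussianReal 0 v).real (Set.Iic x))) := by
  set P : ℕ → ProbabilityMeasure ℝ := fun n => ⟨μ n, inferInstance⟩ with hP
  set G : ProbabilityMeasure ℝ := ⟨gaussianReal 0 v, inferInstance⟩ with hG
  have hbd : ∀ s : ℝ, ∃ b : ℝ, ∀ n, ∫ x : ℝ, Real.exp (s * x) ∂(μ n) ≤ b := by
    intro s
    obtain ⟨b, hb⟩ := (h s).bddAbove_range
    exact ⟨b, fun n => hb ⟨n, rfl⟩⟩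
  choose b hb using hbd
  have htight : IsTightMeasureSet {μ n | n} := by
    refine tight μ (b 1 + b (-1)) hint fun n => ?_
    rw [integral_add (hint n 1) (hint n (-1))]
    exact add_le_add (hb 1 n) (hb (-1) n)
  have hlim : Tendsto P atTop (𝓝 G) := by
    refine (Filter.tendsto_iff_ultrafilter _ _ _).2 fun U hU ↦ ?_
    have h_compact : IsCompact (closure {P n | n}) := by
      refine isCompact_closure_of_isTightMeasureSet ?_
      have e : {((ν : ProbabilityMeasure ℝ) : Measure ℝ) | ν ∈ {P n | n}} = {μ n | n} := by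
        ext ν
        constructor
        · rintro ⟨ρ, ⟨n, rfl⟩, rfl⟩
          exact ⟨n, rfl⟩
        · rintro ⟨n, rfl⟩
          exact ⟨P n, ⟨n, rfl⟩, rfl⟩
      rw [e]
      exact htight
    obtain ⟨ρ, -, hρ : Tendsto _ _ _⟩ := h_compact.ultrafilter_le_nhds (U.map P)
      (.trans (by simp) (monotone_principal subset_closure))
    have hρ' : Tendsto P U (𝓝 ρ) := hρ
    have hl := limit_mgf P v hint b (fun n s => hb s n) h U hU ρ hρ'
    have he : (ρ : Measure ℝ) = gaussianReal 0 v :=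
      eq_gaussian (ρ : Measure ℝ) v (fun s => (hl s).1) (fun s => (hl s).2)
    have heq : ρ = G := Subtype.ext he
    rw [← heq]
    exact hρ'
  have hnull : (G : Measure ℝ) (frontier (Set.Iic x)) = 0 := by
    rw [frontier_Iic]
    change gaussianReal 0 v {x} = 0
    have := nullSingletonClass_gaussianReal (μ := 0) hv
    exact measure_singleton x
  have h1 := ProbabilityMeasure.tendsto_measure_of_null_frontier_of_tendsto' hlim hnull
  exact (ENNReal.tendsto_toReal (measure_ne_top (G : Measure ℝ) (Set.Iic x))).comp h1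

end Pool.Agent.Helper859_NL.J17
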