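import Pool.Agent.Helper859_NL.Stm

/-!
# The exponent `Psi`: Lipschitz bound and Taylor expansion at `t = 1`
-/

set_option autoImplicit false

namespace Pool.Agent.Helper859_NL.J18

open H974 Finset Pool.Agent.W819.EN Pool.Agent.W819.NC MeasureTheory
open Pool.Agent.Y996.NL Pool.Agent.Helper859_NL
open scoped Real

theorem j18_psi_le_two {t : ℝ} (ht : t ≤ 2) :
    Psi t = 3 / (4 * π ^ 2) * (π ^ 2 / 9 - Real.arccos (t / 2) ^ 2) := by
  unfold Psi
  rw [max_eq_right (by linarith), Real.arcosh_zero]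
  ring

theorem j18_arccos_half : Real.arccos (1 / 2) = π / 3 := by
  rw [← Real.cos_pi_div_three]
  exact Real.arccos_cos (by positivity) (by linarith [Real.pi_pos])

theorem j18_abs_phi {t : ℝ} (h0 : 0 ≤ t) (h2 : t ≤ 2) :
    |Real.arccos (t / 2) - π / 3| ≤ π / 2 * |t - 1| := by
  have hpi := Real.pi_pos
  set φ := Real.arccos (t / 2) with hφ
  have hφ0 : 0 ≤ φ := Real.arccos_nonneg _
  have hφ1 : φ ≤ π / 2 := Real.arccos_le_pi_div_two.2 (by linarith)
  have hcos : Real.cos φ = t / 2 := Real.cos_arccos (by linarith) (by linarith)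
  have h1 : t - 1 = 2 * (Real.cos φ - Real.cos (π / 3)) := by
    rw [hcos, Real.cos_pi_div_three]; ring
  rw [Real.cos_sub_cos] at h1
  have h3 : |t - 1| = 4 * (|Real.sin ((φ + π / 3) / 2)| * |Real.sin ((φ - π / 3) / 2)|) := by
    rw [h1, ← abs_mul]
    rw [show (2 : ℝ) * (-2 * Real.sin ((φ + π / 3) / 2) * Real.sin ((φ - π / 3) / 2)) =
      -(4 * (Real.sin ((φ + π / 3) / 2) * Real.sin ((φ - π / 3) / 2))) by ring, abs_neg, abs_mul]
    norm_num
  have h4 : 1 / 2 ≤ |Real.sin ((φ + π / 3) / 2)| := by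
    have h5 : Real.sin (π / 6) ≤ Real.sin ((φ + π / 3) / 2) :=
      Real.sin_le_sin_of_le_of_le_pi_div_two (by linarith) (by linarith) (by linarith)
    rw [Real.sin_pi_div_six] at h5
    exact h5.trans (le_abs_self _)
  have h6 : |φ - π / 3| / π ≤ |Real.sin ((φ - π / 3) / 2)| := by
    have h7 : |(φ - π / 3) / 2| ≤ π / 2 := by
      rw [abs_le]
      constructor <;> linarith
    have h8 := Real.mul_le_sin (abs_nonneg ((φ - π / 3) / 2)) h7
    have h9 : Real.sin |(φ - π / 3) / 2| = |Real.sin ((φ - π / 3) / 2)| := by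
      rcases le_total 0 ((φ - π / 3) / 2) with h | h
      · rw [abs_of_nonneg h, abs_of_nonneg]
        exact Real.sin_nonneg_of_nonneg_of_le_pi h (by rw [abs_of_nonneg h] at h7; linarith)
      · rw [abs_of_nonpos h, Real.sin_neg, abs_of_nonpos]
        exact Real.sin_nonpos_of_nonpos_of_neg_pi_le h (by rw [abs_of_nonpos h] at h7; linarith)
    rw [h9] at h8
    refine le_trans (le_of_eq ?_) h8
    rw [abs_div, abs_two]
    field_simp
  rw [h3]
  have h10 : 1 / 2 * (|φ - π / 3| / π) ≤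
      |Real.sin ((φ + π / 3) / 2)| * |Real.sin ((φ - π / 3) / 2)| :=
    mul_le_mul h4 h6 (by positivity) (abs_nonneg _)
  have h11 : |φ - π / 3| = π / 2 * (4 * (1 / 2 * (|φ - π / 3| / π))) := by
    field_simp
    ring
  calc |φ - π / 3| = π / 2 * (4 * (1 / 2 * (|φ - π / 3| / π))) := h11
    _ ≤ _ := by gcongr

theorem j18_abs_sub_one_le {t : ℝ} (h1 : 1 / 2 ≤ t) (h2 : t ≤ 2) : |t - 1| ≤ 2 * |Real.log t| := by
  have ht : 0 < t := by linarith
  rcases le_total 1 t with h | h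
  · rw [abs_of_nonneg (by linarith), abs_of_nonneg (Real.log_nonneg h)]
    have h3 := Real.one_sub_inv_le_log_of_pos ht
    have h4 : (t - 1) / 2 ≤ 1 - t⁻¹ := by
      rw [← sub_nonneg, show 1 - t⁻¹ - (t - 1) / 2 = (t - 1) * (2 - t) / (2 * t) by
        field_simp]
      exact div_nonneg (mul_nonneg (by linarith) (by linarith)) (by linarith)
    linarith
  · rw [abs_of_nonpos (by linarith), abs_of_nonpos (Real.log_nonpos ht.le h)]
    have h3 := Real.log_le_sub_one_of_pos ht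
    linarith

theorem j18_psiLip : PsiLip := by
  refine ⟨1, zero_le_one, fun t h1 h2 => ?_⟩
  have hpi := Real.pi_pos
  rw [j18_psi_le_two h2]
  set φ := Real.arccos (t / 2) with hφ
  have hφ0 : 0 ≤ φ := Real.arccos_nonneg _
  have hφ1 : φ ≤ π / 2 := Real.arccos_le_pi_div_two.2 (by linarith)
  have ha := j18_abs_phi (t := t) (by linarith) h2
  have hb := j18_abs_sub_one_le h1 h2
  rw [← hφ] at ha
  have h3 : 3 / (4 * π ^ 2) * (π ^ 2 / 9 - φ ^ 2) =
      -(3 / (4 * π ^ 2) * (π / 3 + φ) * (φ - π / 3)) := by ring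
  rw [h3, abs_neg, abs_mul, abs_of_nonneg (by positivity)]
  calc 3 / (4 * π ^ 2) * (π / 3 + φ) * |φ - π / 3|
      ≤ 3 / (4 * π ^ 2) * π * (π / 2 * |t - 1|) := by
        gcongr
        linarith
    _ = 3 / 8 * |t - 1| := by
        field_simp
        ring
    _ ≤ 1 * |Real.log t| := by
        have := abs_nonneg (Real.log t)
        linarith

/-- the exponent near `s = 0` -/
noncomputable def psF (s : ℝ) : ℝ :=
  3 / (4 * π ^ 2) * (π ^ 2 / 9 - Real.arccos (Real.exp s / 2) ^ 2)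

theorem j18_exp_lt {s : ℝ} (hs : s < 1 / 2) : Real.exp s / 2 < 1 := by
  have h1 : Real.exp s < Real.exp (Real.log 2) := by
    apply Real.exp_lt_exp.2
    have := Real.log_two_gt_d9
    linarith
  rw [Real.exp_log (by norm_num)] at h1
  linarith

theorem j18_hasDeriv_arc {s : ℝ} (hs : s < 1 / 2) :
    HasDerivAt (fun s => Real.arccos (Real.exp s / 2))
      (-(Real.exp s / 2 / √(1 - (Real.exp s / 2) ^ 2))) s := by
  have h0 := Real.exp_pos s
  have h1 := j18_exp_lt hs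
  have h2 : HasDerivAt (fun s => Real.exp s / 2) (Real.exp s / 2) s :=
    (Real.hasDerivAt_exp s).div_const 2
  have h3 := (Real.hasDerivAt_arccos (x := Real.exp s / 2) (by linarith) (by linarith)).comp s h2
  refine h3.congr_deriv ?_
  ring

/-- the derivative -/
noncomputable def psF1 (s : ℝ) : ℝ :=
  3 / (2 * π ^ 2) * (Real.arccos (Real.exp s / 2) *
    (Real.exp s / 2 / √(1 - (Real.exp s / 2) ^ 2)))

theorem j18_hasDeriv_F {s : ℝ} (hs : s < 1 / 2) : HasDerivAt psF (psF1 s) s := by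
  have h1 := (j18_hasDeriv_arc hs).pow 2
  have h2 := (h1.const_sub (π ^ 2 / 9)).const_mul (3 / (4 * π ^ 2))
  refine h2.congr_deriv ?_
  unfold psF1
  have hpi := Real.pi_pos
  simp only [Nat.cast_ofNat, Nat.add_one_sub_one, pow_one]
  field_simp
  ring

theorem j18_hasDeriv_F1 : HasDerivAt psF1 (2 / (3 * √3 * π) - 1 / (2 * π ^ 2)) 0 := by
  have hpi := Real.pi_pos
  have h1 := j18_hasDeriv_arc (s := 0) (by norm_num)
  have h2 : HasDerivAt (fun s => Real.exp s / 2) (Real.exp 0 / 2) 0 :=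
    (Real.hasDerivAt_exp 0).div_const 2
  have h3 : HasDerivAt (fun s => 1 - (Real.exp s / 2) ^ 2)
      (-(2 * (Real.exp 0 / 2) ^ (2 - 1) * (Real.exp 0 / 2))) 0 := by
    have := (h2.pow 2).const_sub 1
    exact_mod_cast this
  have h4 := h3.sqrt (by rw [Real.exp_zero]; norm_num)
  have h5 := h2.div h4 (by
    rw [Real.exp_zero]
    exact (Real.sqrt_pos.2 (by norm_num)).ne')
  have h6 := (h1.mul h5).const_mul (3 / (2 * π ^ 2))
  refine h6.congr_deriv ?_
  have e1 : √(1 - (Real.exp 0 / 2) ^ 2) = √3 / 2 := by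
    rw [Real.exp_zero, show (1 : ℝ) - (1 / 2) ^ 2 = 3 / 2 ^ 2 by norm_num,
      Real.sqrt_div (by norm_num), Real.sqrt_sq (by norm_num)]
  simp only [Pi.div_apply, e1]
  rw [Real.exp_zero, j18_arccos_half]
  have hs3 : 0 < √3 := Real.sqrt_pos.2 (by norm_num)
  have hs : √3 ^ 2 = 3 := Real.sq_sqrt (by norm_num)
  have e2 : (1 : ℝ) / 2 / (√3 / 2) = √3 / 3 := by
    field_simp
    rw [hs]
  have e3 : ((1 : ℝ) / 2 * (√3 / 2) - 1 / 2 * (-(2 * (1 / 2) ^ (2 - 1) * (1 / 2)) /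
      (2 * (√3 / 2)))) / (√3 / 2) ^ 2 = 4 * √3 / 9 := by
    have e30 : (√3 / 2) ^ 2 = 3 / 4 := by
      rw [div_pow (√3) 2 2, hs]
      norm_num
    have e31 : (2 : ℝ) * (1 / 2) ^ (2 - 1) * (1 / 2) = 1 / 2 := by norm_num
    rw [e30, e31]
    field_simp
    ring_nf
    rw [hs]
    ring
  rw [e2, e3]
  have e4 : 2 / (3 * √3 * π) = 2 * √3 / (9 * π) := by
    field_simp
    rw [hs]
    norm_num
  rw [e4]
  field_simp
  ring_nf
  rw [hs]
  ring

theorem j18_contDiff_F : ContDiffOn ℝ 3 psF (Set.Ioo (-(1 / 2)) (1 / 2)) := by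
  intro s hs
  apply ContDiffAt.contDiffWithinAt
  have h0 := Real.exp_pos s
  have h1 := j18_exp_lt hs.2
  have h2 : ContDiffAt ℝ 3 (fun s => Real.exp s / 2) s :=
    Real.contDiff_exp.contDiffAt.div_const 2
  have ha : ContDiffAt ℝ 3 Real.arccos (Real.exp s / 2) :=
    Real.contDiffAt_arccos (by linarith) (by linarith)
  have h3 : ContDiffAt ℝ 3 (Real.arccos ∘ fun s => Real.exp s / 2) s := ha.comp s h2
  exact contDiffAt_const.mul (contDiffAt_const.sub (h3.pow 2))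

theorem j18_taylor_F : ∃ c : ℝ, ∀ x : ℝ,
    taylorWithinEval psF 3 (Set.Ioo (-(1 / 2)) (1 / 2)) 0 x = cM * x + vM * x ^ 2 / 2 + c * x ^ 3 := by
  have hop : IsOpen (Set.Ioo (-(1 / 2) : ℝ) (1 / 2)) := isOpen_Ioo
  have h0 : (0 : ℝ) ∈ Set.Ioo (-(1 / 2) : ℝ) (1 / 2) := by constructor <;> norm_num
  have hpi := Real.pi_pos
  have hF0 : psF 0 = 0 := by
    unfold psF
    rw [Real.exp_zero, j18_arccos_half]
    ring
  have hd1 : iteratedDerivWithin 1 psF (Set.Ioo (-(1 / 2)) (1 / 2)) 0 = cM := by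
    rw [iteratedDerivWithin_of_isOpen hop h0, iteratedDeriv_one,
      (j18_hasDeriv_F (s := 0) (by norm_num)).deriv]
    unfold psF1 cM
    rw [Real.exp_zero, j18_arccos_half]
    have e1 : √(1 - (1 / 2 : ℝ) ^ 2) = √3 / 2 := by
      rw [show (1 : ℝ) - (1 / 2) ^ 2 = 3 / 2 ^ 2 by norm_num,
        Real.sqrt_div (by norm_num), Real.sqrt_sq (by norm_num)]
    rw [e1]
    have hs3 : 0 < √3 := Real.sqrt_pos.2 (by norm_num)
    field_simp
  have hd2 : iteratedDerivWithin 2 psF (Set.Ioo (-(1 / 2)) (1 / 2)) 0 = vM := by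
    rw [iteratedDerivWithin_of_isOpen hop h0, iteratedDeriv_succ, iteratedDeriv_one]
    have h1 : deriv psF =ᶠ[nhds 0] psF1 := by
      filter_upwards [hop.mem_nhds h0] with s hs
      exact (j18_hasDeriv_F hs.2).deriv
    rw [h1.deriv_eq, j18_hasDeriv_F1.deriv]
    rfl
  refine ⟨((2 + 1 : ℝ) * (Nat.factorial 2))⁻¹ *
    iteratedDerivWithin 3 psF (Set.Ioo (-(1 / 2)) (1 / 2)) 0, fun x => ?_⟩
  rw [taylorWithinEval_succ, taylorWithinEval_succ, taylorWithinEval_succ, taylor_within_zero_eval,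
    hF0]
  norm_num [Nat.factorial, hd1, hd2]
  ring

theorem j18_psiTaylor : PsiTaylor := by
  have h0 : (0 : ℝ) ∈ Set.Ioo (-(1 / 2) : ℝ) (1 / 2) := by constructor <;> norm_num
  obtain ⟨c, hc⟩ := j18_taylor_F
  have h1 := taylor_isLittleO (convex_Ioo _ _) h0 j18_contDiff_F
  rw [isOpen_Ioo.nhdsWithin_eq h0] at h1
  have h2 := h1.bound (c := 1) one_pos
  rw [Metric.eventually_nhds_iff] at h2
  obtain ⟨ε, hε, h3⟩ := h2
  refine ⟨1 + |c|, min (ε / 2) (1 / 4), by positivity, fun s hs => ?_⟩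
  have hs1 : |s| ≤ ε / 2 := hs.trans (min_le_left _ _)
  have hs2 : |s| ≤ 1 / 4 := hs.trans (min_le_right _ _)
  have hs3 := abs_le.1 hs2
  have h4 := h3 (y := s) (by rw [Real.dist_eq, sub_zero]; linarith)
  rw [hc s, sub_zero, one_mul, Real.norm_eq_abs, Real.norm_eq_abs, abs_pow] at h4
  have h5 : Psi (Real.exp s) = psF s := by
    rw [j18_psi_le_two]
    · rfl
    · have := j18_exp_lt (s := s) (by linarith)
      linarith
  rw [h5]
  have h6 : psF s - (cM * s + vM * s ^ 2 / 2) =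
      (psF s - (cM * s + vM * s ^ 2 / 2 + c * s ^ 3)) + c * s ^ 3 := by ring
  rw [h6]
  refine (abs_add_le _ _).trans ?_
  rw [abs_mul, abs_pow]
  linarith

theorem target : PsiLip ∧ PsiTaylor := ⟨j18_psiLip, j18_psiTaylor⟩

end Pool.Agent.Helper859_NL.J18
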