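import Pool.Agent.Helper859_NL.Ann
import Pool.Agent.Helper859_NL.Asm
import Pool.Agent.Helper859_NL.J01
import Pool.Agent.Helper859_NL.J02
import Pool.Agent.Helper859_NL.J03
import Pool.Agent.Helper859_NL.J04
import Pool.Agent.Helper859_NL.J05
import Pool.Agent.Helper859_NL.J06
import Pool.Agent.Helper859_NL.J07
import Pool.Agent.Helper859_NL.J08
import Pool.Agent.Helper859_NL.J09
import Pool.Agent.Helper859_NL.J10
import Pool.Agent.Helper859_NL.J11
import Pool.Agent.Helper859_NL.J12
import Pool.Agent.Helper859_NL.J13
import Pool.Agent.Helper859_NL.J14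
import Pool.Agent.Helper859_NL.J15
import Pool.Agent.Helper859_NL.J16
import Pool.Agent.Helper859_NL.J17
import Pool.Agent.Helper859_NL.J18
import Pool.Agent.W819.NC.Final

/-!
The number of interfaces of doubly connected domains near `t = 1`: assembly. The files `J01` to `J18`
were written by the helpers named in `departures/helper859.md`.
-/

set_option autoImplicit false

namespace Pool.Agent.Helper859_NL.Final

open H974 Finset Pool.Agent.W819.EN Pool.Agent.W819.NC MeasureTheory Pool.Agent.Helper859_NL
open Pool.Agent.Y996.NL

theorem inBU : InBU NA Wc := J01.target sys locG aMom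
theorem outBU : OutBU NA Wc := J02.target sys locG aMom
theorem curt : CurtS := fun μ hμ v hv hi h x => by
  haveI := hμ
  exact J17.target μ v hv hi h x

theorem domU : DomU := by
  have hd := J03.target sys locG aMom
  have hTI : TInU NA := J04.target sys locG aMom inBU hd.1
  have hTO : TOutU NA := J05.target sys locG aMom outBU hd.2
  have hc : Cmps := J06.target
  have hRI : RadInU NA := J07.target sys locG aMom hTI hc
  have hRO : RadOutU NA := J08.target sys locG aMom hTO hc
  have hCo : CoreU NA := J09.target sys locG aMom hTI hTO hc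
  have hCy : CylU := J11.target J10.target Pool.Agent.W762.EN.t_INT
  have hOne : OneU NA := J12.target hCy sys locG aMom inBU hd.1 badX hc J18.target.1
  have hAnn : AnnSU NA := annSU (annU sys hRI hRO hCo) hOne
  have hEx : ExU := J14.target J13.target Pool.Agent.Z864.NL.ind
  have hInf : InfU := J15.target hEx Pool.Agent.Y996.NL.sPT Pool.Agent.Y488.NL.me hTI hTO hc hAnn
  exact J16.target Pool.Agent.Y155.NL.ge Pool.Agent.Y155.NL.rt hInf Pool.Agent.Y261.NL.sm
    Pool.Agent.Y488.NL.me Pool.Agent.Y488.NL.sy J18.target.1

end Pool.Agent.Helper859_NL.Final
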