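import Pool.Agent.Helper859_NL.StmTwo
import Pool.Agent.W819.NC.Help

set_option autoImplicit false

/-! uniform versions of `Pool.Agent.W819.NC.t_XP`, `t_ZP`, `t_KP`: the same proofs -/

namespace Pool.Agent.Helper859_NL.K02

open H974 Finset Pool.Agent.W819.EN Pool.Agent.W819.NC MeasureTheory
open Pool.Agent.Helper859_NL

theorem xp {N : NT} {W : WT} {K : KT} (h : Sys N W K) (ha : AMom N) (hi : TInU N) : XPcU N W := by
  intro s hs
  obtain ⟨A1, hA1, h1'⟩ := hi 2
  obtain ⟨A2, hA2, h2'⟩ := hi 1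
  have hs2 : (1 : ℝ) ≤ s ^ 2 := one_le_pow₀ hs
  obtain ⟨C1, hC1, g1⟩ := h.wmom (s ^ 2) hs2
  obtain ⟨C2, hC2, g2⟩ := ha (s ^ 2) hs2 8
  refine ⟨A1 * Real.sqrt C1 + A1 * Real.sqrt C2 + A2 * Real.sqrt C1, by positivity, ?_⟩
  have p1 : 0 < A1 * Real.sqrt C1 := by positivity
  have p2 : 0 < A1 * Real.sqrt C2 := by positivity
  have p3 : 0 < A2 * Real.sqrt C1 := by positivity
  intro t ht1 ht2 u a S ha1 hS
  have ht : 0 < t := by linarith
  have h1 := h1' t ht1 ht2
  have h2 := h2' t ht1 ht2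
  have hs0 : 0 ≤ s := by linarith
  have b1 : bx u ((2 * a : ℕ) : ℤ) ⊆ S := (bx_mono u (by push_cast; omega)).trans hS
  have b2 : bx u ((8 * a : ℕ) : ℤ) ⊆ S := by push_cast; exact hS
  refine ⟨?_, ?_, ?_⟩
  · have := h1 u 0 (2 * a) a S (an u a (2 * a)) (fun F => s ^ W F u a) (by omega) ha1 le_rfl b1
      (an_sub.trans b1) (an_disj le_rfl) (fun F => by positivity)
      (fun F _ => by rw [wloc' h ha1 (Subset.refl _) F])
    simp only [sq_pow] at this
    exact fin (t := t) this (g1 u a S ha1 (by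
      have : ((2 * a : ℕ) : ℤ) = 2 * (a : ℤ) := by push_cast; ring
      rw [← this]; exact b1)) hA1 (G_nonneg N ht _ _) (by linarith)
  · have := h1 u 0 (2 * a) a S (an u a (8 * a)) (fun F => s ^ N F u a (8 * a)) (by omega) ha1
      le_rfl b1 (an_sub.trans b2) (an_disj le_rfl) (fun F => by positivity)
      (fun F _ => by rw [loc' h.geo (by omega) (Subset.refl _) F])
    simp only [sq_pow] at this
    exact fin (t := t) this (g2 u a (8 * a) S ha1 (by omega) le_rfl b2) hA1 (G_nonneg N ht _ _)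
      (by linarith)
  · have b3 : bx u ((2 * (4 * a) : ℕ) : ℤ) ⊆ S := (bx_mono u (by push_cast; omega)).trans hS
    have := h2 u 0 (2 * a) (4 * a) S (an u (4 * a) (2 * (4 * a))) (fun F => s ^ W F u (4 * a))
      (by omega) (by omega) (by omega) b1 (an_sub.trans b3) (an_disj le_rfl)
      (fun F => by positivity) (fun F _ => by rw [wloc' h (by omega) (Subset.refl _) F])
    simp only [sq_pow] at this
    exact fin (t := t) this (g1 u (4 * a) S (by omega) (by
      have : ((2 * (4 * a) : ℕ) : ℤ) = 2 * ((4 * a : ℕ) : ℤ) := by push_cast; ring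
      rw [← this]; exact b3)) hA2 (G_nonneg N ht _ _) (by linarith)

theorem zp {N : NT} {W : WT} {K : KT} (h : Sys N W K) (ha : AMom N) (hi : TInU N)
    (ho : TOutU N) : ZPcU N W := by
  intro s hs
  obtain ⟨A1, hA1, h1'⟩ := ho 2
  obtain ⟨A2, hA2, h2'⟩ := hi 3
  have hs2 : (1 : ℝ) ≤ s ^ 2 := one_le_pow₀ hs
  obtain ⟨C1, hC1, g1⟩ := h.wmom (s ^ 2) hs2
  obtain ⟨C2, hC2, g2⟩ := ha (s ^ 2) hs2 4
  refine ⟨A1 * Real.sqrt C1 + A1 * Real.sqrt C2 + A2 * Real.sqrt C1 + A2 * Real.sqrt C2,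
    by positivity, ?_⟩
  have p1 : 0 < A1 * Real.sqrt C1 := by positivity
  have p2 : 0 < A1 * Real.sqrt C2 := by positivity
  have p3 : 0 < A2 * Real.sqrt C1 := by positivity
  have p4 : 0 < A2 * Real.sqrt C2 := by positivity
  intro t ht1 ht2 v u D n S hD hn hu1 hu2 hS
  have ht : 0 < t := by linarith
  have h1 := h1' t ht1 ht2
  have h2 := h2' t ht1 ht2
  have hs0 : 0 ≤ s := by linarith
  have hG0 := G_nonneg N ht (4 * D) (n - D)
  have bb : ∀ k : ℕ, k ≤ n + D → bx v (k : ℤ) ⊆ S := fun k hk =>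
    (bx_mono v (by omega)).trans hS
  have bR := bb (n - D) (by omega)
  have b8 := bb (8 * D) (by omega)
  have hu : bx u ((2 * (3 * D) : ℕ) : ℤ) ⊆ bx v ((8 * D : ℕ) : ℤ) :=
    bx_sub (by push_cast; omega) (by push_cast; omega)
  have cst : ∀ k : ℕ, ((2 * k : ℕ) : ℤ) = 2 * (k : ℤ) := fun k => by push_cast; ring
  refine ⟨?_, ?_, ?_, ?_, ?_⟩
  · have := h1 v (4 * D) (n - D) (8 * D) S (an u (3 * D) (2 * (3 * D)))
      (fun F => s ^ W F u (3 * D)) (by omega) (by omega) (by omega) bR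
      ((an_sub.trans hu).trans b8) (an_sub.trans hu) (fun F => by positivity)
      (fun F _ => by rw [wloc' h (by omega) (Subset.refl _) F])
    simp only [sq_pow] at this
    exact fin (t := t) this (g1 u (3 * D) S (by omega) (by rw [← cst]; exact hu.trans b8)) hA1 hG0
      (by linarith)
  · have := h1 v (4 * D) (n - D) (8 * D) S (an v (2 * D) (8 * D))
      (fun F => s ^ N F v (2 * D) (8 * D)) (by omega) (by omega) (by omega) bR
      (an_sub.trans b8) an_sub (fun F => by positivity)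
      (fun F _ => by rw [loc' h.geo (by omega) (Subset.refl _) F])
    simp only [sq_pow] at this
    exact fin (t := t) this (g2 v (2 * D) (8 * D) S (by omega) (by omega) (by omega) b8) hA1 hG0
      (by linarith)
  · have e : 2 * (4 * D) = 8 * D := by ring
    have := h1 v (4 * D) (n - D) (8 * D) S (an v (4 * D) (2 * (4 * D)))
      (fun F => s ^ W F v (4 * D)) (by omega) (by omega) (by omega) bR
      (an_sub.trans (by rw [e]; exact b8)) (an_sub.trans (by rw [e])) (fun F => by positivity)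
      (fun F _ => by rw [wloc' h (by omega) (Subset.refl _) F])
    simp only [sq_pow] at this
    exact fin (t := t) this (g1 v (4 * D) S (by omega) (by rw [← cst, e]; exact b8)) hA1 hG0
      (by linarith)
  · have b2 := bb (2 * ((n - D) / 2)) (by omega)
    have := h2 v (4 * D) (n - D) ((n - D) / 2) S (an v ((n - D) / 2) (2 * ((n - D) / 2)))
      (fun F => s ^ W F v ((n - D) / 2)) (by omega) (by omega) (by omega) bR
      (an_sub.trans b2) (an_disj le_rfl) (fun F => by positivity)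
      (fun F _ => by rw [wloc' h (by omega) (Subset.refl _) F])
    simp only [sq_pow] at this
    exact fin (t := t) this (g1 v ((n - D) / 2) S (by omega) (by rw [← cst]; exact b2)) hA2 hG0
      (by linarith)
  · have b2 := bb (n + D) le_rfl
    have := h2 v (4 * D) (n - D) ((n - D) / 2) S (an v ((n - D) / 2) (n + D))
      (fun F => s ^ N F v ((n - D) / 2) (n + D)) (by omega) (by omega) (by omega) bR
      (an_sub.trans b2) (an_disj le_rfl) (fun F => by positivity)
      (fun F _ => by rw [loc' h.geo (by omega) (Subset.refl _) F])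
    simp only [sq_pow] at this
    exact fin (t := t) this (g2 v ((n - D) / 2) (n + D) S (by omega) (by omega) (by omega) b2)
      hA2 hG0 (by linarith)

theorem kp {N : NT} {W : WT} {K : KT} (h : Sys N W K) (ho : TOutU N) : KPcU N K := by
  intro s hs
  obtain ⟨A1, hA1, h1'⟩ := ho 2
  have hs2 : (1 : ℝ) ≤ s ^ 2 := one_le_pow₀ hs
  obtain ⟨C1, hC1, g1⟩ := h.kmom (s ^ 2) hs2 96
  refine ⟨A1 * Real.sqrt C1, by positivity, ?_⟩
  intro t ht1 ht2 v u a D n S ha1 ha2 ha3 hn hu1 hu2 hS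
  have ht : 0 < t := by linarith
  have h1 := h1' t ht1 ht2
  have hs0 : 0 ≤ s := by linarith
  have hG0 := G_nonneg N ht (4 * D) (n - D)
  have bb : ∀ k : ℕ, k ≤ n + D → bx v (k : ℤ) ⊆ S := fun k hk =>
    (bx_mono v (by omega)).trans hS
  have bR := bb (n - D) (by omega)
  have b8 := bb (8 * D) (by omega)
  have q1 := le_abs_self (u.1 - v.1)
  have q2 := neg_abs_le (u.1 - v.1)
  have q3 := le_abs_self (u.2 - v.2)
  have q4 := neg_abs_le (u.2 - v.2)
  have main : ∀ x1 x2 : ℤ, x1 < x2 → x2 - x1 ≤ 96 * (8 * a) →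
      LRE x1 x2 (u.2 - 4 * a) (u.2 + 4 * a) ⊆ bx v ((8 * D : ℕ) : ℤ) →
      Ex P2 S (fun F => t ^ N F v (4 * D) (n - D) *
        s ^ K F x1 x2 (u.2 - 4 * a) (u.2 + 4 * a)) ≤
        A1 * Real.sqrt C1 * G N t (4 * D) (n - D) := by
    intro x1 x2 hx hx2 hsub
    have := h1 v (4 * D) (n - D) (8 * D) S (LRE x1 x2 (u.2 - 4 * a) (u.2 + 4 * a))
      (fun F => s ^ K F x1 x2 (u.2 - 4 * a) (u.2 + 4 * a)) (by omega) (by omega) (by omega) bR
      (hsub.trans b8) hsub (fun F => by positivity)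
      (fun F _ => by rw [h.kloc F])
    simp only [sq_pow] at this
    exact fin (t := t) this (g1 x1 x2 (u.2 - 4 * a) (u.2 + 4 * a) S (by omega) hx
      (by push_cast; linarith) (hsub.trans b8)) hA1 hG0 le_rfl
  have hsub : ∀ x1 x2 : ℤ, u.1 - 6 * D ≤ x1 → x2 ≤ u.1 + 6 * D →
      LRE x1 x2 (u.2 - 4 * a) (u.2 + 4 * a) ⊆ bx v ((8 * D : ℕ) : ℤ) := by
    intro x1 x2 h1 h2
    refine LRE_subset_RE.trans ?_
    unfold bx
    apply RE_subset <;> push_cast <;> omega
  exact ⟨main _ _ (by omega) (by omega) (hsub _ _ (by omega) (by omega)),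
    main _ _ (by omega) (by omega) (hsub _ _ (by omega) (by omega))⟩

theorem target {N : NT} {W : WT} {K : KT} (h : Sys N W K) (ha : AMom N) (hi : TInU N)
    (ho : TOutU N) : XPcU N W ∧ ZPcU N W ∧ KPcU N K :=
  ⟨xp h ha hi, zp h ha hi ho, kp h ho⟩

end Pool.Agent.Helper859_NL.K02
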