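import Pool.Agent.Helper859_NL.StmTwo
import Pool.Agent.W683.NC.Two1

set_option autoImplicit false
set_option maxHeartbeats 4000000

namespace Pool.Agent.Helper859_NL.K03

open H974 Finset Pool.Agent.W819.EN Pool.Agent.W819.NC MeasureTheory
open Pool.Agent.Helper859_NL
open scoped Real

/-
Uniform version of `Pool.Agent.W683.NC.t_TWO1` (file `Pool/Agent/W683/NC/Two1.lean`): the same proof, with `XPcU`, `ZPcU`, `KPcU`
in place of `XPc`, `ZPc`, `KPc` and with `CmpG` (`hc`) in place of `Dec`, at `m = 18`, `L = |log t1| + |log t2| ≤ log 2` (as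
`3/4 ≤ t1, t2 ≤ 4/3`, so `|log t| ≤ log (4/3)` and `(4/3)^2 ≤ 2`), `U` as there, `f = t1 ^ N v 0 n * t2 ^ N w 0 n`, the same 18
pieces `P`; the moments are taken with the fixed `s = 2` (`s ^ 18` and `s ^ 36`); `B` (≥ 1) is the sum of the constants `+ 1`.
Pointwise: `f = U * (t1 ^ ev * t2 ^ ew)`, `ev ≤ Qv`, `ew ≤ Qw`, and `exp (-(L (Qv + Qw))) ≤ t1 ^ ev * t2 ^ ew ≤ exp (L (Qv + Qw))`.
Note `t1 * t2 ∈ [1/2, 2]`.
-/
open Pool.Agent.W683.NC

lemma abs_log_le {t : ℝ} (h : Nr t) : |Real.log t| ≤ Real.log (4 / 3) := by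
  have ht : 0 < t := by linarith [h.1]
  rw [abs_le]
  constructor
  · have h1 : Real.log (3 / 4) ≤ Real.log t := Real.log_le_log (by norm_num) h.1
    have h2 : Real.log (3 / 4) = -Real.log (4 / 3) := by
      rw [← Real.log_inv]; norm_num
    linarith
  · exact Real.log_le_log ht h.2

lemma pow_exp {t L : ℝ} (ht : 0 < t) (hL : |Real.log t| ≤ L) {e P : ℕ} (h : e ≤ P) :
    Real.exp (-(L * P)) ≤ t ^ e ∧ t ^ e ≤ Real.exp (L * P) := by
  have h1 : t ^ e = Real.exp (e * Real.log t) := by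
    rw [Real.exp_nat_mul, Real.exp_log ht]
  have hL0 : 0 ≤ L := (abs_nonneg _).trans hL
  have h2 : |(e : ℝ) * Real.log t| ≤ L * P := by
    rw [abs_mul, Nat.abs_cast, mul_comm]
    have h3 : (e : ℝ) ≤ P := by exact_mod_cast h
    exact mul_le_mul hL h3 (by positivity) hL0
  rw [abs_le] at h2
  rw [h1]
  exact ⟨Real.exp_le_exp.mpr h2.1, Real.exp_le_exp.mpr h2.2⟩

theorem target {N : NT} {W : WT} {K : KT} (h : Sys N W K) (hl : LocG N) (hc : CmpG)
    (hx : XPcU N W) (hz : ZPcU N W) (hk : KPcU N K) (hp : Pw N W) : Two1U N := by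
  obtain ⟨s, hs20⟩ : ∃ s : ℝ, s = 2 := ⟨2, rfl⟩
  have hs : 1 ≤ s := by rw [hs20]; norm_num
  obtain ⟨C1, hC1, H1'⟩ := hx (s ^ 18) (one_le_pow₀ hs)
  obtain ⟨C2, hC2, H2'⟩ := hx (s ^ 18) (one_le_pow₀ hs)
  obtain ⟨C3, hC3, H3'⟩ := hz (s ^ 18) (one_le_pow₀ hs)
  obtain ⟨C4, hC4, H4'⟩ := hk (s ^ 36) (one_le_pow₀ hs)
  obtain ⟨K0, hK0, hfinal⟩ := hc 18 (C1 + C2 + C3 + C4 + 1) (by norm_num) (by linarith)
  refine ⟨K0, hK0, ?_⟩
  intro t1 t2 hn1 hn2
  have ht1 : 0 < t1 := by linarith [hn1.1]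
  have ht2 : 0 < t2 := by linarith [hn2.1]
  have ht12 : 0 < t1 * t2 := mul_pos ht1 ht2
  have hm1 : 1 / 2 ≤ t1 * t2 := by nlinarith [hn1.1, hn2.1, hn1.2, hn2.2]
  have hm2 : t1 * t2 ≤ 2 := by nlinarith [hn1.1, hn2.1, hn1.2, hn2.2]
  have H1 := H1' t1 (by linarith [hn1.1]) (by linarith [hn1.2])
  have H2 := H2' t2 (by linarith [hn2.1]) (by linarith [hn2.2])
  have H3 := H3' (t1 * t2) hm1 hm2
  have H4 := H4' (t1 * t2) hm1 hm2
  intro v w a D n S ha haD hDa hDn hvw hv1 hv2 hD hS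
  have hw1 : |w.1 - v.1| ≤ D := by rw [abs_sub_comm]; exact hv1
  have hw2 : |w.2 - v.2| ≤ D := by rw [abs_sub_comm]; exact hv2
  have hvv1 : |v.1 - v.1| ≤ (D : ℤ) := by simp
  have hvv2 : |v.2 - v.2| ≤ (D : ℤ) := by simp
  set G1 : ℝ := G N t1 0 (2 * a) with hG1
  set G2 : ℝ := G N t2 0 (2 * a) with hG2
  set G3 : ℝ := G N (t1 * t2) (4 * D) (n - D) with hG3
  have hGnn : ∀ t : ℝ, 0 < t → ∀ r R : ℕ, 0 ≤ G N t r R := fun t ht r R =>
    Ex_nonneg hokP fun F _ => (pow_pos ht _).le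
  have g1 : 0 ≤ G1 := hGnn t1 ht1 _ _
  have g2 : 0 ≤ G2 := hGnn t2 ht2 _ _
  have g3 : 0 ≤ G3 := hGnn _ ht12 _ _
  set B : ℝ := C1 + C2 + C3 + C4 + 1 with hB
  set U : Finset Edg → ℝ := fun F =>
    t1 ^ N F v 0 (2 * a) * t2 ^ N F w 0 (2 * a) * (t1 * t2) ^ N F v (4 * D) (n - D) with hU
  -- regions
  have sv2 : bx v ((2 * a : ℕ) : ℤ) ⊆ S := (bx_sub0 (by omega)).trans hS
  have sw2 : bx w ((2 * a : ℕ) : ℤ) ⊆ S := (bx_sub hw1 hw2 (by omega)).trans hS
  have sv8 : bx v (8 * a) ⊆ S := (bx_sub0 (by omega)).trans hS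
  have sw8 : bx w (8 * a) ⊆ S := (bx_sub hw1 hw2 (by omega)).trans hS
  have snD : bx v ((n - D : ℕ) : ℤ) ⊆ S := (bx_sub0 (by omega)).trans hS
  have san : an v (4 * D) (n - D) ⊆ S := sdiff_subset.trans snD
  have lN : ∀ (u : Vtx) (r R : ℕ), r ≤ R → ∀ F, N F u r R = N (F ∩ an u r R) u r R :=
    fun u r R hr F => h.geo.loc F u r R hr
  have lW : ∀ (u : Vtx) (b : ℕ), 1 ≤ b → ∀ F, W F u b = W (F ∩ an u b (2 * b)) u b :=
    fun u b hb F => h.wloc F u b hb
  have d88 : Disjoint (bx v (8 * a)) (bx w (8 * a)) := by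
    rw [Finset.disjoint_left]
    rintro ⟨x, y, _ | _⟩ e1 e2
    · simp only [bx, mem_RE_false] at e1 e2
      rcases hD with hD | hD
      · omega
      · rcases abs_cases (v.2 - w.2) with hc | hc <;> omega
    · simp only [bx, mem_RE_true] at e1 e2
      rcases hD with hD | hD
      · omega
      · rcases abs_cases (v.2 - w.2) with hc | hc <;> omega
  have dan : ∀ (u : Vtx) (k : ℤ) (u' : Vtx) (r R : ℕ), bx u k ⊆ bx u' ((r : ℤ) - 1) →
      Disjoint (bx u k) (an u' r R) := by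
    intro u k u' r R hs
    unfold an
    exact Finset.disjoint_left.2 fun e he he' => (Finset.mem_sdiff.1 he').2 (hs he)
  have dv8 : Disjoint (bx v (8 * a)) (an v (4 * D) (n - D)) :=
    dan _ _ _ _ _ (bx_sub0 (by omega))
  have dw8 : Disjoint (bx w (8 * a)) (an v (4 * D) (n - D)) :=
    dan _ _ _ _ _ (bx_sub hw1 hw2 (by omega))
  have v28 : bx v ((2 * a : ℕ) : ℤ) ⊆ bx v (8 * a) := bx_sub0 (by omega)
  have w28 : bx w ((2 * a : ℕ) : ℤ) ⊆ bx w (8 * a) := bx_sub0 (by omega)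
  have ansub : ∀ (u : Vtx) (r R : ℕ), an u r R ⊆ bx u R := fun u r R => sdiff_subset
  -- the three kinds of pieces
  have vtype : ∀ (X : Finset Edg → ℕ) (T : Finset Edg), (∀ F, X F = X (F ∩ T)) →
      T ⊆ bx v (8 * a) →
      Ex P2 S (fun F => t1 ^ N F v 0 (2 * a) * (s ^ 18) ^ X F) ≤ C1 * G1 →
      Ex P2 S (fun F => U F * s ^ (18 * X F)) ≤ B * (G1 * G2 * G3) := by
    intro X T hX hT hb
    have e1 : Ex P2 S (fun F => U F * s ^ (18 * X F)) = Ex P2 S (fun F =>
        (t1 ^ N F v 0 (2 * a) * (s ^ 18) ^ X F) * t2 ^ N F w 0 (2 * a) *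
          (t1 * t2) ^ N F v (4 * D) (n - D)) :=
      Ex_congr fun F _ => by simp only [hU]; rw [pow_mul]; ring
    rw [e1, tri (A := bx v (8 * a)) (B := bx w ((2 * a : ℕ) : ℤ)) (C := an v (4 * D) (n - D))
      sv8 sw2 san (d88.mono_right w28) dv8 (dw8.mono_left w28)
      (f := fun F => t1 ^ N F v 0 (2 * a) * (s ^ 18) ^ X F) (g := fun F => t2 ^ N F w 0 (2 * a))
      (k := fun F => (t1 * t2) ^ N F v (4 * D) (n - D))
      (fun F hF => by
        rw [← loc_mono (lN v 0 (2 * a) (by omega)) (fun e _ he => v28 (ansub _ _ _ he)) F hF,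
          ← loc_mono hX (fun e _ he => hT he) F hF])
      (fun F hF => by
        rw [← loc_mono (lN w 0 (2 * a) (by omega)) (fun e _ he => ansub _ _ _ he) F hF])
      (fun F _ => by
        rw [← lN v (4 * D) (n - D) (by omega) F])]
    rw [hl t2 w 0 (2 * a) S (by omega) sw2, hl (t1 * t2) v (4 * D) (n - D) S (by omega) snD]
    calc _ ≤ (C1 * G1) * G2 * G3 :=
          mul_le_mul_of_nonneg_right (mul_le_mul_of_nonneg_right hb g2) g3
      _ = C1 * (G1 * G2 * G3) := by ring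
      _ ≤ B * (G1 * G2 * G3) := by
          refine mul_le_mul_of_nonneg_right ?_ (mul_nonneg (mul_nonneg g1 g2) g3)
          rw [hB]; linarith
  have wtype : ∀ (X : Finset Edg → ℕ) (T : Finset Edg), (∀ F, X F = X (F ∩ T)) →
      T ⊆ bx w (8 * a) →
      Ex P2 S (fun F => t2 ^ N F w 0 (2 * a) * (s ^ 18) ^ X F) ≤ C2 * G2 →
      Ex P2 S (fun F => U F * s ^ (18 * X F)) ≤ B * (G1 * G2 * G3) := by
    intro X T hX hT hb
    have e1 : Ex P2 S (fun F => U F * s ^ (18 * X F)) = Ex P2 S (fun F =>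
        t1 ^ N F v 0 (2 * a) * (t2 ^ N F w 0 (2 * a) * (s ^ 18) ^ X F) *
          (t1 * t2) ^ N F v (4 * D) (n - D)) :=
      Ex_congr fun F _ => by simp only [hU]; rw [pow_mul]; ring
    rw [e1, tri (A := bx v ((2 * a : ℕ) : ℤ)) (B := bx w (8 * a)) (C := an v (4 * D) (n - D))
      sv2 sw8 san (d88.mono_left v28) (dv8.mono_left v28) dw8
      (f := fun F => t1 ^ N F v 0 (2 * a)) (g := fun F => t2 ^ N F w 0 (2 * a) * (s ^ 18) ^ X F)
      (k := fun F => (t1 * t2) ^ N F v (4 * D) (n - D))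
      (fun F hF => by
        rw [← loc_mono (lN v 0 (2 * a) (by omega)) (fun e _ he => ansub _ _ _ he) F hF])
      (fun F hF => by
        rw [← loc_mono (lN w 0 (2 * a) (by omega)) (fun e _ he => w28 (ansub _ _ _ he)) F hF,
          ← loc_mono hX (fun e _ he => hT he) F hF])
      (fun F _ => by
        rw [← lN v (4 * D) (n - D) (by omega) F])]
    rw [hl t1 v 0 (2 * a) S (by omega) sv2, hl (t1 * t2) v (4 * D) (n - D) S (by omega) snD]
    calc _ ≤ G1 * (C2 * G2) * G3 :=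
          mul_le_mul_of_nonneg_right (mul_le_mul_of_nonneg_left hb g1) g3
      _ = C2 * (G1 * G2 * G3) := by ring
      _ ≤ B * (G1 * G2 * G3) := by
          refine mul_le_mul_of_nonneg_right ?_ (mul_nonneg (mul_nonneg g1 g2) g3)
          rw [hB]; linarith
  have ztype : ∀ (X : Finset Edg → ℕ) (T : Finset Edg) (q : ℕ), (∀ F, X F = X (F ∩ T)) →
      Disjoint (bx v ((2 * a : ℕ) : ℤ)) T → Disjoint (bx w ((2 * a : ℕ) : ℤ)) T →
      Ex P2 S (fun F => (t1 * t2) ^ N F v (4 * D) (n - D) * (s ^ q) ^ X F) ≤ (C3 + C4) * G3 →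
      Ex P2 S (fun F => U F * s ^ (q * X F)) ≤ B * (G1 * G2 * G3) := by
    intro X T q hX hT1 hT2 hb
    have e1 : Ex P2 S (fun F => U F * s ^ (q * X F)) = Ex P2 S (fun F =>
        t1 ^ N F v 0 (2 * a) * t2 ^ N F w 0 (2 * a) *
          ((t1 * t2) ^ N F v (4 * D) (n - D) * (s ^ q) ^ X F)) :=
      Ex_congr fun F _ => by simp only [hU]; rw [pow_mul]; ring
    have dC1 : Disjoint (bx v ((2 * a : ℕ) : ℤ))
        (S \ (bx v ((2 * a : ℕ) : ℤ) ∪ bx w ((2 * a : ℕ) : ℤ))) :=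
      Finset.disjoint_left.2 fun e he he' =>
        (Finset.mem_sdiff.1 he').2 (Finset.mem_union_left _ he)
    have dC2 : Disjoint (bx w ((2 * a : ℕ) : ℤ))
        (S \ (bx v ((2 * a : ℕ) : ℤ) ∪ bx w ((2 * a : ℕ) : ℤ))) :=
      Finset.disjoint_left.2 fun e he he' =>
        (Finset.mem_sdiff.1 he').2 (Finset.mem_union_right _ he)
    rw [e1, tri (A := bx v ((2 * a : ℕ) : ℤ)) (B := bx w ((2 * a : ℕ) : ℤ))
      (C := S \ (bx v ((2 * a : ℕ) : ℤ) ∪ bx w ((2 * a : ℕ) : ℤ)))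
      sv2 sw2 sdiff_subset ((d88.mono_left v28).mono_right w28) dC1 dC2
      (f := fun F => t1 ^ N F v 0 (2 * a)) (g := fun F => t2 ^ N F w 0 (2 * a))
      (k := fun F => (t1 * t2) ^ N F v (4 * D) (n - D) * (s ^ q) ^ X F)
      (fun F hF => by
        rw [← loc_mono (lN v 0 (2 * a) (by omega)) (fun e _ he => ansub _ _ _ he) F hF])
      (fun F hF => by
        rw [← loc_mono (lN w 0 (2 * a) (by omega)) (fun e _ he => ansub _ _ _ he) F hF])
      (fun F hF => by
        rw [← loc_mono (lN v (4 * D) (n - D) (by omega)) (fun e he1 he2 => by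
            rw [Finset.mem_sdiff, Finset.mem_union, not_or]
            exact ⟨he1, fun hc => (Finset.disjoint_left.1 (dv8.mono_left v28)) hc he2,
              fun hc => (Finset.disjoint_left.1 (dw8.mono_left w28)) hc he2⟩) F hF,
          ← loc_mono hX (fun e he1 he2 => by
            rw [Finset.mem_sdiff, Finset.mem_union, not_or]
            exact ⟨he1, fun hc => (Finset.disjoint_left.1 hT1) hc he2,
              fun hc => (Finset.disjoint_left.1 hT2) hc he2⟩) F hF])]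
    rw [hl t1 v 0 (2 * a) S (by omega) sv2, hl t2 w 0 (2 * a) S (by omega) sw2]
    calc _ ≤ G1 * G2 * ((C3 + C4) * G3) :=
          mul_le_mul_of_nonneg_left hb (mul_nonneg g1 g2)
      _ = (C3 + C4) * (G1 * G2 * G3) := by ring
      _ ≤ B * (G1 * G2 * G3) := by
          refine mul_le_mul_of_nonneg_right ?_ (mul_nonneg (mul_nonneg g1 g2) g3)
          rw [hB]; linarith
  -- the expectation of `U`
  have hEU : Ex P2 S U = G1 * G2 * G3 := by
    rw [hU, tri (A := bx v ((2 * a : ℕ) : ℤ)) (B := bx w ((2 * a : ℕ) : ℤ))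
      (C := an v (4 * D) (n - D)) sv2 sw2 san ((d88.mono_left v28).mono_right w28)
      (dv8.mono_left v28) (dw8.mono_left w28)
      (f := fun F => t1 ^ N F v 0 (2 * a)) (g := fun F => t2 ^ N F w 0 (2 * a))
      (k := fun F => (t1 * t2) ^ N F v (4 * D) (n - D))
      (fun F hF => by
        rw [← loc_mono (lN v 0 (2 * a) (by omega)) (fun e _ he => ansub _ _ _ he) F hF])
      (fun F hF => by
        rw [← loc_mono (lN w 0 (2 * a) (by omega)) (fun e _ he => ansub _ _ _ he) F hF])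
      (fun F _ => by
        rw [← lN v (4 * D) (n - D) (by omega) F]),
      hl t1 v 0 (2 * a) S (by omega) sv2, hl t2 w 0 (2 * a) S (by omega) sw2,
      hl (t1 * t2) v (4 * D) (n - D) S (by omega) snD]
  -- the pieces of the annulus around both points
  set KL : Finset Edg → ℕ := fun F =>
    K F (v.1 - 6 * D) (v.1 - 4 * a) (v.2 - 4 * a) (v.2 + 4 * a) with hKL
  set KR : Finset Edg → ℕ := fun F =>
    K F (w.1 + 4 * a) (w.1 + 6 * D) (w.2 - 4 * a) (w.2 + 4 * a) with hKR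
  have hq1 : 4 * D ≤ (n - D) / 2 := by omega
  have zall : ∀ u : Vtx, |u.1 - v.1| ≤ D → |u.2 - v.2| ≤ D → |v.1 - u.1| ≤ D → |v.2 - u.2| ≤ D →
      |w.1 - u.1| ≤ D → |w.2 - u.2| ≤ D →
      ∀ j, 4 ≤ j → j < 9 → ∀ Kf : Finset Edg → ℕ,
      Ex P2 S (fun F => U F * s ^ (18 * pcs N W Kf v u a D n j F)) ≤ B * (G1 * G2 * G3) := by
    intro u hu1 hu2 hu3 hu4 hu5 hu6 j hj1 hj2 Kf
    obtain ⟨b1, b2, b3, b4, b5⟩ := H3 v u D n S (by omega) hDn hu1 hu2 hS
    have hC : C3 * G3 ≤ (C3 + C4) * G3 := by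
      refine mul_le_mul_of_nonneg_right ?_ g3
      linarith
    interval_cases j
    · exact ztype (fun F => W F u (3 * D)) _ 18 (lW u (3 * D) (by omega))
        (dan _ _ _ _ _ (bx_sub hu3 hu4 (by omega))) (dan _ _ _ _ _ (bx_sub hu5 hu6 (by omega)))
        (b1.trans hC)
    · exact ztype (fun F => N F v (2 * D) (8 * D)) _ 18 (lN v (2 * D) (8 * D) (by omega))
        (dan _ _ _ _ _ (bx_sub0 (by omega))) (dan _ _ _ _ _ (bx_sub hw1 hw2 (by omega)))
        (b2.trans hC)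
    · exact ztype (fun F => W F v (4 * D)) _ 18 (lW v (4 * D) (by omega))
        (dan _ _ _ _ _ (bx_sub0 (by omega))) (dan _ _ _ _ _ (bx_sub hw1 hw2 (by omega)))
        (b3.trans hC)
    · exact ztype (fun F => W F v ((n - D) / 2)) _ 18 (lW v ((n - D) / 2) (by omega))
        (dan _ _ _ _ _ (bx_sub0 (by omega))) (dan _ _ _ _ _ (bx_sub hw1 hw2 (by omega)))
        (b4.trans hC)
    · exact ztype (fun F => N F v ((n - D) / 2) (n + D)) _ 18
        (lN v ((n - D) / 2) (n + D) (by omega))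
        (dan _ _ _ _ _ (bx_sub0 (by omega))) (dan _ _ _ _ _ (bx_sub hw1 hw2 (by omega)))
        (b5.trans hC)
  have kpow : ∀ x : ℕ, s ^ (18 * (2 * x)) = s ^ (36 * x) := fun x => by congr 1; ring
  have zK : Ex P2 S (fun F => U F * s ^ (18 * (2 * KL F))) ≤ B * (G1 * G2 * G3) ∧
      Ex P2 S (fun F => U F * s ^ (18 * (2 * KR F))) ≤ B * (G1 * G2 * G3) := by
    simp only [kpow]
    have hC : C4 * G3 ≤ (C3 + C4) * G3 := by
      refine mul_le_mul_of_nonneg_right ?_ g3
      linarith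
    constructor
    · refine ztype KL (LRE (v.1 - 6 * D) (v.1 - 4 * a) (v.2 - 4 * a) (v.2 + 4 * a)) 36
        (fun F => h.kloc F _ _ _ _) ?_ ?_
        (((H4 v v a D n S ha haD hDa hDn hvv1 hvv2 hS).2).trans hC)
      · rw [Finset.disjoint_left]
        rintro ⟨x, y, _ | _⟩ e1 e2
        · simp only [bx, mem_RE_false, mem_LRE_false] at e1 e2; omega
        · simp only [bx, mem_RE_true, mem_LRE_true] at e1 e2; omega
      · rw [Finset.disjoint_left]
        rintro ⟨x, y, _ | _⟩ e1 e2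
        · simp only [bx, mem_RE_false, mem_LRE_false] at e1 e2; omega
        · simp only [bx, mem_RE_true, mem_LRE_true] at e1 e2; omega
    · refine ztype KR (LRE (w.1 + 4 * a) (w.1 + 6 * D) (w.2 - 4 * a) (w.2 + 4 * a)) 36
        (fun F => h.kloc F _ _ _ _) ?_ ?_
        (((H4 v w a D n S ha haD hDa hDn hw1 hw2 hS).1).trans hC)
      · rw [Finset.disjoint_left]
        rintro ⟨x, y, _ | _⟩ e1 e2
        · simp only [bx, mem_RE_false, mem_LRE_false] at e1 e2; omega
        · simp only [bx, mem_RE_true, mem_LRE_true] at e1 e2; omega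
      · rw [Finset.disjoint_left]
        rintro ⟨x, y, _ | _⟩ e1 e2
        · simp only [bx, mem_RE_false, mem_LRE_false] at e1 e2; omega
        · simp only [bx, mem_RE_true, mem_LRE_true] at e1 e2; omega
  have pv : ∀ j < 9, Ex P2 S (fun F => U F * s ^ (18 * pcs N W KL v v a D n j F)) ≤
      B * (G1 * G2 * G3) := by
    intro j hj
    rcases Nat.lt_or_ge j 4 with h4 | h4
    · obtain ⟨b1, b2, b3⟩ := H1 v a S ha sv8
      interval_cases j
      · exact vtype (fun F => W F v a) _ (lW v a ha)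
          ((ansub _ _ _).trans (bx_sub0 (by omega))) b1
      · exact vtype (fun F => N F v a (8 * a)) _ (lN v a (8 * a) (by omega))
          ((ansub _ _ _).trans (bx_sub0 (by omega))) b2
      · exact vtype (fun F => W F v (4 * a)) _ (lW v (4 * a) (by omega))
          ((ansub _ _ _).trans (bx_sub0 (by omega))) b3
      · exact zK.1
    · exact zall v hvv1 hvv2 hvv1 hvv2 hw1 hw2 j h4 hj KL
  have pw : ∀ j < 9, Ex P2 S (fun F => U F * s ^ (18 * pcs N W KR v w a D n j F)) ≤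
      B * (G1 * G2 * G3) := by
    intro j hj
    rcases Nat.lt_or_ge j 4 with h4 | h4
    · obtain ⟨b1, b2, b3⟩ := H2 w a S ha sw8
      interval_cases j
      · exact wtype (fun F => W F w a) _ (lW w a ha)
          ((ansub _ _ _).trans (bx_sub0 (by omega))) b1
      · exact wtype (fun F => N F w a (8 * a)) _ (lN w a (8 * a) (by omega))
          ((ansub _ _ _).trans (bx_sub0 (by omega))) b2
      · exact wtype (fun F => W F w (4 * a)) _ (lW w (4 * a) (by omega))
          ((ansub _ _ _).trans (bx_sub0 (by omega))) b3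
      · exact zK.2
    · exact zall w hw1 hw2 hv1 hv2 (by simp) (by simp) j h4 hj KR
  -- the pointwise comparison
  set P : ℕ → Finset Edg → ℕ := fun j F =>
    if j < 9 then pcs N W KL v v a D n j F else pcs N W KR v w a D n (j - 9) F with hP
  have hsumP : ∀ F, ∑ j ∈ range 18, P j F =
      ∑ j ∈ range 9, pcs N W KL v v a D n j F + ∑ j ∈ range 9, pcs N W KR v w a D n j F := by
    intro F
    rw [show (18 : ℕ) = 9 + 9 from rfl, Finset.sum_range_add]
    refine congrArg₂ (· + ·) ?_ ?_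
    · refine Finset.sum_congr rfl fun j hj => ?_
      simp only [hP, if_pos (Finset.mem_range.1 hj)]
    · refine Finset.sum_congr rfl fun j hj => ?_
      simp only [hP]
      rw [if_neg (by omega), show 9 + j - 9 = j by omega]
  set L : ℝ := |Real.log t1| + |Real.log t2| with hL
  have hL0 : 0 ≤ L := by positivity
  have hL1 : |Real.log t1| ≤ L := by rw [hL]; linarith [abs_nonneg (Real.log t2)]
  have hL2 : |Real.log t2| ≤ L := by rw [hL]; linarith [abs_nonneg (Real.log t1)]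
  have hLlog : L ≤ Real.log 2 := by
    have h1 := abs_log_le hn1
    have h2 := abs_log_le hn2
    have h3 : Real.log (4 / 3) + Real.log (4 / 3) ≤ Real.log 2 := by
      rw [← Real.log_mul (by norm_num) (by norm_num)]
      exact Real.log_le_log (by norm_num) (by norm_num)
    rw [hL]
    linarith
  have hpt : ∀ F, F ⊆ S →
      Real.exp (-(L * (∑ j ∈ range 18, P j F : ℕ))) * U F ≤ t1 ^ N F v 0 n * t2 ^ N F w 0 n ∧
      t1 ^ N F v 0 n * t2 ^ N F w 0 n ≤ Real.exp (L * (∑ j ∈ range 18, P j F : ℕ)) * U F := by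
    intro F _
    obtain ⟨v1, -, v3⟩ := hp F v v D n (by omega) hDn hvv1 hvv2
    obtain ⟨w1, -, w3⟩ := hp F v w D n (by omega) hDn hw1 hw2
    have v1' := v1 a (by omega)
    have w1' := w1 a (by omega)
    have v3' := v3 a ha haD
    have w3' := w3 a ha haD
    have kl := h.left F v (4 * a) (4 * a) (6 * D) le_rfl (by omega)
    have kr := h.right F w (4 * a) (4 * a) (6 * D) le_rfl (by omega)
    push_cast at kl kr
    have kl' : N F v (4 * a) (6 * D) ≤ 2 * KL F := kl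
    have kr' : N F w (4 * a) (6 * D) ≤ 2 * KR F := kr
    obtain ⟨ev, hev⟩ := Nat.exists_eq_add_of_le v1'
    obtain ⟨ew, hew⟩ := Nat.exists_eq_add_of_le w1'
    have sv := sum_pcs N W KL v v a D n F
    have sw := sum_pcs N W KR v w a D n F
    have bv : ev ≤ ∑ j ∈ range 9, pcs N W KL v v a D n j F := by omega
    have bw : ew ≤ ∑ j ∈ range 9, pcs N W KR v w a D n j F := by omega
    rw [hsumP F]
    set Qv := ∑ j ∈ range 9, pcs N W KL v v a D n j F
    set Qw := ∑ j ∈ range 9, pcs N W KR v w a D n j F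
    obtain ⟨p1, p2⟩ := pow_exp ht1 hL1 bv
    obtain ⟨p3, p4⟩ := pow_exp ht2 hL2 bw
    have hf : t1 ^ N F v 0 n * t2 ^ N F w 0 n = (t1 ^ ev * t2 ^ ew) * U F := by
      rw [hev, hew]
      simp only [hU]
      rw [mul_pow, pow_add, pow_add, pow_add, pow_add]
      ring
    have hUp : 0 < U F := by simp only [hU]; positivity
    rw [hf]
    have q1 : Real.exp (-(L * ((Qv + Qw : ℕ) : ℝ))) = Real.exp (-(L * Qv)) * Real.exp (-(L * Qw)) := by
      rw [← Real.exp_add]; congr 1; push_cast; ring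
    have q2 : Real.exp (L * ((Qv + Qw : ℕ) : ℝ)) = Real.exp (L * Qv) * Real.exp (L * Qw) := by
      rw [← Real.exp_add]; congr 1; push_cast; ring
    constructor
    · rw [q1]
      refine mul_le_mul_of_nonneg_right ?_ hUp.le
      exact mul_le_mul p1 p3 (by positivity) (by positivity)
    · rw [q2]
      refine mul_le_mul_of_nonneg_right ?_ hUp.le
      exact mul_le_mul p2 p4 (by positivity) (by positivity)
  have hfin := hfinal L hL0 hLlog S U (fun F => t1 ^ N F v 0 n * t2 ^ N F w 0 n) P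
    (fun F => by simp only [hU]; positivity)
    hpt
    (fun j hj => by
      rw [hEU]
      have hcv : ∀ X : Finset Edg → ℕ, Ex P2 S (fun F => U F * ((2 : ℝ) ^ 18) ^ X F)
          = Ex P2 S (fun F => U F * s ^ (18 * X F)) := by
        intro X
        refine Ex_congr fun F _ => ?_
        rw [hs20, pow_mul]
      rw [hcv]
      by_cases h9 : j < 9
      · simp only [hP, if_pos h9]
        exact pv j h9
      · simp only [hP, if_neg h9]
        exact pw (j - 9) (by omega))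
  rw [hEU] at hfin
  exact hfin

end Pool.Agent.Helper859_NL.K03
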