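import Pool.Agent.Helper859_NL.StmTwo
import Pool.Agent.W460.NC.TWO2

set_option autoImplicit false

namespace Pool.Agent.Helper859_NL.K04

open H974 Finset Pool.Agent.W819.EN Pool.Agent.W819.NC MeasureTheory
open Pool.Agent.Helper859_NL
open scoped Real
open Pool.Agent.W460.NC (okq wide bx_mono an_sub bx_disj)

theorem pwl {t : ℝ} (ht : 0 < t) {x y p : ℕ} (hxy : x ≤ y) (hyp : y ≤ x + p) :
    Real.exp (-(|Real.log t| * (p : ℝ))) * t ^ x ≤ t ^ y ∧
      t ^ y ≤ Real.exp (|Real.log t| * (p : ℝ)) * t ^ x := by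
  obtain ⟨d, rfl⟩ := Nat.exists_eq_add_of_le hxy
  have hd : (d : ℝ) ≤ p := by exact_mod_cast (by omega : d ≤ p)
  have hd0 : (0 : ℝ) ≤ d := Nat.cast_nonneg d
  have e1 : t ^ d = Real.exp ((d : ℝ) * Real.log t) := by
    rw [mul_comm, Real.exp_mul, Real.exp_log ht, Real.rpow_natCast]
  have h1 := abs_nonneg (Real.log t)
  have h2 := neg_abs_le (Real.log t)
  have h3 := le_abs_self (Real.log t)
  have h4 : 0 < t ^ x := pow_pos ht x
  rw [pow_add, mul_comm (t ^ x), e1]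
  constructor
  · refine mul_le_mul_of_nonneg_right ?_ h4.le
    rw [Real.exp_le_exp]
    nlinarith
  · refine mul_le_mul_of_nonneg_right ?_ h4.le
    rw [Real.exp_le_exp]
    nlinarith

theorem nr_pos {t : ℝ} (h : Nr t) : 0 < t := by
  have := h.1
  linarith

theorem nr_log {t : ℝ} (h : Nr t) : |Real.log t| ≤ Real.log (4 / 3) := by
  have h0 := nr_pos h
  rw [abs_le]
  constructor
  · have h1 : Real.log (3 / 4) ≤ Real.log t := Real.log_le_log (by norm_num) h.1
    have h2 : Real.log (3 / 4) = -Real.log (4 / 3) := by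
      rw [← Real.log_inv]
      norm_num
    linarith
  · exact Real.log_le_log h0 h.2

theorem nr_log2 {t1 t2 : ℝ} (h1 : Nr t1) (h2 : Nr t2) :
    |Real.log t1| + |Real.log t2| ≤ Real.log 2 := by
  have e1 := nr_log h1
  have e2 := nr_log h2
  have e3 : Real.log (4 / 3) + Real.log (4 / 3) ≤ Real.log 2 := by
    rw [← Real.log_mul (by norm_num) (by norm_num)]
    exact Real.log_le_log (by norm_num) (by norm_num)
  linarith

theorem target {N : NT} {W : WT} {K : KT} (h : Sys N W K) (hl : LocG N) (hc : CmpG)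
    (hx : XPcU N W) : Two2U N := by
  obtain ⟨A, hA, hX⟩ := hx ((2 : ℝ) ^ 8) (one_le_pow₀ (by norm_num))
  obtain ⟨C, hC, hK⟩ := h.kmom ((2 : ℝ) ^ 16) (one_le_pow₀ (by norm_num)) 160
  obtain ⟨Q, hQ, hcm⟩ := hc 8 (A + A + C + 1) (by norm_num) (by linarith)
  refine ⟨Q, hQ, ?_⟩
  intro t1 t2 hr1 hr2
  have ht1 := nr_pos hr1
  have ht2 := nr_pos hr2
  have hX1 := hX t1 (by have := hr1.1; linarith) (by have := hr1.2; linarith)
  have hX2 := hX t2 (by have := hr2.1; linarith) (by have := hr2.2; linarith)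
  intro v w a D n S ha haD hDa hDn hnD hvw h1 h2 hfar hS
  -- geometry
  rw [abs_le] at h1 h2
  have hfar' : w.1 - v.1 = D ∨ v.2 - w.2 = D ∨ w.2 - v.2 = D := by
    rcases hfar with h3 | h3
    · exact Or.inl h3
    · rcases (abs_eq (by omega)).1 h3 with h4 | h4
      · exact Or.inr (Or.inl h4)
      · exact Or.inr (Or.inr (by omega))
  have hvS : bx v (8 * a) ⊆ S := (bx_mono v (by omega)).trans hS
  have hwS : bx w (8 * a) ⊆ S := by
    refine Finset.Subset.trans ?_ hS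
    rintro ⟨x, y, _ | _⟩ he
    · simp only [bx, mem_RE_false] at he ⊢
      omega
    · simp only [bx, mem_RE_true] at he ⊢
      omega
  have hdisj : Disjoint (bx v (8 * a)) (bx w (8 * a)) := bx_disj (by omega)
  have hcorv : LRE (v.1 - n) (v.1 - 4 * a) (v.2 - 4 * a) (v.2 + 4 * a) ⊆ S := by
    refine Finset.Subset.trans ?_ hS
    rintro ⟨x, y, _ | _⟩ he
    · simp only [bx, mem_RE_false, mem_LRE_false] at he ⊢
      omega
    · simp only [bx, mem_RE_true, mem_LRE_true] at he ⊢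
      omega
  have hcorw : LRE (w.1 + 4 * a) (w.1 + n) (w.2 - 4 * a) (w.2 + 4 * a) ⊆ S := by
    refine Finset.Subset.trans ?_ hS
    rintro ⟨x, y, _ | _⟩ he
    · simp only [bx, mem_RE_false, mem_LRE_false] at he ⊢
      omega
    · simp only [bx, mem_RE_true, mem_LRE_true] at he ⊢
      omega
  have hdv : Disjoint (bx v (2 * a) ∪ bx w (2 * a))
      (LRE (v.1 - n) (v.1 - 4 * a) (v.2 - 4 * a) (v.2 + 4 * a)) := by
    rw [Finset.disjoint_left]
    rintro ⟨x, y, _ | _⟩ he he'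
    · simp only [bx, mem_union, mem_RE_false, mem_LRE_false] at he he'
      omega
    · simp only [bx, mem_union, mem_RE_true, mem_LRE_true] at he he'
      omega
  have hdw : Disjoint (bx v (2 * a) ∪ bx w (2 * a))
      (LRE (w.1 + 4 * a) (w.1 + n) (w.2 - 4 * a) (w.2 + 4 * a)) := by
    rw [Finset.disjoint_left]
    rintro ⟨x, y, _ | _⟩ he he'
    · simp only [bx, mem_union, mem_RE_false, mem_LRE_false] at he he'
      omega
    · simp only [bx, mem_union, mem_RE_true, mem_LRE_true] at he he'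
      omega
  -- locality
  have hN : ∀ (u : Vtx) (F : Finset Edg), N F u 0 (2 * a) = N (F ∩ bx u (8 * a)) u 0 (2 * a) :=
    fun u => wide (X := fun F => N F u 0 (2 * a)) (fun F => h.geo.loc F u 0 (2 * a) (by omega))
      (an_sub u 0 (2 * a) (by push_cast; omega))
  have hN2 : ∀ (u : Vtx) (F : Finset Edg), N F u 0 (2 * a) = N (F ∩ bx u (2 * a)) u 0 (2 * a) :=
    fun u => wide (X := fun F => N F u 0 (2 * a)) (fun F => h.geo.loc F u 0 (2 * a) (by omega))
      (an_sub u 0 (2 * a) (by push_cast; omega))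
  have hN8 : ∀ (u : Vtx) (F : Finset Edg), N F u a (8 * a) = N (F ∩ bx u (8 * a)) u a (8 * a) :=
    fun u => wide (X := fun F => N F u a (8 * a)) (fun F => h.geo.loc F u a (8 * a) (by omega))
      (an_sub u a (8 * a) (by push_cast; omega))
  have hW1 : ∀ (u : Vtx) (F : Finset Edg), W F u a = W (F ∩ bx u (8 * a)) u a :=
    fun u => wide (X := fun F => W F u a) (fun F => h.wloc F u a ha)
      (an_sub u a (2 * a) (by push_cast; omega))
  have hW4 : ∀ (u : Vtx) (F : Finset Edg), W F u (4 * a) = W (F ∩ bx u (8 * a)) u (4 * a) :=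
    fun u => wide (X := fun F => W F u (4 * a)) (fun F => h.wloc F u (4 * a) (by omega))
      (an_sub u (4 * a) (2 * (4 * a)) (by push_cast; omega))
  -- the law of `U`
  have hg1 : Ex P2 S (fun F => t1 ^ N F v 0 (2 * a)) = G N t1 0 (2 * a) :=
    hl t1 v 0 (2 * a) S (by omega) ((bx_mono v (by push_cast; omega)).trans hvS)
  have hg2 : Ex P2 S (fun F => t2 ^ N F w 0 (2 * a)) = G N t2 0 (2 * a) :=
    hl t2 w 0 (2 * a) S (by omega) ((bx_mono w (by push_cast; omega)).trans hwS)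
  have hg1n : 0 ≤ G N t1 0 (2 * a) := by
    rw [← hg1]
    exact Ex_nonneg okq fun F _ => (pow_pos ht1 _).le
  have hg2n : 0 ≤ G N t2 0 (2 * a) := by
    rw [← hg2]
    exact Ex_nonneg okq fun F _ => (pow_pos ht2 _).le
  have hU : Ex P2 S (fun F => t1 ^ N F v 0 (2 * a) * t2 ^ N F w 0 (2 * a)) =
      G N t1 0 (2 * a) * G N t2 0 (2 * a) := by
    rw [Ex_mul_indep hvS hwS hdisj (fun F _ => by rw [hN v F]) (fun F _ => by rw [hN w F]),
      hg1, hg2]
  have hgg : 0 ≤ G N t1 0 (2 * a) * G N t2 0 (2 * a) := mul_nonneg hg1n hg2n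
  -- pieces around `v`
  have hv : ∀ X : Finset Edg → ℕ, (∀ F, X F = X (F ∩ bx v (8 * a))) →
      Ex P2 S (fun F => t1 ^ N F v 0 (2 * a) * ((2 : ℝ) ^ 8) ^ X F) ≤ A * G N t1 0 (2 * a) →
      Ex P2 S (fun F => t1 ^ N F v 0 (2 * a) * t2 ^ N F w 0 (2 * a) * ((2 : ℝ) ^ 8) ^ X F) ≤
        (A + A + C + 1) * Ex P2 S (fun F => t1 ^ N F v 0 (2 * a) * t2 ^ N F w 0 (2 * a)) := by
    intro X hX hb
    have e1 : Ex P2 S (fun F => t1 ^ N F v 0 (2 * a) * t2 ^ N F w 0 (2 * a) * ((2 : ℝ) ^ 8) ^ X F) =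
        Ex P2 S (fun F => (t1 ^ N F v 0 (2 * a) * ((2 : ℝ) ^ 8) ^ X F) * t2 ^ N F w 0 (2 * a)) := by
      refine Ex_congr fun F _ => ?_
      ring
    rw [e1, Ex_mul_indep hvS hwS hdisj (fun F _ => by rw [hN v F, hX F])
      (fun F _ => by rw [hN w F]), hg2, hU]
    refine (mul_le_mul_of_nonneg_right hb hg2n).trans ?_
    rw [mul_assoc]
    exact mul_le_mul_of_nonneg_right (by linarith) hgg
  have hw : ∀ X : Finset Edg → ℕ, (∀ F, X F = X (F ∩ bx w (8 * a))) →
      Ex P2 S (fun F => t2 ^ N F w 0 (2 * a) * ((2 : ℝ) ^ 8) ^ X F) ≤ A * G N t2 0 (2 * a) →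
      Ex P2 S (fun F => t1 ^ N F v 0 (2 * a) * t2 ^ N F w 0 (2 * a) * ((2 : ℝ) ^ 8) ^ X F) ≤
        (A + A + C + 1) * Ex P2 S (fun F => t1 ^ N F v 0 (2 * a) * t2 ^ N F w 0 (2 * a)) := by
    intro X hX hb
    have e1 : Ex P2 S (fun F => t1 ^ N F v 0 (2 * a) * t2 ^ N F w 0 (2 * a) * ((2 : ℝ) ^ 8) ^ X F) =
        Ex P2 S (fun F => t1 ^ N F v 0 (2 * a) * (t2 ^ N F w 0 (2 * a) * ((2 : ℝ) ^ 8) ^ X F)) := by
      refine Ex_congr fun F _ => ?_
      ring
    rw [e1, Ex_mul_indep hvS hwS hdisj (fun F _ => by rw [hN v F])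
      (fun F _ => by rw [hN w F, hX F]), hg1, hU]
    refine (mul_le_mul_of_nonneg_left hb hg1n).trans ?_
    have e2 : G N t1 0 (2 * a) * (A * G N t2 0 (2 * a)) =
        A * (G N t1 0 (2 * a) * G N t2 0 (2 * a)) := by ring
    rw [e2]
    exact mul_le_mul_of_nonneg_right (by linarith) hgg
  -- corridors
  have hcor : ∀ (x y z z' : ℤ), LRE x y z z' ⊆ S →
      Disjoint (bx v (2 * a) ∪ bx w (2 * a)) (LRE x y z z') →
      1 ≤ z' - z → x < y → y - x ≤ (160 : ℕ) * (z' - z) →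
      Ex P2 S (fun F => t1 ^ N F v 0 (2 * a) * t2 ^ N F w 0 (2 * a) *
        ((2 : ℝ) ^ 8) ^ (2 * K F x y z z')) ≤
        (A + A + C + 1) * Ex P2 S (fun F => t1 ^ N F v 0 (2 * a) * t2 ^ N F w 0 (2 * a)) := by
    intro x y z z' hsub hdis h3 h4 h5
    have e1 : Ex P2 S (fun F => t1 ^ N F v 0 (2 * a) * t2 ^ N F w 0 (2 * a) *
        ((2 : ℝ) ^ 8) ^ (2 * K F x y z z')) =
        Ex P2 S (fun F => (t1 ^ N F v 0 (2 * a) * t2 ^ N F w 0 (2 * a)) *
          ((2 : ℝ) ^ 16) ^ K F x y z z') := by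
      refine Ex_congr fun F _ => ?_
      rw [pow_mul ((2 : ℝ) ^ 8) 2, ← pow_mul (2 : ℝ) 8 2]
    have hsub2 : bx v (2 * a) ∪ bx w (2 * a) ⊆ S := Finset.union_subset
      ((bx_mono v (by omega)).trans hvS) ((bx_mono w (by omega)).trans hwS)
    rw [e1, Ex_mul_indep hsub2 hsub hdis (fun F _ => by
      rw [wide (X := fun F => N F v 0 (2 * a)) (hN2 v) Finset.subset_union_left F,
        wide (X := fun F => N F w 0 (2 * a)) (hN2 w) Finset.subset_union_right F])
      (fun F _ => by rw [h.kloc F x y z z']), hU]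
    have e3 := hK x y z z' S h3 h4 h5 hsub
    refine (mul_le_mul_of_nonneg_left e3 hgg).trans ?_
    rw [mul_comm]
    exact mul_le_mul_of_nonneg_right (by linarith) hgg
  -- the pieces
  let P : ℕ → Finset Edg → ℕ := fun j F => match j with
    | 0 => W F v a
    | 1 => N F v a (8 * a)
    | 2 => W F v (4 * a)
    | 3 => 2 * K F (v.1 - n) (v.1 - 4 * a) (v.2 - 4 * a) (v.2 + 4 * a)
    | 4 => W F w a
    | 5 => N F w a (8 * a)
    | 6 => W F w (4 * a)
    | _ => 2 * K F (w.1 + 4 * a) (w.1 + n) (w.2 - 4 * a) (w.2 + 4 * a)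
  have hP : ∀ j < 8, Ex P2 S (fun F => t1 ^ N F v 0 (2 * a) * t2 ^ N F w 0 (2 * a) *
      ((2 : ℝ) ^ 8) ^ P j F) ≤
      (A + A + C + 1) * Ex P2 S (fun F => t1 ^ N F v 0 (2 * a) * t2 ^ N F w 0 (2 * a)) := by
    intro j hj
    obtain ⟨x1, x2, x3⟩ := hX1 v a S ha hvS
    obtain ⟨y1, y2, y3⟩ := hX2 w a S ha hwS
    interval_cases j
    · exact hv (fun F => W F v a) (hW1 v) x1
    · exact hv (fun F => N F v a (8 * a)) (hN8 v) x2
    · exact hv (fun F => W F v (4 * a)) (hW4 v) x3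
    · exact hcor _ _ _ _ hcorv hdv (by omega) (by omega) (by push_cast; omega)
    · exact hw (fun F => W F w a) (hW1 w) y1
    · exact hw (fun F => N F w a (8 * a)) (hN8 w) y2
    · exact hw (fun F => W F w (4 * a)) (hW4 w) y3
    · exact hcor _ _ _ _ hcorw hdw (by omega) (by omega) (by push_cast; omega)
  have hsum : ∀ F, ∑ j ∈ range 8, P j F =
      (W F v a + N F v a (8 * a) + W F v (4 * a) +
        2 * K F (v.1 - n) (v.1 - 4 * a) (v.2 - 4 * a) (v.2 + 4 * a)) +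
      (W F w a + N F w a (8 * a) + W F w (4 * a) +
        2 * K F (w.1 + 4 * a) (w.1 + n) (w.2 - 4 * a) (w.2 + 4 * a)) := by
    intro F
    rw [Finset.sum_range_succ, Finset.sum_range_succ, Finset.sum_range_succ,
      Finset.sum_range_succ, Finset.sum_range_succ, Finset.sum_range_succ,
      Finset.sum_range_succ, Finset.sum_range_succ, Finset.sum_range_zero]
    change 0 + W F v a + N F v a (8 * a) + W F v (4 * a) +
        2 * K F (v.1 - n) (v.1 - 4 * a) (v.2 - 4 * a) (v.2 + 4 * a) +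
      W F w a + N F w a (8 * a) + W F w (4 * a) +
        2 * K F (w.1 + 4 * a) (w.1 + n) (w.2 - 4 * a) (w.2 + 4 * a) = _
    ring
  have hcomp : ∀ (u : Vtx) (F : Finset Edg), N F u 0 (2 * a) ≤ N F u 0 n ∧
      N F u 0 n ≤ N F u 0 (2 * a) + (W F u a + N F u a (8 * a) + W F u (4 * a) +
        N F u (4 * a) n) := by
    intro u F
    have e1 := h.join F u a 0 n ha (by omega) (by omega)
    have e2 := h.join F u (4 * a) a n (by omega) (by omega) (by omega)
    have e3 : 2 * (4 * a) = 8 * a := by ring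
    rw [e3] at e2
    exact ⟨h.geo.mono F u 0 0 (2 * a) n le_rfl (by omega), by omega⟩
  have hptw : ∀ F, F ⊆ S →
      Real.exp (-((|Real.log t1| + |Real.log t2|) * ((∑ j ∈ range 8, P j F : ℕ) : ℝ))) *
          (t1 ^ N F v 0 (2 * a) * t2 ^ N F w 0 (2 * a)) ≤
        t1 ^ N F v 0 n * t2 ^ N F w 0 n ∧
      t1 ^ N F v 0 n * t2 ^ N F w 0 n ≤
        Real.exp ((|Real.log t1| + |Real.log t2|) * ((∑ j ∈ range 8, P j F : ℕ) : ℝ)) *
          (t1 ^ N F v 0 (2 * a) * t2 ^ N F w 0 (2 * a)) := by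
    intro F _
    obtain ⟨c1, c2⟩ := hcomp v F
    obtain ⟨c3, c4⟩ := hcomp w F
    have c5 := h.left F v (4 * a) (4 * a) n le_rfl (by omega)
    have c6 := h.right F w (4 * a) (4 * a) n le_rfl (by omega)
    push_cast at c5 c6
    obtain ⟨p1, p2⟩ := pwl ht1 c1 (c2.trans (Nat.add_le_add_left
      (Nat.add_le_add_left c5 _) _))
    obtain ⟨p3, p4⟩ := pwl ht2 c3 (c4.trans (Nat.add_le_add_left
      (Nat.add_le_add_left c6 _) _))
    rw [hsum F]
    obtain ⟨x, hx'⟩ : ∃ x : ℕ, x = W F v a + N F v a (8 * a) + W F v (4 * a) +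
        2 * K F (v.1 - n) (v.1 - 4 * a) (v.2 - 4 * a) (v.2 + 4 * a) := ⟨_, rfl⟩
    obtain ⟨y, hy'⟩ : ∃ y : ℕ, y = W F w a + N F w a (8 * a) + W F w (4 * a) +
        2 * K F (w.1 + 4 * a) (w.1 + n) (w.2 - 4 * a) (w.2 + 4 * a) := ⟨_, rfl⟩
    rw [← hx'] at p1 p2 ⊢
    rw [← hy'] at p3 p4 ⊢
    have hx0 : (0 : ℝ) ≤ x := Nat.cast_nonneg x
    have hy0 : (0 : ℝ) ≤ y := Nat.cast_nonneg y
    have l1 := abs_nonneg (Real.log t1)
    have l2 := abs_nonneg (Real.log t2)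
    have q1 : 0 < t1 ^ N F v 0 (2 * a) := pow_pos ht1 _
    have q2 : 0 < t2 ^ N F w 0 (2 * a) := pow_pos ht2 _
    have q3 : 0 < t1 ^ N F v 0 n := pow_pos ht1 _
    have q4 : 0 < t2 ^ N F w 0 n := pow_pos ht2 _
    have hL : |Real.log t1| * (x : ℝ) + |Real.log t2| * (y : ℝ) ≤
        (|Real.log t1| + |Real.log t2|) * ((x + y : ℕ) : ℝ) := by
      push_cast
      nlinarith [mul_nonneg l1 hy0, mul_nonneg l2 hx0]
    constructor
    · calc Real.exp (-((|Real.log t1| + |Real.log t2|) * ((x + y : ℕ) : ℝ))) *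
            (t1 ^ N F v 0 (2 * a) * t2 ^ N F w 0 (2 * a))
          ≤ Real.exp (-(|Real.log t1| * (x : ℝ)) + -(|Real.log t2| * (y : ℝ))) *
            (t1 ^ N F v 0 (2 * a) * t2 ^ N F w 0 (2 * a)) := by
            refine mul_le_mul_of_nonneg_right ?_ (mul_pos q1 q2).le
            rw [Real.exp_le_exp]
            linarith
        _ = (Real.exp (-(|Real.log t1| * (x : ℝ))) * t1 ^ N F v 0 (2 * a)) *
            (Real.exp (-(|Real.log t2| * (y : ℝ))) * t2 ^ N F w 0 (2 * a)) := by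
            rw [Real.exp_add]
            ring
        _ ≤ t1 ^ N F v 0 n * t2 ^ N F w 0 n :=
            mul_le_mul p1 p3 (mul_pos (Real.exp_pos _) q2).le q3.le
    · calc t1 ^ N F v 0 n * t2 ^ N F w 0 n
          ≤ (Real.exp (|Real.log t1| * (x : ℝ)) * t1 ^ N F v 0 (2 * a)) *
            (Real.exp (|Real.log t2| * (y : ℝ)) * t2 ^ N F w 0 (2 * a)) :=
            mul_le_mul p2 p4 q4.le (mul_pos (Real.exp_pos _) q1).le
        _ = Real.exp (|Real.log t1| * (x : ℝ) + |Real.log t2| * (y : ℝ)) *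
            (t1 ^ N F v 0 (2 * a) * t2 ^ N F w 0 (2 * a)) := by
            rw [Real.exp_add]
            ring
        _ ≤ Real.exp ((|Real.log t1| + |Real.log t2|) * ((x + y : ℕ) : ℝ)) *
            (t1 ^ N F v 0 (2 * a) * t2 ^ N F w 0 (2 * a)) := by
            refine mul_le_mul_of_nonneg_right ?_ (mul_pos q1 q2).le
            rw [Real.exp_le_exp]
            exact hL
  have hfin := hcm (|Real.log t1| + |Real.log t2|) (by positivity) (nr_log2 hr1 hr2) S
    (fun F => t1 ^ N F v 0 (2 * a) * t2 ^ N F w 0 (2 * a))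
    (fun F => t1 ^ N F v 0 n * t2 ^ N F w 0 n) P
    (fun F => mul_pos (pow_pos ht1 _) (pow_pos ht2 _)) hptw hP
  rw [hU] at hfin
  exact hfin

end Pool.Agent.Helper859_NL.K04
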