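import Pool.Agent.Helper859_NL.StmTwo
import Pool.Agent.Helper859_NL.K04
import Pool.Agent.W310.NC.Two3

set_option autoImplicit false

/-! uniform version of `Pool.Agent.W310.NC.t_TWO3`: the same proof -/

namespace Pool.Agent.Helper859_NL.K05

open H974 Finset Pool.Agent.W819.EN Pool.Agent.W819.NC MeasureTheory
open Pool.Agent.Helper859_NL
open Pool.Agent.Helper859_NL.K04 (pwl nr_pos nr_log2)
open Pool.Agent.W310.NC (bx_mono)

theorem target {N : NT} {W : WT} {K : KT} (h : Sys N W K) (hl : LocG N) (hc : CmpG)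
    (hz : ZPcU N W) (hp : Pw N W) : Two3U N := by
  obtain ⟨A, hA, hAz'⟩ := hz ((2 : ℝ) ^ 14) (one_le_pow₀ (by norm_num))
  obtain ⟨c0, hc0⟩ : ∃ c0, c0 = (2 : ℝ) ^ (14 * 756) := ⟨_, rfl⟩
  have hc1 : 1 ≤ c0 := by rw [hc0]; exact one_le_pow₀ (by norm_num)
  obtain ⟨Q, hQ, hcm⟩ := hc 7 (A + c0) (by norm_num) (by linarith)
  refine ⟨Q, hQ, ?_⟩
  intro t1 t2 hr1 hr2 v w D n S hD1 hD64 hDn hvw1 hvw2 hS
  have ht1 := nr_pos hr1
  have ht2 := nr_pos hr2
  have ht12 : 0 < t1 * t2 := mul_pos ht1 ht2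
  obtain ⟨r1, r2⟩ := hr1
  obtain ⟨r3, r4⟩ := hr2
  have hAz := hAz' (t1 * t2) (by nlinarith) (by nlinarith)
  have hw1 : |w.1 - v.1| ≤ (D : ℤ) := by rw [abs_sub_comm]; exact hvw1
  have hw2 : |w.2 - v.2| ≤ (D : ℤ) := by rw [abs_sub_comm]; exact hvw2
  have hv1 : |v.1 - v.1| ≤ (D : ℤ) := by simp
  have hv2 : |v.2 - v.2| ≤ (D : ℤ) := by simp
  have hSb : bx v ((n - D : ℕ) : ℤ) ⊆ S := (bx_mono v (by omega)).trans hS
  have hU : Ex P2 S (fun F => (t1 * t2) ^ N F v (4 * D) (n - D)) =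
      G N (t1 * t2) (4 * D) (n - D) := hl (t1 * t2) v (4 * D) (n - D) S (by omega) hSb
  obtain ⟨zv1, zv2, zv3, zv4, zv5⟩ := hAz v v D n S hD1 hDn hv1 hv2 hS
  have zw1 := (hAz v w D n S hD1 hDn hw1 hw2 hS).1
  rw [← hU] at zv1 zv2 zv3 zv4 zv5 zw1
  have hU0 : 0 ≤ Ex P2 S (fun F => (t1 * t2) ^ N F v (4 * D) (n - D)) :=
    Ex_nonneg (fun _ => ⟨by norm_num, by norm_num⟩) (fun F _ => (pow_pos ht12 _).le)
  rw [← hU]
  set X : ℕ → Finset Edg → ℕ := fun j F =>
    if j = 0 then 756 else if j = 1 then W F v (3 * D) else if j = 2 then W F w (3 * D)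
    else if j = 3 then N F v (2 * D) (8 * D) else if j = 4 then W F v (4 * D)
    else if j = 5 then W F v ((n - D) / 2) else N F v ((n - D) / 2) (n + D) with hX
  have hkey := hcm (|Real.log t1| + |Real.log t2|) (by positivity)
    (nr_log2 ⟨r1, r2⟩ ⟨r3, r4⟩) S (fun F => (t1 * t2) ^ N F v (4 * D) (n - D))
    (fun F => t1 ^ N F v 0 n * t2 ^ N F w 0 n) (fun j F => 2 * X j F)
    (fun F => pow_pos ht12 _) ?_ ?_
  · exact ⟨hkey.1, hkey.2⟩
  · intro F _
    obtain ⟨pv1, pv2, -⟩ := hp F v v D n hD1 hDn hv1 hv2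
    obtain ⟨pw1', pw2', -⟩ := hp F v w D n hD1 hDn hw1 hw2
    have qv := pv1 0 (by omega)
    have qw := pw1' 0 (by omega)
    have lv := h.geo.le F v 0 (6 * D)
    have lw := h.geo.le F w 0 (6 * D)
    have hsum : ∑ j ∈ range 7, 2 * X j F =
        (756 + W F v (3 * D) + N F v (2 * D) (8 * D) + W F v (4 * D) + W F v ((n - D) / 2) +
          N F v ((n - D) / 2) (n + D)) +
        (756 + W F v (3 * D) + 2 * W F w (3 * D) + N F v (2 * D) (8 * D) + W F v (4 * D) +
          W F v ((n - D) / 2) + N F v ((n - D) / 2) (n + D)) := by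
      simp [Finset.sum_range_succ, hX]
      ring
    have b1 := pwl (x := N F v (4 * D) (n - D)) (y := N F v 0 n)
      (p := 756 + W F v (3 * D) + N F v (2 * D) (8 * D) + W F v (4 * D) + W F v ((n - D) / 2) +
          N F v ((n - D) / 2) (n + D)) ht1 (by omega) (by omega)
    have b2 := pwl (x := N F v (4 * D) (n - D)) (y := N F w 0 n)
      (p := 756 + W F v (3 * D) + 2 * W F w (3 * D) + N F v (2 * D) (8 * D) + W F v (4 * D) +
          W F v ((n - D) / 2) + N F v ((n - D) / 2) (n + D)) ht2 (by omega) (by omega)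
    simp only [hsum, mul_pow]
    generalize 756 + W F v (3 * D) + N F v (2 * D) (8 * D) + W F v (4 * D) +
      W F v ((n - D) / 2) + N F v ((n - D) / 2) (n + D) = z1 at b1 ⊢
    generalize 756 + W F v (3 * D) + 2 * W F w (3 * D) + N F v (2 * D) (8 * D) + W F v (4 * D) +
          W F v ((n - D) / 2) + N F v ((n - D) / 2) (n + D) = z2 at b2 ⊢
    obtain ⟨p1, p2⟩ := b1
    obtain ⟨p3, p4⟩ := b2
    have hx0 : (0 : ℝ) ≤ z1 := Nat.cast_nonneg z1
    have hy0 : (0 : ℝ) ≤ z2 := Nat.cast_nonneg z2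
    have l1 := abs_nonneg (Real.log t1)
    have l2 := abs_nonneg (Real.log t2)
    have q1 : 0 < t1 ^ N F v (4 * D) (n - D) := pow_pos ht1 _
    have q2 : 0 < t2 ^ N F v (4 * D) (n - D) := pow_pos ht2 _
    have q3 : 0 < t1 ^ N F v 0 n := pow_pos ht1 _
    have q4 : 0 < t2 ^ N F w 0 n := pow_pos ht2 _
    have hL : |Real.log t1| * (z1 : ℝ) + |Real.log t2| * (z2 : ℝ) ≤
        (|Real.log t1| + |Real.log t2|) * ((z1 + z2 : ℕ) : ℝ) := by
      push_cast
      nlinarith [mul_nonneg l1 hy0, mul_nonneg l2 hx0]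
    constructor
    · calc Real.exp (-((|Real.log t1| + |Real.log t2|) * ((z1 + z2 : ℕ) : ℝ))) *
            (t1 ^ N F v (4 * D) (n - D) * t2 ^ N F v (4 * D) (n - D))
          ≤ Real.exp (-(|Real.log t1| * (z1 : ℝ)) + -(|Real.log t2| * (z2 : ℝ))) *
            (t1 ^ N F v (4 * D) (n - D) * t2 ^ N F v (4 * D) (n - D)) := by
            refine mul_le_mul_of_nonneg_right ?_ (mul_pos q1 q2).le
            rw [Real.exp_le_exp]
            linarith
        _ = (Real.exp (-(|Real.log t1| * (z1 : ℝ))) * t1 ^ N F v (4 * D) (n - D)) *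
            (Real.exp (-(|Real.log t2| * (z2 : ℝ))) * t2 ^ N F v (4 * D) (n - D)) := by
            rw [Real.exp_add]
            ring
        _ ≤ t1 ^ N F v 0 n * t2 ^ N F w 0 n :=
            mul_le_mul p1 p3 (mul_pos (Real.exp_pos _) q2).le q3.le
    · calc t1 ^ N F v 0 n * t2 ^ N F w 0 n
          ≤ (Real.exp (|Real.log t1| * (z1 : ℝ)) * t1 ^ N F v (4 * D) (n - D)) *
            (Real.exp (|Real.log t2| * (z2 : ℝ)) * t2 ^ N F v (4 * D) (n - D)) :=
            mul_le_mul p2 p4 q4.le (mul_pos (Real.exp_pos _) q1).le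
        _ = Real.exp (|Real.log t1| * (z1 : ℝ) + |Real.log t2| * (z2 : ℝ)) *
            (t1 ^ N F v (4 * D) (n - D) * t2 ^ N F v (4 * D) (n - D)) := by
            rw [Real.exp_add]
            ring
        _ ≤ Real.exp ((|Real.log t1| + |Real.log t2|) * ((z1 + z2 : ℕ) : ℝ)) *
            (t1 ^ N F v (4 * D) (n - D) * t2 ^ N F v (4 * D) (n - D)) := by
            refine mul_le_mul_of_nonneg_right ?_ (mul_pos q1 q2).le
            rw [Real.exp_le_exp]
            exact hL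
  · intro j hj
    have hadd : A * Ex P2 S (fun F => (t1 * t2) ^ N F v (4 * D) (n - D)) ≤
        (A + c0) * Ex P2 S (fun F => (t1 * t2) ^ N F v (4 * D) (n - D)) :=
      mul_le_mul_of_nonneg_right (by linarith) hU0
    have e : ∀ x : ℕ, ((2 : ℝ) ^ 7) ^ (2 * x) = ((2 : ℝ) ^ 14) ^ x := by
      intro x
      rw [← pow_mul, ← pow_mul]
      congr 1
      ring
    simp only [e]
    interval_cases j
    · simp only [hX, if_true]
      rw [Ex_mul_right, mul_comm, ← pow_mul, ← hc0]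
      exact mul_le_mul_of_nonneg_right (by linarith) hU0
    · refine le_trans ?_ hadd
      simpa [hX] using zv1
    · refine le_trans ?_ hadd
      simpa [hX] using zw1
    · refine le_trans ?_ hadd
      simpa [hX] using zv2
    · refine le_trans ?_ hadd
      simpa [hX] using zv3
    · refine le_trans ?_ hadd
      simpa [hX] using zv4
    · refine le_trans ?_ hadd
      simpa [hX] using zv5

end Pool.Agent.Helper859_NL.K05
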