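import Pool.Agent.Helper859_NL.StmTwo
import Pool.Agent.W688.NC.FIN

set_option autoImplicit false

namespace Pool.Agent.Helper859_NL.K06

open H974 Finset Pool.Agent.W819.EN Pool.Agent.W819.NC MeasureTheory
open Pool.Agent.Helper859_NL
open scoped Real

/-! ### comparability up to `exp (± K l)` -/

/-- comparable up to the factor `exp (± K l)` -/
def Ap (l K x y : ℝ) : Prop := Real.exp (-(K * l)) * y ≤ x ∧ x ≤ Real.exp (K * l) * y

lemma Ap.symm {l K x y : ℝ} (h : Ap l K x y) : Ap l K y x := by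
  constructor
  · calc Real.exp (-(K * l)) * x ≤ Real.exp (-(K * l)) * (Real.exp (K * l) * y) :=
          mul_le_mul_of_nonneg_left h.2 (Real.exp_pos _).le
      _ = y := by rw [← mul_assoc, ← Real.exp_add]; simp
  · calc y = Real.exp (K * l) * (Real.exp (-(K * l)) * y) := by
          rw [← mul_assoc, ← Real.exp_add]; simp
      _ ≤ Real.exp (K * l) * x := mul_le_mul_of_nonneg_left h.1 (Real.exp_pos _).le

lemma Ap.trans {l K L x y z : ℝ} (h : Ap l K x y) (h' : Ap l L y z) : Ap l (K + L) x z := by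
  constructor
  · calc Real.exp (-((K + L) * l)) * z = Real.exp (-(K * l)) * (Real.exp (-(L * l)) * z) := by
          rw [← mul_assoc, ← Real.exp_add]; congr 2; ring
      _ ≤ Real.exp (-(K * l)) * y := mul_le_mul_of_nonneg_left h'.1 (Real.exp_pos _).le
      _ ≤ x := h.1
  · calc x ≤ Real.exp (K * l) * y := h.2
      _ ≤ Real.exp (K * l) * (Real.exp (L * l) * z) :=
          mul_le_mul_of_nonneg_left h'.2 (Real.exp_pos _).le
      _ = Real.exp ((K + L) * l) * z := by rw [← mul_assoc, ← Real.exp_add]; congr 2; ring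

lemma Ap.mul {l K L x y x' y' : ℝ} (hx : 0 ≤ x) (hy : 0 ≤ y) (hx' : 0 ≤ x')
    (hy' : 0 ≤ y') (h : Ap l K x y) (h' : Ap l L x' y') :
    Ap l (K + L) (x * x') (y * y') := by
  constructor
  · calc Real.exp (-((K + L) * l)) * (y * y') =
          (Real.exp (-(K * l)) * y) * (Real.exp (-(L * l)) * y') := by
          have : Real.exp (-((K + L) * l)) = Real.exp (-(K * l)) * Real.exp (-(L * l)) := by
            rw [← Real.exp_add]; congr 1; ring
          rw [this]; ring
      _ ≤ x * x' := mul_le_mul h.1 h'.1 (by positivity) hx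
  · calc x * x' ≤ (Real.exp (K * l) * y) * (Real.exp (L * l) * y') :=
          mul_le_mul h.2 h'.2 hx' (by positivity)
      _ = Real.exp ((K + L) * l) * (y * y') := by
          have : Real.exp ((K + L) * l) = Real.exp (K * l) * Real.exp (L * l) := by
            rw [← Real.exp_add]; congr 1; ring
          rw [this]; ring

lemma Ap.mono {l K L x y : ℝ} (hl : 0 ≤ l) (hy : 0 ≤ y) (h : Ap l K x y) (hKL : K ≤ L) :
    Ap l L x y := by
  have e : K * l ≤ L * l := mul_le_mul_of_nonneg_right hKL hl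
  constructor
  · exact (mul_le_mul_of_nonneg_right (Real.exp_le_exp.mpr (by linarith)) hy).trans h.1
  · exact h.2.trans (mul_le_mul_of_nonneg_right (Real.exp_le_exp.mpr e) hy)

lemma Ap.rpow {l C x y : ℝ} (hx : 0 < x) (hy : 0 < y) (h1 : x ≤ 64 * y) (h2 : y ≤ 64 * x)
    (p : ℝ) (hp : |p| ≤ C * l) : Ap l (C * Real.log 64) (x ^ p) (y ^ p) := by
  have hc := Pool.Agent.W688.NC.Cmp.rpow hx hy h1 h2 p
  have h64 : (64 : ℝ) ^ |p| ≤ Real.exp (C * Real.log 64 * l) := by
    rw [Real.rpow_def_of_pos (by norm_num)]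
    apply Real.exp_le_exp.mpr
    have hlog : 0 ≤ Real.log 64 := Real.log_nonneg (by norm_num)
    calc Real.log 64 * |p| ≤ Real.log 64 * (C * l) := mul_le_mul_of_nonneg_left hp hlog
      _ = C * Real.log 64 * l := by ring
  have hxp : 0 < x ^ p := by positivity
  have hyp : 0 < y ^ p := by positivity
  have e1 : x ^ p ≤ Real.exp (C * Real.log 64 * l) * y ^ p :=
    hc.1.trans (mul_le_mul_of_nonneg_right h64 hyp.le)
  have e2 : y ^ p ≤ Real.exp (C * Real.log 64 * l) * x ^ p :=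
    hc.2.trans (mul_le_mul_of_nonneg_right h64 hxp.le)
  refine ⟨?_, e1⟩
  calc Real.exp (-(C * Real.log 64 * l)) * y ^ p
      ≤ Real.exp (-(C * Real.log 64 * l)) * (Real.exp (C * Real.log 64 * l) * x ^ p) :=
        mul_le_mul_of_nonneg_left e2 (Real.exp_pos _).le
    _ = x ^ p := by rw [← mul_assoc, ← Real.exp_add]; simp

/-- weaken the factor `exp (± C a)` with `a ≤ l` -/
lemma Ap.of_le {l a C x y : ℝ} (hC : 0 ≤ C) (hal : a ≤ l) (hy : 0 ≤ y)
    (h1 : Real.exp (-(C * a)) * y ≤ x) (h2 : x ≤ Real.exp (C * a) * y) : Ap l C x y := by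
  have e : C * a ≤ C * l := mul_le_mul_of_nonneg_left hal hC
  constructor
  · exact (mul_le_mul_of_nonneg_right (Real.exp_le_exp.mpr (by linarith)) hy).trans h1
  · exact h2.trans (mul_le_mul_of_nonneg_right (Real.exp_le_exp.mpr e) hy)

lemma pow_bd {t : ℝ} (ht : 0 < t) (k : ℕ) (hk : k ≤ 1280) :
    Real.exp (-(1280 * |Real.log t|)) ≤ t ^ k ∧ t ^ k ≤ Real.exp (1280 * |Real.log t|) := by
  have e : t ^ k = Real.exp ((k : ℝ) * Real.log t) := by
    rw [Real.exp_nat_mul, Real.exp_log ht]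
  have hkR : (k : ℝ) ≤ 1280 := by exact_mod_cast hk
  have hk0 : (0 : ℝ) ≤ k := by positivity
  have h1 := neg_abs_le (Real.log t)
  have h2 := le_abs_self (Real.log t)
  have h0 := abs_nonneg (Real.log t)
  rw [e]
  constructor
  · apply Real.exp_le_exp.mpr
    nlinarith
  · apply Real.exp_le_exp.mpr
    nlinarith

/-- everything is bounded in a bounded box -/
lemma T2_small {N : NT} (hG : Geo N) (t1 t2 : ℝ) (ht1 : 0 < t1) (ht2 : 0 < t2)
    (v w : Vtx) (n : ℕ) (S : Finset Edg) (hn : n ≤ 640) :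
    Ap (|Real.log t1| + |Real.log t2|) 1280 (T2 N t1 t2 v w n S) 1 := by
  constructor
  · rw [mul_one]
    unfold T2
    rw [← Ex_const P2 S (Real.exp (-(1280 * (|Real.log t1| + |Real.log t2|))))]
    refine Ex_mono Pool.Agent.W688.NC.hok fun F _ => ?_
    have a1 := (pow_bd ht1 (N F v 0 n) (by have := hG.le F v 0 n; omega)).1
    have a2 := (pow_bd ht2 (N F w 0 n) (by have := hG.le F w 0 n; omega)).1
    calc Real.exp (-(1280 * (|Real.log t1| + |Real.log t2|)))
        = Real.exp (-(1280 * |Real.log t1|)) * Real.exp (-(1280 * |Real.log t2|)) := by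
          rw [← Real.exp_add]; congr 1; ring
      _ ≤ _ := mul_le_mul a1 a2 (Real.exp_pos _).le (by positivity)
  · rw [mul_one]
    unfold T2
    refine Ex_le_of_le Pool.Agent.W688.NC.hok fun F _ => ?_
    have a1 := (pow_bd ht1 (N F v 0 n) (by have := hG.le F v 0 n; omega)).2
    have a2 := (pow_bd ht2 (N F w 0 n) (by have := hG.le F w 0 n; omega)).2
    calc _ ≤ Real.exp (1280 * |Real.log t1|) * Real.exp (1280 * |Real.log t2|) :=
          mul_le_mul a1 a2 (by positivity) (Real.exp_pos _).le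
      _ = Real.exp (1280 * (|Real.log t1| + |Real.log t2|)) := by
          rw [← Real.exp_add]; congr 1; ring

/-- the estimate for `v.1 ≤ w.1` -/
lemma core {N : NT} {W : WT} {K : KT} (h : Sys N W K) (h1 : OneU N) (hA : AnnSU N)
    (h2 : Two1U N) (h3 : Two2U N) (h4 : Two3U N) (hL : PsiLip) :
    ∃ L : ℝ, 0 ≤ L ∧ ∀ t1 t2 : ℝ, Nr t1 → Nr t2 →
      ∀ (v w : Vtx) (d n : ℕ) (S : Finset Edg), 1 ≤ d → d ≤ n →
      max |v.1 - w.1| |v.2 - w.2| = d → bx v n ⊆ S → bx w n ⊆ S → v.1 ≤ w.1 →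
      Ap (|Real.log t1| + |Real.log t2|) L (T2 N t1 t2 v w n S)
        (((n : ℝ) / d) ^ Psi (t1 * t2) * (d : ℝ) ^ (Psi t1 + Psi t2)) := by
  obtain ⟨C1, hC1, c1⟩ := h1
  obtain ⟨C3, hC3, c3⟩ := hA
  obtain ⟨B1, hB1, d1⟩ := h2
  obtain ⟨B2, hB2, d2⟩ := h3
  obtain ⟨B3, hB3, d3⟩ := h4
  obtain ⟨C, hC, hPsi⟩ := hL
  obtain ⟨M, hM⟩ : ∃ M, M = C * Real.log 64 := ⟨_, rfl⟩
  have hM0 : 0 ≤ M := by
    rw [hM]; exact mul_nonneg hC (Real.log_nonneg (by norm_num))
  refine ⟨B1 + B2 + B3 + 1280 + 2 * C1 + C3 + 3 * M, by positivity, ?_⟩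
  intro t1 t2 hn1 hn2
  obtain ⟨ht1a, ht1b⟩ := hn1
  obtain ⟨ht2a, ht2b⟩ := hn2
  have ht1 : 0 < t1 := by linarith
  have ht2 : 0 < t2 := by linarith
  have ht12 : 0 < t1 * t2 := by positivity
  have ht12a : 1 / 2 ≤ t1 * t2 := by nlinarith
  have ht12b : t1 * t2 ≤ 2 := by nlinarith
  obtain ⟨l, hl⟩ : ∃ l, l = |Real.log t1| + |Real.log t2| := ⟨_, rfl⟩
  have hl0 : 0 ≤ l := by rw [hl]; positivity
  have hl1 : |Real.log t1| ≤ l := by rw [hl]; linarith [abs_nonneg (Real.log t2)]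
  have hl2 : |Real.log t2| ≤ l := by rw [hl]; linarith [abs_nonneg (Real.log t1)]
  have hl12 : |Real.log (t1 * t2)| ≤ l := by
    rw [hl, Real.log_mul ht1.ne' ht2.ne']
    exact abs_add_le _ _
  have q1 : |Psi t1| ≤ C * l :=
    (hPsi t1 (by linarith) (by linarith)).trans (mul_le_mul_of_nonneg_left hl1 hC)
  have q2 : |Psi t2| ≤ C * l :=
    (hPsi t2 (by linarith) (by linarith)).trans (mul_le_mul_of_nonneg_left hl2 hC)
  have q12 : |Psi (t1 * t2)| ≤ C * l :=
    (hPsi (t1 * t2) ht12a ht12b).trans (mul_le_mul_of_nonneg_left hl12 hC)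
  have c1' : ∀ R : ℕ, 1 ≤ R → Ap l C1 (G N t1 0 R) ((R : ℝ) ^ Psi t1) := fun R hR => by
    obtain ⟨e1, e2⟩ := c1 t1 (by linarith) (by linarith) R hR
    exact Ap.of_le hC1 hl1 (by positivity) e1 e2
  have c2' : ∀ R : ℕ, 1 ≤ R → Ap l C1 (G N t2 0 R) ((R : ℝ) ^ Psi t2) := fun R hR => by
    obtain ⟨e1, e2⟩ := c1 t2 (by linarith) (by linarith) R hR
    exact Ap.of_le hC1 hl2 (by positivity) e1 e2
  have c3' : ∀ r R : ℕ, 1 ≤ r → r ≤ R →
      Ap l C3 (G N (t1 * t2) r R) (((R : ℝ) / r) ^ Psi (t1 * t2)) := fun r R hr hR => by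
    obtain ⟨e1, e2⟩ := c3 (t1 * t2) ht12a ht12b r R hr hR
    exact Ap.of_le hC3 hl12 (by positivity) e1 e2
  have d1' := d1 t1 t2 ⟨ht1a, ht1b⟩ ⟨ht2a, ht2b⟩
  have d2' := d2 t1 t2 ⟨ht1a, ht1b⟩ ⟨ht2a, ht2b⟩
  have d3' := d3 t1 t2 ⟨ht1a, ht1b⟩ ⟨ht2a, ht2b⟩
  have c4 := T2_small h.geo t1 t2 ht1 ht2
  unfold App2 at d1' d2' d3'
  rw [← hl] at d1' d2' d3' c4 ⊢
  obtain ⟨p, hp⟩ : ∃ p, p = Psi (t1 * t2) := ⟨_, rfl⟩
  obtain ⟨p1, hp1⟩ : ∃ p1, p1 = Psi t1 := ⟨_, rfl⟩
  obtain ⟨p2, hp2⟩ : ∃ p2, p2 = Psi t2 := ⟨_, rfl⟩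
  rw [← hp] at c3' q12 ⊢
  rw [← hp1, ← hp2]
  rw [← hp1] at c1' q1
  rw [← hp2] at c2' q2
  intro v w d n S hd hdn hmax hv hw hvw
  have hdR : (1 : ℝ) ≤ d := by exact_mod_cast hd
  have hd0 : (0 : ℝ) < d := by linarith
  have hdnR : (d : ℝ) ≤ n := by exact_mod_cast hdn
  have hn0 : (0 : ℝ) < n := by linarith
  have hT := Pool.Agent.W688.NC.T2_nonneg N t1 t2 ht1 ht2 v w n S
  have hsplit : (d : ℝ) ^ (p1 + p2) = (d : ℝ) ^ p1 * (d : ℝ) ^ p2 := Real.rpow_add hd0 _ _
  rw [hsplit]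
  have hX : 0 < ((n : ℝ) / d) ^ p := by positivity
  have hY1 : 0 < (d : ℝ) ^ p1 := by positivity
  have hY2 : 0 < (d : ℝ) ^ p2 := by positivity
  have habs1 : |v.1 - w.1| ≤ d := by rw [← hmax]; exact le_max_left _ _
  have habs2 : |v.2 - w.2| ≤ d := by rw [← hmax]; exact le_max_right _ _
  have hor : w.1 - v.1 = d ∨ |v.2 - w.2| = d := by
    rcases max_choice |v.1 - w.1| |v.2 - w.2| with h5 | h5
    · left
      rw [h5] at hmax
      rw [← hmax, abs_of_nonpos (by omega)]
      ring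
    · right
      rw [h5] at hmax
      exact hmax
  obtain ⟨a1, a1'⟩ := abs_le.mp habs1
  obtain ⟨a2, a2'⟩ := abs_le.mp habs2
  have hS : T2 N t1 t2 v w n S = T2 N t1 t2 v w n (bx v (12 * d + n)) := by
    rw [Pool.Agent.W688.NC.T2_loc h.geo t1 t2 v w n S hv hw,
      Pool.Agent.W688.NC.T2_loc h.geo t1 t2 v w n (bx v (12 * d + n))
      (Pool.Agent.W688.NC.bx_sub v v (by omega) (by omega) (by omega) (by omega))
      (Pool.Agent.W688.NC.bx_sub v w (by omega) (by omega) (by omega) (by omega))]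
  have hgoal0 : 0 ≤ ((n : ℝ) / d) ^ p * ((d : ℝ) ^ p1 * (d : ℝ) ^ p2) := by positivity
  rcases le_or_gt 64 d with hd64 | hd64
  · obtain ⟨a, ha⟩ : ∃ a, a = d / 64 := ⟨_, rfl⟩
    have ha1 : 1 ≤ a := by omega
    have ha2 : 64 * a ≤ d := by omega
    have ha3 : d < 128 * a := by omega
    have ha2R : 64 * (a : ℝ) ≤ d := by exact_mod_cast ha2
    have ha3R : (d : ℝ) < 128 * a := by exact_mod_cast ha3
    have haR : (1 : ℝ) ≤ a := by exact_mod_cast ha1
    have hg : ∀ q : ℝ, |q| ≤ C * l → Ap l M (((2 * a : ℕ) : ℝ) ^ q) ((d : ℝ) ^ q) := by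
      intro q hq
      rw [hM]
      apply Ap.rpow
      · push_cast; linarith
      · exact hd0
      · push_cast; linarith
      · push_cast; linarith
      · exact hq
    have g1 : Ap l (C1 + M) (G N t1 0 (2 * a)) ((d : ℝ) ^ p1) :=
      (c1' (2 * a) (by omega)).trans (hg p1 q1)
    have g2 : Ap l (C1 + M) (G N t2 0 (2 * a)) ((d : ℝ) ^ p2) :=
      (c2' (2 * a) (by omega)).trans (hg p2 q2)
    have G1 := Pool.Agent.W688.NC.G_nonneg N t1 ht1 0 (2 * a)
    have G2 := Pool.Agent.W688.NC.G_nonneg N t2 ht2 0 (2 * a)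
    have g12 := g1.mul G1 hY1.le G2 hY2.le g2
    rcases le_or_gt (10 * d) n with hn | hn
    · -- case A
      have f1 := d1' v w a d n (bx v (12 * d + n)) ha1 ha2 ha3 hn hvw habs1 habs2 hor
        (Pool.Agent.W688.NC.bx_sub v v (by omega) (by omega) (by omega) (by omega))
      rw [← hS] at f1
      have f2 : Ap l B1 (T2 N t1 t2 v w n S) (G N t1 0 (2 * a) * G N t2 0 (2 * a) *
        G N (t1 * t2) (4 * d) (n - d)) := f1
      have G3 := Pool.Agent.W688.NC.G_nonneg N (t1 * t2) ht12 (4 * d) (n - d)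
      have hnR : 10 * (d : ℝ) ≤ n := by exact_mod_cast hn
      have hcast : ((n - d : ℕ) : ℝ) = n - d := by rw [Nat.cast_sub hdn]
      have g3 : Ap l (C3 + M) (G N (t1 * t2) (4 * d) (n - d)) (((n : ℝ) / d) ^ p) := by
        refine (c3' (4 * d) (n - d) (by omega) (by omega)).trans ?_
        rw [hM, hcast]
        push_cast
        apply Ap.rpow
        · apply div_pos <;> linarith
        · positivity
        · rw [div_le_iff₀ (by positivity)]
          have : 64 * ((n : ℝ) / d) * (4 * d) = 256 * n := by field_simp; ring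
          rw [this]; linarith
        · rw [div_le_iff₀ hd0]
          have : 64 * (((n : ℝ) - d) / (4 * d)) * d = 16 * (n - d) := by field_simp; ring
          rw [this]; linarith
        · exact q12
      have g123 := g12.mul (mul_nonneg G1 G2) (by positivity) G3 hX.le g3
      have f3 := f2.trans g123
      rw [mul_comm ((d : ℝ) ^ p1 * (d : ℝ) ^ p2)] at f3
      exact f3.mono hl0 hgoal0 (by linarith)
    · -- case B
      have f1 := d2' v w a d n (bx v (12 * d + n)) ha1 ha2 ha3 hdn hn.le hvw habs1 habs2 hor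
        (Pool.Agent.W688.NC.bx_sub v v (by omega) (by omega) (by omega) (by omega))
      rw [← hS] at f1
      have f2 : Ap l B2 (T2 N t1 t2 v w n S) (G N t1 0 (2 * a) * G N t2 0 (2 * a)) := f1
      have hnR : (n : ℝ) ≤ 10 * d := by exact_mod_cast hn.le
      have g3 : Ap l M 1 (((n : ℝ) / d) ^ p) := by
        have := Ap.rpow (l := l) (C := C) (x := 1) (y := (n : ℝ) / d) one_pos (by positivity) (by
          have : 1 ≤ (n : ℝ) / d := by rw [le_div_iff₀ hd0]; linarith
          linarith) (by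
          rw [div_le_iff₀ hd0]; linarith) p q12
        rw [Real.one_rpow] at this
        rw [hM]; exact this
      have g123 := g12.mul (mul_nonneg G1 G2) (by positivity) zero_le_one hX.le g3
      rw [mul_one] at g123
      have f3 := f2.trans g123
      rw [mul_comm ((d : ℝ) ^ p1 * (d : ℝ) ^ p2)] at f3
      exact f3.mono hl0 hgoal0 (by linarith)
  · have hd64R : (d : ℝ) ≤ 64 := by exact_mod_cast hd64.le
    have hg : ∀ q : ℝ, |q| ≤ C * l → Ap l M 1 ((d : ℝ) ^ q) := by
      intro q hq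
      have := Ap.rpow (l := l) (C := C) (x := 1) (y := (d : ℝ)) one_pos hd0 (by linarith)
        (by linarith) q hq
      rw [Real.one_rpow] at this
      rw [hM]; exact this
    have g1 : Ap l M 1 ((d : ℝ) ^ p1) := hg p1 q1
    have g2 : Ap l M 1 ((d : ℝ) ^ p2) := hg p2 q2
    have g12 := g1.mul zero_le_one hY1.le zero_le_one hY2.le g2
    rw [mul_one] at g12
    rcases le_or_gt (10 * d) n with hn | hn
    · -- case C
      have f1 := d3' v w d n (bx v (12 * d + n)) hd hd64 hn habs1 habs2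
        (Pool.Agent.W688.NC.bx_sub v v (by omega) (by omega) (by omega) (by omega))
      rw [← hS] at f1
      have f2 : Ap l B3 (T2 N t1 t2 v w n S) (G N (t1 * t2) (4 * d) (n - d)) := f1
      have G3 := Pool.Agent.W688.NC.G_nonneg N (t1 * t2) ht12 (4 * d) (n - d)
      have hnR : 10 * (d : ℝ) ≤ n := by exact_mod_cast hn
      have hcast : ((n - d : ℕ) : ℝ) = n - d := by rw [Nat.cast_sub hdn]
      have g3 : Ap l (C3 + M) (G N (t1 * t2) (4 * d) (n - d)) (((n : ℝ) / d) ^ p) := by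
        refine (c3' (4 * d) (n - d) (by omega) (by omega)).trans ?_
        rw [hM, hcast]
        push_cast
        apply Ap.rpow
        · apply div_pos <;> linarith
        · positivity
        · rw [div_le_iff₀ (by positivity)]
          have : 64 * ((n : ℝ) / d) * (4 * d) = 256 * n := by field_simp; ring
          rw [this]; linarith
        · rw [div_le_iff₀ hd0]
          have : 64 * (((n : ℝ) - d) / (4 * d)) * d = 16 * (n - d) := by field_simp; ring
          rw [this]; linarith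
        · exact q12
      have g123 := g3.mul G3 hX.le zero_le_one (by positivity) g12
      rw [mul_one] at g123
      have f3 := f2.trans g123
      exact f3.mono hl0 hgoal0 (by linarith)
    · -- case D
      have f2 := c4 v w n S (by omega)
      have hnR : (n : ℝ) ≤ 10 * d := by exact_mod_cast hn.le
      have g3 : Ap l M 1 (((n : ℝ) / d) ^ p) := by
        have := Ap.rpow (l := l) (C := C) (x := 1) (y := (n : ℝ) / d) one_pos (by positivity) (by
          have : 1 ≤ (n : ℝ) / d := by rw [le_div_iff₀ hd0]; linarith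
          linarith) (by
          rw [div_le_iff₀ hd0]; linarith) p q12
        rw [Real.one_rpow] at this
        rw [hM]; exact this
      have g123 := g3.mul zero_le_one hX.le zero_le_one (by positivity) g12
      rw [mul_one] at g123
      have f3 := f2.trans g123
      exact f3.mono hl0 hgoal0 (by linarith)

theorem target {N : NT} {W : WT} {K : KT} (h : Sys N W K) (h1 : OneU N) (hA : AnnSU N)
    (h2 : Two1U N) (h3 : Two2U N) (h4 : Two3U N) (hL : PsiLip) : TwoPtU N := by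
  obtain ⟨L, hL0, c⟩ := core h h1 hA h2 h3 h4 hL
  refine ⟨L, hL0, ?_⟩
  intro t1 t2 ht1 ht2 v w d n S hd hdn hmax hv hw
  rcases le_total v.1 w.1 with h5 | h5
  · exact c t1 t2 ht1 ht2 v w d n S hd hdn hmax hv hw h5
  · have h6 := c t2 t1 ht2 ht1 w v d n S hd hdn
      (by rw [abs_sub_comm w.1, abs_sub_comm w.2]; exact hmax) hw hv h5
    rw [← Pool.Agent.W688.NC.T2_swap, mul_comm t2 t1, add_comm (Psi t2),
      add_comm |Real.log t2|] at h6
    exact h6

end Pool.Agent.Helper859_NL.K06
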