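import Pool.Agent.Helper859_NL.Final
import Pool.Agent.Helper859_NL.Joint2
import Pool.Agent.Helper859_NL.K01
import Pool.Agent.Helper859_NL.K02
import Pool.Agent.Helper859_NL.K03
import Pool.Agent.Helper859_NL.K04
import Pool.Agent.Helper859_NL.K05
import Pool.Agent.Helper859_NL.K06
import Pool.Agent.W819.NC.Pw

/-!
The numbers of layers around two points: assembly. The files `K01` to `K06` were written by the
helpers named in `departures/helper859.md`.
-/

set_option autoImplicit false

namespace Pool.Agent.Helper859_NL.Final2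

open H974 Finset Pool.Agent.W819.EN Pool.Agent.W819.NC MeasureTheory Pool.Agent.Helper859_NL
open Pool.Agent.Y996.NL

theorem twoPtU : TwoPtU NA := by
  have hd := J03.target sys locG aMom
  have hTI : TInU NA := J04.target sys locG aMom Final.inBU hd.1
  have hTO : TOutU NA := J05.target sys locG aMom Final.outBU hd.2
  have hc : Cmps := J06.target
  have hRI : RadInU NA := J07.target sys locG aMom hTI hc
  have hRO : RadOutU NA := J08.target sys locG aMom hTO hc
  have hCo : CoreU NA := J09.target sys locG aMom hTI hTO hc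
  have hCy : CylU := J11.target J10.target Pool.Agent.W762.EN.t_INT
  have hOne : OneU NA := J12.target hCy sys locG aMom Final.inBU hd.1 badX hc J18.target.1
  have hAnn : AnnSU NA := annSU (annU sys hRI hRO hCo) hOne
  have hg : CmpG := K01.target
  obtain ⟨hx, hz, hk⟩ := K02.target sys aMom hTI hTO
  have hp : Pw NA Wc := t_PW sys
  have h2 : Two1U NA := K03.target sys locG hg hx hz hk hp
  have h3 : Two2U NA := K04.target sys locG hg hx
  have h4 : Two3U NA := K05.target sys locG hg hz hp
  exact K06.target sys hOne hAnn h2 h3 h4 J18.target.1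

theorem joint (x η : ℝ) (hη : 0 < η) :
    ∃ V₀ : ℝ, ∀ (a b : ℝ), |a| ≤ 1 → |b| ≤ 1 → ∀ (v w : ℤ × ℤ) (n d : ℕ), 1 ≤ d → d ≤ n →
      max |v.1 - w.1| |v.2 - w.2| = d → V₀ ≤ va a b n d →
      |(bondLaw hlf).real {ω | a * (layers n v ω : ℝ) + b * (layers n w ω : ℝ) ≤
          (a + b) * cM * Real.log n + x * √(va a b n d)} -
        (ProbabilityTheory.gaussianReal 0 1).real (Set.Iic x)| ≤ η :=
  joint_unif J18.target.2 Final.curt twoPtU x η hη

end Pool.Agent.Helper859_NL.Final2
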