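import Pool.Agent.Helper859_NL.Final
import Pool.Agent.Helper859_NL.D01
import Pool.Agent.Helper859_NL.D02
import Pool.Agent.Helper859_NL.D03

/-!
Moderate deviations of the number of interfaces: assembly. `D02`, `D03` were written by the helpers
named in `departures/helper859.md`.
-/

set_option autoImplicit false

namespace Pool.Agent.Helper859_NL.FinalD

open H974 Finset Pool.Agent.W819.EN Pool.Agent.W819.NC MeasureTheory Pool.Agent.Helper859_NL
open Pool.Agent.Y996.NL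
open Pool.Agent.Y996.RD hiding hlf
open scoped Real

theorem mdp (δ : ℝ) (hδ : 0 < δ) : ∃ K : ℝ, 1 ≤ K ∧
    ∀ (A B : Set (OnePoint ℂ)) (ε x : ℝ), Adm A B ε → K ≤ x →
      K * x ≤ √(modulus (tr A) (tr B)) → ∀ σ : ℝ, (σ = 1 ∨ σ = -1) →
      Real.exp (-((1 + δ) * x ^ 2 / (2 * vD))) ≤ (bondLaw hlf).real
        {ω | x * √(modulus (tr A) (tr B)) ≤
          σ * ((ni A B ε ω : ℝ) - modulus (tr A) (tr B) / √3)} ∧
      (bondLaw hlf).real {ω | x * √(modulus (tr A) (tr B)) ≤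
          σ * ((ni A B ε ω : ℝ) - modulus (tr A) (tr B) / √3)} ≤
        Real.exp (-((1 - δ) * x ^ 2 / (2 * vD))) := by
  obtain ⟨C, δ0, hC, hδ0, h⟩ := D03.target Final.domU J18.target.2
  obtain ⟨K, hK, hmd⟩ := D02.target D01.target vD C δ0 δ vD_pos hC hδ0 hδ
  refine ⟨K, hK, fun A B ε x hA hx hKx σ hσ => ?_⟩
  obtain ⟨h1, h2, h3⟩ := h A B ε hA σ hσ
  exact hmd _ (bondLaw hlf) _ (modulus (tr A) (tr B)) x h1 h2 hx hKx h3

end Pool.Agent.Helper859_NL.FinalD
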