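import Pool.Agent.Helper859_NL.StmK
import Pool.Agent.Helper859_NL.Joint2

/-!
The joint law of the numbers of layers around several points.
-/

set_option autoImplicit false

namespace Pool.Agent.Helper859_NL

open H974 Finset Pool.Agent.W819.EN Pool.Agent.W819.NC MeasureTheory Filter Topology
open scoped Real

/-- the asymptotic variance of `∑ a i * N (v i)` -/
noncomputable def vk {k : ℕ} (a : Fin k → ℝ) (v : Fin k → Vtx) (n : ℕ) : ℝ :=
  vM * ∑ i, ∑ j, a i * a j * gg n 1 (v i) (v j)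

/-- Slutsky's lemma for distribution functions -/
def SluS : Prop := ∀ (P : Measure (sqLattice.edgeSet → Bool)) (_ : IsProbabilityMeasure P)
    (X Y : ℕ → (sqLattice.edgeSet → Bool) → ℝ) (Φ : ℝ → ℝ), Continuous Φ →
    (∀ x : ℝ, Tendsto (fun k => P.real {ω | Y k ω ≤ x}) atTop (𝓝 (Φ x))) →
    (∀ δ : ℝ, 0 < δ → Tendsto (fun k => P.real {ω | δ < |X k ω - Y k ω|}) atTop (𝓝 0)) →
    ∀ x : ℝ, Tendsto (fun k => P.real {ω | X k ω ≤ x}) atTop (𝓝 (Φ x))

/-- the innermost scale -/
theorem c0 {N : NT} {W : WT} {K : KT} (h : Sys N W K) : ∃ C : ℝ, 0 ≤ C ∧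
    ∀ (v : Vtx) (n : ℕ) (S : Finset Edg), 1 ≤ n → bx v (n : ℤ) ⊆ S →
      Ex P2 S (fun F => |(N F v 0 n : ℝ) - N F v 1 n|) ≤ C := by
  obtain ⟨C, hC, hW⟩ := h.wmom 2 (by norm_num)
  refine ⟨4 + C, by linarith, fun v n S hn hS => ?_⟩
  have hm : ∀ F, (N F v 1 n : ℝ) ≤ N F v 0 n := fun F => by
    exact_mod_cast h.geo.mono F v 1 0 n n (by omega) le_rfl
  rcases Nat.lt_or_ge n 2 with h2 | h2
  · refine (Ex_le_of_le ok2 (c := 4) fun F _ => ?_).trans (by linarith)
    have e1 := h.geo.le F v 0 n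
    have e2 : (N F v 0 n : ℝ) ≤ 2 := by exact_mod_cast (by omega : N F v 0 n ≤ 2)
    have e3 : (0 : ℝ) ≤ N F v 1 n := Nat.cast_nonneg _
    rw [abs_of_nonneg (by linarith [hm F])]
    linarith
  · have hb : bx v (2 * ((1 : ℕ) : ℤ)) ⊆ S := (bx_mono v (by push_cast; omega)).trans hS
    have e1 := hW v 1 S le_rfl hb
    have e2 : Ex P2 S (fun F => (4 : ℝ) + 2 ^ W F v 1) ≤ 4 + C := by
      have := Ex_add P2 S (fun _ => (4 : ℝ)) (fun F => (2 : ℝ) ^ W F v 1)
      rw [this, Ex_const]
      linarith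
    refine (Ex_mono ok2 fun F _ => ?_).trans e2
    have e3 := h.join F v 1 0 n le_rfl (by omega) (by omega)
    have e4 := h.geo.le F v 0 (2 * 1)
    have e5 : (N F v 0 n : ℝ) ≤ N F v 1 n + 4 + W F v 1 := by
      exact_mod_cast (by omega : N F v 0 n ≤ N F v 1 n + 4 + W F v 1)
    have e6 : (W F v 1 : ℝ) ≤ 2 ^ W F v 1 := by
      exact_mod_cast (Nat.lt_pow_self (by norm_num : 1 < 2)).le
    rw [abs_of_nonneg (by linarith [hm F])]
    linarith

theorem ex_int (S : Finset Edg) (g : Finset Edg → ℝ) :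
    ∫ ω, g (FF S ω) ∂(bondLaw hlf) = Ex P2 S g := by
  rw [Pool.Agent.W52.NC.int_FF hlf S g]
  congr 1

/-- the joint central limit theorem for several points, along sequences -/
theorem k_seq (hCu : CurtS) (hSl : SluS)
    (hΦ : Continuous (fun x : ℝ => (ProbabilityTheory.gaussianReal 0 1).real (Set.Iic x)))
    {W : WT} {K : KT} (hsys : Sys NA W K)
    (hI : LInd NA) (hE : LEst NA) (k : ℕ) (a : ℕ → Fin k → ℝ) (ha : ∀ j i, |a j i| ≤ 1)
    (v : ℕ → Fin k → Vtx) (n : ℕ → ℕ) (hn : ∀ j, 1 ≤ n j)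
    (hd : ∀ j i i', ds (v j i) (v j i') ≤ n j) (hV1 : ∀ j, 0 < vk (a j) (v j) (n j))
    (hV : Tendsto (fun j => vk (a j) (v j) (n j)) atTop atTop) (x : ℝ) :
    Tendsto (fun j => (bondLaw hlf).real {ω | ∑ i, a j i * (layers (n j) (v j i) ω : ℝ) ≤
        (∑ i, a j i) * cM * Real.log (n j) + x * √(vk (a j) (v j) (n j))}) atTop
      (𝓝 ((ProbabilityTheory.gaussianReal 0 1).real (Set.Iic x))) := by
  haveI hPr : IsProbabilityMeasure (bondLaw hlf) := by unfold bondLaw; infer_instance
  obtain ⟨C, m, hC, hI⟩ := hI k k (Nat.cast_nonneg k)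
  obtain ⟨C2, δ0, hC2, hδ0, hE⟩ := hE
  obtain ⟨C3, hC3, hc0⟩ := c0 hsys
  have hvM := vM_pos
  set r : ℕ → ℝ := fun j => √(vk (a j) (v j) (n j)) with hr
  have hr0 : ∀ j, 0 < r j := fun j => Real.sqrt_pos.2 (hV1 j)
  have hr2 : ∀ j, r j ^ 2 = vk (a j) (v j) (n j) := fun j => Real.sq_sqrt (hV1 j).le
  have hrt : Tendsto r atTop atTop := Real.tendsto_sqrt_atTop.comp hV
  set S : ℕ → Finset Edg := fun j =>
    Finset.univ.biUnion (fun i => bx (v j i) ((1000 * n j : ℕ) : ℤ)) with hS
  have hSb : ∀ j i, bx (v j i) ((1000 * n j : ℕ) : ℤ) ⊆ S j := fun j i =>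
    Finset.subset_biUnion_of_mem (fun i => bx (v j i) ((1000 * n j : ℕ) : ℤ)) (Finset.mem_univ i)
  have hSn : ∀ j i, bx (v j i) (n j : ℤ) ⊆ S j := fun j i =>
    (bx_mono (v j i) (by push_cast; omega)).trans (hSb j i)
  have hcfg : ∀ j, Cfg (k : ℝ) (n j) 1 (S j) (Finset.univ : Finset (Fin k)) (v j) (a j) := fun j =>
    { rho := le_rfl
      rn := hn j
      inS := fun i _ => hSb j i
      dn := fun i _ i' _ => hd j i i'
      sa := by
        calc ∑ i, |a j i| ≤ ∑ _i : Fin k, (1 : ℝ) := Finset.sum_le_sum fun i _ => ha j i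
          _ = k := by simp }
  choose l hl using fun j => hI (Fin k) (n j) 1 (S j) Finset.univ (v j) (a j) (by simp) (hcfg j)
  have hq : ∀ j, |qsum (l j) - r j ^ 2 / vM| ≤ C := fun j => by
    have h1 := (hl j).var
    have e : ∑ i, ∑ i', a j i * a j i' * gg (n j) 1 (v j i) (v j i') = r j ^ 2 / vM := by
      rw [hr2 j]
      unfold vk
      field_simp
    rwa [e] at h1
  have hmean : ∀ j, |lsum (l j) - (∑ i, a j i) * Real.log (n j)| ≤ C := fun j => by
    have h1 := (hl j).mean
    simpa using h1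
  -- the two variables
  obtain ⟨gX, hgX⟩ : ∃ g : ℕ → Finset Edg → ℝ, g = fun j F =>
      (∑ i, a j i * (NA F (v j i) 0 (n j) : ℝ) - (∑ i, a j i) * cM * Real.log (n j)) / r j :=
    ⟨_, rfl⟩
  obtain ⟨gY, hgY⟩ : ∃ g : ℕ → Finset Edg → ℝ, g = fun j F =>
      (bsum NA (l j) F - cM * lsum (l j)) / r j := ⟨_, rfl⟩
  have hYm : ∀ j, AEMeasurable (fun ω => gY j (FF (S j) ω)) (bondLaw hlf) := fun j =>
    (Pool.Agent.Y996.NL.integrable_FF hlf (S j) (gY j)).aemeasurable
  have hcont : ∀ s : ℝ, Continuous (fun x : ℝ => Real.exp (s * x)) := fun s => by fun_prop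
  set μ : ℕ → Measure ℝ := fun j => (bondLaw hlf).map (fun ω => gY j (FF (S j) ω)) with hμ
  have hprob : ∀ j, IsProbabilityMeasure (μ j) := fun j =>
    Measure.isProbabilityMeasure_map (hYm j)
  have hi : ∀ (j : ℕ) (s : ℝ), Integrable (fun x : ℝ => Real.exp (s * x)) (μ j) := by
    intro j s
    rw [hμ]
    rw [integrable_map_measure (hcont s).aestronglyMeasurable (hYm j)]
    exact Pool.Agent.Y996.NL.integrable_FF hlf (S j) (fun F => Real.exp (s * gY j F))
  have hm : ∀ (j : ℕ) (s : ℝ), ∫ x : ℝ, Real.exp (s * x) ∂(μ j) =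
      Real.exp (-(s / r j * cM * lsum (l j))) *
        Ex P2 (S j) (fun F => Real.exp (s / r j * bsum NA (l j) F)) := by
    intro j s
    rw [hμ]
    rw [integral_map (hYm j) (hcont s).aestronglyMeasurable]
    rw [ex_int (S j) (fun F => Real.exp (s * gY j F)), ← Ex_mul_left]
    refine Ex_congr fun F _ => ?_
    rw [← Real.exp_add, hgY]
    congr 1
    have := (hr0 j).ne'
    field_simp
    ring
  have hY : ∀ x : ℝ, Tendsto (fun j => (bondLaw hlf).real {ω | gY j (FF (S j) ω) ≤ x}) atTop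
      (𝓝 ((ProbabilityTheory.gaussianReal 0 1).real (Set.Iic x))) := by
    intro x
    have hlim := hCu μ hprob 1 one_ne_zero hi (fun s => by
      simp only [hm]
      obtain ⟨D, hD⟩ : ∃ D : ℕ → ℝ, D = fun j => vM * (s ^ 2 / r j ^ 2) / 2 * C +
        C2 * k * |s / r j| * (m + (s ^ 2 / vM + s ^ 2 / r j ^ 2 * C)) := ⟨_, rfl⟩
      have hinv : Tendsto (fun j => s / r j) atTop (𝓝 0) := Filter.Tendsto.const_div_atTop hrt _
      have hinv2 : Tendsto (fun j => s ^ 2 / r j ^ 2) atTop (𝓝 0) := by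
        have := hinv.pow 2
        simpa [div_pow] using this
      have hD0 : Tendsto D atTop (𝓝 0) := by
        rw [hD]
        have e1 : Tendsto (fun j => vM * (s ^ 2 / r j ^ 2) / 2 * C) atTop (𝓝 0) := by
          have := ((hinv2.const_mul vM).div_const 2).mul_const C
          simpa using this
        have e2 : Tendsto (fun j => C2 * k * |s / r j|) atTop (𝓝 0) := by
          have := hinv.abs.const_mul (C2 * k)
          simpa using this
        have e3 : Tendsto (fun j => (m : ℝ) + (s ^ 2 / vM + s ^ 2 / r j ^ 2 * C)) atTop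
            (𝓝 ((m : ℝ) + (s ^ 2 / vM + 0 * C))) :=
          tendsto_const_nhds.add (tendsto_const_nhds.add (hinv2.mul_const C))
        have := e1.add (e2.mul e3)
        simpa using this
      have hlo : Tendsto (fun j => Real.exp (s ^ 2 / 2 - D j)) atTop
          (𝓝 (Real.exp (((1 : NNReal) : ℝ) * s ^ 2 / 2))) := by
        refine (Real.continuous_exp.tendsto _).comp ?_
        have := (tendsto_const_nhds (x := s ^ 2 / 2)).sub hD0
        simpa using this
      have hup : Tendsto (fun j => Real.exp (s ^ 2 / 2 + D j)) atTop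
          (𝓝 (Real.exp (((1 : NNReal) : ℝ) * s ^ 2 / 2))) := by
        refine (Real.continuous_exp.tendsto _).comp ?_
        have := (tendsto_const_nhds (x := s ^ 2 / 2)).add hD0
        simpa using this
      have hev : ∀ᶠ j in atTop, |s / r j| * k ≤ δ0 := by
        have : Tendsto (fun j => |s / r j| * (k : ℝ)) atTop (𝓝 0) := by
          have := hinv.abs.mul_const (k : ℝ)
          simpa using this
        exact (this.eventually (gt_mem_nhds hδ0)).mono fun _ h => le_of_lt h
      have hmain : ∀ᶠ j in atTop, Real.exp (s ^ 2 / 2 - D j) ≤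
          Real.exp (-(s / r j * cM * lsum (l j))) *
            Ex P2 (S j) (fun F => Real.exp (s / r j * bsum NA (l j) F)) ∧
          Real.exp (-(s / r j * cM * lsum (l j))) *
            Ex P2 (S j) (fun F => Real.exp (s / r j * bsum NA (l j) F)) ≤
          Real.exp (s ^ 2 / 2 + D j) := by
        filter_upwards [hev] with j hj
        obtain ⟨g1, g2⟩ := hE (k : ℝ) (Nat.cast_nonneg k) (S j) (l j) (s / r j) (hl j).rad
          (hl j).sub (hl j).coe (hl j).dis hj
        obtain ⟨q1, q2⟩ := abs_le.1 (hq j)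
        have hlen : ((l j).length : ℝ) ≤ m := by exact_mod_cast (hl j).len
        have hrj := hr0 j
        obtain ⟨t, ht⟩ : ∃ t, t = s / r j := ⟨_, rfl⟩
        have ht2 : s ^ 2 / r j ^ 2 = t ^ 2 := by rw [ht, div_pow]
        have hts : t ^ 2 * (r j ^ 2 / vM) = s ^ 2 / vM := by
          rw [ht]
          field_simp
        have hvt : vM * t ^ 2 / 2 * (r j ^ 2 / vM) = s ^ 2 / 2 := by
          rw [ht]
          field_simp
        rw [← ht] at g1 g2 ⊢
        have ht0 := sq_nonneg t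
        have k1 : vM * t ^ 2 / 2 * qsum (l j) ≤ s ^ 2 / 2 + vM * t ^ 2 / 2 * C := by
          have : vM * t ^ 2 / 2 * qsum (l j) ≤ vM * t ^ 2 / 2 * (r j ^ 2 / vM + C) :=
            mul_le_mul_of_nonneg_left (by linarith) (by positivity)
          rw [mul_add, hvt] at this
          exact this
        have k2 : s ^ 2 / 2 - vM * t ^ 2 / 2 * C ≤ vM * t ^ 2 / 2 * qsum (l j) := by
          have : vM * t ^ 2 / 2 * (r j ^ 2 / vM - C) ≤ vM * t ^ 2 / 2 * qsum (l j) :=
            mul_le_mul_of_nonneg_left (by linarith) (by positivity)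
          rw [mul_sub, hvt] at this
          exact this
        have k3 : t ^ 2 * qsum (l j) ≤ s ^ 2 / vM + t ^ 2 * C := by
          have : t ^ 2 * qsum (l j) ≤ t ^ 2 * (r j ^ 2 / vM + C) :=
            mul_le_mul_of_nonneg_left (by linarith) ht0
          rw [mul_add, hts] at this
          exact this
        have k4 : C2 * k * |t| * ((l j).length + t ^ 2 * qsum (l j)) ≤
            C2 * k * |t| * (m + (s ^ 2 / vM + t ^ 2 * C)) :=
          mul_le_mul_of_nonneg_left (by linarith) (by positivity)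
        have hDj : D j = vM * t ^ 2 / 2 * C + C2 * k * |t| * (m + (s ^ 2 / vM + t ^ 2 * C)) := by
          rw [hD]
          simp only
          rw [ht2, ← ht]
        constructor
        · refine le_trans (Real.exp_le_exp.2 ?_) g1
          linarith
        · refine g2.trans (Real.exp_le_exp.2 ?_)
          linarith
      exact tendsto_of_tendsto_of_tendsto_of_le_of_le' hlo hup (hmain.mono fun k h => h.1)
        (hmain.mono fun k h => h.2)) x
    refine hlim.congr (fun j => ?_)
    rw [hμ]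
    simp only
    rw [measureReal_def, measureReal_def, Measure.map_apply_of_aemeasurable (hYm j)
      measurableSet_Iic]
    rfl
  -- the difference
  obtain ⟨D, hD⟩ : ∃ D : ℝ, D = k * C3 + C + |cM| * C := ⟨_, rfl⟩
  have hD0 : 0 ≤ D := by rw [hD]; positivity
  have hdiff : ∀ j, Ex P2 (S j) (fun F => |gX j F - gY j F|) ≤ D / r j := by
    intro j
    have e1 : ∀ F, |gX j F - gY j F| ≤ (1 / r j) * ((∑ i, |a j i| *
        |(NA F (v j i) 0 (n j) : ℝ) - NA F (v j i) 1 (n j)|) +
        (|∑ i, a j i * (NA F (v j i) 1 (n j) : ℝ) - bsum NA (l j) F| + |cM| * C)) := by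
      intro F
      have e2 : gX j F - gY j F = (1 / r j) * ((∑ i, a j i *
          ((NA F (v j i) 0 (n j) : ℝ) - NA F (v j i) 1 (n j))) +
          ((∑ i, a j i * (NA F (v j i) 1 (n j) : ℝ) - bsum NA (l j) F) +
            cM * (lsum (l j) - (∑ i, a j i) * Real.log (n j)))) := by
        rw [hgX, hgY]
        simp only [mul_sub, Finset.sum_sub_distrib]
        ring
      rw [e2, abs_mul, abs_of_pos (by have := hr0 j; positivity : 0 < 1 / r j)]
      refine mul_le_mul_of_nonneg_left ?_ (by have := hr0 j; positivity)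
      refine (abs_add_le _ _).trans (add_le_add ?_ ?_)
      · refine (Finset.abs_sum_le_sum_abs _ _).trans (le_of_eq ?_)
        exact Finset.sum_congr rfl fun i _ => abs_mul _ _
      · refine (abs_add_le _ _).trans (add_le_add le_rfl ?_)
        rw [abs_mul]
        exact mul_le_mul_of_nonneg_left (hmean j) (abs_nonneg _)
    refine (Ex_mono ok2 fun F _ => e1 F).trans ?_
    rw [Ex_mul_left]
    have e3 : Ex P2 (S j) (fun F => (∑ i, |a j i| *
        |(NA F (v j i) 0 (n j) : ℝ) - NA F (v j i) 1 (n j)|) +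
        (|∑ i, a j i * (NA F (v j i) 1 (n j) : ℝ) - bsum NA (l j) F| + |cM| * C)) ≤ D := by
      rw [Ex_add, Ex_add, Ex_const, Ex_sum]
      have e4 : ∑ i, Ex P2 (S j) (fun F => |a j i| *
          |(NA F (v j i) 0 (n j) : ℝ) - NA F (v j i) 1 (n j)|) ≤ k * C3 := by
        calc ∑ i, Ex P2 (S j) (fun F => |a j i| *
            |(NA F (v j i) 0 (n j) : ℝ) - NA F (v j i) 1 (n j)|) ≤ ∑ _i : Fin k, C3 := by
              refine Finset.sum_le_sum fun i _ => ?_
              rw [Ex_mul_left]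
              have := hc0 (v j i) (n j) (S j) (hn j) (hSn j i)
              have h2 := ha j i
              have h3 := abs_nonneg (a j i)
              calc |a j i| * _ ≤ |a j i| * C3 := mul_le_mul_of_nonneg_left this h3
                _ ≤ 1 * C3 := mul_le_mul_of_nonneg_right h2 hC3
                _ = C3 := one_mul _
          _ = k * C3 := by simp
      have e5 := (hl j).err
      rw [hD]
      linarith
    rw [div_eq_mul_one_div D, mul_comm D]
    exact mul_le_mul_of_nonneg_left e3 (by have := hr0 j; positivity)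
  have hdt : ∀ δ : ℝ, 0 < δ → Tendsto (fun j => (bondLaw hlf).real
      {ω | δ < |gX j (FF (S j) ω) - gY j (FF (S j) ω)|}) atTop (𝓝 0) := by
    intro δ hδ
    have hz : Tendsto (fun j => (D / δ) / r j) atTop (𝓝 0) :=
      Filter.Tendsto.const_div_atTop hrt _
    refine squeeze_zero (fun j => measureReal_nonneg) (fun j => ?_) hz
    have hint := Pool.Agent.Y996.NL.integrable_FF hlf (S j) (fun F => |gX j F - gY j F|)
    have hmk := mul_meas_ge_le_integral_of_nonneg
      (Eventually.of_forall fun ω => abs_nonneg (gX j (FF (S j) ω) - gY j (FF (S j) ω))) hint δ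
    rw [ex_int (S j) (fun F => |gX j F - gY j F|)] at hmk
    have h1 : (bondLaw hlf).real {ω | δ < |gX j (FF (S j) ω) - gY j (FF (S j) ω)|} ≤
        (bondLaw hlf).real {ω | δ ≤ |gX j (FF (S j) ω) - gY j (FF (S j) ω)|} :=
      measureReal_mono (fun ω hω => by
        simp only [Set.mem_setOf_eq] at hω ⊢
        exact hω.le)
    refine h1.trans ?_
    rw [div_div, le_div_iff₀ (by have := hr0 j; positivity)]
    have h2 := hmk.trans (hdiff j)
    rw [le_div_iff₀ (hr0 j)] at h2
    calc _ = δ * (bondLaw hlf).real {ω | δ ≤ |gX j (FF (S j) ω) - gY j (FF (S j) ω)|} * r j := by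
          ring
      _ ≤ D := h2
  have hfin := hSl (bondLaw hlf) hPr (fun j ω => gX j (FF (S j) ω)) (fun j ω => gY j (FF (S j) ω))
    _ hΦ hY hdt x
  refine hfin.congr (fun j => ?_)
  congr 1
  ext ω
  simp only [Set.mem_setOf_eq, hgX]
  rw [div_le_iff₀ (hr0 j)]
  have e : ∑ i, a j i * (layers (n j) (v j i) ω : ℝ) =
      ∑ i, a j i * (NA (FF (S j) ω) (v j i) 0 (n j) : ℝ) := by
    refine Finset.sum_congr rfl fun i _ => ?_
    rw [Pool.Agent.W52.NC.lay_eq (v j i) (n j) (S j) (hSn j i) ω]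
  rw [e]
  constructor <;> intro h <;> linarith

/-- the joint central limit theorem for several points, uniformly -/
theorem k_unif (hCu : CurtS) (hSl : SluS)
    (hΦ : Continuous (fun x : ℝ => (ProbabilityTheory.gaussianReal 0 1).real (Set.Iic x)))
    {W : WT} {K : KT} (hsys : Sys NA W K) (hI : LInd NA) (hE : LEst NA) (k : ℕ) (x η : ℝ)
    (hη : 0 < η) : ∃ V₀ : ℝ, ∀ (a : Fin k → ℝ) (v : Fin k → ℤ × ℤ) (n : ℕ), (∀ i, |a i| ≤ 1) →
      1 ≤ n → (∀ i j, ds (v i) (v j) ≤ n) → V₀ ≤ vk a v n →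
      |(bondLaw hlf).real {ω | ∑ i, a i * (layers n (v i) ω : ℝ) ≤
          (∑ i, a i) * cM * Real.log n + x * √(vk a v n)} -
        (ProbabilityTheory.gaussianReal 0 1).real (Set.Iic x)| ≤ η := by
  by_contra hcon
  push Not at hcon
  choose a v n ha hn hd hV hbad using fun j : ℕ => hcon ((j : ℝ) + 1)
  have hV1 : ∀ j, 0 < vk (a j) (v j) (n j) := fun j => by
    have := hV j
    have h0 : (0:ℝ) ≤ j := Nat.cast_nonneg j
    linarith
  have hVt : Tendsto (fun j => vk (a j) (v j) (n j)) atTop atTop :=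
    tendsto_atTop_mono (fun j => by have := hV j; linarith) tendsto_natCast_atTop_atTop
  have hlim := k_seq hCu hSl hΦ hsys hI hE k a ha v n hn hd hV1 hVt x
  have h2 := (tendsto_iff_norm_sub_tendsto_zero.1 hlim).eventually_lt_const hη
  obtain ⟨j, hj⟩ := h2.exists
  rw [Real.norm_eq_abs] at hj
  exact absurd hj (not_lt.2 (hbad j).le)

end Pool.Agent.Helper859_NL
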