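import Pool.Agent.Helper859_NL.StmK

set_option autoImplicit false

namespace Pool.Agent.Helper859_NL.Q01

open H974 Finset Pool.Agent.W819.EN Pool.Agent.W819.NC MeasureTheory
open Pool.Agent.Helper859_NL
open scoped Real

/-
`N ≤ 2 ^ N` turns `AMom` (s = 2) into CA: `Ex N ≤ C`; same for `Ex W ≤ C` from `h.wmom` (s = 2) for boxes `bx v (2 b) ⊆ S`.
CB: `N r' n ≤ N r n` (`h.geo.mono`); if `2 r' ≤ n`: `h.join F v r' r n` gives `N r n ≤ N r (2 r') + N r' n + W r'`, and `N r (2 r')`
is thin (ratio ≤ 2 M); if `n < 2 r'`: `N r n` is thin (ratio ≤ 2 M). CD: `N r R ≤ N r R'` (mono); if `2 r ≤ R` take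
`b = R / 2` (`r ≤ b`, `2 b ≤ R`): `N r R' ≤ N r (2 b) + N b R' + W b ≤ N r R + (N b R' + W b)`, `R' ≤ 3 M b`; if `R < 2 r`:
`N r R'` is thin (ratio ≤ 2 M). Use `Ex_mono ok2`, `Ex_add`, `bx_mono`. (`Sys` is in W819/NC/Stm.lean, helper lemmas in W819/NC/Help.lean.)
-/
theorem le_tp (n : ℕ) : (n : ℝ) ≤ 2 ^ n := by
  have h1 : n ≤ 2 ^ n := (Nat.lt_two_pow_self (n := n)).le
  have h2 : (n : ℝ) ≤ ((2 ^ n : ℕ) : ℝ) := by exact_mod_cast h1
  simpa using h2

theorem target {N : NT} {W : WT} {K : KT} (h : Sys N W K) (ha : AMom N) : CA N ∧ CB N ∧ CD N := by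
  have hCA : CA N := by
    intro M
    obtain ⟨C, hC, H⟩ := ha 2 (by norm_num) M
    refine ⟨C, hC.le, ?_⟩
    intro v r R S h1 h2 h3 h4
    refine (Ex_mono ok2 (fun F _ => ?_)).trans (H v r R S h1 h2 h3 h4)
    exact le_tp _
  have hCW : ∃ C : ℝ, 0 ≤ C ∧ ∀ (v : Vtx) (b : ℕ) (S : Finset Edg), 1 ≤ b →
      bx v (2 * b) ⊆ S → Ex P2 S (fun F => (W F v b : ℝ)) ≤ C := by
    obtain ⟨C, hC, H⟩ := h.wmom 2 (by norm_num)
    refine ⟨C, hC.le, ?_⟩
    intro v b S h1 h2
    refine (Ex_mono ok2 (fun F _ => ?_)).trans (H v b S h1 h2)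
    exact le_tp _
  obtain ⟨CW, hCW0, hW⟩ := hCW
  refine ⟨hCA, ?_, ?_⟩
  · intro M
    obtain ⟨C, hC, H⟩ := hCA (2 * M)
    refine ⟨C + CW, by positivity, ?_⟩
    intro v r r' n S h1 h2 h3 h4 h5
    have hM : ∀ F, N F v r' n ≤ N F v r n := fun F => h.geo.mono F v r' r n n h2 le_rfl
    by_cases hc : 2 * r' ≤ n
    · have hA := H v r (2 * r') S h1 (by omega) (by nlinarith)
        ((bx_mono v (by push_cast; omega)).trans h5)
      have hB := hW v r' S (by omega) ((bx_mono v (by omega)).trans h5)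
      calc Ex P2 S (fun F => |(N F v r n : ℝ) - N F v r' n|)
          ≤ Ex P2 S (fun F => (N F v r (2 * r') : ℝ) + (W F v r' : ℝ)) := by
            refine Ex_mono ok2 (fun F _ => ?_)
            have hj := h.join F v r' r n (by omega) h2 hc
            have hm := hM F
            have hj' : (N F v r n : ℝ) ≤ N F v r (2 * r') + N F v r' n + W F v r' := by
              exact_mod_cast hj
            have hm' : (N F v r' n : ℝ) ≤ N F v r n := by exact_mod_cast hm
            rw [abs_of_nonneg (by linarith)]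
            linarith
        _ = Ex P2 S (fun F => (N F v r (2 * r') : ℝ)) + Ex P2 S (fun F => (W F v r' : ℝ)) :=
            Ex_add _ _ _ _
        _ ≤ C + CW := add_le_add hA hB
    · have hA := H v r n S h1 (by omega) (by nlinarith) h5
      calc Ex P2 S (fun F => |(N F v r n : ℝ) - N F v r' n|)
          ≤ Ex P2 S (fun F => (N F v r n : ℝ)) := by
            refine Ex_mono ok2 (fun F _ => ?_)
            have hm := hM F
            have hm' : (N F v r' n : ℝ) ≤ N F v r n := by exact_mod_cast hm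
            have h0 : (0 : ℝ) ≤ N F v r' n := Nat.cast_nonneg _
            rw [abs_of_nonneg (by linarith)]
            linarith
        _ ≤ C + CW := by linarith
  · intro M
    obtain ⟨C, hC, H⟩ := hCA (3 * M)
    obtain ⟨C', hC', H'⟩ := hCA (2 * M)
    refine ⟨C + CW + C', by positivity, ?_⟩
    intro v r R R' S h1 h2 h3 h4 h5
    have hM : ∀ F, N F v r R ≤ N F v r R' := fun F => h.geo.mono F v r r R R' le_rfl h3
    by_cases hc : 2 * r ≤ R
    · obtain ⟨b, hb⟩ : ∃ b, b = R / 2 := ⟨_, rfl⟩
      have hb1 : r ≤ b := by omega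
      have hb2 : 2 * b ≤ R := by omega
      have hb3 : R ≤ 3 * b := by omega
      have hA := H v b R' S (by omega) (by omega) (by nlinarith) h5
      have hB := hW v b S (by omega) ((bx_mono v (by omega)).trans h5)
      calc Ex P2 S (fun F => |(N F v r R' : ℝ) - N F v r R|)
          ≤ Ex P2 S (fun F => (N F v b R' : ℝ) + (W F v b : ℝ)) := by
            refine Ex_mono ok2 (fun F _ => ?_)
            have hj := h.join F v b r R' (by omega) hb1 (by omega)
            have hk := h.geo.mono F v r r (2 * b) R le_rfl hb2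
            have hm := hM F
            have hj' : (N F v r R' : ℝ) ≤ N F v r (2 * b) + N F v b R' + W F v b := by
              exact_mod_cast hj
            have hk' : (N F v r (2 * b) : ℝ) ≤ N F v r R := by exact_mod_cast hk
            have hm' : (N F v r R : ℝ) ≤ N F v r R' := by exact_mod_cast hm
            rw [abs_of_nonneg (by linarith)]
            linarith
        _ = Ex P2 S (fun F => (N F v b R' : ℝ)) + Ex P2 S (fun F => (W F v b : ℝ)) :=
            Ex_add _ _ _ _
        _ ≤ C + CW + C' := by linarith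
    · have hA := H' v r R' S h1 (by omega) (by nlinarith) h5
      calc Ex P2 S (fun F => |(N F v r R' : ℝ) - N F v r R|)
          ≤ Ex P2 S (fun F => (N F v r R' : ℝ)) := by
            refine Ex_mono ok2 (fun F _ => ?_)
            have hm := hM F
            have hm' : (N F v r R : ℝ) ≤ N F v r R' := by exact_mod_cast hm
            have h0 : (0 : ℝ) ≤ N F v r R := Nat.cast_nonneg _
            rw [abs_of_nonneg (by linarith)]
            linarith
        _ ≤ C + CW + C' := by linarith

end Pool.Agent.Helper859_NL.Q01
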