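import Pool.Agent.Helper859_NL.StmK

set_option autoImplicit false

namespace Pool.Agent.Helper859_NL.Q02

open H974 Finset Pool.Agent.W819.EN Pool.Agent.W819.NC MeasureTheory
open Pool.Agent.Helper859_NL
open scoped Real

/-
If `n < 2 r` both numbers are thin (CA with M = 2). If `2 r ≤ n`: `h.incl F u v r n r` (`|u.i - v.i| ≤ ds u v ≤ r`) gives
`N u (r + r) n ≤ N v r (n + r)`; CB (M = 2) compares `N u r n` with `N u (r + r) n`, CD (M = 2) compares `N v r (n + r)` with `N v r n`.
So `N u r n ≤ N v r n + (nonnegative errors with bounded mean)`, and by symmetry the same with `u`, `v` exchanged; so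
`|N u r n - N v r n| ≤` the sum of the four absolute errors, pointwise; then `Ex_mono`, `Ex_add`.
-/
theorem target {N : NT} {W : WT} {K : KT} (h : Sys N W K) (hA : CA N) (hB : CB N) (hD : CD N) : CC N := by
  obtain ⟨CA', hCA0, hCA⟩ := hA 2
  obtain ⟨CB', hCB0, hCB⟩ := hB 2
  obtain ⟨CD', hCD0, hCD⟩ := hD 2
  refine ⟨CA' + CA' + (CB' + CD' + (CB' + CD')), by positivity, ?_⟩
  intro u v r n S hr hrn hds huS hvS
  have hu1 : bx u (n : ℤ) ⊆ S := (bx_mono u (by push_cast; omega)).trans huS
  have hv1 : bx v (n : ℤ) ⊆ S := (bx_mono v (by push_cast; omega)).trans hvS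
  rcases lt_or_ge n (2 * r) with hlt | hge
  · have h1 := hCA u r n S hr hrn hlt.le hu1
    have h2 := hCA v r n S hr hrn hlt.le hv1
    have h3 : Ex P2 S (fun F => |(N F u r n : ℝ) - N F v r n|) ≤
        Ex P2 S (fun F => (N F u r n : ℝ) + (N F v r n : ℝ)) := by
      refine Ex_mono ok2 ?_
      intro F _
      have a1 : (0:ℝ) ≤ N F u r n := Nat.cast_nonneg _
      have a2 : (0:ℝ) ≤ N F v r n := Nat.cast_nonneg _
      rw [abs_le]
      constructor <;> linarith
    rw [Ex_add] at h3
    linarith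
  · have hd1 : |u.1 - v.1| ≤ (r : ℤ) := (le_max_left _ _).trans hds
    have hd2 : |u.2 - v.2| ≤ (r : ℤ) := (le_max_right _ _).trans hds
    have hd1' : |v.1 - u.1| ≤ (r : ℤ) := by rw [abs_sub_comm]; exact hd1
    have hd2' : |v.2 - u.2| ≤ (r : ℤ) := by rw [abs_sub_comm]; exact hd2
    have hu2 : bx u ((n + r : ℕ) : ℤ) ⊆ S := (bx_mono u (by push_cast; omega)).trans huS
    have hv2 : bx v ((n + r : ℕ) : ℤ) ⊆ S := (bx_mono v (by push_cast; omega)).trans hvS
    have h1 := hCB u r (r + r) n S hr (by omega) (by omega) (by omega) hu1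
    have h2 := hCB v r (r + r) n S hr (by omega) (by omega) (by omega) hv1
    have h3 := hCD u r n (n + r) S hr hrn (by omega) (by omega) hu2
    have h4 := hCD v r n (n + r) S hr hrn (by omega) (by omega) hv2
    have h5 : Ex P2 S (fun F => |(N F u r n : ℝ) - N F v r n|) ≤
        Ex P2 S (fun F => (|(N F u r n : ℝ) - N F u (r + r) n| +
          |(N F v r (n + r) : ℝ) - N F v r n|) + (|(N F v r n : ℝ) - N F v (r + r) n| +
          |(N F u r (n + r) : ℝ) - N F u r n|)) := by
      refine Ex_mono ok2 ?_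
      intro F _
      have b1 : (N F u (r + r) n : ℝ) ≤ N F v r (n + r) := by
        exact_mod_cast h.incl F u v r n r hd1 hd2
      have b2 : (N F v (r + r) n : ℝ) ≤ N F u r (n + r) := by
        exact_mod_cast h.incl F v u r n r hd1' hd2'
      have c1 := le_abs_self ((N F u r n : ℝ) - N F u (r + r) n)
      have c2 := le_abs_self ((N F v r (n + r) : ℝ) - N F v r n)
      have c3 := le_abs_self ((N F v r n : ℝ) - N F v (r + r) n)
      have c4 := le_abs_self ((N F u r (n + r) : ℝ) - N F u r n)
      have d1 := abs_nonneg ((N F u r n : ℝ) - N F u (r + r) n)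
      have d2 := abs_nonneg ((N F v r (n + r) : ℝ) - N F v r n)
      have d3 := abs_nonneg ((N F v r n : ℝ) - N F v (r + r) n)
      have d4 := abs_nonneg ((N F u r (n + r) : ℝ) - N F u r n)
      rw [abs_le]
      constructor <;> linarith
    rw [Ex_add, Ex_add, Ex_add] at h5
    linarith

end Pool.Agent.Helper859_NL.Q02
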