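import Pool.Agent.Helper859_NL.StmK

set_option autoImplicit false

namespace Pool.Agent.Helper859_NL.Q03

open H974 Finset Pool.Agent.W819.EN Pool.Agent.W819.NC MeasureTheory
open Pool.Agent.Helper859_NL
open scoped Real

theorem nat_le_two_pow' (k : ℕ) : (k : ℝ) ≤ (2 : ℝ) ^ k := by
  have h : k ≤ 2 ^ k := Nat.le_of_lt Nat.lt_two_pow_self
  exact_mod_cast h

/-
`b = (r - 1) / 2`, so `ρ ≤ b`, `2 b ≤ r - 1`, `r ≤ 4 b`. `h.geo.super F v ρ (r-1) r n`: `N ρ (r-1) + N r n ≤ N ρ n`. And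
`h.join F v b ρ n`: `N ρ n ≤ N ρ (2 b) + N b n + W b ≤ N ρ (r-1) + N b n + W b` (`h.geo.mono`), and CB (M = 4) compares `N b n` with
`N r n`. `Ex W b ≤ C` from `h.wmom` with s = 2 (`W ≤ 2 ^ W`), `bx v (2 b) ⊆ bx v n ⊆ S`.
-/
theorem target {N : NT} {W : WT} {K : KT} (h : Sys N W K) (hB : CB N) : CE N := by
  obtain ⟨C1, hC1, H1⟩ := hB 4
  obtain ⟨C2, hC2, H2⟩ := h.wmom 2 (by norm_num)
  refine ⟨C1 + C2, by positivity, ?_⟩
  intro v ρ r n S hρ hr hrn hS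
  obtain ⟨b, hb⟩ : ∃ b : ℕ, b = (r - 1) / 2 := ⟨_, rfl⟩
  have hb1 : 1 ≤ b := by omega
  have hρb : ρ ≤ b := by omega
  have hbr : 2 * b ≤ r - 1 := by omega
  have hb4 : r ≤ 4 * b := by omega
  have hbr' : b ≤ r := by omega
  have hbn : 2 * b ≤ n := by omega
  have hcast : (2 * (b : ℤ)) ≤ (n : ℤ) := by exact_mod_cast hbn
  have hS2 : bx v (2 * (b : ℤ)) ⊆ S := (bx_mono v hcast).trans hS
  have e1 := H1 v b r n S hb1 hbr' hb4 hrn hS
  have e2 := H2 v b S hb1 hS2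
  have key : ∀ F : Finset Edg,
      |(N F v ρ n : ℝ) - N F v ρ (r - 1) - N F v r n| ≤
        |(N F v b n : ℝ) - N F v r n| + (2 : ℝ) ^ W F v b := by
    intro F
    have s1 : N F v ρ (r - 1) + N F v r n ≤ N F v ρ n :=
      h.geo.super F v ρ (r - 1) r n (by omega) (by omega) hrn
    have s2 : N F v ρ n ≤ N F v ρ (2 * b) + N F v b n + W F v b := h.join F v b ρ n hb1 hρb hbn
    have s3 : N F v ρ (2 * b) ≤ N F v ρ (r - 1) := h.geo.mono F v ρ ρ (2 * b) (r - 1) le_rfl hbr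
    have s1' : (N F v ρ (r - 1) : ℝ) + N F v r n ≤ N F v ρ n := by exact_mod_cast s1
    have s2' : (N F v ρ n : ℝ) ≤ N F v ρ (2 * b) + N F v b n + W F v b := by exact_mod_cast s2
    have s3' : (N F v ρ (2 * b) : ℝ) ≤ N F v ρ (r - 1) := by exact_mod_cast s3
    have s4 : (W F v b : ℝ) ≤ (2 : ℝ) ^ W F v b := nat_le_two_pow' _
    have s5 : (N F v b n : ℝ) - N F v r n ≤ |(N F v b n : ℝ) - N F v r n| := le_abs_self _
    rw [abs_of_nonneg (by linarith)]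
    linarith
  calc Ex P2 S (fun F => |(N F v ρ n : ℝ) - N F v ρ (r - 1) - N F v r n|)
      ≤ Ex P2 S (fun F => |(N F v b n : ℝ) - N F v r n| + (2 : ℝ) ^ W F v b) :=
        Ex_mono ok2 (fun F _ => key F)
    _ = Ex P2 S (fun F => |(N F v b n : ℝ) - N F v r n|) + Ex P2 S (fun F => (2 : ℝ) ^ W F v b) :=
        Ex_add _ _ _ _
    _ ≤ C1 + C2 := add_le_add e1 e2

end Pool.Agent.Helper859_NL.Q03
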