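import Pool.Agent.Helper859_NL.StmK

set_option autoImplicit false

namespace Pool.Agent.Helper859_NL.Q04

open H974 Finset Pool.Agent.W819.EN Pool.Agent.W819.NC MeasureTheory
open Pool.Agent.Helper859_NL
open scoped Real

theorem target {N : NT} (hA : CA N) : LT N := by
  intro K hK
  obtain ⟨A, hA0, hCA⟩ := hA 200
  have hlog : 0 ≤ Real.log 200 := Real.log_nonneg (by norm_num)
  have e1 : 0 ≤ K * A := mul_nonneg hK hA0
  have e2 : 0 ≤ K * Real.log 200 := mul_nonneg hK hlog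
  have e3 : 0 ≤ K ^ 2 * Real.log 200 := mul_nonneg (sq_nonneg K) hlog
  refine ⟨K * A + K * Real.log 200 + K ^ 2 * Real.log 200, by linarith, ?_⟩
  intro ι _ n ρ S s v a hc hn
  have hρ := hc.rho
  have hρn := hc.rn
  have hsa := hc.sa
  have hρ0 : (0 : ℝ) < ρ := by exact_mod_cast hρ
  have hρn' : (ρ : ℝ) ≤ n := by exact_mod_cast hρn
  have hn0 : (0 : ℝ) < n := hρ0.trans_le hρn'
  have hn' : (n : ℝ) ≤ 200 * ρ := by exact_mod_cast hn
  have hlogn0 : 0 ≤ Real.log ((n : ℝ) / ρ) :=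
    Real.log_nonneg (by rw [le_div_iff₀ hρ0]; linarith)
  have hlogn1 : Real.log ((n : ℝ) / ρ) ≤ Real.log 200 :=
    Real.log_le_log (div_pos hn0 hρ0) (by rw [div_le_iff₀ hρ0]; exact hn')
  refine ⟨by simp, by simp, by simp, by simp, by simp, by simp, ?_, ?_, ?_⟩
  · have h1 : Ex P2 S (fun F => |∑ i ∈ s, a i * (N F (v i) ρ n : ℝ) - bsum N [] F|) ≤
        Ex P2 S (fun F => ∑ i ∈ s, |a i| * (N F (v i) ρ n : ℝ)) := by
      refine Ex_mono ok2 ?_
      intro F _
      have hb : bsum N [] F = 0 := by simp [bsum]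
      rw [hb, sub_zero]
      refine (Finset.abs_sum_le_sum_abs _ _).trans ?_
      refine Finset.sum_le_sum fun i _ => ?_
      rw [abs_mul, Nat.abs_cast]
    have h2 : Ex P2 S (fun F => ∑ i ∈ s, |a i| * (N F (v i) ρ n : ℝ)) =
        ∑ i ∈ s, |a i| * Ex P2 S (fun F => (N F (v i) ρ n : ℝ)) := by
      rw [Ex_sum]
      refine Finset.sum_congr rfl fun i _ => ?_
      exact Ex_mul_left _ _ _ _
    have h3 : ∑ i ∈ s, |a i| * Ex P2 S (fun F => (N F (v i) ρ n : ℝ)) ≤ ∑ i ∈ s, |a i| * A := by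
      refine Finset.sum_le_sum fun i hi => ?_
      refine mul_le_mul_of_nonneg_left ?_ (abs_nonneg _)
      refine hCA (v i) ρ n S hρ hρn hn ?_
      refine (bx_mono (v i) ?_).trans (hc.inS i hi)
      push_cast
      omega
    have h4 : ∑ i ∈ s, |a i| * A ≤ K * A := by
      rw [← Finset.sum_mul]
      exact mul_le_mul_of_nonneg_right hsa hA0
    linarith
  · have hl : lsum [] = 0 := by simp [lsum]
    rw [hl, zero_sub, abs_neg, abs_mul, abs_of_nonneg hlogn0]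
    have h1 : |∑ i ∈ s, a i| ≤ K := (Finset.abs_sum_le_sum_abs _ _).trans hsa
    have h2 : |∑ i ∈ s, a i| * Real.log ((n : ℝ) / ρ) ≤ K * Real.log 200 :=
      mul_le_mul h1 hlogn1 hlogn0 hK
    linarith
  · have hq : qsum [] = 0 := by simp [qsum]
    rw [hq, zero_sub, abs_neg]
    have hg : ∀ i ∈ s, ∀ j ∈ s, |gg n ρ (v i) (v j)| ≤ Real.log 200 := by
      intro i hi j hj
      have hd : ((ds (v i) (v j) : ℤ) : ℝ) ≤ n := by exact_mod_cast hc.dn i hi j hj
      have m1 : (ρ : ℝ) ≤ max ((ds (v i) (v j) : ℤ) : ℝ) ρ := le_max_right _ _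
      have m2 : max ((ds (v i) (v j) : ℤ) : ℝ) ρ ≤ (n : ℝ) := max_le hd hρn'
      have m0 : 0 < max ((ds (v i) (v j) : ℤ) : ℝ) (ρ : ℝ) := hρ0.trans_le m1
      unfold gg
      have g0 : 0 ≤ Real.log ((n : ℝ) / max ((ds (v i) (v j) : ℤ) : ℝ) ρ) :=
        Real.log_nonneg (by rw [le_div_iff₀ m0]; linarith)
      rw [abs_of_nonneg g0]
      refine Real.log_le_log (div_pos hn0 m0) ?_
      rw [div_le_iff₀ m0]
      linarith
    have h1 : |∑ i ∈ s, ∑ j ∈ s, a i * a j * gg n ρ (v i) (v j)| ≤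
        ∑ i ∈ s, ∑ j ∈ s, |a i| * |a j| * Real.log 200 := by
      refine (Finset.abs_sum_le_sum_abs _ _).trans ?_
      refine Finset.sum_le_sum fun i hi => ?_
      refine (Finset.abs_sum_le_sum_abs _ _).trans ?_
      refine Finset.sum_le_sum fun j hj => ?_
      rw [abs_mul, abs_mul]
      exact mul_le_mul_of_nonneg_left (hg i hi j hj) (by positivity)
    have h2 : ∑ i ∈ s, ∑ j ∈ s, |a i| * |a j| * Real.log 200 =
        (∑ i ∈ s, |a i|) ^ 2 * Real.log 200 := by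
      rw [_root_.sq, Finset.sum_mul_sum, Finset.sum_mul]
      refine Finset.sum_congr rfl fun i _ => ?_
      rw [Finset.sum_mul]
    have h3 : (∑ i ∈ s, |a i|) ^ 2 ≤ K ^ 2 := by
      have h0 : 0 ≤ ∑ i ∈ s, |a i| := Finset.sum_nonneg fun i _ => abs_nonneg _
      gcongr
    have h4 : (∑ i ∈ s, |a i|) ^ 2 * Real.log 200 ≤ K ^ 2 * Real.log 200 :=
      mul_le_mul_of_nonneg_right h3 hlog
    linarith

end Pool.Agent.Helper859_NL.Q04
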