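import Pool.Agent.Helper859_NL.StmK

set_option autoImplicit false

namespace Pool.Agent.Helper859_NL.Q05

open H974 Finset Pool.Agent.W819.EN Pool.Agent.W819.NC MeasureTheory
open Pool.Agent.Helper859_NL
open scoped Real

theorem bxd {v w : Vtx} {r : ℕ} (h : 8 * (r : ℤ) ≤ ds v w) :
    Disjoint (bx v ((r : ℤ) - 1)) (bx w ((r : ℤ) - 1)) := by
  rw [Finset.disjoint_left]
  unfold ds at h
  have h' : 8 * (r : ℤ) ≤ |v.1 - w.1| ∨ 8 * (r : ℤ) ≤ |v.2 - w.2| := le_max_iff.1 h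
  have h2 : (8 * (r : ℤ) ≤ v.1 - w.1 ∨ 8 * (r : ℤ) ≤ -(v.1 - w.1)) ∨
      (8 * (r : ℤ) ≤ v.2 - w.2 ∨ 8 * (r : ℤ) ≤ -(v.2 - w.2)) :=
    h'.imp le_abs.1 le_abs.1
  rintro ⟨x, y, _ | _⟩ he he'
  · simp only [bx, mem_RE_false] at he he'
    omega
  · simp only [bx, mem_RE_true] at he he'
    omega

theorem gg_self (n ρ : ℕ) (u : Vtx) : gg n ρ u u = Real.log ((n : ℝ) / ρ) := by
  unfold gg ds
  simp

theorem gg_eq {n ρ r : ℕ} {u w : Vtx} (hρ : ρ ≤ r) (h : 8 * (r : ℤ) ≤ ds u w) :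
    gg n ρ u w = gg n r u w := by
  unfold gg
  have h1 : ((r : ℤ)) ≤ ds u w := by omega
  have h2 : ((ρ : ℤ)) ≤ ds u w := by omega
  have h3 : (r : ℝ) ≤ (ds u w : ℝ) := by exact_mod_cast h1
  have h4 : (ρ : ℝ) ≤ (ds u w : ℝ) := by exact_mod_cast h2
  rw [max_eq_left h3, max_eq_left h4]

theorem log_aux {n ρ r : ℕ} (hρ : 1 ≤ ρ) (h4 : 4 * ρ ≤ r) (hrn : r ≤ n) :
    |Real.log (((r - 1 : ℕ) : ℝ) / ρ) + Real.log ((n : ℝ) / r) - Real.log ((n : ℝ) / ρ)| ≤ 1 := by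
  have hr1 : 1 ≤ r := by omega
  have hρ' : (0 : ℝ) < ρ := by exact_mod_cast hρ
  have hr' : (0 : ℝ) < r := by exact_mod_cast hr1
  have hn' : (0 : ℝ) < n := by exact_mod_cast (hr1.trans hrn)
  have hr4 : (4 : ℝ) ≤ r := by
    have : 4 ≤ r := by omega
    exact_mod_cast this
  have hcast : ((r - 1 : ℕ) : ℝ) = (r : ℝ) - 1 := by
    rw [Nat.cast_sub hr1, Nat.cast_one]
  have hr2 : (0 : ℝ) < (r : ℝ) - 1 := by linarith
  rw [hcast, Real.log_div hr2.ne' hρ'.ne', Real.log_div hn'.ne' hr'.ne',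
    Real.log_div hn'.ne' hρ'.ne']
  have e1 : Real.log ((r : ℝ) - 1) ≤ Real.log r := Real.log_le_log hr2 (by linarith)
  have e2 : Real.log ((r : ℝ) / ((r : ℝ) - 1)) ≤ (r : ℝ) / ((r : ℝ) - 1) - 1 :=
    Real.log_le_sub_one_of_pos (div_pos hr' hr2)
  rw [Real.log_div hr'.ne' hr2.ne'] at e2
  have e3 : (r : ℝ) / ((r : ℝ) - 1) - 1 ≤ 1 := by
    have : (r : ℝ) / ((r : ℝ) - 1) ≤ 2 := by
      rw [div_le_iff₀ hr2]
      linarith
    linarith
  rw [abs_le]
  constructor <;> linarith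

/-
Write `l' = s.toList.map (fun i => ⟨v i, ρ, r - 1, a i⟩)`. `len`, `rad` (`1 ≤ ρ ≤ r - 1`), `sub` (`bx_mono`), `coe` (`|a i| ≤ ∑ |a| ≤ K`, given).
`dis`: `List.pairwise_append`; inside `l'`: the boxes `bx (v i) (r-1)` are disjoint as `ds ≥ 8 r` (unfold `bx`, `mem_RE_true/false`,
`ds`, omega; see `bx_disj` in Pool/Agent/W460/NC/TWO2.lean), `s.nodup_toList`, `List.pairwise_map`; between `l'` and `l`: `an (v i) ρ (r-1) ⊆
bx (v i) (r-1)` and the field `avo` of the hypothesis. `avo`: `an_disj` for the new blocks (i = j), disjoint boxes (i ≠ j), `bx_mono` for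
the old ones. `err`: `∑ a i N ρ n - bsum (l' ++ l) = ∑ a i (N ρ n - N ρ (r-1) - N r n) + (∑ a i N r n - bsum l)`; CE and the hypothesis
give `≤ K C_E + C₀`. `mean`: `lsum (l' ++ l) = ∑ a i log ((r-1)/ρ) + lsum l`, `log (n/ρ) = log (n/r) + log (r/ρ)`, `0 ≤ log (r/(r-1)) ≤
log 2`: error `≤ K log 2 + C₀`. `var`: for `i ≠ j`: `gg n ρ = gg n r` (`ds ≥ r ≥ ρ`); for `i = j` (`ds = 0`): `gg n ρ = log (n/ρ)`,
`gg n r = log (n/r)`; so `∑∑ a a gg n ρ = ∑∑ a a gg n r + ∑ a i^2 log (r/ρ)`, error `≤ K^2 log 2 + C₀` (`∑ a i^2 ≤ K^2`).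
-/
theorem target {N : NT} (hE : CE N) : LI N := by
  intro K C₀ hK hC₀
  obtain ⟨CE', hCE0, hCE⟩ := hE
  refine ⟨K * CE' + C₀ + K + K ^ 2, by positivity, ?_⟩
  intro ι _ n ρ r m S s v a l hc h4 hrn hds hg
  have hρ := hc.rho
  have hr1 : 1 ≤ r := by omega
  have hcast : ((r - 1 : ℕ) : ℤ) = (r : ℤ) - 1 := by omega
  have habs : ∀ i ∈ s, |a i| ≤ K := fun i hi =>
    (Finset.single_le_sum (f := fun i => |a i|) (fun j _ => abs_nonneg _) hi).trans hc.sa
  have hdis : ∀ i ∈ s, ∀ j ∈ s, i ≠ j →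
      Disjoint (bx (v i) ((r : ℤ) - 1)) (bx (v j) ((r : ℤ) - 1)) :=
    fun i hi j hj hij => bxd (hds i hi j hj hij)
  have hansub : ∀ i, an (v i) ρ (r - 1) ⊆ bx (v i) ((r : ℤ) - 1) := by
    intro i
    have h := an_sub (v := v i) (r := ρ) (R := r - 1)
    rwa [hcast] at h
  have hlist : ∀ f : ι → ℝ, (s.toList.map f).sum = ∑ i ∈ s, f i := fun f =>
    Finset.sum_map_toList s f
  have hlog := log_aux hρ h4 hrn
  have hbs : ∀ F, bsum N (s.toList.map (fun i => (⟨v i, ρ, r - 1, a i⟩ : Blk)) ++ l) F =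
      ∑ i ∈ s, a i * (N F (v i) ρ (r - 1) : ℝ) + bsum N l F := by
    intro F
    unfold bsum
    rw [List.map_append, List.sum_append, List.map_map]
    congr 1
    exact hlist _
  have hls : lsum (s.toList.map (fun i => (⟨v i, ρ, r - 1, a i⟩ : Blk)) ++ l) =
      ∑ i ∈ s, a i * Real.log (((r - 1 : ℕ) : ℝ) / ρ) + lsum l := by
    unfold lsum
    rw [List.map_append, List.sum_append, List.map_map]
    congr 1
    exact hlist _
  have hqs : qsum (s.toList.map (fun i => (⟨v i, ρ, r - 1, a i⟩ : Blk)) ++ l) =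
      ∑ i ∈ s, a i ^ 2 * Real.log (((r - 1 : ℕ) : ℝ) / ρ) + qsum l := by
    unfold qsum
    rw [List.map_append, List.sum_append, List.map_map]
    congr 1
    exact hlist _
  have hmem : ∀ B ∈ s.toList.map (fun i => (⟨v i, ρ, r - 1, a i⟩ : Blk)) ++ l,
      (∃ i ∈ s, B = ⟨v i, ρ, r - 1, a i⟩) ∨ B ∈ l := by
    intro B hB
    rcases List.mem_append.1 hB with hB | hB
    · left
      obtain ⟨i, hi, rfl⟩ := List.mem_map.1 hB
      exact ⟨i, Finset.mem_toList.1 hi, rfl⟩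
    · exact Or.inr hB
  refine ⟨?_, ?_, ?_, ?_, ?_, ?_, ?_, ?_, ?_⟩
  · -- len
    rw [List.length_append, List.length_map, Finset.length_toList]
    have := hg.len
    omega
  · -- rad
    intro B hB
    rcases hmem B hB with ⟨i, hi, rfl⟩ | hB
    · exact ⟨hρ, by show ρ ≤ r - 1; omega⟩
    · exact hg.rad B hB
  · -- sub
    intro B hB
    rcases hmem B hB with ⟨i, hi, rfl⟩ | hB
    · refine (bx_mono (v i) ?_).trans (hc.inS i hi)
      show ((r - 1 : ℕ) : ℤ) ≤ ((1000 * n : ℕ) : ℤ)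
      omega
    · exact hg.sub B hB
  · -- coe
    intro B hB
    rcases hmem B hB with ⟨i, hi, rfl⟩ | hB
    · exact habs i hi
    · exact hg.coe B hB
  · -- dis
    rw [List.pairwise_append]
    refine ⟨?_, hg.dis, ?_⟩
    · rw [List.pairwise_map]
      have hnd : s.toList.Pairwise (fun i j => i ≠ j) := s.nodup_toList
      refine List.Pairwise.imp_of_mem ?_ hnd
      intro i j hi hj hij
      exact Finset.disjoint_of_subset_left (hansub i) (Finset.disjoint_of_subset_right (hansub j)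
        (hdis i (Finset.mem_toList.1 hi) j (Finset.mem_toList.1 hj) hij))
    · intro B hB B' hB'
      obtain ⟨i, hi, rfl⟩ := List.mem_map.1 hB
      exact Finset.disjoint_of_subset_left (hansub i)
        (hg.avo B' hB' i (Finset.mem_toList.1 hi)).symm
  · -- avo
    intro B hB j hj
    rcases hmem B hB with ⟨i, hi, rfl⟩ | hB
    · by_cases hij : i = j
      · subst hij
        exact an_disj le_rfl
      · refine Finset.disjoint_of_subset_left (hansub i)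
          (Finset.disjoint_of_subset_right (bx_mono (v j) ?_) (hdis i hi j hj hij))
        omega
    · refine Finset.disjoint_of_subset_right (bx_mono (v j) ?_) (hg.avo B hB j hj)
      omega
  · -- err
    have e1 : ∀ F, |∑ i ∈ s, a i * (N F (v i) ρ n : ℝ) -
        bsum N (s.toList.map (fun i => (⟨v i, ρ, r - 1, a i⟩ : Blk)) ++ l) F| ≤
        ∑ i ∈ s, |a i| * |(N F (v i) ρ n : ℝ) - N F (v i) ρ (r - 1) - N F (v i) r n| +
        |∑ i ∈ s, a i * (N F (v i) r n : ℝ) - bsum N l F| := by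
      intro F
      rw [hbs F]
      have e2 : ∑ i ∈ s, a i * (N F (v i) ρ n : ℝ) -
          (∑ i ∈ s, a i * (N F (v i) ρ (r - 1) : ℝ) + bsum N l F) =
          ∑ i ∈ s, a i * ((N F (v i) ρ n : ℝ) - N F (v i) ρ (r - 1) - N F (v i) r n) +
          (∑ i ∈ s, a i * (N F (v i) r n : ℝ) - bsum N l F) := by
        simp only [mul_sub, Finset.sum_sub_distrib]
        ring
      rw [e2]
      refine (abs_add_le _ _).trans (add_le_add ?_ le_rfl)
      exact (Finset.abs_sum_le_sum_abs _ _).trans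
        (Finset.sum_le_sum fun i _ => (abs_mul _ _).le)
    have e3 : Ex P2 S (fun F =>
        ∑ i ∈ s, |a i| * |(N F (v i) ρ n : ℝ) - N F (v i) ρ (r - 1) - N F (v i) r n| +
        |∑ i ∈ s, a i * (N F (v i) r n : ℝ) - bsum N l F|) =
        ∑ i ∈ s, |a i| * Ex P2 S (fun F =>
          |(N F (v i) ρ n : ℝ) - N F (v i) ρ (r - 1) - N F (v i) r n|) +
        Ex P2 S (fun F => |∑ i ∈ s, a i * (N F (v i) r n : ℝ) - bsum N l F|) := by
      rw [Ex_add, Ex_sum]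
      congr 1
      refine Finset.sum_congr rfl fun i _ => ?_
      exact Ex_mul_left _ _ _ _
    have e4 : ∀ i ∈ s, |a i| * Ex P2 S (fun F =>
          |(N F (v i) ρ n : ℝ) - N F (v i) ρ (r - 1) - N F (v i) r n|) ≤ |a i| * CE' := by
      intro i hi
      refine mul_le_mul_of_nonneg_left (hCE (v i) ρ r n S hρ h4 hrn ?_) (abs_nonneg _)
      refine (bx_mono (v i) ?_).trans (hc.inS i hi)
      omega
    have e5 : (∑ i ∈ s, |a i|) * CE' ≤ K * CE' := mul_le_mul_of_nonneg_right hc.sa hCE0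
    have e6 : ∑ i ∈ s, |a i| * Ex P2 S (fun F =>
          |(N F (v i) ρ n : ℝ) - N F (v i) ρ (r - 1) - N F (v i) r n|) ≤ K * CE' := by
      refine (Finset.sum_le_sum e4).trans ?_
      rw [← Finset.sum_mul]
      exact e5
    have e7 := hg.err
    have e8 : Ex P2 S (fun F => |∑ i ∈ s, a i * (N F (v i) ρ n : ℝ) -
        bsum N (s.toList.map (fun i => (⟨v i, ρ, r - 1, a i⟩ : Blk)) ++ l) F|) ≤ _ :=
      Ex_mono ok2 (fun F _ => e1 F)
    rw [e3] at e8
    have e9 : 0 ≤ K ^ 2 := sq_nonneg K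
    linarith
  · -- mean
    rw [hls, ← Finset.sum_mul]
    have e1 := hg.mean
    have e2 : |∑ i ∈ s, a i| ≤ K := (Finset.abs_sum_le_sum_abs _ _).trans hc.sa
    have e3 : (∑ i ∈ s, a i) * Real.log (((r - 1 : ℕ) : ℝ) / ρ) + lsum l -
        (∑ i ∈ s, a i) * Real.log ((n : ℝ) / ρ) =
        (∑ i ∈ s, a i) * (Real.log (((r - 1 : ℕ) : ℝ) / ρ) + Real.log ((n : ℝ) / r) -
          Real.log ((n : ℝ) / ρ)) + (lsum l - (∑ i ∈ s, a i) * Real.log ((n : ℝ) / r)) := by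
      ring
    rw [e3]
    have e4 : |(∑ i ∈ s, a i) * (Real.log (((r - 1 : ℕ) : ℝ) / ρ) + Real.log ((n : ℝ) / r) -
          Real.log ((n : ℝ) / ρ))| ≤ K * 1 := by
      rw [abs_mul]
      exact mul_le_mul e2 hlog (abs_nonneg _) hK
    have e5 := abs_add_le ((∑ i ∈ s, a i) * (Real.log (((r - 1 : ℕ) : ℝ) / ρ) +
      Real.log ((n : ℝ) / r) - Real.log ((n : ℝ) / ρ)))
      (lsum l - (∑ i ∈ s, a i) * Real.log ((n : ℝ) / r))
    have e6 : 0 ≤ K * CE' := mul_nonneg hK hCE0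
    have e7 : 0 ≤ K ^ 2 := sq_nonneg K
    linarith
  · -- var
    rw [hqs]
    have e0 := hg.var
    have e1 : ∑ i ∈ s, ∑ j ∈ s, a i * a j * gg n ρ (v i) (v j) =
        ∑ i ∈ s, ∑ j ∈ s, a i * a j * gg n r (v i) (v j) +
        ∑ i ∈ s, a i ^ 2 * (Real.log ((n : ℝ) / ρ) - Real.log ((n : ℝ) / r)) := by
      rw [← Finset.sum_add_distrib]
      refine Finset.sum_congr rfl fun i hi => ?_
      have e2 : ∑ j ∈ s, a i * a j * gg n ρ (v i) (v j) -
          ∑ j ∈ s, a i * a j * gg n r (v i) (v j) =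
          a i ^ 2 * (Real.log ((n : ℝ) / ρ) - Real.log ((n : ℝ) / r)) := by
        rw [← Finset.sum_sub_distrib, Finset.sum_eq_single i]
        · rw [gg_self, gg_self]
          ring
        · intro j hj hji
          rw [gg_eq (n := n) (by omega : ρ ≤ r) (hds i hi j hj (Ne.symm hji))]
          ring
        · exact fun h => absurd hi h
      linarith
    rw [e1]
    have e3 : ∑ i ∈ s, a i ^ 2 * Real.log (((r - 1 : ℕ) : ℝ) / ρ) + qsum l -
        (∑ i ∈ s, ∑ j ∈ s, a i * a j * gg n r (v i) (v j) +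
        ∑ i ∈ s, a i ^ 2 * (Real.log ((n : ℝ) / ρ) - Real.log ((n : ℝ) / r))) =
        (∑ i ∈ s, a i ^ 2) * (Real.log (((r - 1 : ℕ) : ℝ) / ρ) + Real.log ((n : ℝ) / r) -
          Real.log ((n : ℝ) / ρ)) +
        (qsum l - ∑ i ∈ s, ∑ j ∈ s, a i * a j * gg n r (v i) (v j)) := by
      rw [← Finset.sum_mul, ← Finset.sum_mul]
      ring
    rw [e3]
    have e4 : ∑ i ∈ s, a i ^ 2 ≤ K ^ 2 := by
      have f1 : ∀ i ∈ s, a i ^ 2 ≤ |a i| * K := by
        intro i hi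
        rw [← sq_abs, sq]
        exact mul_le_mul_of_nonneg_left (habs i hi) (abs_nonneg _)
      refine (Finset.sum_le_sum f1).trans ?_
      rw [← Finset.sum_mul, sq]
      exact mul_le_mul_of_nonneg_right hc.sa hK
    have e5 : 0 ≤ ∑ i ∈ s, a i ^ 2 := Finset.sum_nonneg fun i _ => sq_nonneg _
    have e6 : |(∑ i ∈ s, a i ^ 2) * (Real.log (((r - 1 : ℕ) : ℝ) / ρ) +
        Real.log ((n : ℝ) / r) - Real.log ((n : ℝ) / ρ))| ≤ K ^ 2 * 1 := by
      rw [abs_mul, abs_of_nonneg e5]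
      exact mul_le_mul e4 hlog (abs_nonneg _) (sq_nonneg K)
    have e7 := abs_add_le ((∑ i ∈ s, a i ^ 2) * (Real.log (((r - 1 : ℕ) : ℝ) / ρ) +
      Real.log ((n : ℝ) / r) - Real.log ((n : ℝ) / ρ)))
      (qsum l - ∑ i ∈ s, ∑ j ∈ s, a i * a j * gg n r (v i) (v j))
    have e8 : 0 ≤ K * CE' := mul_nonneg hK hCE0
    linarith

end Pool.Agent.Helper859_NL.Q05
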