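import Pool.Agent.Helper859_NL.StmK

set_option autoImplicit false

namespace Pool.Agent.Helper859_NL.Q06

open H974 Finset Pool.Agent.W819.EN Pool.Agent.W819.NC MeasureTheory
open Pool.Agent.Helper859_NL
open scoped Real

theorem ds_comm (u w : Vtx) : ds u w = ds w u := by
  unfold ds
  rw [abs_sub_comm u.1, abs_sub_comm u.2]

theorem ds_self (u : Vtx) : ds u u = 0 := by simp [ds]

theorem ds_nonneg (u w : Vtx) : 0 ≤ ds u w := le_max_of_le_left (abs_nonneg _)

theorem ds_tri (u x w : Vtx) : ds u w ≤ ds u x + ds x w := by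
  unfold ds
  refine max_le ?_ ?_
  · exact (abs_sub_le _ x.1 _).trans (add_le_add (le_max_left _ _) (le_max_left _ _))
  · exact (abs_sub_le _ x.2 _).trans (add_le_add (le_max_right _ _) (le_max_right _ _))

theorem le1 (u w : Vtx) : |u.1 - w.1| ≤ ds u w := le_max_left _ _

theorem le2 (u w : Vtx) : |u.2 - w.2| ≤ ds u w := le_max_right _ _

/-- the sum after merging -/
theorem sum_merge {ι : Type} [DecidableEq ι] {s : Finset ι} {p q : ι} (hp : p ∈ s) (hq : q ∈ s)
    (hpq : p ≠ q) (a f : ι → ℝ) :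
    ∑ i ∈ s.erase q, Function.update a p (a p + a q) i * f i =
      ∑ i ∈ s, a i * f (if i = q then p else i) := by
  have hp' : p ∈ s.erase q := Finset.mem_erase.2 ⟨hpq, hp⟩
  have h1 : ∑ i ∈ (s.erase q).erase p, Function.update a p (a p + a q) i * f i =
      ∑ i ∈ (s.erase q).erase p, a i * f (if i = q then p else i) := by
    refine Finset.sum_congr rfl fun i hi => ?_
    have h1 : i ≠ p := Finset.ne_of_mem_erase hi
    have h2 : i ≠ q := Finset.ne_of_mem_erase (Finset.mem_of_mem_erase hi)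
    rw [Function.update_of_ne h1, if_neg h2]
  have h2 := Finset.add_sum_erase (s.erase q) (fun i => Function.update a p (a p + a q) i * f i) hp'
  have h3 := Finset.add_sum_erase (s.erase q) (fun i => a i * f (if i = q then p else i)) hp'
  have h4 := Finset.add_sum_erase s (fun i => a i * f (if i = q then p else i)) hq
  simp only [if_neg hpq, Function.update_self, if_true] at h2 h3 h4
  rw [← h2, ← h4, ← h3, h1]
  ring

theorem log_cmp {n : ℕ} (hn : 1 ≤ n) {x y M : ℝ} (hx : 0 < x) (hy : 0 < y) (hM : 0 < M)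
    (h1 : x ≤ M * y) (h2 : y ≤ M * x) :
    |Real.log ((n : ℝ) / x) - Real.log ((n : ℝ) / y)| ≤ Real.log M := by
  have hn' : (n : ℝ) ≠ 0 := by
    have : (0 : ℝ) < n := by exact_mod_cast hn
    exact this.ne'
  rw [Real.log_div hn' hx.ne', Real.log_div hn' hy.ne']
  have a1 := Real.log_le_log hx h1
  have a2 := Real.log_le_log hy h2
  rw [Real.log_mul hM.ne' hy.ne'] at a1
  rw [Real.log_mul hM.ne' hx.ne'] at a2
  rw [abs_le]
  constructor <;> linarith

theorem gg_cmp {n ρ ρ' : ℕ} (hρ : 1 ≤ ρ) (hn : 1 ≤ n) {u w u' w' : Vtx}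
    (h1 : ds u u' + ρ ≤ ρ') (h2 : ds w w' + ρ ≤ ρ') (h3 : ρ' ≤ 100 * ρ) :
    |gg n ρ u w - gg n ρ' u' w'| ≤ Real.log 400 := by
  have t1 : ds u w ≤ ds u' w' + 2 * ρ' := by
    have a := ds_tri u u' w
    have b := ds_tri u' w' w
    rw [ds_comm w' w] at b
    have c : (0 : ℤ) ≤ ρ := Int.natCast_nonneg _
    linarith
  have t2 : ds u' w' ≤ ds u w + 2 * ρ' := by
    have a := ds_tri u' u w'
    have b := ds_tri u w w'
    rw [ds_comm u' u] at a
    have c : (0 : ℤ) ≤ ρ := Int.natCast_nonneg _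
    linarith
  have t1' : (ds u w : ℝ) ≤ ds u' w' + 2 * ρ' := by exact_mod_cast t1
  have t2' : (ds u' w' : ℝ) ≤ ds u w + 2 * ρ' := by exact_mod_cast t2
  have r1 : (1 : ℝ) ≤ ρ := by exact_mod_cast hρ
  have r3 : (ρ' : ℝ) ≤ 100 * ρ := by exact_mod_cast h3
  have r2 : (ρ : ℝ) ≤ ρ' := by
    have : (ρ : ℤ) ≤ ρ' := by
      have := ds_nonneg u u'
      linarith
    exact_mod_cast this
  unfold gg
  have x1 := le_max_left (ds u w : ℝ) (ρ : ℝ)
  have x2 := le_max_right (ds u w : ℝ) (ρ : ℝ)
  have y1 := le_max_left (ds u' w' : ℝ) (ρ' : ℝ)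
  have y2 := le_max_right (ds u' w' : ℝ) (ρ' : ℝ)
  refine log_cmp hn (by linarith) (by linarith) (by norm_num) ?_ ?_
  · refine max_le ?_ ?_ <;> linarith
  · refine max_le ?_ ?_ <;> linarith

theorem target {N : NT} (hB : CB N) (hC : CC N) : LM N := by
  intro K C₀ hK hC₀
  obtain ⟨c1, hc1, hB⟩ := hB 100
  obtain ⟨c2, hc2, hC⟩ := hC
  have hl : 0 ≤ Real.log 400 := Real.log_nonneg (by norm_num)
  have hKc : 0 ≤ K * (c1 + c2) := mul_nonneg hK (add_nonneg hc1 hc2)
  have hKl : 0 ≤ K * Real.log 400 := mul_nonneg hK hl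
  have hKl2 : 0 ≤ K ^ 2 * Real.log 400 := mul_nonneg (sq_nonneg K) hl
  refine ⟨C₀ + K * (c1 + c2) + K * Real.log 400 + K ^ 2 * Real.log 400, by linarith, ?_⟩
  intro ι _ n ρ ρ' m S s v a l p q cfg hp hq hpq hn hd h100 h
  have hρ := cfg.rho
  have hn1 : 1 ≤ n := hρ.trans cfg.rn
  have hρρ : ρ ≤ ρ' := by
    have h1 := ds_nonneg (v p) (v q)
    have h2 : (ρ : ℤ) ≤ ρ' := by linarith
    exact_mod_cast h2
  have hρ' : 1 ≤ ρ' := hρ.trans hρρ
  have hσm : ∀ i ∈ s, (if i = q then p else i) ∈ s.erase q := by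
    intro i hi
    split_ifs with h1
    · exact Finset.mem_erase.2 ⟨hpq, hp⟩
    · exact Finset.mem_erase.2 ⟨h1, hi⟩
  have hσd : ∀ i, ds (v i) (v (if i = q then p else i)) + ρ ≤ ρ' := by
    intro i
    split_ifs with h1
    · rw [h1, ds_comm]
      exact hd
    · rw [ds_self, zero_add]
      exact_mod_cast hρρ
  have sm := fun f => sum_merge hp hq hpq a f
  refine ⟨h.len, h.rad, h.sub, h.coe, h.dis, ?_, ?_, ?_, ?_⟩
  · intro B hBl i hi
    refine Disjoint.mono_right ?_ (h.avo B hBl _ (hσm i hi))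
    have h1 := hσd i
    have h2 := le1 (v i) (v (if i = q then p else i))
    have h3 := le2 (v i) (v (if i = q then p else i))
    exact bx_sub (by linarith) (by linarith)
  · have hpt : ∀ F : Finset Edg, F ⊆ S → |∑ i ∈ s, a i * (N F (v i) ρ n : ℝ) - bsum N l F| ≤
        |∑ i ∈ s.erase q, Function.update a p (a p + a q) i * (N F (v i) ρ' n : ℝ) - bsum N l F| +
        ∑ i ∈ s, |a i| * (|(N F (v i) ρ n : ℝ) - N F (v i) ρ' n| +
          |(N F (v i) ρ' n : ℝ) - N F (v (if i = q then p else i)) ρ' n|) := by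
      intro F _
      rw [sm (fun i => (N F (v i) ρ' n : ℝ))]
      have e : ∑ i ∈ s, a i * (N F (v i) ρ n : ℝ) - bsum N l F =
          (∑ i ∈ s, a i * (N F (v (if i = q then p else i)) ρ' n : ℝ) - bsum N l F) +
          ∑ i ∈ s, a i * ((N F (v i) ρ n : ℝ) - N F (v (if i = q then p else i)) ρ' n) := by
        simp only [mul_sub, Finset.sum_sub_distrib]
        ring
      rw [e]
      refine (abs_add_le _ _).trans (add_le_add le_rfl ?_)
      refine (Finset.abs_sum_le_sum_abs _ _).trans (Finset.sum_le_sum fun i _ => ?_)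
      rw [abs_mul]
      exact mul_le_mul_of_nonneg_left (abs_sub_le _ _ _) (abs_nonneg _)
    refine (Ex_mono ok2 hpt).trans ?_
    rw [Ex_add, Ex_sum]
    have hsum : ∑ i ∈ s, Ex P2 S (fun F => |a i| * (|(N F (v i) ρ n : ℝ) - N F (v i) ρ' n| +
          |(N F (v i) ρ' n : ℝ) - N F (v (if i = q then p else i)) ρ' n|)) ≤ K * (c1 + c2) := by
      calc ∑ i ∈ s, Ex P2 S (fun F => |a i| * (|(N F (v i) ρ n : ℝ) - N F (v i) ρ' n| +
          |(N F (v i) ρ' n : ℝ) - N F (v (if i = q then p else i)) ρ' n|))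
          ≤ ∑ i ∈ s, |a i| * (c1 + c2) := Finset.sum_le_sum fun i hi => by
            rw [Ex_mul_left, Ex_add]
            refine mul_le_mul_of_nonneg_left (add_le_add ?_ ?_) (abs_nonneg _)
            · exact hB (v i) ρ ρ' n S hρ hρρ h100 hn
                ((bx_mono (v i) (by push_cast; omega)).trans (cfg.inS i hi))
            · refine hC (v i) (v (if i = q then p else i)) ρ' n S hρ' hn ?_
                ((bx_mono (v i) (by push_cast; omega)).trans (cfg.inS i hi))
                ((bx_mono _ (by push_cast; omega)).trans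
                  (cfg.inS _ (Finset.mem_of_mem_erase (hσm i hi))))
              have h1 := hσd i
              have h2 : (0 : ℤ) ≤ ρ := Int.natCast_nonneg _
              linarith
        _ = (∑ i ∈ s, |a i|) * (c1 + c2) := by rw [Finset.sum_mul]
        _ ≤ K * (c1 + c2) := mul_le_mul_of_nonneg_right cfg.sa (add_nonneg hc1 hc2)
    have := h.err
    linarith
  · have e1 : ∑ i ∈ s.erase q, Function.update a p (a p + a q) i = ∑ i ∈ s, a i := by
      simpa using sm (fun _ => 1)
    have h1 := h.mean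
    rw [e1] at h1
    have r1 : (1 : ℝ) ≤ ρ := by exact_mod_cast hρ
    have r2 : (ρ : ℝ) ≤ ρ' := by exact_mod_cast hρρ
    have r3 : (ρ' : ℝ) ≤ 100 * ρ := by exact_mod_cast h100
    have e2 : |Real.log ((n : ℝ) / ρ) - Real.log ((n : ℝ) / ρ')| ≤ Real.log 400 :=
      log_cmp hn1 (by linarith) (by linarith) (by norm_num) (by linarith) (by linarith)
    have e3 : |∑ i ∈ s, a i| ≤ K := (Finset.abs_sum_le_sum_abs _ _).trans cfg.sa
    have e4 : lsum l - (∑ i ∈ s, a i) * Real.log ((n : ℝ) / ρ) =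
        (lsum l - (∑ i ∈ s, a i) * Real.log ((n : ℝ) / ρ')) -
          (∑ i ∈ s, a i) * (Real.log ((n : ℝ) / ρ) - Real.log ((n : ℝ) / ρ')) := by ring
    rw [e4]
    refine (abs_sub _ _).trans ?_
    rw [abs_mul]
    have e5 := mul_le_mul e3 e2 (abs_nonneg _) hK
    linarith
  · have e1 : ∑ i ∈ s.erase q, ∑ j ∈ s.erase q, Function.update a p (a p + a q) i *
        Function.update a p (a p + a q) j * gg n ρ' (v i) (v j) =
        ∑ i ∈ s, ∑ j ∈ s, a i * a j *
          gg n ρ' (v (if i = q then p else i)) (v (if j = q then p else j)) := by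
      have h1 : ∀ i, ∑ j ∈ s.erase q, Function.update a p (a p + a q) i *
          Function.update a p (a p + a q) j * gg n ρ' (v i) (v j) =
          Function.update a p (a p + a q) i *
            ∑ j ∈ s, a j * gg n ρ' (v i) (v (if j = q then p else j)) := by
        intro i
        rw [← sm (fun j => gg n ρ' (v i) (v j)), Finset.mul_sum]
        exact Finset.sum_congr rfl fun j _ => by ring
      rw [Finset.sum_congr rfl (fun i _ => h1 i),
        sm (fun i => ∑ j ∈ s, a j * gg n ρ' (v i) (v (if j = q then p else j)))]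
      refine Finset.sum_congr rfl fun i _ => ?_
      rw [Finset.mul_sum]
      exact Finset.sum_congr rfl fun j _ => by ring
    have h1 := h.var
    rw [e1] at h1
    have e2 : |∑ i ∈ s, ∑ j ∈ s, a i * a j *
          gg n ρ' (v (if i = q then p else i)) (v (if j = q then p else j)) -
        ∑ i ∈ s, ∑ j ∈ s, a i * a j * gg n ρ (v i) (v j)| ≤ K ^ 2 * Real.log 400 := by
      rw [← Finset.sum_sub_distrib]
      calc |∑ i ∈ s, (∑ j ∈ s, a i * a j *
            gg n ρ' (v (if i = q then p else i)) (v (if j = q then p else j)) -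
            ∑ j ∈ s, a i * a j * gg n ρ (v i) (v j))|
          ≤ ∑ i ∈ s, |∑ j ∈ s, a i * a j *
            gg n ρ' (v (if i = q then p else i)) (v (if j = q then p else j)) -
            ∑ j ∈ s, a i * a j * gg n ρ (v i) (v j)| := Finset.abs_sum_le_sum_abs _ _
        _ ≤ ∑ i ∈ s, ∑ j ∈ s, |a i| * |a j| * Real.log 400 := by
            refine Finset.sum_le_sum fun i _ => ?_
            rw [← Finset.sum_sub_distrib]
            refine (Finset.abs_sum_le_sum_abs _ _).trans (Finset.sum_le_sum fun j _ => ?_)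
            rw [← mul_sub, abs_mul, abs_mul]
            refine mul_le_mul_of_nonneg_left ?_ (by positivity)
            rw [abs_sub_comm]
            exact gg_cmp hρ hn1 (hσd i) (hσd j) h100
        _ = (∑ i ∈ s, |a i|) ^ 2 * Real.log 400 := by
            rw [sq, Finset.sum_mul_sum, Finset.sum_mul]
            refine Finset.sum_congr rfl fun i _ => ?_
            rw [Finset.sum_mul]
        _ ≤ K ^ 2 * Real.log 400 := by
            refine mul_le_mul_of_nonneg_right ?_ hl
            exact pow_le_pow_left₀ (Finset.sum_nonneg fun i _ => abs_nonneg _) cfg.sa 2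
    have e3 : qsum l - ∑ i ∈ s, ∑ j ∈ s, a i * a j * gg n ρ (v i) (v j) =
        (qsum l - ∑ i ∈ s, ∑ j ∈ s, a i * a j *
          gg n ρ' (v (if i = q then p else i)) (v (if j = q then p else j))) +
        (∑ i ∈ s, ∑ j ∈ s, a i * a j *
          gg n ρ' (v (if i = q then p else i)) (v (if j = q then p else j)) -
        ∑ i ∈ s, ∑ j ∈ s, a i * a j * gg n ρ (v i) (v j)) := by ring
    rw [e3]
    refine (abs_add_le _ _).trans ?_
    linarith

end Pool.Agent.Helper859_NL.Q06
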