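import Pool.Agent.Helper859_NL.StmK

set_option autoImplicit false

namespace Pool.Agent.Helper859_NL.Q07

open H974 Finset Pool.Agent.W819.EN Pool.Agent.W819.NC MeasureTheory
open Pool.Agent.Helper859_NL
open scoped Real

theorem gf_mono {N : NT} {ι : Type} {C C' K : ℝ} {m m' n ρ : ℕ} {S : Finset Edg} {s : Finset ι}
    {v : ι → Vtx} {a : ι → ℝ} {l : List Blk} (h : GF N C K m n ρ S s v a l) (hC : C ≤ C')
    (hm : m ≤ m') : GF N C' K m' n ρ S s v a l :=
  ⟨h.len.trans hm, h.rad, h.sub, h.coe, h.dis, h.avo, h.err.trans hC, h.mean.trans hC,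
    h.var.trans hC⟩

theorem bxm (v : Vtx) {k l : ℤ} (h : k ≤ l) : bx v k ⊆ bx v l := by
  unfold bx
  exact RE_subset (by omega) (by omega) (by omega) (by omega)

theorem and' (v : Vtx) {r R : ℕ} : Disjoint (an v r R) (bx v ((r : ℤ) - 1)) := by
  rw [Finset.disjoint_left]
  intro x hx hx'
  unfold an at hx
  rw [Finset.mem_sdiff] at hx
  exact hx.2 hx'

theorem ds_self (u : Vtx) : ds u u = 0 := by
  simp [ds]

theorem zero_case (N : NT) (K : ℝ) {ι : Type} (n ρ : ℕ) (S : Finset Edg)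
    (v : ι → Vtx) (a : ι → ℝ) : GF N 0 K 0 n ρ S (∅ : Finset ι) v a [] := by
  refine ⟨le_refl _, by simp, by simp, by simp, by simp, by simp, ?_, ?_, ?_⟩
  · have : (fun F : Finset Edg => |∑ i ∈ (∅ : Finset ι), a i * (N F (v i) ρ n : ℝ) -
        bsum N [] F|) = fun _ => 0 := by
      funext F
      simp [bsum]
    rw [this, Ex_const]
  · simp [lsum]
  · simp [qsum]

theorem one_case (N : NT) {K : ℝ} {ι : Type} {n ρ : ℕ} {S : Finset Edg} (i : ι)
    {v : ι → Vtx} {a : ι → ℝ} (h : Cfg K n ρ S {i} v a) :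
    GF N 0 K 1 n ρ S {i} v a [⟨v i, ρ, n, a i⟩] := by
  have hi : i ∈ ({i} : Finset ι) := Finset.mem_singleton_self i
  refine ⟨by simp, ?_, ?_, ?_, by simp, ?_, ?_, ?_, ?_⟩
  · intro B hB
    rw [List.mem_singleton] at hB
    subst hB
    exact ⟨h.rho, h.rn⟩
  · intro B hB
    rw [List.mem_singleton] at hB
    subst hB
    refine (bxm (v i) ?_).trans (h.inS i hi)
    push_cast
    omega
  · intro B hB
    rw [List.mem_singleton] at hB
    subst hB
    have := h.sa
    rwa [Finset.sum_singleton] at this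
  · intro B hB j hj
    rw [List.mem_singleton] at hB
    rw [Finset.mem_singleton] at hj
    subst hB
    subst hj
    exact and' _
  · have : (fun F : Finset Edg => |∑ j ∈ ({i} : Finset ι), a j * (N F (v j) ρ n : ℝ) -
        bsum N [⟨v i, ρ, n, a i⟩] F|) = fun _ => 0 := by
      funext F
      simp [bsum]
    rw [this, Ex_const]
  · simp [lsum]
  · have h0 : max ((ds (v i) (v i) : ℤ) : ℝ) (ρ : ℝ) = ρ := by
      rw [ds_self]
      simp
    rw [Finset.sum_singleton, Finset.sum_singleton]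
    unfold gg
    rw [h0]
    simp only [qsum, List.map_cons, List.map_nil, List.sum_cons, List.sum_nil, add_zero]
    rw [← pow_two, sub_self, abs_zero]

theorem cfg_r {ι : Type} {K : ℝ} {n ρ r : ℕ} {S : Finset Edg} {s : Finset ι} {v : ι → Vtx}
    {a : ι → ℝ} (h : Cfg K n ρ S s v a) (h1 : 1 ≤ r) (h2 : r ≤ n) : Cfg K n r S s v a :=
  ⟨h1, h2, h.inS, h.dn, h.sa⟩

theorem cfg_e {ι : Type} [DecidableEq ι] {K : ℝ} {n ρ : ℕ} {S : Finset Edg} {s : Finset ι}
    {v : ι → Vtx} {a : ι → ℝ} {p q : ι} (h : Cfg K n ρ S s v a) (hp : p ∈ s) (hq : q ∈ s)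
    (hpq : p ≠ q) : Cfg K n ρ S (s.erase q) v (Function.update a p (a p + a q)) := by
  refine ⟨h.rho, h.rn, fun i hi => h.inS i (Finset.mem_of_mem_erase hi),
    fun i hi j hj => h.dn i (Finset.mem_of_mem_erase hi) j (Finset.mem_of_mem_erase hj), ?_⟩
  have hpe : p ∈ s.erase q := Finset.mem_erase.2 ⟨hpq, hp⟩
  have e1 := Finset.add_sum_erase (s.erase q)
    (fun i => |Function.update a p (a p + a q) i|) hpe
  have e2 := Finset.add_sum_erase (s.erase q) (fun i => |a i|) hpe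
  have e3 := Finset.add_sum_erase s (fun i => |a i|) hq
  have e4 : ∑ i ∈ (s.erase q).erase p, |Function.update a p (a p + a q) i| =
      ∑ i ∈ (s.erase q).erase p, |a i| := by
    apply Finset.sum_congr rfl
    intro i hi
    rw [Function.update_of_ne (Finset.ne_of_mem_erase hi)]
  have e5 : Function.update a p (a p + a q) p = a p + a q := Function.update_self _ _ _
  have e6 := abs_add_le (a p) (a q)
  have e7 := h.sa
  simp only [e5] at e1
  rw [← e1, e4]
  linarith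

theorem step {N : NT} {k : ℕ} {K C1 CM : ℝ} {m1 : ℕ}
    (h1 : ∀ (ι : Type) [DecidableEq ι] (n ρ : ℕ) (S : Finset Edg) (s : Finset ι) (v : ι → Vtx)
      (a : ι → ℝ), s.card = k + 1 → Cfg K n ρ S s v a → ∃ l : List Blk, GF N C1 K m1 n ρ S s v a l)
    (hM : ∀ (ι : Type) [DecidableEq ι] (n ρ ρ' m : ℕ) (S : Finset Edg) (s : Finset ι)
      (v : ι → Vtx) (a : ι → ℝ) (l : List Blk) (p q : ι), Cfg K n ρ S s v a → p ∈ s → q ∈ s →
      p ≠ q → ρ' ≤ n → ds (v p) (v q) + ρ ≤ ρ' → ρ' ≤ 100 * ρ →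
      GF N C1 K m n ρ' S (s.erase q) v (Function.update a p (a p + a q)) l →
      GF N CM K m n ρ S s v a l)
    {ι : Type} [DecidableEq ι] {n ρ ρ' : ℕ} {S : Finset Edg} {s : Finset ι} {v : ι → Vtx}
    {a : ι → ℝ} {p q : ι} (hs : s.card = k + 2) (hc : Cfg K n ρ S s v a) (hp : p ∈ s)
    (hq : q ∈ s) (hpq : p ≠ q) (h2 : ρ' ≤ n) (h3 : ds (v p) (v q) + ρ ≤ ρ')
    (h4 : ρ' ≤ 100 * ρ) (h5 : 1 ≤ ρ') : ∃ l : List Blk, GF N CM K m1 n ρ S s v a l := by
  have hce : (s.erase q).card = k + 1 := by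
    rw [Finset.card_erase_of_mem hq]
    omega
  obtain ⟨l, hl⟩ := h1 ι n ρ' S (s.erase q) v (Function.update a p (a p + a q)) hce
    (cfg_r (cfg_e hc hp hq hpq) h5 h2)
  exact ⟨l, hM ι n ρ ρ' m1 S s v a l p q hc hp hq hpq h2 h3 h4 hl⟩

theorem target {N : NT} (hT : LT N) (hI : LI N) (hM : LM N) : LInd N := by
  intro k
  induction k with
  | zero =>
    intro K hK
    refine ⟨0, 0, le_refl _, ?_⟩
    intro ι _ n ρ S s v a hs hc
    rw [Finset.card_eq_zero] at hs
    subst hs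
    exact ⟨[], zero_case N K n ρ S v a⟩
  | succ k ih =>
    intro K hK
    rcases k with _ | k
    · refine ⟨0, 1, le_refl _, ?_⟩
      intro ι _ n ρ S s v a hs hc
      obtain ⟨i, hi⟩ := Finset.card_eq_one.1 hs
      subst hi
      exact ⟨_, one_case N i hc⟩
    · obtain ⟨CT, hCT, hT⟩ := hT K hK
      obtain ⟨C1, m1, hC1, h1⟩ := ih K hK
      obtain ⟨CM, hCM, hM⟩ := hM K C1 hK hC1
      obtain ⟨CI, hCI, hI⟩ := hI K (max CT CM) hK (le_max_of_le_left hCT)
      refine ⟨max (max CT CM) CI, m1 + (k + 2), le_max_of_le_right hCI, ?_⟩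
      intro ι _ n ρ S s v a hs hc
      have hs' : s.card = k + 2 := hs
      by_cases hn : n ≤ 200 * ρ
      · exact ⟨[], gf_mono (hT ι n ρ S s v a hc hn)
          ((le_max_left _ _).trans (le_max_left _ _)) (Nat.zero_le _)⟩
      have hne : s.offDiag.Nonempty := by
        obtain ⟨x, hx, y, hy, hxy⟩ := Finset.one_lt_card.1 (by omega : 1 < s.card)
        exact ⟨(x, y), by simp [hx, hy, hxy]⟩
      obtain ⟨⟨p, q⟩, hpq, hmin⟩ := Finset.exists_min_image s.offDiag
        (fun z => ds (v z.1) (v z.2)) hne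
      rw [Finset.mem_offDiag] at hpq
      obtain ⟨hp, hq, hpq⟩ := hpq
      simp only at hp hq hpq hmin
      have hρ := hc.rho
      have hdn := hc.dn p hp q hq
      by_cases hd : ds (v p) (v q) ≤ 64 * (ρ : ℤ)
      · obtain ⟨l, hl⟩ := step (ρ' := 100 * ρ) h1 hM hs' hc hp hq hpq (by omega)
          (by push_cast; omega) (le_refl _) (by omega)
        exact ⟨l, gf_mono hl ((le_max_right _ _).trans (le_max_left _ _)) (Nat.le_add_right _ _)⟩
      obtain ⟨r, hr⟩ : ∃ r : ℕ, (r : ℤ) = ds (v p) (v q) / 8 :=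
        ⟨(ds (v p) (v q) / 8).toNat, by omega⟩
      have hr1 : 8 * (r : ℤ) ≤ ds (v p) (v q) := by omega
      have hr2 : ds (v p) (v q) < 8 * (r : ℤ) + 8 := by omega
      have hr3 : 4 * ρ ≤ r := by omega
      have hr4 : r ≤ n := by omega
      have hcr : Cfg K n r S s v a := cfg_r hc (by omega) hr4
      obtain ⟨l, hl⟩ : ∃ l : List Blk, GF N (max CT CM) K m1 n r S s v a l := by
        by_cases hn2 : n ≤ 200 * r
        · exact ⟨[], gf_mono (hT ι n r S s v a hcr hn2) (le_max_left _ _) (Nat.zero_le _)⟩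
        · obtain ⟨l, hl⟩ := step (ρ' := 20 * r) h1 hM hs' hcr hp hq hpq (by omega)
            (by push_cast; omega) (by omega) (by omega)
          exact ⟨l, gf_mono hl (le_max_right _ _) (le_refl _)⟩
      have := hI ι n ρ r m1 S s v a l hc hr3 hr4 (fun i hi j hj hij =>
        hr1.trans (hmin (i, j) (Finset.mem_offDiag.2 ⟨hi, hj, hij⟩))) hl
      rw [hs'] at this
      exact ⟨_, gf_mono this (le_max_right _ _) (le_refl _)⟩

end Pool.Agent.Helper859_NL.Q07
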