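import Pool.Agent.Helper859_NL.StmK

/-! Independence of the numbers of changes in disjoint annuli. -/

set_option autoImplicit false

namespace Pool.Agent.Helper859_NL.Q08

open H974 Finset Pool.Agent.W819.EN Pool.Agent.W819.NC MeasureTheory
open Pool.Agent.Helper859_NL
open scoped Real

theorem bsum_loc {N : NT} (hg : Geo N) (T : Finset Edg) (l : List Blk) (F : Finset Edg)
    (hrad : ∀ B ∈ l, 1 ≤ B.r ∧ B.r ≤ B.R) (hT : ∀ B ∈ l, an B.u B.r B.R ⊆ T) :
    bsum N l F = bsum N l (F ∩ T) := by
  unfold bsum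
  congr 1
  apply List.map_congr_left
  intro B hB
  rw [loc' hg (hrad B hB).2 (hT B hB) F]

theorem target {N : NT} (hg : Geo N) (hl : LocG N) : LMgf N := by
  intro S l x
  induction l with
  | nil =>
    intro _ _ _
    simp [bsum, Ex_const]
  | cons B l ih =>
    intro hrad hsub hdis
    have hB := hrad B List.mem_cons_self
    have hBS := hsub B List.mem_cons_self
    rw [List.pairwise_cons] at hdis
    have hrad' : ∀ C ∈ l, 1 ≤ C.r ∧ C.r ≤ C.R := fun C hC => hrad C (List.mem_cons_of_mem _ hC)
    have hsub' : ∀ C ∈ l, bx C.u (C.R : ℤ) ⊆ S := fun C hC => hsub C (List.mem_cons_of_mem _ hC)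
    have ih' := ih hrad' hsub' hdis.2
    have hT : ∀ C ∈ l, an C.u C.r C.R ⊆ S \ an B.u B.r B.R := by
      intro C hC e he
      refine mem_sdiff.2 ⟨hsub' C hC (an_sub he), fun h => ?_⟩
      exact Finset.disjoint_left.1 (hdis.1 C hC) h he
    rw [List.map_cons, List.prod_cons, ← ih', ← hl (Real.exp (x * B.b)) B.u B.r B.R S hB.2 hBS,
      ← Ex_mul_indep (U := S) (S := an B.u B.r B.R) (T := S \ an B.u B.r B.R)
        (an_sub.trans hBS) sdiff_subset disjoint_sdiff]
    · apply Ex_congr
      intro F _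
      rw [← Real.exp_nat_mul, ← Real.exp_add]
      congr 1
      simp only [bsum, List.map_cons, List.sum_cons]
      ring
    · intro F _
      rw [← loc' hg hB.2 (Finset.Subset.refl _) F]
    · intro F _
      rw [← bsum_loc hg _ l F hrad' hT]

end Pool.Agent.Helper859_NL.Q08
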