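import Pool.Agent.Helper859_NL.StmK

set_option autoImplicit false

namespace Pool.Agent.Helper859_NL.Q09

open H974 Finset Pool.Agent.W819.EN Pool.Agent.W819.NC MeasureTheory
open Pool.Agent.Helper859_NL
open scoped Real

theorem bd_prod (g lo up : Blk → ℝ) (l : List Blk)
    (h : ∀ B ∈ l, Real.exp (lo B) ≤ g B ∧ g B ≤ Real.exp (up B)) :
    Real.exp ((l.map lo).sum) ≤ (l.map g).prod ∧ (l.map g).prod ≤ Real.exp ((l.map up).sum) := by
  induction l with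
  | nil => simp
  | cons B l ih =>
    obtain ⟨h1, h2⟩ := h B List.mem_cons_self
    obtain ⟨i1, i2⟩ := ih (fun B' hB' => h B' (List.mem_cons_of_mem _ hB'))
    rw [List.map_cons, List.map_cons, List.map_cons, List.sum_cons, List.sum_cons, List.prod_cons,
      Real.exp_add, Real.exp_add]
    have p1 := Real.exp_pos (lo B)
    have p2 := Real.exp_pos ((l.map lo).sum)
    constructor
    · exact mul_le_mul h1 i1 p2.le (p1.le.trans h1)
    · exact mul_le_mul h2 i2 (p2.le.trans i1) (Real.exp_pos _).le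

theorem sum_lin (x E : ℝ) (l : List Blk) :
    (l.map (fun B => x * cM * (B.b * Real.log ((B.R : ℝ) / B.r)) +
      vM * x ^ 2 / 2 * (B.b ^ 2 * Real.log ((B.R : ℝ) / B.r)) +
      E * (1 + x ^ 2 * (B.b ^ 2 * Real.log ((B.R : ℝ) / B.r))))).sum =
    x * cM * lsum l + vM * x ^ 2 / 2 * qsum l + E * (l.length + x ^ 2 * qsum l) := by
  unfold lsum qsum
  induction l with
  | nil => simp
  | cons B l ih =>
    rw [List.map_cons, List.sum_cons, ih, List.map_cons, List.map_cons, List.sum_cons,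
      List.sum_cons, List.length_cons]
    push_cast
    ring

theorem arith {C D M Q L P y3 Y ψ : ℝ} (hC : 0 ≤ C) (hD : 0 ≤ D) (hM : 0 ≤ M) (hQ : 0 ≤ Q)
    (hL : 0 ≤ L) (hY : Y ≤ M) (h3 : L * y3 ≤ D * M * Q) (h1 : ψ ≤ P + y3) (h2 : P - y3 ≤ ψ) :
    P * L - (C + D) * M * (1 + Q) ≤ -(C * Y) + L * ψ ∧
    C * Y + L * ψ ≤ P * L + (C + D) * M * (1 + Q) := by
  have a1 : C * Y ≤ C * M := mul_le_mul_of_nonneg_left hY hC
  have a2 : L * ψ ≤ L * (P + y3) := mul_le_mul_of_nonneg_left h1 hL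
  have a3 : L * (P - y3) ≤ L * ψ := mul_le_mul_of_nonneg_left h2 hL
  have a4 : 0 ≤ D * M := mul_nonneg hD hM
  have a5 : 0 ≤ C * M * Q := mul_nonneg (mul_nonneg hC hM) hQ
  have a6 : 0 ≤ D * M * Q := mul_nonneg a4 hQ
  have e1 : (C + D) * M * (1 + Q) = C * M + D * M + C * M * Q + D * M * Q := by ring
  rw [e1]
  constructor
  · nlinarith
  · nlinarith

theorem blk {N : NT} {C C' δ' : ℝ} (hC : 0 ≤ C)
    (hA : ∀ t : ℝ, 1 / 2 ≤ t → t ≤ 2 → ∀ r R : ℕ, 1 ≤ r →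
      r ≤ R → Real.exp (-(C * |Real.log t|)) * ((R : ℝ) / r) ^ Psi t ≤ G N t r R ∧
        G N t r R ≤ Real.exp (C * |Real.log t|) * ((R : ℝ) / r) ^ Psi t)
    (hT : ∀ s : ℝ, |s| ≤ δ' → |Psi (Real.exp s) - (cM * s + vM * s ^ 2 / 2)| ≤ C' * |s| ^ 3)
    {K x : ℝ} (hx : |x| * K ≤ min δ' (Real.log 2)) (B : Blk)
    (hr : 1 ≤ B.r ∧ B.r ≤ B.R) (hb : |B.b| ≤ K) :
    Real.exp (x * cM * (B.b * Real.log ((B.R : ℝ) / B.r)) +
      vM * x ^ 2 / 2 * (B.b ^ 2 * Real.log ((B.R : ℝ) / B.r)) +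
      (-((C + |C'|) * K * |x|)) * (1 + x ^ 2 * (B.b ^ 2 * Real.log ((B.R : ℝ) / B.r)))) ≤
      G N (Real.exp (x * B.b)) B.r B.R ∧
    G N (Real.exp (x * B.b)) B.r B.R ≤
    Real.exp (x * cM * (B.b * Real.log ((B.R : ℝ) / B.r)) +
      vM * x ^ 2 / 2 * (B.b ^ 2 * Real.log ((B.R : ℝ) / B.r)) +
      ((C + |C'|) * K * |x|) * (1 + x ^ 2 * (B.b ^ 2 * Real.log ((B.R : ℝ) / B.r)))) := by
  have hK : 0 ≤ K := (abs_nonneg _).trans hb
  have hM : 0 ≤ K * |x| := mul_nonneg hK (abs_nonneg _)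
  have hy : |x * B.b| ≤ K * |x| := by
    rw [abs_mul, mul_comm]
    exact mul_le_mul_of_nonneg_right hb (abs_nonneg _)
  have hy1 : |x * B.b| ≤ δ' := hy.trans (by
    rw [mul_comm]
    exact hx.trans (min_le_left _ _))
  have hy2 : |x * B.b| ≤ Real.log 2 := hy.trans (by
    rw [mul_comm]
    exact hx.trans (min_le_right _ _))
  obtain ⟨y1, y2⟩ := abs_le.1 hy2
  have t1 : 1 / 2 ≤ Real.exp (x * B.b) := by
    have : Real.exp (-Real.log 2) ≤ Real.exp (x * B.b) := Real.exp_le_exp.2 y1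
    rw [Real.exp_neg, Real.exp_log (by norm_num)] at this
    linarith
  have t2 : Real.exp (x * B.b) ≤ 2 := by
    have : Real.exp (x * B.b) ≤ Real.exp (Real.log 2) := Real.exp_le_exp.2 y2
    rwa [Real.exp_log (by norm_num)] at this
  have hr1 : (1 : ℝ) ≤ B.r := by exact_mod_cast hr.1
  have hrR : (B.r : ℝ) ≤ B.R := by exact_mod_cast hr.2
  have hr0 : (0 : ℝ) < B.r := by linarith
  have hq1 : (1 : ℝ) ≤ (B.R : ℝ) / B.r := (one_le_div hr0).2 hrR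
  have hq0 : (0 : ℝ) < (B.R : ℝ) / B.r := by linarith
  have hL : 0 ≤ Real.log ((B.R : ℝ) / B.r) := Real.log_nonneg hq1
  obtain ⟨g1, g2⟩ := hA (Real.exp (x * B.b)) t1 t2 B.r B.R hr.1 hr.2
  rw [Real.log_exp, Real.rpow_def_of_pos hq0, ← Real.exp_add] at g1 g2
  have hTy := abs_le.1 (hT (x * B.b) hy1)
  have hQ : 0 ≤ (x * B.b) ^ 2 * Real.log ((B.R : ℝ) / B.r) := mul_nonneg (sq_nonneg _) hL
  have h3 : Real.log ((B.R : ℝ) / B.r) * (C' * |x * B.b| ^ 3) ≤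
      |C'| * (K * |x|) * ((x * B.b) ^ 2 * Real.log ((B.R : ℝ) / B.r)) := by
    have b1 : C' * |x * B.b| ^ 3 ≤ |C'| * |x * B.b| ^ 3 :=
      mul_le_mul_of_nonneg_right (le_abs_self _) (by positivity)
    have b2 : |x * B.b| ^ 3 = |x * B.b| * (x * B.b) ^ 2 := by
      rw [← sq_abs (x * B.b)]
      ring
    have b3 : |x * B.b| * (x * B.b) ^ 2 ≤ K * |x| * (x * B.b) ^ 2 :=
      mul_le_mul_of_nonneg_right hy (sq_nonneg _)
    have b4 : |C'| * |x * B.b| ^ 3 ≤ |C'| * (K * |x| * (x * B.b) ^ 2) := by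
      rw [b2]
      exact mul_le_mul_of_nonneg_left b3 (abs_nonneg _)
    calc _ ≤ Real.log ((B.R : ℝ) / B.r) * (|C'| * (K * |x| * (x * B.b) ^ 2)) :=
          mul_le_mul_of_nonneg_left (b1.trans b4) hL
      _ = _ := by ring
  obtain ⟨f1, f2⟩ := arith (C := C) (D := |C'|) (M := K * |x|)
    (Q := (x * B.b) ^ 2 * Real.log ((B.R : ℝ) / B.r)) (L := Real.log ((B.R : ℝ) / B.r))
    (P := cM * (x * B.b) + vM * (x * B.b) ^ 2 / 2) (y3 := C' * |x * B.b| ^ 3)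
    (Y := |x * B.b|) (ψ := Psi (Real.exp (x * B.b))) hC (abs_nonneg _) hM hQ hL hy h3
    (by linarith [hTy.2]) (by linarith [hTy.1])
  constructor
  · refine le_trans (Real.exp_le_exp.2 (le_trans (le_of_eq ?_) f1)) g1
    ring
  · refine le_trans g2 (Real.exp_le_exp.2 (le_trans f2 (le_of_eq ?_)))
    ring

theorem target {N : NT} (hm : LMgf N) (hA : AnnSU N) (hT : PsiTaylor) : LEst N := by
  obtain ⟨C, hC, hA⟩ := hA
  obtain ⟨C', δ', hδ', hT⟩ := hT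
  refine ⟨C + |C'|, min δ' (Real.log 2), by positivity,
    lt_min hδ' (Real.log_pos (by norm_num)), ?_⟩
  intro K hK S l x hrad hsub hcoe hdis hx
  rw [hm S l x hrad hsub hdis]
  obtain ⟨p1, p2⟩ := bd_prod (fun B => G N (Real.exp (x * B.b)) B.r B.R)
    (fun B => x * cM * (B.b * Real.log ((B.R : ℝ) / B.r)) +
      vM * x ^ 2 / 2 * (B.b ^ 2 * Real.log ((B.R : ℝ) / B.r)) +
      (-((C + |C'|) * K * |x|)) * (1 + x ^ 2 * (B.b ^ 2 * Real.log ((B.R : ℝ) / B.r))))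
    (fun B => x * cM * (B.b * Real.log ((B.R : ℝ) / B.r)) +
      vM * x ^ 2 / 2 * (B.b ^ 2 * Real.log ((B.R : ℝ) / B.r)) +
      ((C + |C'|) * K * |x|) * (1 + x ^ 2 * (B.b ^ 2 * Real.log ((B.R : ℝ) / B.r)))) l
    (fun B hB => blk hC hA hT hx B (hrad B hB) (hcoe B hB))
  rw [sum_lin] at p1 p2
  have e0 := Real.exp_pos (-(x * cM * lsum l))
  constructor
  · refine le_trans (le_of_eq ?_) (mul_le_mul_of_nonneg_left p1 e0.le)
    rw [← Real.exp_add]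
    congr 1
    ring
  · refine le_trans (mul_le_mul_of_nonneg_left p2 e0.le) (le_of_eq ?_)
    rw [← Real.exp_add]
    congr 1
    ring

end Pool.Agent.Helper859_NL.Q09
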