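import Mathlib

set_option autoImplicit false

namespace Pool.Agent.Helper859_NL.Q10

open MeasureTheory

theorem target1 {Ω : Type*} [MeasurableSpace Ω] (P : Measure Ω) [IsProbabilityMeasure P]
    (X Y : ℕ → Ω → ℝ) (Φ : ℝ → ℝ) (hΦ : Continuous Φ)
    (hY : ∀ x : ℝ, Filter.Tendsto (fun k => P.real {ω | Y k ω ≤ x}) Filter.atTop (nhds (Φ x)))
    (hd : ∀ δ : ℝ, 0 < δ →
      Filter.Tendsto (fun k => P.real {ω | δ < |X k ω - Y k ω|}) Filter.atTop (nhds 0)) (x : ℝ) :
    Filter.Tendsto (fun k => P.real {ω | X k ω ≤ x}) Filter.atTop (nhds (Φ x)) := by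
  rw [Metric.tendsto_atTop]
  intro ε hε
  obtain ⟨δ, hδ, h⟩ := Metric.continuous_iff.1 hΦ x (ε / 2) (by positivity)
  have hd2 : 0 < δ / 2 := by positivity
  have e1 := h (x + δ / 2) (by rw [Real.dist_eq]; rw [abs_lt]; constructor <;> linarith)
  have e2 := h (x - δ / 2) (by rw [Real.dist_eq]; rw [abs_lt]; constructor <;> linarith)
  rw [Real.dist_eq, abs_lt] at e1 e2
  obtain ⟨N1, hN1⟩ := Metric.tendsto_atTop.1 (hY (x + δ / 2)) (ε / 4) (by positivity)
  obtain ⟨N2, hN2⟩ := Metric.tendsto_atTop.1 (hY (x - δ / 2)) (ε / 4) (by positivity)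
  obtain ⟨N3, hN3⟩ := Metric.tendsto_atTop.1 (hd (δ / 2) hd2) (ε / 4) (by positivity)
  refine ⟨max N1 (max N2 N3), fun k hk => ?_⟩
  have k1 := hN1 k (le_trans (le_max_left _ _) hk)
  have k2 := hN2 k (le_trans (le_trans (le_max_left _ _) (le_max_right _ _)) hk)
  have k3 := hN3 k (le_trans (le_trans (le_max_right _ _) (le_max_right _ _)) hk)
  rw [Real.dist_eq, abs_lt] at k1 k2 k3 ⊢
  have s1 : P.real {ω | X k ω ≤ x} ≤
      P.real {ω | Y k ω ≤ x + δ / 2} + P.real {ω | δ / 2 < |X k ω - Y k ω|} := by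
    refine le_trans (measureReal_mono ?_) (measureReal_union_le _ _)
    intro ω hω
    simp only [Set.mem_ofPred_eq, Set.mem_union] at hω ⊢
    by_contra hc
    push Not at hc
    have := (abs_le.1 hc.2).1
    linarith [hc.1]
  have s2 : P.real {ω | Y k ω ≤ x - δ / 2} ≤
      P.real {ω | X k ω ≤ x} + P.real {ω | δ / 2 < |X k ω - Y k ω|} := by
    refine le_trans (measureReal_mono ?_) (measureReal_union_le _ _)
    intro ω hω
    simp only [Set.mem_ofPred_eq, Set.mem_union] at hω ⊢
    by_contra hc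
    push Not at hc
    have := (abs_le.1 hc.2).2
    linarith [hc.1]
  constructor <;> linarith [k1.1, k1.2, k2.1, k2.2, k3.1, k3.2, e1.1, e1.2, e2.1, e2.2]

theorem target2 : Continuous (fun x : ℝ => (ProbabilityTheory.gaussianReal 0 1).real (Set.Iic x)) := by
  haveI hna : NullSingletonClass (ProbabilityTheory.gaussianReal 0 1) :=
    ProbabilityTheory.nullSingletonClass_gaussianReal one_ne_zero
  have hfun : (fun x : ℝ => (ProbabilityTheory.gaussianReal 0 1).real (Set.Iic x)) =
      fun x => ProbabilityTheory.cdf (ProbabilityTheory.gaussianReal 0 1) x := by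
    funext x
    rw [ProbabilityTheory.cdf_eq_real]
  rw [hfun, continuous_iff_continuousAt]
  intro x
  set f := ProbabilityTheory.cdf (ProbabilityTheory.gaussianReal 0 1) with hf
  have h0 : f.measure {x} = 0 := by
    rw [hf, ProbabilityTheory.measure_cdf]
    exact measure_singleton x
  rw [StieltjesFunction.measure_singleton, ENNReal.ofReal_eq_zero] at h0
  have hle : Function.leftLim f x ≤ f x := f.mono.leftLim_le le_rfl
  have hl : Function.leftLim f x = f x := le_antisymm hle (by linarith)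
  have : ContinuousAt f x := by
    rw [f.mono.continuousAt_iff_leftLim_eq_rightLim, hl, StieltjesFunction.rightLim_eq]
  exact this

end Pool.Agent.Helper859_NL.Q10
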