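import Pool.Agent.Helper859_NL.Final
import Pool.Agent.Helper859_NL.JointK
import Pool.Agent.Helper859_NL.Q01
import Pool.Agent.Helper859_NL.Q02
import Pool.Agent.Helper859_NL.Q03
import Pool.Agent.Helper859_NL.Q04
import Pool.Agent.Helper859_NL.Q05
import Pool.Agent.Helper859_NL.Q06
import Pool.Agent.Helper859_NL.Q07
import Pool.Agent.Helper859_NL.Q08
import Pool.Agent.Helper859_NL.Q09
import Pool.Agent.Helper859_NL.Q10

/-!
The numbers of layers around several points: assembly. The files `Q01` to `Q10` were written by the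
helpers named in `departures/helper859.md`.
-/

set_option autoImplicit false

namespace Pool.Agent.Helper859_NL.FinalK

open H974 Finset Pool.Agent.W819.EN Pool.Agent.W819.NC MeasureTheory Pool.Agent.Helper859_NL
open Pool.Agent.Y996.NL

theorem annS' : AnnSU NA := by
  have hd := J03.target sys locG aMom
  have hTI : TInU NA := J04.target sys locG aMom Final.inBU hd.1
  have hTO : TOutU NA := J05.target sys locG aMom Final.outBU hd.2
  have hc : Cmps := J06.target
  have hRI : RadInU NA := J07.target sys locG aMom hTI hc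
  have hRO : RadOutU NA := J08.target sys locG aMom hTO hc
  have hCo : CoreU NA := J09.target sys locG aMom hTI hTO hc
  have hCy : CylU := J11.target J10.target Pool.Agent.W762.EN.t_INT
  have hOne : OneU NA := J12.target hCy sys locG aMom Final.inBU hd.1 badX hc J18.target.1
  exact annSU (annU sys hRI hRO hCo) hOne

theorem slu : SluS := fun P hP X Y Φ hΦ hY hd x => by
  haveI := hP
  exact Q10.target1 P X Y Φ hΦ hY hd x

theorem lInd : LInd NA := by
  obtain ⟨hA, hB, hD⟩ := Q01.target sys aMom
  have hC : CC NA := Q02.target sys hA hB hD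
  have hE : CE NA := Q03.target sys hB
  exact Q07.target (Q04.target hA) (Q05.target hE) (Q06.target hB hC)

theorem lEst : LEst NA := Q09.target (Q08.target sys.geo locG) annS' J18.target.2

theorem joint (k : ℕ) (x η : ℝ) (hη : 0 < η) :
    ∃ V₀ : ℝ, ∀ (a : Fin k → ℝ) (v : Fin k → ℤ × ℤ) (n : ℕ), (∀ i, |a i| ≤ 1) →
      1 ≤ n → (∀ i j, ds (v i) (v j) ≤ n) → V₀ ≤ vk a v n →
      |(bondLaw hlf).real {ω | ∑ i, a i * (layers n (v i) ω : ℝ) ≤
          (∑ i, a i) * cM * Real.log n + x * √(vk a v n)} -
        (ProbabilityTheory.gaussianReal 0 1).real (Set.Iic x)| ≤ η :=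
  k_unif Final.curt slu Q10.target2 sys lInd lEst k x η hη

end Pool.Agent.Helper859_NL.FinalK
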