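import Pool.Agent.Helper859_NL.Stm
import Pool.Agent.Y448.NL.Ex
import Pool.Agent.Z864.NL.Ind

set_option autoImplicit false

namespace Pool.Agent.Helper859_NL.J14

open H974 Finset Pool.Agent.W819.EN Pool.Agent.W819.NC MeasureTheory
open Pool.Agent.Y996.NL Pool.Agent.Helper859_NL
open Pool.Agent.Y448.NL
open scoped Real

/-- uniform version of `Pool.Agent.Y448.NL.ex`: the same proof -/
theorem target (hsi : SIU) (hin : S_IN) : ExU := by
  intro N W K h hl ham htin htout s M hs1
  have hs0 : 0 < s := by linarith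
  obtain ⟨A, hA0, hAt⟩ := hsi N W K h ham htin htout s (12 * M + 1) hs1
  obtain ⟨A', hA'0, hA't⟩ := htin 3
  obtain ⟨C, hC0, hC⟩ := h.wmom (s ^ 2) (one_le_pow₀ hs1)
  refine ⟨A + A' * Real.sqrt C + 1, by
    have : 0 ≤ A' * Real.sqrt C := by positivity
    linarith, ?_⟩
  intro t ht1 ht2 v w a b r r' R c D hP S hSv hSw
  have ht : 0 < t := by linarith
  have hA := hAt t ht1 ht2
  have hA' := hA't t ht1 ht2
  obtain ⟨r1, r1', rR, rR', c1, cR, Rc, ar, br, ac, bc, aM, bM, RD, DM, vw, dx, dy, far⟩ := hP
  have g1 : 0 ≤ G N t r R := Ex_nonneg hokP fun F _ => (pow_pos ht _).le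
  have g2 : 0 ≤ G N t r' R := Ex_nonneg hokP fun F _ => (pow_pos ht _).le
  have hD1 : 1 ≤ D := by omega
  have hM1 : 1 ≤ M := by
    rcases Nat.eq_zero_or_pos M with h0 | h0
    · rw [h0, zero_mul] at DM
      omega
    · exact h0
  have aM' : r ≤ (12 * M + 1) * a ∨ (a = 0 ∧ r ≤ 12 * M + 1) := by
    rcases aM with h1 | ⟨h1, h2⟩
    · exact Or.inl (h1.trans (Nat.mul_le_mul_right a (by omega)))
    · exact Or.inr ⟨h1, by omega⟩
  have bM' : r' ≤ (12 * M + 1) * b ∨ (b = 0 ∧ r' ≤ 12 * M + 1) := by
    rcases bM with h1 | ⟨h1, h2⟩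
    · exact Or.inl (h1.trans (Nat.mul_le_mul_right b (by omega)))
    · exact Or.inr ⟨h1, by omega⟩
  have hlen : (8 * (D : ℤ) - c) ≤ ((12 * M + 1 : ℕ) : ℤ) * (2 * c) := by
    have e1 : (D : ℤ) ≤ M * R := by exact_mod_cast DM
    have e2 : (R : ℤ) ≤ 3 * c := by omega
    have e3 : (M : ℤ) * R ≤ M * (3 * c) := mul_le_mul_of_nonneg_left e2 (by positivity)
    push_cast
    nlinarith
  have hdvw : ∀ v w : Vtx, (4 * (R : ℤ) ≤ |v.1 - w.1| ∨ 4 * (R : ℤ) ≤ |v.2 - w.2|) →
      Disjoint (bx v ((2 * R : ℕ) : ℤ)) (bx w R) := by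
    intro v w hfar
    rw [Finset.disjoint_left]
    rintro ⟨x, y, _ | _⟩ e1 e2
    · simp only [bx, mem_RE_false] at e1 e2
      push_cast at e1
      rcases hfar with hD | hD
      · rcases abs_cases (v.1 - w.1) with hc | hc <;> omega
      · rcases abs_cases (v.2 - w.2) with hc | hc <;> omega
    · simp only [bx, mem_RE_true] at e1 e2
      push_cast at e1
      rcases hfar with hD | hD
      · rcases abs_cases (v.1 - w.1) with hc | hc <;> omega
      · rcases abs_cases (v.2 - w.2) with hc | hc <;> omega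
  have hSvR : bx v R ⊆ S := (bx_sub0 (by push_cast; omega)).trans hSv
  have hSwR : bx w R ⊆ S := (bx_sub0 (by push_cast; omega)).trans hSw
  have hSv2 : bx v ((2 * R : ℕ) : ℤ) ⊆ S := (bx_sub0 (by push_cast; omega)).trans hSv
  have hSw2 : bx w ((2 * R : ℕ) : ℤ) ⊆ S := (bx_sub0 (by push_cast; omega)).trans hSw
  have far' : 4 * (R : ℤ) ≤ |w.1 - v.1| ∨ 4 * (R : ℤ) ≤ |w.2 - v.2| := by
    rw [abs_sub_comm w.1, abs_sub_comm w.2]
    exact far
  -- the sides
  have sv : ∀ j < 5, Ex P2 S (fun F => t ^ N F v r R * t ^ N F w r' R *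
      s ^ XS N W K v a r c (v.1 - 8 * D) (v.1 - c) (v.2 - c) (v.2 + c) j F) ≤
      A * (G N t r R * G N t r' R) := by
    intro j hj
    refine side h hl hin ht hA r1 rR rR' c1 cR Rc ar aM' (by omega) (by omega) ?_ ?_ hSv2 ?_ hSwR
      (hdvw v w far) ?_ j hj
    · have e1 : v.1 - c - (v.1 - 8 * D) = 8 * (D : ℤ) - c := by ring
      have e2 : v.2 + c - (v.2 - c) = 2 * (c : ℤ) := by ring
      rw [e1, e2]
      exact hlen
    · rw [Finset.disjoint_left]
      rintro ⟨x, y, _ | _⟩ e1 e2
      · simp only [bx, mem_RE_false, mem_LRE_false] at e1 e2; omega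
      · simp only [bx, mem_RE_true, mem_LRE_true] at e1 e2; omega
    · refine subset_trans ?_ hSv
      rintro ⟨x, y, _ | _⟩ e1
      · simp only [bx, mem_RE_false, mem_LRE_false] at e1 ⊢; push_cast; omega
      · simp only [bx, mem_RE_true, mem_LRE_true] at e1 ⊢; push_cast; omega
    · rw [Finset.disjoint_left]
      rintro ⟨x, y, _ | _⟩ e1 e2
      · simp only [bx, mem_RE_false, mem_LRE_false] at e1 e2
        rcases far with hD | hD
        · rcases abs_cases (v.1 - w.1) with hc | hc <;> omega
        · rcases abs_cases (v.2 - w.2) with hc | hc <;> omega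
      · simp only [bx, mem_RE_true, mem_LRE_true] at e1 e2
        rcases far with hD | hD
        · rcases abs_cases (v.1 - w.1) with hc | hc <;> omega
        · rcases abs_cases (v.2 - w.2) with hc | hc <;> omega
  have sw : ∀ j < 5, Ex P2 S (fun F => t ^ N F w r' R * t ^ N F v r R *
      s ^ XS N W K w b r' c (w.1 + c) (w.1 + 8 * D) (w.2 - c) (w.2 + c) j F) ≤
      A * (G N t r' R * G N t r R) := by
    intro j hj
    refine side h hl hin ht hA r1' rR' rR c1 cR Rc br bM' (by omega) (by omega) ?_ ?_ hSw2 ?_ hSvR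
      (hdvw w v far') ?_ j hj
    · have e1 : w.1 + 8 * D - (w.1 + c) = 8 * (D : ℤ) - c := by ring
      have e2 : w.2 + c - (w.2 - c) = 2 * (c : ℤ) := by ring
      rw [e1, e2]
      exact hlen
    · rw [Finset.disjoint_left]
      rintro ⟨x, y, _ | _⟩ e1 e2
      · simp only [bx, mem_RE_false, mem_LRE_false] at e1 e2; omega
      · simp only [bx, mem_RE_true, mem_LRE_true] at e1 e2; omega
    · refine subset_trans ?_ hSw
      rintro ⟨x, y, _ | _⟩ e1
      · simp only [bx, mem_RE_false, mem_LRE_false] at e1 ⊢; push_cast; omega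
      · simp only [bx, mem_RE_true, mem_LRE_true] at e1 ⊢; push_cast; omega
    · rw [Finset.disjoint_left]
      rintro ⟨x, y, _ | _⟩ e1 e2
      · simp only [bx, mem_RE_false, mem_LRE_false] at e1 e2
        rcases far with hD | hD
        · rcases abs_cases (v.1 - w.1) with hc | hc <;> omega
        · rcases abs_cases (v.2 - w.2) with hc | hc <;> omega
      · simp only [bx, mem_RE_true, mem_LRE_true] at e1 e2
        rcases far with hD | hD
        · rcases abs_cases (v.1 - w.1) with hc | hc <;> omega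
        · rcases abs_cases (v.2 - w.2) with hc | hc <;> omega
  -- the common annulus
  have han : an v (2 * D) (4 * D) ⊆ S := (an_sub (by push_cast; omega)).trans hSv
  have hYloc : ∀ F, W F v (2 * D) = W (F ∩ an v (2 * D) (4 * D)) v (2 * D) := by
    intro F
    have := h.wloc F v (2 * D) (by omega)
    rwa [show 2 * (2 * D) = 4 * D by ring] at this
  have hwb : bx w R ⊆ bx v (((2 * D : ℕ) : ℤ) - 1) := by
    rw [abs_le] at dx dy
    rintro ⟨x, y, _ | _⟩ e1
    · simp only [bx, mem_RE_false] at e1 ⊢
      push_cast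
      omega
    · simp only [bx, mem_RE_true] at e1 ⊢
      push_cast
      omega
  have sc : Ex P2 S (fun F => t ^ N F v r R * t ^ N F w r' R * s ^ W F v (2 * D)) ≤
      A' * Real.sqrt C * (G N t r R * G N t r' R) := by
    rw [hin N h.geo hl t v w r r' R S (an v (2 * D) (4 * D)) (fun F => s ^ W F v (2 * D)) rR rR'
      (union_subset hSvR han) hSwR (by
        rw [disjoint_union_left]
        refine ⟨(hdvw v w far).mono_left (bx_sub0 (by push_cast; omega)), ?_⟩
        rw [Finset.disjoint_left]
        unfold an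
        intro e he he'
        exact (Finset.mem_sdiff.1 he).2 (hwb he')) (fun F _ => by rw [← hYloc F])]
    have h1 := hA' v r R c S (an v (2 * D) (4 * D)) (fun F => s ^ W F v (2 * D)) rR c1 (by omega)
      hSvR han (by
        rw [Finset.disjoint_left]
        unfold an
        intro e he he'
        exact (Finset.mem_sdiff.1 he).2 (bx_sub0 (by push_cast; omega) he')) (fun F => by positivity)
      (fun F _ => by rw [← hYloc F])
    have h2 : Ex P2 S (fun F => (s ^ W F v (2 * D)) ^ 2) ≤ C := by
      have h3 := hC v (2 * D) S (by omega) (by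
        refine (bx_sub0 ?_).trans hSv
        push_cast
        omega)
      refine le_trans (le_of_eq ?_) h3
      refine Ex_congr fun F _ => ?_
      rw [pow_right_comm]
    have h4 := Real.sqrt_le_sqrt h2
    calc _ ≤ (A' * G N t r R * Real.sqrt C) * G N t r' R := by
          refine mul_le_mul_of_nonneg_right (h1.trans ?_) g2
          exact mul_le_mul_of_nonneg_left h4 (by positivity)
      _ = _ := by ring
  -- the expectation of `U`
  set U : Finset Edg → ℝ := fun F => t ^ (N F v r R + N F w r' R) with hU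
  have hUpos : ∀ F, 0 < U F := fun F => pow_pos ht _
  have hEU : Ex P2 S U = G N t r R * G N t r' R := by
    have h1 := hin N h.geo hl t v w r r' R S ∅ (fun _ => 1) rR rR' (union_subset hSvR (empty_subset _))
      hSwR (by
        rw [disjoint_union_left]
        exact ⟨(hdvw v w far).mono_left (bx_sub0 (by push_cast; omega)), disjoint_empty_left _⟩)
      (fun F _ => rfl)
    simp only [mul_one] at h1
    rw [hl t v r R S rR hSvR] at h1
    rw [← h1]
    exact Ex_congr fun F _ => by simp only [hU, pow_add]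
  set B : ℝ := A + A' * Real.sqrt C + 1 with hB
  have hB0 : 0 < B := by positivity
  have gg : 0 ≤ G N t r R * G N t r' R := mul_nonneg g1 g2
  refine ⟨hEU, ?_⟩
  intro j hj
  have hAB : A * (G N t r R * G N t r' R) ≤ B * (G N t r R * G N t r' R) := by
    refine mul_le_mul_of_nonneg_right ?_ gg
    rw [hB]
    have : 0 ≤ A' * Real.sqrt C := by positivity
    linarith
  by_cases h5 : j < 5
  · refine le_trans (le_of_eq ?_) ((sv j h5).trans hAB)
    refine Ex_congr fun F _ => ?_
    simp only [VV, if_pos h5]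
    rw [pow_add]
  · by_cases h10 : j < 10
    · have h6 := sw (j - 5) (by omega)
      rw [mul_comm (G N t r' R)] at h6
      refine le_trans (le_of_eq ?_) (h6.trans hAB)
      refine Ex_congr fun F _ => ?_
      simp only [VV, if_neg h5, if_pos h10]
      rw [pow_add]
      ring
    · have hBC : A' * Real.sqrt C * (G N t r R * G N t r' R) ≤ B * (G N t r R * G N t r' R) := by
        refine mul_le_mul_of_nonneg_right ?_ gg
        rw [hB]
        linarith
      refine le_trans (le_of_eq ?_) (sc.trans hBC)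
      refine Ex_congr fun F _ => ?_
      simp only [VV, if_neg h5, if_neg h10]
      rw [pow_add]

end Pool.Agent.Helper859_NL.J14
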