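import Mathlib
import Pool.Agent.Helper859_NL.Final2

/-!
Critical bond percolation on the square lattice (`p = 1/2`): the numbers of nested layers around two
points are asymptotically jointly Gaussian, with logarithmic correlations, uniformly in the position
of the points.

Colour the open edges and their endpoints in one colour, the dual edges which cross the closed edges
and their endpoints in the other colour. `layers n v` is the minimal number of changes of colour of a
path from the vertex `v` to the sup distance `n` of `v`, i.e. the number of nested alternating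
(open / dual-open) layers around `v` in the box of radius `n`; their boundaries are the interfaces.

For two vertices `v`, `w` at sup distance `d`, `1 ≤ d ≤ n`, the vector of `layers n v` and
`layers n w` is asymptotically Gaussian with means `log n / (2 √3 π)`, variances `σ² log n` and
covariance `σ² log (n / d)`, where `σ² = 2 / (3 √3 π) - 1 / (2 π²)`: for all coefficients `a`, `b`
of absolute value at most `1` the distribution of `a layers n v + b layers n w` is close to the
corresponding Gaussian one as soon as its variance is large, uniformly in `a`, `b`, `v`, `w`, `n`,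
`d`. In particular (`a = 1`, `b = -1`) the difference of the two numbers is asymptotically normal
with variance `2 σ² log d` as `d → ∞`, uniformly in `n`.
-/

set_option autoImplicit false

namespace Pool.Agent.Helper859_NL.JointLayers

open MeasureTheory

/-- The square lattice: two points of `ℤ²` are adjacent when they differ by one in exactly one
coordinate. -/
def Z2 : SimpleGraph (ℤ × ℤ) where
  Adj u v := |u.1 - v.1| + |u.2 - v.2| = 1
  symm := ⟨fun u v h => by rw [abs_sub_comm v.1, abs_sub_comm v.2]; exact h⟩
  loopless := ⟨fun u h => by simp at h⟩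

/-- Critical bond percolation: every edge of the square lattice is open (`true`) with
probability `1/2`, independently of the other edges. -/
noncomputable def crit : Measure (Z2.edgeSet → Bool) :=
  Measure.infinitePi (fun _ => ProbabilityTheory.bernoulliMeasure true false
    ⟨1/2, by norm_num, by norm_num⟩)

/-- The graph of the open edges. -/
def openGraph (ω : Z2.edgeSet → Bool) : SimpleGraph (ℤ × ℤ) :=
  SimpleGraph.fromEdgeSet {e | ∃ h : e ∈ Z2.edgeSet, ω ⟨e, h⟩ = true}

/-- The points: `((x, y), true)` is the vertex `(x, y)` of `ℤ²` and `((x, y), false)` is the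
vertex `(x + 1/2, y + 1/2)` of the dual lattice. -/
abbrev Pt := (ℤ × ℤ) × Bool

/-- The vertex `v` of `ℤ²` is one of the four corners of the square of the dual vertex `w`. -/
def Corner (v w : ℤ × ℤ) : Prop := (v.1 = w.1 ∨ v.1 = w.1 + 1) ∧ (v.2 = w.2 ∨ v.2 = w.2 + 1)

/-- Moves without change of colour: along an open edge, or from a dual vertex to a neighbouring
dual vertex across a closed edge (the edge between the two common corners of their squares). -/
inductive Free (ω : Z2.edgeSet → Bool) : Pt → Pt → Prop
  | primal {u v : ℤ × ℤ} (h : (openGraph ω).Adj u v) : Free ω (u, true) (v, true)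
  | dual {u v x y : ℤ × ℤ} (huv : u ≠ v) (hxy : Z2.Adj x y) (hclosed : ¬ (openGraph ω).Adj x y)
      (h1 : Corner x u) (h2 : Corner y u) (h3 : Corner x v) (h4 : Corner y v) :
      Free ω (u, false) (v, false)

/-- Change of colour: from a vertex to the dual vertex of one of the four squares around it, or
back. -/
inductive Change : Pt → Pt → Prop
  | out {v w : ℤ × ℤ} (h : Corner v w) : Change (v, true) (w, false)
  | back {v w : ℤ × ℤ} (h : Corner v w) : Change (w, false) (v, true)

/-- The point `p` can be reached from the vertex `v` with at most `k` changes of colour. -/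
inductive Reach (ω : Z2.edgeSet → Bool) (v : ℤ × ℤ) : ℕ → Pt → Prop
  | start (k : ℕ) : Reach ω v k (v, true)
  | free {k : ℕ} {p q : Pt} (h : Reach ω v k p) (hpq : Free ω p q) : Reach ω v k q
  | change {k : ℕ} {p q : Pt} (h : Reach ω v k p) (hpq : Change p q) : Reach ω v (k + 1) q

/-- Twice the sup distance between the point `p` and the vertex `v`. -/
def dist2 (v : ℤ × ℤ) (p : Pt) : ℤ :=
  max |2 * (p.1.1 - v.1) + (if p.2 then 0 else 1)| |2 * (p.1.2 - v.2) + (if p.2 then 0 else 1)|

/-- The number of nested layers around `v` in the box of radius `n` centred at `v`: the minimal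
number of changes of colour of a path from `v` to the sup distance `n` of `v`. -/
noncomputable def layers (n : ℕ) (v : ℤ × ℤ) (ω : Z2.edgeSet → Bool) : ℕ :=
  sInf {k | ∃ p : Pt, 2 * (n : ℤ) ≤ dist2 v p ∧ Reach ω v k p}

/-- The asymptotic variance of `a N_v + b N_w`, where `N_v`, `N_w` are the numbers of layers around
two points at distance `d`: the variances are `σ² log n` and the covariance is `σ² log (n / d)`, with
`σ² = 2 / (3 √3 π) - 1 / (2 π²)`. -/
noncomputable def variance (a b : ℝ) (n d : ℕ) : ℝ :=
  (2 / (3 * √3 * Real.pi) - 1 / (2 * Real.pi ^ 2)) *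
    ((a ^ 2 + b ^ 2) * Real.log n + 2 * a * b * Real.log ((n : ℝ) / d))

theorem free_iff {ω : Z2.edgeSet → Bool} {p q : Pt} :
    Free ω p q ↔ Pool.Agent.H863R2.NL.Free ω p q := by
  constructor
  · rintro (h | ⟨h0, h1, h2, h3, h4, h5, h6⟩)
    · exact Pool.Agent.H863R2.NL.Free.primal h
    · exact Pool.Agent.H863R2.NL.Free.dual h0 h1 h2 h3 h4 h5 h6
  · rintro (h | ⟨h0, h1, h2, h3, h4, h5, h6⟩)
    · exact Free.primal h
    · exact Free.dual h0 h1 h2 h3 h4 h5 h6

theorem change_iff {p q : Pt} : Change p q ↔ Pool.Agent.H863R2.NL.Change p q := by
  constructor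
  · rintro (h | h)
    · exact Pool.Agent.H863R2.NL.Change.out h
    · exact Pool.Agent.H863R2.NL.Change.back h
  · rintro (h | h)
    · exact Change.out h
    · exact Change.back h

theorem reach_iff {ω : Z2.edgeSet → Bool} {v : ℤ × ℤ} {k : ℕ} {p : Pt} :
    Reach ω v k p ↔ Pool.Agent.W819.EN.ReachFrom ω v k p := by
  constructor
  · intro h
    induction h with
    | start k => exact Pool.Agent.W819.EN.ReachFrom.start k
    | free _ h ih => exact ih.free (free_iff.1 h)
    | change _ h ih => exact ih.change (change_iff.1 h)
  · intro h
    induction h with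
    | start k => exact Reach.start k
    | free _ h ih => exact ih.free (free_iff.2 h)
    | change _ h ih => exact ih.change (change_iff.2 h)

theorem layers_eq (n : ℕ) (v : ℤ × ℤ) (ω : Z2.edgeSet → Bool) :
    layers n v ω = Pool.Agent.W819.EN.layers n v ω := by
  unfold layers Pool.Agent.W819.EN.layers
  simp only [reach_iff]
  rfl

/-- **The joint central limit theorem for the layers around two points.** For all `x` and `η > 0`
there is `V₀` such that for all `a`, `b` of absolute value at most `1`, all `1 ≤ d ≤ n` and all
vertices `v`, `w` at sup distance `d` with `variance a b n d ≥ V₀`, the probability that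
`a N_v + b N_w` is at most its asymptotic mean plus `x` times its asymptotic standard deviation
differs from the standard normal distribution function at `x` by at most `η`. -/
theorem result (x η : ℝ) (hη : 0 < η) : ∃ V₀ : ℝ, ∀ (a b : ℝ) (v w : ℤ × ℤ) (n d : ℕ),
    |a| ≤ 1 → |b| ≤ 1 → 1 ≤ d → d ≤ n → max |v.1 - w.1| |v.2 - w.2| = d →
    V₀ ≤ variance a b n d →
    |crit.real {ω | a * (layers n v ω : ℝ) + b * (layers n w ω : ℝ) ≤
        (a + b) * (Real.log n / (2 * √3 * Real.pi)) + x * √(variance a b n d)} -
      (ProbabilityTheory.gaussianReal 0 1).real (Set.Iic x)| ≤ η := by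
  obtain ⟨V₀, h⟩ := Pool.Agent.Helper859_NL.Final2.joint x η hη
  refine ⟨V₀, fun a b v w n d ha hb hd hdn hvw hV => ?_⟩
  have h1 := h a b ha hb v w n d hd hdn hvw hV
  simp only [layers_eq]
  have e : (a + b) * (Real.log n / (2 * √3 * Real.pi)) =
      (a + b) * Pool.Agent.Helper859_NL.cM * Real.log n := by
    unfold Pool.Agent.Helper859_NL.cM
    ring
  rw [e]
  exact h1

end Pool.Agent.Helper859_NL.JointLayers
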