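import Pool.Agent.Y996.NL.Stm
import Pool.Agent.W819.NC.Stm2
import Pool.Agent.H863R2.NL.PsSum

/-!
The number of interfaces of doubly connected domains near `t = 1`: statements.

`t` ranges over `[1/2, 2]`; all constants are uniform in `t`, and the sharp estimates have the form
`exp (± C |log t|)`.
-/

set_option autoImplicit false

namespace Pool.Agent.Helper859_NL

open H974 Finset Pool.Agent.W819.EN Pool.Agent.W819.NC MeasureTheory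
open Pool.Agent.Y996.NL
open scoped Real

/-! ### uniform versions of the statements of `W819.NC.Stm` -/

/-- uniform `InB` -/
def InBU (N : NT) (W : WT) : Prop := ∀ (s : ℝ) (L : ℕ), 1 ≤ s → ∃ A : ℝ, 0 < A ∧
  ∀ t : ℝ, 1 ≤ t → t ≤ 2 →
  ∀ (v : Vtx) (r b R : ℕ) (S : Finset Edg), r ≤ b → 1 ≤ b → 2 * b ≤ R → R ≤ L * b → bx v R ⊆ S →
    Ex P2 S (fun F => t ^ N F v r (2 * b) * s ^ (N F v b R + W F v b)) ≤ A * G N t r (2 * b)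

/-- uniform `OutB` -/
def OutBU (N : NT) (W : WT) : Prop := ∀ (s : ℝ) (L : ℕ), 1 ≤ s → ∃ A : ℝ, 0 < A ∧
  ∀ t : ℝ, 1 ≤ t → t ≤ 2 →
  ∀ (v : Vtx) (y x R : ℕ) (S : Finset Edg), 1 ≤ y → y ≤ x → x ≤ L * y → 2 * x ≤ R → bx v R ⊆ S →
    Ex P2 S (fun F => t ^ N F v x R * s ^ (N F v y (2 * x) + W F v x)) ≤ A * G N t x R

/-- uniform `DIn` -/
def DInU (N : NT) : Prop := ∀ M : ℕ, ∃ A : ℝ, 0 < A ∧ ∀ t : ℝ, 1 / 2 ≤ t → t ≤ 1 →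
  ∀ r R R' : ℕ, r ≤ R → 1 ≤ R → R ≤ R' → R' ≤ M * R → G N t r R ≤ A * G N t r R'

/-- uniform `DOut` -/
def DOutU (N : NT) : Prop := ∀ M : ℕ, ∃ A : ℝ, 0 < A ∧ ∀ t : ℝ, 1 / 2 ≤ t → t ≤ 1 →
  ∀ r' r R : ℕ, 1 ≤ r' → r' ≤ r → r ≤ R → r ≤ M * r' → G N t r R ≤ A * G N t r' R

/-- uniform `TIn` -/
def TInU (N : NT) : Prop := ∀ M : ℕ, ∃ A : ℝ, 0 < A ∧ ∀ t : ℝ, 1 / 2 ≤ t → t ≤ 2 →
  ∀ (v : Vtx) (r R c : ℕ) (S T : Finset Edg) (Y : Finset Edg → ℝ), r ≤ R → 1 ≤ c → R ≤ M * c →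
    bx v R ⊆ S → T ⊆ S → Disjoint T (bx v ((c : ℤ) - 1)) → (∀ F, 0 ≤ Y F) →
    (∀ F, F ⊆ S → Y F = Y (F ∩ T)) →
    Ex P2 S (fun F => t ^ N F v r R * Y F) ≤
      A * G N t r R * Real.sqrt (Ex P2 S (fun F => Y F ^ 2))

/-- uniform `TOut` -/
def TOutU (N : NT) : Prop := ∀ M : ℕ, ∃ A : ℝ, 0 < A ∧ ∀ t : ℝ, 1 / 2 ≤ t → t ≤ 2 →
  ∀ (v : Vtx) (r R c : ℕ) (S T : Finset Edg) (Y : Finset Edg → ℝ), 1 ≤ r → r ≤ R → c ≤ M * r →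
    bx v R ⊆ S → T ⊆ S → T ⊆ bx v c → (∀ F, 0 ≤ Y F) →
    (∀ F, F ⊆ S → Y F = Y (F ∩ T)) →
    Ex P2 S (fun F => t ^ N F v r R * Y F) ≤
      A * G N t r R * Real.sqrt (Ex P2 S (fun F => Y F ^ 2))

/-! ### comparison by Jensen's inequality -/

/-- if `a ≤ n ≤ a + X 0 + ... + X (m - 1)` and each cost `X j` has an exponential moment under the
law weighted by `t ^ a`, then `E t ^ n` and `E t ^ a` are equal up to `exp (± K |log t|)` -/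
def Cmps : Prop := ∀ (m : ℕ) (B : ℝ), 1 ≤ m → 1 ≤ B → ∃ K : ℝ, 0 ≤ K ∧
  ∀ t : ℝ, 1 / 2 ≤ t → t ≤ 2 →
  ∀ (S : Finset Edg) (a n : Finset Edg → ℕ) (X : ℕ → Finset Edg → ℕ),
    (∀ F, F ⊆ S → a F ≤ n F ∧ n F ≤ a F + ∑ j ∈ range m, X j F) →
    (∀ j < m, Ex P2 S (fun F => t ^ a F * ((2 : ℝ) ^ m) ^ X j F) ≤ B * Ex P2 S (fun F => t ^ a F)) →
    Real.exp (-(K * |Real.log t|)) * Ex P2 S (fun F => t ^ a F) ≤ Ex P2 S (fun F => t ^ n F) ∧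
    Ex P2 S (fun F => t ^ n F) ≤ Real.exp (K * |Real.log t|) * Ex P2 S (fun F => t ^ a F)

/-! ### generating functions -/

/-- change of the outer radius of a disc -/
def RadInU (N : NT) : Prop := ∀ M : ℕ, ∃ K : ℝ, 0 ≤ K ∧ ∀ t : ℝ, 1 / 2 ≤ t → t ≤ 2 →
  ∀ r r' : ℕ, 1 ≤ r → r ≤ r' → r' ≤ M * r →
  Real.exp (-(K * |Real.log t|)) * G N t 0 r ≤ G N t 0 r' ∧
  G N t 0 r' ≤ Real.exp (K * |Real.log t|) * G N t 0 r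

/-- change of the inner radius of an annulus -/
def RadOutU (N : NT) : Prop := ∀ M : ℕ, ∃ K : ℝ, 0 ≤ K ∧ ∀ t : ℝ, 1 / 2 ≤ t → t ≤ 2 →
  ∀ r r' R : ℕ, 1 ≤ r → r ≤ r' → r' ≤ M * r → r' ≤ R →
  Real.exp (-(K * |Real.log t|)) * G N t r' R ≤ G N t r R ∧
  G N t r R ≤ Real.exp (K * |Real.log t|) * G N t r' R

/-- a disc is a smaller disc and an annulus -/
def CoreU (N : NT) : Prop := ∃ K : ℝ, 0 ≤ K ∧ ∀ t : ℝ, 1 / 2 ≤ t → t ≤ 2 →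
  ∀ r R : ℕ, 8 ≤ r → 4 * r ≤ R →
  Real.exp (-(K * |Real.log t|)) * (G N t 0 (r / 4) * G N t (2 * r) R) ≤ G N t 0 R ∧
  G N t 0 R ≤ Real.exp (K * |Real.log t|) * (G N t 0 (r / 4) * G N t (2 * r) R)

/-- annuli and discs -/
def AnnU (N : NT) : Prop := ∃ K : ℝ, 0 ≤ K ∧ ∀ t : ℝ, 1 / 2 ≤ t → t ≤ 2 →
  ∀ r R : ℕ, 1 ≤ r → r ≤ R →
  Real.exp (-(K * |Real.log t|)) * (G N t 0 r * G N t r R) ≤ G N t 0 R ∧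
  G N t 0 R ≤ Real.exp (K * |Real.log t|) * (G N t 0 r * G N t r R)

/-- sums over the parameters of the cylinder, uniformly in the function -/
def SumU : Prop := ∃ ps : ℕ → Multiset ℝ, (∀ n, 1 ≤ n → Pool.Agent.H863R2.NL.IsPs n (ps n)) ∧
  ∃ C : ℝ, 0 ≤ C ∧ ∀ (H H' : ℝ → ℝ) (B : ℝ), (∀ p, 0 ≤ p → p ≤ 1 / 3 → HasDerivAt H (H' p) p) →
    ContinuousOn H' (Set.Icc 0 (1 / 3)) → H 0 = 0 → (∀ p, 0 ≤ p → p ≤ 1 / 3 → |H' p| ≤ B) →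
    ∀ n : ℕ, 1 ≤ n →
      |((ps n).map H).sum - (3 / (4 * π ^ 2) * (∫ x, H (1 / (2 * Real.cosh x + 1)))) *
        Real.log n| ≤ C * B

/-- the cylinder -/
def CylU : Prop := ∃ C : ℝ, 0 ≤ C ∧ ∀ t : ℝ, 1 / 2 ≤ t → t ≤ 2 → ∀ n : ℕ, 1 ≤ n →
  Real.exp (-(C * |Real.log t|)) * (n : ℝ) ^ Psi t ≤
    Pool.Agent.H863R2.NL.EN n (fun m => t ^ m) ∧
  Pool.Agent.H863R2.NL.EN n (fun m => t ^ m) ≤ Real.exp (C * |Real.log t|) * (n : ℝ) ^ Psi t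

/-- discs -/
def OneU (N : NT) : Prop := ∃ C : ℝ, 0 ≤ C ∧ ∀ t : ℝ, 1 / 2 ≤ t → t ≤ 2 → ∀ R : ℕ, 1 ≤ R →
  Real.exp (-(C * |Real.log t|)) * (R : ℝ) ^ Psi t ≤ G N t 0 R ∧
  G N t 0 R ≤ Real.exp (C * |Real.log t|) * (R : ℝ) ^ Psi t

/-- annuli -/
def AnnSU (N : NT) : Prop := ∃ C : ℝ, 0 ≤ C ∧ ∀ t : ℝ, 1 / 2 ≤ t → t ≤ 2 → ∀ r R : ℕ, 1 ≤ r →
  r ≤ R → Real.exp (-(C * |Real.log t|)) * ((R : ℝ) / r) ^ Psi t ≤ G N t r R ∧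
    G N t r R ≤ Real.exp (C * |Real.log t|) * ((R : ℝ) / r) ^ Psi t

/-! ### two sets -/

/-- uniform `S_SI` -/
def SIU : Prop := ∀ (N : NT) (W : WT) (K : KT), Sys N W K → AMom N → TInU N → TOutU N →
  ∀ (s : ℝ) (M : ℕ), 1 ≤ s → ∃ A : ℝ, 0 < A ∧ ∀ t : ℝ, 1 / 2 ≤ t → t ≤ 2 →
  ∀ (v : Vtx) (a r R c : ℕ) (x0 x1 y0 y1 : ℤ) (S : Finset Edg), 1 ≤ r → r ≤ R → 1 ≤ c →
  2 * c ≤ R → R ≤ 2 * c + 1 → a ≤ r → (r ≤ M * a ∨ (a = 0 ∧ r ≤ M)) → 1 ≤ y1 - y0 → x0 < x1 →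
  x1 - x0 ≤ M * (y1 - y0) → Disjoint (LRE x0 x1 y0 y1) (bx v ((c : ℤ) - 1)) →
  bx v ((2 * R : ℕ) : ℤ) ⊆ S → LRE x0 x1 y0 y1 ⊆ S → ∀ j < 5,
  Ex P2 S (fun F => t ^ N F v r R * s ^ XS N W K v a r c x0 x1 y0 y1 j F) ≤ A * G N t r R

/-- the costs under the weighted law, one by one -/
def ExU : Prop := ∀ (N : NT) (W : WT) (K : KT), Sys N W K → LocG N → AMom N → TInU N → TOutU N →
  ∀ (s : ℝ) (M : ℕ), 1 ≤ s → ∃ B : ℝ, 1 ≤ B ∧ ∀ t : ℝ, 1 / 2 ≤ t → t ≤ 2 →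
  ∀ (v w : Vtx) (a b r r' R c D : ℕ), Par M v w a b r r' R c D →
  ∀ S : Finset Edg, bx v ((16 * D : ℕ) : ℤ) ⊆ S → bx w ((16 * D : ℕ) : ℤ) ⊆ S →
  Ex P2 S (fun F => t ^ (N F v r R + N F w r' R)) = G N t r R * G N t r' R ∧
  ∀ j < 11, Ex P2 S (fun F => t ^ (N F v r R + N F w r' R) *
      s ^ VV N W K v w a b r r' c D j F) ≤ B * (G N t r R * G N t r' R)

/-- uniform `S_INF` -/
def InfU : Prop := ∀ M : ℕ, ∃ C : ℝ, 0 ≤ C ∧ ∀ t : ℝ, 1 / 2 ≤ t → t ≤ 2 →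
  ∀ (P Q : Set Vtx) (v w : Vtx) (a b r r' R c D : ℕ),
  Par M v w a b r r' R c D → Pos P Q v w a b r r' R →
  Real.exp (-(C * |Real.log t|)) * (((R : ℝ) / r) ^ Psi t * ((R : ℝ) / r') ^ Psi t) ≤
    ∫ ω, t ^ NP (opn ω) P Q ∂(bondLaw hlf) ∧
  ∫ ω, t ^ NP (opn ω) P Q ∂(bondLaw hlf) ≤
    Real.exp (C * |Real.log t|) * (((R : ℝ) / r) ^ Psi t * ((R : ℝ) / r') ^ Psi t)

/-- a Lipschitz bound for the exponent -/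
def PsiLip : Prop := ∃ C : ℝ, 0 ≤ C ∧ ∀ t : ℝ, 1 / 2 ≤ t → t ≤ 2 → |Psi t| ≤ C * |Real.log t|

/-- the mean and the variance per unit of `log` -/
noncomputable def cM : ℝ := 1 / (2 * √3 * π)
noncomputable def vM : ℝ := 2 / (3 * √3 * π) - 1 / (2 * π ^ 2)

/-- Taylor expansion of the exponent at `t = 1` -/
def PsiTaylor : Prop := ∃ C δ : ℝ, 0 < δ ∧ ∀ s : ℝ, |s| ≤ δ →
  |Psi (Real.exp s) - (cM * s + vM * s ^ 2 / 2)| ≤ C * |s| ^ 3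

end Pool.Agent.Helper859_NL
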