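import Pool.Agent.Helper859_NL.Stm
import Pool.Agent.Y996.NL.Fin

/-!
The number of interfaces of doubly connected domains near `t = 1`: statements about domains.
-/

set_option autoImplicit false

namespace Pool.Agent.Helper859_NL

open H974 Finset Pool.Agent.W819.EN Pool.Agent.W819.NC MeasureTheory
open Pool.Agent.Y996.NL
open Pool.Agent.Y996.RD hiding hlf
open scoped Real

/-- doubly connected domains -/
def DomU : Prop := ∃ C : ℝ, 0 ≤ C ∧ ∀ t : ℝ, 1 / 2 ≤ t → t ≤ 2 →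
  ∀ (A B : Set (OnePoint ℂ)) (ε : ℝ),
    IsClosed A → IsPreconnected A → IsClosed B → IsPreconnected B → Disjoint A B → 0 < ε →
    (∃ x ∈ tr A, ∃ y ∈ tr A, ε ≤ dist x y) → (∃ x ∈ tr B, ∃ y ∈ tr B, ε ≤ dist x y) →
    Real.exp (-(C * |Real.log t|)) * Real.exp (2 * Real.pi * Psi t * modulus (tr A) (tr B)) ≤
      ∫ ω, t ^ NP (opn ω) (near ε (tr A)) (near ε (tr B)) ∂(bondLaw hlf) ∧
    ∫ ω, t ^ NP (opn ω) (near ε (tr A)) (near ε (tr B)) ∂(bondLaw hlf) ≤
      Real.exp (C * |Real.log t|) *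
        Real.exp (2 * Real.pi * Psi t * modulus (tr A) (tr B))

end Pool.Agent.Helper859_NL
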