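import Pool.Agent.Helper859_NL.Stm
import Pool.Agent.W819.NC.Help

/-!
Several points: statements.
-/

set_option autoImplicit false

namespace Pool.Agent.Helper859_NL

open H974 Finset Pool.Agent.W819.EN Pool.Agent.W819.NC MeasureTheory
open scoped Real

/-- a block: the centre and the radii of an annulus, and a coefficient -/
structure Blk where
  u : Vtx
  r : ℕ
  R : ℕ
  b : ℝ

/-- sup distance -/
def ds (u w : Vtx) : ℤ := max |u.1 - w.1| |u.2 - w.2|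

/-- the logarithmic correlation of two points, above the scale `ρ` and below the scale `n` -/
noncomputable def gg (n ρ : ℕ) (u w : Vtx) : ℝ := Real.log ((n : ℝ) / max (ds u w : ℝ) ρ)

/-- the weighted sum of the numbers of changes in the blocks -/
noncomputable def bsum (N : NT) (l : List Blk) (F : Finset Edg) : ℝ :=
  (l.map (fun B => B.b * (N F B.u B.r B.R : ℝ))).sum

noncomputable def lsum (l : List Blk) : ℝ :=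
  (l.map (fun B => B.b * Real.log ((B.R : ℝ) / B.r))).sum

noncomputable def qsum (l : List Blk) : ℝ :=
  (l.map (fun B => B.b ^ 2 * Real.log ((B.R : ℝ) / B.r))).sum

/-- configurations of points -/
structure Cfg {ι : Type} (K : ℝ) (n ρ : ℕ) (S : Finset Edg) (s : Finset ι) (v : ι → Vtx)
    (a : ι → ℝ) : Prop where
  rho : 1 ≤ ρ
  rn : ρ ≤ n
  inS : ∀ i ∈ s, bx (v i) ((1000 * n : ℕ) : ℤ) ⊆ S
  dn : ∀ i ∈ s, ∀ j ∈ s, ds (v i) (v j) ≤ n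
  sa : ∑ i ∈ s, |a i| ≤ K

/-- the family `l` of disjoint annuli approximates `∑ a i * N (v i) ρ n` -/
structure GF (N : NT) {ι : Type} (C K : ℝ) (m n ρ : ℕ) (S : Finset Edg) (s : Finset ι)
    (v : ι → Vtx) (a : ι → ℝ) (l : List Blk) : Prop where
  len : l.length ≤ m
  rad : ∀ B ∈ l, 1 ≤ B.r ∧ B.r ≤ B.R
  sub : ∀ B ∈ l, bx B.u (B.R : ℤ) ⊆ S
  coe : ∀ B ∈ l, |B.b| ≤ K
  dis : l.Pairwise (fun B B' => Disjoint (an B.u B.r B.R) (an B'.u B'.r B'.R))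
  avo : ∀ B ∈ l, ∀ i ∈ s, Disjoint (an B.u B.r B.R) (bx (v i) ((ρ : ℤ) - 1))
  err : Ex P2 S (fun F => |∑ i ∈ s, a i * (N F (v i) ρ n : ℝ) - bsum N l F|) ≤ C
  mean : |lsum l - (∑ i ∈ s, a i) * Real.log ((n : ℝ) / ρ)| ≤ C
  var : |qsum l - ∑ i ∈ s, ∑ j ∈ s, a i * a j * gg n ρ (v i) (v j)| ≤ C

/-! ### costs in the mean -/

/-- thin annuli -/
def CA (N : NT) : Prop := ∀ M : ℕ, ∃ C : ℝ, 0 ≤ C ∧ ∀ (v : Vtx) (r R : ℕ) (S : Finset Edg),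
  1 ≤ r → r ≤ R → R ≤ M * r → bx v (R : ℤ) ⊆ S → Ex P2 S (fun F => (N F v r R : ℝ)) ≤ C

/-- change of the inner radius -/
def CB (N : NT) : Prop := ∀ M : ℕ, ∃ C : ℝ, 0 ≤ C ∧ ∀ (v : Vtx) (r r' n : ℕ) (S : Finset Edg),
  1 ≤ r → r ≤ r' → r' ≤ M * r → r' ≤ n → bx v (n : ℤ) ⊆ S →
  Ex P2 S (fun F => |(N F v r n : ℝ) - N F v r' n|) ≤ C

/-- change of the outer radius -/
def CD (N : NT) : Prop := ∀ M : ℕ, ∃ C : ℝ, 0 ≤ C ∧ ∀ (v : Vtx) (r R R' : ℕ) (S : Finset Edg),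
  1 ≤ r → r ≤ R → R ≤ R' → R' ≤ M * R → bx v (R' : ℤ) ⊆ S →
  Ex P2 S (fun F => |(N F v r R' : ℝ) - N F v r R|) ≤ C

/-- change of the centre -/
def CC (N : NT) : Prop := ∃ C : ℝ, 0 ≤ C ∧ ∀ (u v : Vtx) (r n : ℕ) (S : Finset Edg),
  1 ≤ r → r ≤ n → ds u v ≤ r → bx u ((2 * n : ℕ) : ℤ) ⊆ S → bx v ((2 * n : ℕ) : ℤ) ⊆ S →
  Ex P2 S (fun F => |(N F u r n : ℝ) - N F v r n|) ≤ C

/-- splitting -/
def CE (N : NT) : Prop := ∃ C : ℝ, 0 ≤ C ∧ ∀ (v : Vtx) (ρ r n : ℕ) (S : Finset Edg),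
  1 ≤ ρ → 4 * ρ ≤ r → r ≤ n → bx v (n : ℤ) ⊆ S →
  Ex P2 S (fun F => |(N F v ρ n : ℝ) - N F v ρ (r - 1) - N F v r n|) ≤ C

/-! ### the induction -/

/-- no scales -/
def LT (N : NT) : Prop := ∀ K : ℝ, 0 ≤ K → ∃ C : ℝ, 0 ≤ C ∧
  ∀ (ι : Type) [DecidableEq ι] (n ρ : ℕ) (S : Finset Edg) (s : Finset ι) (v : ι → Vtx)
    (a : ι → ℝ), Cfg K n ρ S s v a → n ≤ 200 * ρ → GF N C K 0 n ρ S s v a []

/-- inner annuli -/
def LI (N : NT) : Prop := ∀ K C₀ : ℝ, 0 ≤ K → 0 ≤ C₀ → ∃ C : ℝ, 0 ≤ C ∧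
  ∀ (ι : Type) [DecidableEq ι] (n ρ r m : ℕ) (S : Finset Edg) (s : Finset ι) (v : ι → Vtx)
    (a : ι → ℝ) (l : List Blk), Cfg K n ρ S s v a → 4 * ρ ≤ r → r ≤ n →
    (∀ i ∈ s, ∀ j ∈ s, i ≠ j → 8 * (r : ℤ) ≤ ds (v i) (v j)) →
    GF N C₀ K m n r S s v a l →
    GF N C K (m + s.card) n ρ S s v a (s.toList.map (fun i => ⟨v i, ρ, r - 1, a i⟩) ++ l)

/-- merging of two points -/
def LM (N : NT) : Prop := ∀ K C₀ : ℝ, 0 ≤ K → 0 ≤ C₀ → ∃ C : ℝ, 0 ≤ C ∧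
  ∀ (ι : Type) [DecidableEq ι] (n ρ ρ' m : ℕ) (S : Finset Edg) (s : Finset ι) (v : ι → Vtx)
    (a : ι → ℝ) (l : List Blk) (p q : ι), Cfg K n ρ S s v a → p ∈ s → q ∈ s → p ≠ q →
    ρ' ≤ n → ds (v p) (v q) + ρ ≤ ρ' → ρ' ≤ 100 * ρ →
    GF N C₀ K m n ρ' S (s.erase q) v (Function.update a p (a p + a q)) l →
    GF N C K m n ρ S s v a l

/-- the approximation by disjoint annuli -/
def LInd (N : NT) : Prop := ∀ (k : ℕ) (K : ℝ), 0 ≤ K → ∃ (C : ℝ) (m : ℕ), 0 ≤ C ∧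
  ∀ (ι : Type) [DecidableEq ι] (n ρ : ℕ) (S : Finset Edg) (s : Finset ι) (v : ι → Vtx)
    (a : ι → ℝ), s.card = k → Cfg K n ρ S s v a → ∃ l : List Blk, GF N C K m n ρ S s v a l

/-! ### generating functions of families of disjoint annuli -/

/-- independence -/
def LMgf (N : NT) : Prop := ∀ (S : Finset Edg) (l : List Blk) (x : ℝ),
  (∀ B ∈ l, 1 ≤ B.r ∧ B.r ≤ B.R) → (∀ B ∈ l, bx B.u (B.R : ℤ) ⊆ S) →
  l.Pairwise (fun B B' => Disjoint (an B.u B.r B.R) (an B'.u B'.r B'.R)) →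
  Ex P2 S (fun F => Real.exp (x * bsum N l F)) =
    (l.map (fun B => G N (Real.exp (x * B.b)) B.r B.R)).prod

/-- estimate near `x = 0` -/
def LEst (N : NT) : Prop := ∃ C δ : ℝ, 0 ≤ C ∧ 0 < δ ∧ ∀ (K : ℝ), 0 ≤ K →
  ∀ (S : Finset Edg) (l : List Blk) (x : ℝ),
  (∀ B ∈ l, 1 ≤ B.r ∧ B.r ≤ B.R) → (∀ B ∈ l, bx B.u (B.R : ℤ) ⊆ S) → (∀ B ∈ l, |B.b| ≤ K) →
  l.Pairwise (fun B B' => Disjoint (an B.u B.r B.R) (an B'.u B'.r B'.R)) → |x| * K ≤ δ →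
  Real.exp (vM * x ^ 2 / 2 * qsum l - C * K * |x| * (l.length + x ^ 2 * qsum l)) ≤
    Real.exp (-(x * cM * lsum l)) * Ex P2 S (fun F => Real.exp (x * bsum N l F)) ∧
  Real.exp (-(x * cM * lsum l)) * Ex P2 S (fun F => Real.exp (x * bsum N l F)) ≤
    Real.exp (vM * x ^ 2 / 2 * qsum l + C * K * |x| * (l.length + x ^ 2 * qsum l))

end Pool.Agent.Helper859_NL
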