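import Pool.Agent.Helper859_NL.Stm

/-!
Two points: statements, uniform in `t1`, `t2` near `1`.
-/

set_option autoImplicit false

namespace Pool.Agent.Helper859_NL

open H974 Finset Pool.Agent.W819.EN Pool.Agent.W819.NC MeasureTheory
open scoped Real

/-- comparison by Jensen's inequality, general weights -/
def CmpG : Prop := ∀ (m : ℕ) (B : ℝ), 1 ≤ m → 1 ≤ B → ∃ K : ℝ, 0 ≤ K ∧
  ∀ L : ℝ, 0 ≤ L → L ≤ Real.log 2 →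
  ∀ (S : Finset Edg) (U f : Finset Edg → ℝ) (X : ℕ → Finset Edg → ℕ), (∀ F, 0 < U F) →
    (∀ F, F ⊆ S → Real.exp (-(L * (∑ j ∈ range m, X j F : ℕ))) * U F ≤ f F ∧
      f F ≤ Real.exp (L * (∑ j ∈ range m, X j F : ℕ)) * U F) →
    (∀ j < m, Ex P2 S (fun F => U F * ((2 : ℝ) ^ m) ^ X j F) ≤ B * Ex P2 S U) →
    Real.exp (-(K * L)) * Ex P2 S U ≤ Ex P2 S f ∧ Ex P2 S f ≤ Real.exp (K * L) * Ex P2 S U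

/-- uniform `XPc` -/
def XPcU (N : NT) (W : WT) : Prop := ∀ s : ℝ, 1 ≤ s → ∃ A : ℝ, 0 < A ∧
  ∀ t : ℝ, 1 / 2 ≤ t → t ≤ 2 →
  ∀ (u : Vtx) (a : ℕ) (S : Finset Edg), 1 ≤ a → bx u (8 * a) ⊆ S →
    Ex P2 S (fun F => t ^ N F u 0 (2 * a) * s ^ W F u a) ≤ A * G N t 0 (2 * a) ∧
    Ex P2 S (fun F => t ^ N F u 0 (2 * a) * s ^ N F u a (8 * a)) ≤ A * G N t 0 (2 * a) ∧
    Ex P2 S (fun F => t ^ N F u 0 (2 * a) * s ^ W F u (4 * a)) ≤ A * G N t 0 (2 * a)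

/-- uniform `ZPc` -/
def ZPcU (N : NT) (W : WT) : Prop := ∀ s : ℝ, 1 ≤ s → ∃ A : ℝ, 0 < A ∧
  ∀ t : ℝ, 1 / 2 ≤ t → t ≤ 2 →
  ∀ (v u : Vtx) (D n : ℕ) (S : Finset Edg), 1 ≤ D → 10 * D ≤ n → |u.1 - v.1| ≤ D →
    |u.2 - v.2| ≤ D → bx v (n + D) ⊆ S →
    Ex P2 S (fun F => t ^ N F v (4 * D) (n - D) * s ^ W F u (3 * D)) ≤
      A * G N t (4 * D) (n - D) ∧
    Ex P2 S (fun F => t ^ N F v (4 * D) (n - D) * s ^ N F v (2 * D) (8 * D)) ≤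
      A * G N t (4 * D) (n - D) ∧
    Ex P2 S (fun F => t ^ N F v (4 * D) (n - D) * s ^ W F v (4 * D)) ≤
      A * G N t (4 * D) (n - D) ∧
    Ex P2 S (fun F => t ^ N F v (4 * D) (n - D) * s ^ W F v ((n - D) / 2)) ≤
      A * G N t (4 * D) (n - D) ∧
    Ex P2 S (fun F => t ^ N F v (4 * D) (n - D) * s ^ N F v ((n - D) / 2) (n + D)) ≤
      A * G N t (4 * D) (n - D)

/-- uniform `KPc` -/
def KPcU (N : NT) (K : KT) : Prop := ∀ s : ℝ, 1 ≤ s → ∃ A : ℝ, 0 < A ∧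
  ∀ t : ℝ, 1 / 2 ≤ t → t ≤ 2 →
  ∀ (v u : Vtx) (a D n : ℕ) (S : Finset Edg), 1 ≤ a → 64 * a ≤ D → D < 128 * a → 10 * D ≤ n →
    |u.1 - v.1| ≤ D → |u.2 - v.2| ≤ D → bx v (n + D) ⊆ S →
    Ex P2 S (fun F => t ^ N F v (4 * D) (n - D) *
      s ^ K F (u.1 + 4 * a) (u.1 + 6 * D) (u.2 - 4 * a) (u.2 + 4 * a)) ≤
      A * G N t (4 * D) (n - D) ∧
    Ex P2 S (fun F => t ^ N F v (4 * D) (n - D) *
      s ^ K F (u.1 - 6 * D) (u.1 - 4 * a) (u.2 - 4 * a) (u.2 + 4 * a)) ≤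
      A * G N t (4 * D) (n - D)

/-- the relation `x = exp (± K (|log t1| + |log t2|)) y` -/
def App2 (K t1 t2 x y : ℝ) : Prop :=
  Real.exp (-(K * (|Real.log t1| + |Real.log t2|))) * y ≤ x ∧
    x ≤ Real.exp (K * (|Real.log t1| + |Real.log t2|)) * y

/-- `t` is near `1` -/
def Nr (t : ℝ) : Prop := 3 / 4 ≤ t ∧ t ≤ 4 / 3

/-- uniform `Two1` -/
def Two1U (N : NT) : Prop := ∃ K : ℝ, 0 ≤ K ∧ ∀ t1 t2 : ℝ, Nr t1 → Nr t2 →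
  ∀ (v w : Vtx) (a D n : ℕ) (S : Finset Edg), 1 ≤ a → 64 * a ≤ D → D < 128 * a → 10 * D ≤ n →
    v.1 ≤ w.1 → |v.1 - w.1| ≤ D → |v.2 - w.2| ≤ D → (w.1 - v.1 = D ∨ |v.2 - w.2| = D) →
    bx v (n + D) ⊆ S →
    App2 K t1 t2 (T2 N t1 t2 v w n S)
      (G N t1 0 (2 * a) * G N t2 0 (2 * a) * G N (t1 * t2) (4 * D) (n - D))

/-- uniform `Two2` -/
def Two2U (N : NT) : Prop := ∃ K : ℝ, 0 ≤ K ∧ ∀ t1 t2 : ℝ, Nr t1 → Nr t2 →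
  ∀ (v w : Vtx) (a D n : ℕ) (S : Finset Edg), 1 ≤ a → 64 * a ≤ D → D < 128 * a → D ≤ n →
    n ≤ 10 * D → v.1 ≤ w.1 → |v.1 - w.1| ≤ D → |v.2 - w.2| ≤ D →
    (w.1 - v.1 = D ∨ |v.2 - w.2| = D) → bx v (12 * D) ⊆ S →
    App2 K t1 t2 (T2 N t1 t2 v w n S) (G N t1 0 (2 * a) * G N t2 0 (2 * a))

/-- uniform `Two3` -/
def Two3U (N : NT) : Prop := ∃ K : ℝ, 0 ≤ K ∧ ∀ t1 t2 : ℝ, Nr t1 → Nr t2 →
  ∀ (v w : Vtx) (D n : ℕ) (S : Finset Edg), 1 ≤ D → D < 64 → 10 * D ≤ n →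
    |v.1 - w.1| ≤ D → |v.2 - w.2| ≤ D → bx v (n + D) ⊆ S →
    App2 K t1 t2 (T2 N t1 t2 v w n S) (G N (t1 * t2) (4 * D) (n - D))

/-- uniform `TwoPt` -/
def TwoPtU (N : NT) : Prop := ∃ K : ℝ, 0 ≤ K ∧ ∀ t1 t2 : ℝ, Nr t1 → Nr t2 →
  ∀ (v w : Vtx) (d n : ℕ) (S : Finset Edg), 1 ≤ d → d ≤ n → max |v.1 - w.1| |v.2 - w.2| = d →
    bx v n ⊆ S → bx w n ⊆ S →
    App2 K t1 t2 (T2 N t1 t2 v w n S)
      (((n : ℝ) / d) ^ Psi (t1 * t2) * (d : ℝ) ^ (Psi t1 + Psi t2))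

end Pool.Agent.Helper859_NL
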